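import Mathlib

set_option autoImplicit false

/-! Convergence of all integer modes from the convergence of the small rational modes. -/

namespace Pool.Agent.V11128.CXL

open MeasureTheory Filter Topology

variable {Ω : Type*} [MeasurableSpace Ω]

/-- convergence of the integrals of a function -/
def Cv (μ : ℝ → Measure Ω) (ρ : Measure Ω) (f : Ω → ℂ) : Prop :=
  (∀ᶠ T in atTop, Integrable f (μ T)) ∧ Integrable f ρ ∧
    Tendsto (fun T => ∫ v, f v ∂(μ T)) atTop (𝓝 (∫ v, f v ∂ρ))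

lemma Cv.const_mul {μ : ℝ → Measure Ω} {ρ : Measure Ω} {f : Ω → ℂ} (h : Cv μ ρ f) (c : ℂ) :
    Cv μ ρ (fun v => c * f v) := by
  obtain ⟨h1, h2, h3⟩ := h
  refine ⟨h1.mono fun T hT => hT.const_mul c, h2.const_mul c, ?_⟩
  simp_rw [integral_const_mul]
  exact h3.const_mul c

lemma Cv.sum {μ : ℝ → Measure Ω} {ρ : Measure Ω} {ι : Type*} {s : Finset ι} {f : ι → Ω → ℂ}
    (h : ∀ i ∈ s, Cv μ ρ (f i)) : Cv μ ρ (fun v => ∑ i ∈ s, f i v) := by
  have h1 : ∀ᶠ T in atTop, ∀ i ∈ s, Integrable (f i) (μ T) := by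
    rw [Filter.eventually_all_finset]
    exact fun i hi => (h i hi).1
  refine ⟨h1.mono fun T hT => integrable_finsetSum _ hT, integrable_finsetSum _ fun i hi => (h i hi).2.1, ?_⟩
  rw [integral_finsetSum _ fun i hi => (h i hi).2.1]
  have h3 := tendsto_finsetSum s fun i hi => (h i hi).2.2
  refine h3.congr' ?_
  filter_upwards [h1] with T hT
  rw [integral_finsetSum _ hT]

lemma Cv.congr {μ : ℝ → Measure Ω} {ρ : Measure Ω} {f g : Ω → ℂ} (h : Cv μ ρ f) (hfg : ∀ v, f v = g v) :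
    Cv μ ρ g := by
  have : f = g := funext hfg
  rwa [← this]

lemma rem_le {x : ℂ} (hx : ‖x‖ = 1) (N m : ℕ) :
    ‖x ^ N - ∑ k ∈ Finset.range m, (N.choose k : ℂ) * (x - 1) ^ k‖ ≤ N.choose m * ‖x - 1‖ ^ m := by
  induction N generalizing m with
  | zero =>
    rcases m with _ | m
    · simp
    · rw [Finset.sum_range_succ']
      simp
  | succ N ih =>
    rcases m with _ | m
    · simp [hx]
    · have e : x ^ (N + 1) - ∑ k ∈ Finset.range (m + 1), ((N + 1).choose k : ℂ) * (x - 1) ^ k =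
          (x ^ N - ∑ k ∈ Finset.range (m + 1), (N.choose k : ℂ) * (x - 1) ^ k) +
          (x - 1) * (x ^ N - ∑ k ∈ Finset.range m, (N.choose k : ℂ) * (x - 1) ^ k) := by
        rw [Finset.sum_range_succ', Finset.sum_range_succ' (fun k => (N.choose k : ℂ) * (x - 1) ^ k)]
        have e1 : ∀ k, ((N + 1).choose (k + 1) : ℂ) * (x - 1) ^ (k + 1) =
            (x - 1) * ((N.choose k : ℂ) * (x - 1) ^ k) + (N.choose (k + 1) : ℂ) * (x - 1) ^ (k + 1) := by
          intro k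
          rw [Nat.choose_succ_succ]
          push_cast
          ring
        simp_rw [e1]
        rw [Finset.sum_add_distrib, ← Finset.mul_sum]
        simp only [Nat.choose_zero_right]
        ring
      rw [e]
      refine (norm_add_le _ _).trans ?_
      rw [norm_mul]
      have h1 := ih (m + 1)
      have h2 := mul_le_mul_of_nonneg_left (ih m) (norm_nonneg (x - 1))
      refine (add_le_add h1 h2).trans (le_of_eq ?_)
      rw [Nat.choose_succ_succ]
      push_cast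
      ring

/-- the unimodular functions -/
noncomputable def Em (q : ℝ) (x : ℝ) : ℂ := Complex.exp (((q * x : ℝ) : ℂ) * Complex.I)

lemma Em_norm (q x : ℝ) : ‖Em q x‖ = 1 := Complex.norm_exp_ofReal_mul_I _

lemma Em_cont (q : ℝ) : Continuous (Em q) := by
  unfold Em
  fun_prop

lemma Em_pow (q x : ℝ) (n : ℕ) : Em q x ^ n = Em (n * q) x := by
  unfold Em
  rw [← Complex.exp_nat_mul]
  congr 1
  push_cast
  ring

lemma Em_mul (q p x : ℝ) : Em q x * Em p x = Em (q + p) x := by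
  unfold Em
  rw [← Complex.exp_add]
  congr 1
  push_cast
  ring

lemma Em_conj (q x : ℝ) : (starRingEnd ℂ) (Em q x) = Em (-q) x := by
  unfold Em
  rw [← Complex.exp_conj]
  congr 1
  simp

lemma Em_sub_one (q x : ℝ) : ‖Em q x - 1‖ ≤ |q * x| := by
  unfold Em
  have h := Real.norm_exp_I_mul_ofReal_sub_one_le (x := q * x)
  rw [mul_comm]
  simpa using h

lemma int_bdd {μ : Measure Ω} {h : Ω → ℝ} (hi : Integrable h μ) {f : Ω → ℂ}
    (hf : Measurable f) {C : ℝ} (hC : ∀ v, ‖f v‖ ≤ C) :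
    Integrable (fun v => (h v : ℂ) * f v) μ := by
  refine Integrable.mono' (hi.norm.const_mul C) (hi.ofReal.aestronglyMeasurable.mul hf.aestronglyMeasurable)
    (Eventually.of_forall fun v => ?_)
  rw [norm_mul, Complex.norm_real, mul_comm]
  exact mul_le_mul_of_nonneg_right (hC v) (norm_nonneg _)

/-- the small modes determine all of them -/
theorem modes {μ : ℝ → Measure Ω} {ρ : Measure Ω} {h φ : Ω → ℝ} (hm : Measurable h) (hφ : Measurable φ)
    (h0 : ∀ v, 0 ≤ h v) (hi : ∀ᶠ T in atTop, Integrable h (μ T))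
    (hρ : Integrable (fun v => h v * Real.exp |φ v|) ρ) {r : ℝ} (hr : 0 < r)
    (H : ∀ q : ℚ, |(q : ℝ)| < r → Tendsto (fun T => ∫ v, (h v : ℂ) * Em q (φ v) ∂(μ T)) atTop
      (𝓝 (∫ v, (h v : ℂ) * Em q (φ v) ∂ρ))) :
    Tendsto (fun T => ∫ v, (h v : ℂ) * Em 1 (φ v) ∂(μ T)) atTop
      (𝓝 (∫ v, (h v : ℂ) * Em 1 (φ v) ∂ρ)) := by
  have hρ0 : Integrable h ρ := by
    refine Integrable.mono' hρ hm.aestronglyMeasurable (Eventually.of_forall fun v => ?_)
    rw [Real.norm_of_nonneg (h0 v)]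
    exact le_mul_of_one_le_right (h0 v) (Real.one_le_exp (abs_nonneg _))
  have hEm : ∀ q, Measurable (fun v => Em q (φ v)) := fun q => (Em_cont q).measurable.comp hφ
  have hE : ∀ q : ℚ, |(q : ℝ)| < r → Cv μ ρ (fun v => (h v : ℂ) * Em q (φ v)) := fun q hq =>
    ⟨hi.mono fun T hT => int_bdd hT (hEm q) fun v => (Em_norm _ _).le,
      int_bdd hρ0 (hEm q) fun v => (Em_norm _ _).le, H q hq⟩
  -- the tails
  have htail : Tendsto (fun m : ℕ => ∫ v, h v * (|φ v| ^ m / (m.factorial : ℝ)) ∂ρ) atTop (𝓝 0) := by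
    have h1 := tendsto_integral_of_dominated_convergence (μ := ρ)
      (F := fun (m : ℕ) v => h v * (|φ v| ^ m / (m.factorial : ℝ))) (f := fun _ => 0)
      (fun v => h v * Real.exp |φ v|)
      (fun m => (hm.mul ((hφ.abs.pow_const m).div_const _)).aestronglyMeasurable) hρ
      (fun m => Eventually.of_forall fun v => ?_) (Eventually.of_forall fun v => ?_)
    · simpa using h1
    · rw [Real.norm_of_nonneg (mul_nonneg (h0 v) (by positivity))]
      exact mul_le_mul_of_nonneg_left (Real.pow_div_factorial_le_exp _ (abs_nonneg _) m) (h0 v)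
    · have h2 := (FloorSemiring.tendsto_pow_div_factorial_atTop |φ v|).const_mul (h v)
      rwa [mul_zero] at h2
  rw [Metric.tendsto_nhds]
  intro ε hε
  obtain ⟨M, hM⟩ := eventually_atTop.1 (htail.eventually (gt_mem_nhds (show 0 < ε / 8 by positivity)))
  obtain ⟨l, hl⟩ : ∃ l, l = M := ⟨_, rfl⟩
  have hM' := hM (2 * l) (by omega)
  obtain ⟨N, hN⟩ := exists_nat_gt (2 * l / r)
  have hN0 : (0 : ℝ) < N := lt_of_le_of_lt (by positivity) hN
  have hNr : ((2 * l : ℕ) : ℝ) / N < r := by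
    rw [div_lt_iff₀ hr] at hN
    rw [div_lt_iff₀ hN0]
    push_cast
    linarith
  have hNN : (N : ℝ) ≠ 0 := hN0.ne'
  obtain ⟨z, hz⟩ : ∃ z : Ω → ℂ, ∀ v, z v = Em (1 / N) (φ v) - 1 := ⟨_, fun _ => rfl⟩
  obtain ⟨zb, hzb⟩ : ∃ zb : Ω → ℂ, ∀ v, zb v = Em (-(1 / N)) (φ v) - 1 := ⟨_, fun _ => rfl⟩
  have hzc : ∀ v, (starRingEnd ℂ) (z v) = zb v := fun v => by
    rw [hz, hzb, map_sub, Em_conj, map_one]
  have hcv : ∀ a b : ℕ, a + b ≤ 2 * l → Cv μ ρ (fun v => (h v : ℂ) * (z v ^ a * zb v ^ b)) := by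
    intro a b hab
    have h1 : Cv μ ρ (fun v => ∑ i ∈ Finset.range (a + 1), ∑ j ∈ Finset.range (b + 1),
        ((-1 : ℂ) ^ (a - i) * a.choose i * ((-1) ^ (b - j) * b.choose j)) *
          ((h v : ℂ) * Em ((((i : ℚ) - j) / N : ℚ) : ℝ) (φ v))) := by
      refine Cv.sum fun i hi => Cv.sum fun j hj => (hE _ ?_).const_mul _
      rw [Finset.mem_range] at hi hj
      push_cast
      rw [abs_div, abs_of_pos hN0]
      refine lt_of_le_of_lt (div_le_div_of_nonneg_right ?_ hN0.le) hNr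
      have i1 : (i : ℝ) ≤ a := by exact_mod_cast Nat.lt_succ_iff.1 hi
      have j1 : (j : ℝ) ≤ b := by exact_mod_cast Nat.lt_succ_iff.1 hj
      have i0 : (0 : ℝ) ≤ i := Nat.cast_nonneg _
      have j0 : (0 : ℝ) ≤ j := Nat.cast_nonneg _
      have ab : ((a : ℝ) + b) ≤ ((2 * l : ℕ) : ℝ) := by exact_mod_cast hab
      rw [abs_le]
      constructor <;> linarith
    refine h1.congr fun v => ?_
    have e1 : z v ^ a = ∑ i ∈ Finset.range (a + 1), Em (i * (1 / N)) (φ v) * (-1) ^ (a - i) * a.choose i := by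
      rw [hz, sub_eq_add_neg, add_pow]
      exact Finset.sum_congr rfl fun i _ => by rw [Em_pow]
    have e2 : zb v ^ b = ∑ j ∈ Finset.range (b + 1), Em (j * (-(1 / N))) (φ v) * (-1) ^ (b - j) * b.choose j := by
      rw [hzb, sub_eq_add_neg, add_pow]
      exact Finset.sum_congr rfl fun i _ => by rw [Em_pow]
    rw [e1, e2, Finset.sum_mul_sum, Finset.mul_sum]
    refine Finset.sum_congr rfl fun i _ => ?_
    rw [Finset.mul_sum]
    refine Finset.sum_congr rfl fun j _ => ?_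
    have e3 : Em ((((i : ℚ) - j) / N : ℚ) : ℝ) (φ v) = Em (i * (1 / N)) (φ v) * Em (j * (-(1 / N))) (φ v) := by
      rw [Em_mul]
      congr 1
      push_cast
      ring
    rw [e3]
    ring
  -- the polynomial
  have hP : Cv μ ρ (fun v => (h v : ℂ) * ∑ k ∈ Finset.range (2 * l), (N.choose k : ℂ) * z v ^ k) := by
    have h1 : Cv μ ρ (fun v => ∑ k ∈ Finset.range (2 * l), (N.choose k : ℂ) * ((h v : ℂ) * (z v ^ k * zb v ^ 0))) :=
      Cv.sum fun k hk => (hcv k 0 (by rw [Finset.mem_range] at hk; omega)).const_mul _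
    refine h1.congr fun v => ?_
    rw [Finset.mul_sum]
    refine Finset.sum_congr rfl fun k _ => ?_
    ring
  have hnn : ∀ v, (h v : ℂ) * (z v ^ l * zb v ^ l) = ((h v * ‖z v‖ ^ (2 * l) : ℝ) : ℂ) := by
    intro v
    rw [← mul_pow, ← hzc, Complex.mul_conj, Complex.normSq_eq_norm_sq]
    push_cast
    rw [pow_mul]
  obtain ⟨g1, g2, g3⟩ := hcv l l (by omega)
  simp only [hnn] at g1 g2 g3
  have r1 : ∀ᶠ T in atTop, Integrable (fun v => h v * ‖z v‖ ^ (2 * l)) (μ T) :=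
    g1.mono fun T hT => by simpa only [RCLike.re_to_complex, Complex.ofReal_re] using hT.re
  have r2 : Integrable (fun v => h v * ‖z v‖ ^ (2 * l)) ρ := by
    simpa only [RCLike.re_to_complex, Complex.ofReal_re] using g2.re
  have r3 : Tendsto (fun T => ∫ v, h v * ‖z v‖ ^ (2 * l) ∂(μ T)) atTop (𝓝 (∫ v, h v * ‖z v‖ ^ (2 * l) ∂ρ)) := by
    have h1 := (Complex.continuous_re.tendsto _).comp g3
    simp only [integral_complex_ofReal, Function.comp_def, Complex.ofReal_re] at h1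
    exact h1
  have hB : (N.choose (2 * l) : ℝ) * ∫ v, h v * ‖z v‖ ^ (2 * l) ∂ρ < ε / 8 := by
    refine lt_of_le_of_lt ?_ hM'
    rw [← integral_const_mul]
    have hint : Integrable (fun v => h v * (|φ v| ^ (2 * l) / ((2 * l).factorial : ℝ))) ρ := by
      refine Integrable.mono' hρ (hm.mul ((hφ.abs.pow_const _).div_const _)).aestronglyMeasurable
        (Eventually.of_forall fun v => ?_)
      rw [Real.norm_of_nonneg (mul_nonneg (h0 v) (by positivity))]
      exact mul_le_mul_of_nonneg_left (Real.pow_div_factorial_le_exp _ (abs_nonneg _) _) (h0 v)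
    refine integral_mono (r2.const_mul _) hint fun v => ?_
    have c1 : (N.choose (2 * l) : ℝ) ≤ (N : ℝ) ^ (2 * l) / ((2 * l).factorial : ℝ) := Nat.choose_le_pow_div _ _
    have c2 : ‖z v‖ ^ (2 * l) ≤ (|φ v| / N) ^ (2 * l) := by
      refine pow_le_pow_left₀ (norm_nonneg _) ?_ _
      rw [hz]
      refine (Em_sub_one _ _).trans (le_of_eq ?_)
      rw [abs_mul, abs_of_pos (by positivity)]
      ring
    show (N.choose (2 * l) : ℝ) * (h v * ‖z v‖ ^ (2 * l)) ≤ h v * (|φ v| ^ (2 * l) / ((2 * l).factorial : ℝ))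
    calc (N.choose (2 * l) : ℝ) * (h v * ‖z v‖ ^ (2 * l))
        ≤ ((N : ℝ) ^ (2 * l) / ((2 * l).factorial : ℝ)) * (h v * (|φ v| / N) ^ (2 * l)) :=
          mul_le_mul c1 (mul_le_mul_of_nonneg_left c2 (h0 v)) (mul_nonneg (h0 v) (by positivity)) (by positivity)
      _ = h v * (|φ v| ^ (2 * l) / ((2 * l).factorial : ℝ)) := by
          rw [div_pow]
          field_simp
  -- the remainder
  have hrem : ∀ {κ : Measure Ω}, Integrable h κ → Integrable (fun v => h v * ‖z v‖ ^ (2 * l)) κ →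
      Integrable (fun v => (h v : ℂ) * ∑ k ∈ Finset.range (2 * l), (N.choose k : ℂ) * z v ^ k) κ →
      ‖(∫ v, (h v : ℂ) * Em 1 (φ v) ∂κ) - ∫ v, (h v : ℂ) * ∑ k ∈ Finset.range (2 * l), (N.choose k : ℂ) * z v ^ k ∂κ‖ ≤
        (N.choose (2 * l) : ℝ) * ∫ v, h v * ‖z v‖ ^ (2 * l) ∂κ := by
    intro κ k1 k2 k3
    rw [← integral_sub (int_bdd k1 (hEm 1) fun v => (Em_norm _ _).le) k3, ← integral_const_mul]
    refine norm_integral_le_of_norm_le (k2.const_mul _) (Eventually.of_forall fun v => ?_)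
    rw [← mul_sub, norm_mul, Complex.norm_real, Real.norm_of_nonneg (h0 v)]
    have e1 : Em 1 (φ v) = Em (1 / N) (φ v) ^ N := by
      rw [Em_pow]
      congr 1
      field_simp
    have h2 := rem_le (Em_norm (1 / N) (φ v)) N (2 * l)
    rw [← e1] at h2
    simp only [← hz] at h2
    calc h v * ‖Em 1 (φ v) - ∑ k ∈ Finset.range (2 * l), (N.choose k : ℂ) * z v ^ k‖
        ≤ h v * ((N.choose (2 * l) : ℝ) * ‖z v‖ ^ (2 * l)) := mul_le_mul_of_nonneg_left h2 (h0 v)
      _ = (N.choose (2 * l) : ℝ) * (h v * ‖z v‖ ^ (2 * l)) := by ring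
  have hlim := (r3.const_mul (N.choose (2 * l) : ℝ)).eventually (gt_mem_nhds hB)
  have hPl := (Metric.tendsto_nhds.1 hP.2.2) (ε / 8) (by positivity)
  filter_upwards [hi, r1, hP.1, hlim, hPl] with T t1 t2 t3 t4 t5
  have s1 := hrem t1 t2 t3
  have s2 := hrem hρ0 r2 hP.2.1
  rw [dist_eq_norm] at t5 ⊢
  obtain ⟨A1, hA1⟩ : ∃ x : ℂ, x = ∫ v, (h v : ℂ) * Em 1 (φ v) ∂(μ T) := ⟨_, rfl⟩
  obtain ⟨A2, hA2⟩ : ∃ x : ℂ, x = ∫ v, (h v : ℂ) * Em 1 (φ v) ∂ρ := ⟨_, rfl⟩
  obtain ⟨P1, hP1⟩ : ∃ x : ℂ, x = ∫ v, (h v : ℂ) * ∑ k ∈ Finset.range (2 * l), (N.choose k : ℂ) * z v ^ k ∂(μ T) := ⟨_, rfl⟩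
  obtain ⟨P2, hP2⟩ : ∃ x : ℂ, x = ∫ v, (h v : ℂ) * ∑ k ∈ Finset.range (2 * l), (N.choose k : ℂ) * z v ^ k ∂ρ := ⟨_, rfl⟩
  rw [← hA1, ← hP1] at s1
  rw [← hA2, ← hP2] at s2
  rw [← hP1, ← hP2] at t5
  rw [← hA1, ← hA2]
  have e1 : A1 - A2 = (A1 - P1) + (P1 - P2) - (A2 - P2) := by ring
  rw [e1]
  have n1 := norm_sub_le ((A1 - P1) + (P1 - P2)) (A2 - P2)
  have n2 := norm_add_le (A1 - P1) (P1 - P2)
  linarith

end Pool.Agent.V11128.CXL
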