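import Pool.Agent.V11128.CXL.A
import Pool.Agent.V11128.SHL.Dense

set_option autoImplicit false

/-! From rational to real exponents, for weighted bounded functions. -/

namespace Pool.Agent.V11128.CXL

open MeasureTheory Filter Topology
open Pool.Agent.Y753.SHL
open Pool.Agent.V11128.SHL (rat_between)

variable {Ω : Type*} [MeasurableSpace Ω] {n : ℕ}

lemma exp_sub_le {x y d : ℝ} (h : |x - y| ≤ d) : |Real.exp x - Real.exp y| ≤ d * Real.exp d * Real.exp y := by
  have hd : 0 ≤ d := (abs_nonneg _).trans h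
  have e1 : Real.exp x - Real.exp y = (Real.exp (x - y) - 1) * Real.exp y := by
    rw [sub_mul, ← Real.exp_add]; ring_nf
  rw [e1, abs_mul, abs_of_pos (Real.exp_pos y)]
  refine mul_le_mul_of_nonneg_right ?_ (Real.exp_pos y).le
  have h1 := abs_le.1 h
  have h2 : Real.exp d - 1 ≤ d * Real.exp d := by
    have h3 := Real.add_one_le_exp (-d)
    have h4 : Real.exp (-d) * Real.exp d = 1 := by rw [← Real.exp_add]; simp
    nlinarith [Real.exp_pos d]
  rw [abs_le]
  constructor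
  · have h3 := Real.add_one_le_exp (x - y)
    have h4 : d ≤ d * Real.exp d := le_mul_of_one_le_right hd (Real.one_le_exp hd)
    linarith
  · have h3 := Real.exp_le_exp.2 h1.2
    linarith

/-- the majorant at the corners -/
noncomputable def Wc (lo hi : Fin n → ℝ) (y : Fin n → ℝ) : ℝ := ∏ j, (Real.exp (lo j * y j) + Real.exp (hi j * y j))

lemma Wc_pos (lo hi : Fin n → ℝ) (y : Fin n → ℝ) : 0 < Wc lo hi y :=
  Finset.prod_pos fun j _ => by positivity

lemma Wc_sum (lo hi y : Fin n → ℝ) : Wc lo hi y = ∑ σ : Fin n → Bool, Real.exp (lf (V11128.SHL.cj lo hi σ) y) := by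
  have h3 := Finset.prod_univ_sum (fun _ : Fin n => (Finset.univ : Finset Bool))
    (fun j s => Real.exp ((if s then hi j else lo j) * y j))
  rw [Fintype.piFinset_univ] at h3
  unfold Wc
  have e1 : ∀ j, Real.exp (lo j * y j) + Real.exp (hi j * y j) = ∑ s : Bool, Real.exp ((if s then hi j else lo j) * y j) := by
    intro j
    rw [Fintype.sum_bool]
    simp only [if_true, Bool.false_eq_true, if_false]
    ring
  simp_rw [e1]
  rw [h3]
  refine Finset.sum_congr rfl fun σ _ => ?_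
  unfold lf V11128.SHL.cj
  rw [Real.exp_sum]

lemma one_le {lo hi θ ε y : ℝ} (h1 : lo ≤ θ - ε) (h2 : θ + ε ≤ hi) :
    Real.exp (θ * y + ε * |y|) ≤ Real.exp (lo * y) + Real.exp (hi * y) := by
  rcases le_or_gt 0 y with hy | hy
  · rw [abs_of_nonneg hy]
    have : Real.exp (θ * y + ε * y) ≤ Real.exp (hi * y) := Real.exp_le_exp.2 (by nlinarith)
    linarith [Real.exp_pos (lo * y)]
  · rw [abs_of_neg hy]
    have : Real.exp (θ * y + ε * -y) ≤ Real.exp (lo * y) := Real.exp_le_exp.2 (by nlinarith)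
    linarith [Real.exp_pos (hi * y)]

/-- the difference of two exponentials -/
lemma diff_le {lo hi θ q : Fin n → ℝ} {ε h : ℝ} (hε : 0 < ε) (hh : 0 < h) (hhε : h ≤ ε / 2)
    (h1 : ∀ j, lo j ≤ θ j - ε) (h2 : ∀ j, θ j + ε ≤ hi j) (hq : ∀ j, |q j - θ j| ≤ h) (y : Fin n → ℝ) :
    |Real.exp (lf q y) - Real.exp (lf θ y)| ≤ 2 * h / ε * Wc lo hi y := by
  obtain ⟨S, hS⟩ : ∃ S : ℝ, S = ∑ j, |y j| := ⟨_, rfl⟩
  have hS0 : 0 ≤ S := by rw [hS]; exact Finset.sum_nonneg fun j _ => abs_nonneg _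
  have e1 : |lf q y - lf θ y| ≤ h * S := by
    unfold lf
    rw [← Finset.sum_sub_distrib, hS, Finset.mul_sum]
    refine (Finset.abs_sum_le_sum_abs _ _).trans (Finset.sum_le_sum fun j _ => ?_)
    rw [← sub_mul, abs_mul]
    exact mul_le_mul_of_nonneg_right (hq j) (abs_nonneg _)
  refine (exp_sub_le e1).trans ?_
  have e2 : h * S ≤ 2 * h / ε * Real.exp (ε / 2 * S) := by
    have h3 := Real.add_one_le_exp (ε / 2 * S)
    have h4 : ε / 2 * S ≤ Real.exp (ε / 2 * S) := by linarith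
    calc h * S = 2 * h / ε * (ε / 2 * S) := by field_simp
      _ ≤ 2 * h / ε * Real.exp (ε / 2 * S) := mul_le_mul_of_nonneg_left h4 (by positivity)
  have e3 : Real.exp (h * S) ≤ Real.exp (ε / 2 * S) := Real.exp_le_exp.2 (mul_le_mul_of_nonneg_right hhε hS0)
  have e4 : Real.exp (ε * S) * Real.exp (lf θ y) ≤ Wc lo hi y := by
    rw [← Real.exp_add]
    have e5 : ε * S + lf θ y = ∑ j, (θ j * y j + ε * |y j|) := by
      unfold lf
      rw [hS, Finset.sum_add_distrib, Finset.mul_sum]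
      ring
    rw [e5, Real.exp_sum]
    exact Finset.prod_le_prod (fun j _ => (Real.exp_pos _).le) fun j _ => one_le (h1 j) (h2 j)
  have e6 : Real.exp (ε / 2 * S) * Real.exp (ε / 2 * S) = Real.exp (ε * S) := by
    rw [← Real.exp_add]; ring_nf
  calc h * S * Real.exp (h * S) * Real.exp (lf θ y)
      ≤ 2 * h / ε * Real.exp (ε / 2 * S) * Real.exp (ε / 2 * S) * Real.exp (lf θ y) := by
        refine mul_le_mul_of_nonneg_right ?_ (Real.exp_pos _).le
        exact mul_le_mul e2 e3 (Real.exp_pos _).le (by positivity)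
    _ = 2 * h / ε * (Real.exp (ε * S) * Real.exp (lf θ y)) := by rw [← e6]; ring
    _ ≤ 2 * h / ε * Wc lo hi y := mul_le_mul_of_nonneg_left e4 (by positivity)

lemma lf_meas (c : Fin n → ℝ) : Measurable (lf c) := by
  unfold lf
  fun_prop

/-- rational exponents in an open box suffice -/
theorem real_exp {μ : ℝ → Measure Ω} {ρ : Measure Ω} {y : Ω → Fin n → ℝ} (hy : Measurable y)
    {f : Ω → ℂ} (hf : Measurable f) (hf1 : ∀ v, ‖f v‖ ≤ 1) {c t : ℝ} (ht : 0 < t)
    (H0 : ∀ q : Fin n → ℚ, (∀ j, |(q j : ℝ) - c| < t) →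
      Cv μ ρ (fun v => (Real.exp (lf (fun j => (q j : ℝ)) (y v)) : ℂ)))
    (H1 : ∀ q : Fin n → ℚ, (∀ j, |(q j : ℝ) - c| < t) →
      Cv μ ρ (fun v => (Real.exp (lf (fun j => (q j : ℝ)) (y v)) : ℂ) * f v))
    {θ : Fin n → ℝ} (hθ : ∀ j, |θ j - c| < t) :
    Cv μ ρ (fun v => (Real.exp (lf θ (y v)) : ℂ) * f v) := by
  obtain ⟨ε, hε, hεt⟩ : ∃ ε : ℝ, 0 < ε ∧ ∀ j, |θ j - c| + 2 * ε < t := by
    rcases Nat.eq_zero_or_pos n with h0 | h0
    · subst h0
      exact ⟨1, one_pos, fun j => j.elim0⟩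
    · have hne : (Finset.univ : Finset (Fin n)).Nonempty := ⟨⟨0, h0⟩, Finset.mem_univ _⟩
      obtain ⟨i, -, hi⟩ := Finset.exists_max_image Finset.univ (fun j => |θ j - c|) hne
      refine ⟨(t - |θ i - c|) / 4, by have := hθ i; linarith, fun j => ?_⟩
      have := hi j (Finset.mem_univ j)
      have := hθ i
      linarith
  choose ql hl1 hl2 using fun j => exists_rat_btwn (show θ j - 2 * ε < θ j - ε by linarith)
  choose qh hh1 hh2 using fun j => exists_rat_btwn (show θ j + ε < θ j + 2 * ε by linarith)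
  obtain ⟨lo, hlo⟩ : ∃ lo : Fin n → ℝ, ∀ j, lo j = ql j := ⟨fun j => ql j, fun _ => rfl⟩
  obtain ⟨hi, hhi⟩ : ∃ hi : Fin n → ℝ, ∀ j, hi j = qh j := ⟨fun j => qh j, fun _ => rfl⟩
  have hbox : ∀ x : ℝ, ∀ j, |x - θ j| < 2 * ε → |x - c| < t := by
    intro x j hx
    have h1 := abs_add_le (x - θ j) (θ j - c)
    rw [sub_add_sub_cancel] at h1
    have := hεt j
    linarith
  have hW : Cv μ ρ (fun v => (Wc lo hi (y v) : ℂ)) := by
    have h1 : Cv μ ρ (fun v => ∑ σ : Fin n → Bool,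
        (Real.exp (lf (fun j => ((if σ j then qh j else ql j : ℚ) : ℝ)) (y v)) : ℂ)) := by
      refine Cv.sum fun σ _ => H0 _ fun j => ?_
      refine hbox _ j ?_
      split_ifs
      · rw [abs_lt]; constructor <;> linarith [hh1 j, hh2 j]
      · rw [abs_lt]; constructor <;> linarith [hl1 j, hl2 j]
    refine h1.congr fun v => ?_
    rw [Wc_sum]
    push_cast
    refine Finset.sum_congr rfl fun σ _ => ?_
    congr 3
    funext j
    unfold V11128.SHL.cj
    rw [hlo, hhi]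
    split_ifs <;> rfl
  obtain ⟨w1, w2, w3⟩ := hW
  have w1' : ∀ᶠ T in atTop, Integrable (fun v => Wc lo hi (y v)) (μ T) :=
    w1.mono fun T hT => by simpa only [RCLike.re_to_complex, Complex.ofReal_re] using hT.re
  have w2' : Integrable (fun v => Wc lo hi (y v)) ρ := by
    simpa only [RCLike.re_to_complex, Complex.ofReal_re] using w2.re
  have w3' : Tendsto (fun T => ∫ v, Wc lo hi (y v) ∂(μ T)) atTop (𝓝 (∫ v, Wc lo hi (y v) ∂ρ)) := by
    have h1 := (Complex.continuous_re.tendsto _).comp w3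
    simp only [integral_complex_ofReal, Function.comp_def, Complex.ofReal_re] at h1
    exact h1
  have hlo' : ∀ j, lo j ≤ θ j - ε := fun j => by rw [hlo]; exact (hl2 j).le
  have hhi' : ∀ j, θ j + ε ≤ hi j := fun j => by rw [hhi]; exact (hh1 j).le
  have hθW : ∀ v, Real.exp (lf θ (y v)) ≤ Wc lo hi (y v) := by
    intro v
    unfold lf Wc
    rw [Real.exp_sum]
    refine Finset.prod_le_prod (fun j _ => (Real.exp_pos _).le) fun j _ => ?_
    refine le_trans (Real.exp_le_exp.2 ?_) (one_le (hlo' j) (hhi' j))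
    have : 0 ≤ ε * |y v j| := by positivity
    linarith
  have hmeasθ : ∀ q : Fin n → ℝ, Measurable (fun v => Real.exp (lf q (y v))) := fun q =>
    Real.measurable_exp.comp ((lf_meas q).comp hy)
  have hint : ∀ {κ : Measure Ω}, Integrable (fun v => Wc lo hi (y v)) κ →
      Integrable (fun v => (Real.exp (lf θ (y v)) : ℂ) * f v) κ := by
    intro κ hκ
    refine int_bdd ?_ hf hf1
    refine Integrable.mono' hκ (hmeasθ θ).aestronglyMeasurable (Eventually.of_forall fun v => ?_)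
    rw [Real.norm_of_nonneg (Real.exp_pos _).le]
    exact hθW v
  refine ⟨w1'.mono fun T hT => hint hT, hint w2', ?_⟩
  rw [Metric.tendsto_nhds]
  intro e he
  obtain ⟨K, hK⟩ : ∃ K : ℝ, K = ∫ v, Wc lo hi (y v) ∂ρ := ⟨_, rfl⟩
  have hK0 : 0 ≤ K := by rw [hK]; exact integral_nonneg fun v => (Wc_pos _ _ _).le
  obtain ⟨h, hh0, hhε, hhK⟩ : ∃ h : ℝ, 0 < h ∧ h ≤ ε / 2 ∧ 2 * h / ε * (2 * K + 1) < e / 2 := by
    refine ⟨min (ε / 2) (ε * e / (8 * (2 * K + 1))), lt_min (by positivity) (by positivity), min_le_left _ _, ?_⟩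
    have h1 : 2 * min (ε / 2) (ε * e / (8 * (2 * K + 1))) / ε * (2 * K + 1) ≤
        2 * (ε * e / (8 * (2 * K + 1))) / ε * (2 * K + 1) := by
      refine mul_le_mul_of_nonneg_right ?_ (by positivity)
      exact div_le_div_of_nonneg_right (mul_le_mul_of_nonneg_left (min_le_right _ _) (by norm_num)) hε.le
    refine lt_of_le_of_lt h1 ?_
    have h2 : 2 * (ε * e / (8 * (2 * K + 1))) / ε * (2 * K + 1) = e / 4 := by
      field_simp
      ring
    rw [h2]
    linarith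
  choose q hq1 hq2 using fun j => exists_rat_btwn (show θ j < θ j + h by linarith)
  have hqh : ∀ j, |(q j : ℝ) - θ j| ≤ h := fun j => by
    rw [abs_le]; constructor <;> linarith [hq1 j, hq2 j]
  obtain ⟨c1, c2, c3⟩ := H1 q fun j => hbox _ j (lt_of_le_of_lt (hqh j) (by linarith))
  have hd : ∀ {κ : Measure Ω}, Integrable (fun v => Wc lo hi (y v)) κ →
      Integrable (fun v => (Real.exp (lf (fun j => (q j : ℝ)) (y v)) : ℂ) * f v) κ →
      ‖(∫ v, (Real.exp (lf (fun j => (q j : ℝ)) (y v)) : ℂ) * f v ∂κ) - ∫ v, (Real.exp (lf θ (y v)) : ℂ) * f v ∂κ‖ ≤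
        2 * h / ε * ∫ v, Wc lo hi (y v) ∂κ := by
    intro κ k1 k2
    rw [← integral_sub k2 (hint k1), ← integral_const_mul]
    refine norm_integral_le_of_norm_le (k1.const_mul _) (Eventually.of_forall fun v => ?_)
    rw [← sub_mul, norm_mul, ← Complex.ofReal_sub, Complex.norm_real, Real.norm_eq_abs]
    have h1 := diff_le hε hh0 hhε hlo' hhi' hqh (y v)
    calc |Real.exp (lf (fun j => (q j : ℝ)) (y v)) - Real.exp (lf θ (y v))| * ‖f v‖
        ≤ 2 * h / ε * Wc lo hi (y v) * 1 := mul_le_mul h1 (hf1 v) (norm_nonneg _) ((abs_nonneg _).trans h1)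
      _ = _ := mul_one _
  have hlt : K < K + 1 := by linarith
  rw [hK] at hlt
  filter_upwards [w1', c1, w3'.eventually (gt_mem_nhds hlt), (Metric.tendsto_nhds.1 c3) (e / 2) (by positivity)] with T t1 t2 t3 t4
  have s1 := hd t1 t2
  have s2 := hd w2' c2
  rw [← hK] at t3 s2
  rw [dist_eq_norm] at t4 ⊢
  obtain ⟨A1, hA1⟩ : ∃ x : ℂ, x = ∫ v, (Real.exp (lf θ (y v)) : ℂ) * f v ∂(μ T) := ⟨_, rfl⟩
  obtain ⟨A2, hA2⟩ : ∃ x : ℂ, x = ∫ v, (Real.exp (lf θ (y v)) : ℂ) * f v ∂ρ := ⟨_, rfl⟩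
  obtain ⟨P1, hP1⟩ : ∃ x : ℂ, x = ∫ v, (Real.exp (lf (fun j => (q j : ℝ)) (y v)) : ℂ) * f v ∂(μ T) := ⟨_, rfl⟩
  obtain ⟨P2, hP2⟩ : ∃ x : ℂ, x = ∫ v, (Real.exp (lf (fun j => (q j : ℝ)) (y v)) : ℂ) * f v ∂ρ := ⟨_, rfl⟩
  rw [← hA1, ← hP1] at s1
  rw [← hA2, ← hP2] at s2
  rw [← hP1, ← hP2] at t4
  rw [← hA1, ← hA2]
  have e1 : A1 - A2 = (P1 - P2) + (P2 - A2) - (P1 - A1) := by ring
  rw [e1]
  have n1 := norm_sub_le ((P1 - P2) + (P2 - A2)) (P1 - A1)
  have n2 := norm_add_le (P1 - P2) (P2 - A2)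
  have hε' : 0 ≤ 2 * h / ε := by positivity
  have n3 : 2 * h / ε * ∫ v, Wc lo hi (y v) ∂(μ T) ≤ 2 * h / ε * (K + 1) := mul_le_mul_of_nonneg_left t3.le hε'
  have n4 : 2 * h / ε * (K + 1) + 2 * h / ε * K = 2 * h / ε * (2 * K + 1) := by ring
  linarith

end Pool.Agent.V11128.CXL
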