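import Pool.Agent.V11128.SHL.Curt

set_option autoImplicit false

/-! Curtiss' theorem in `ℝ^ι` for Laplace transforms in an open box (not necessarily around zero). -/

namespace Pool.Agent.V11128.CXL

open MeasureTheory Filter Topology ProbabilityTheory BoundedContinuousFunction
open Pool.Agent.V11128.SHL (curt)

section untilt

variable {E : Type*} [TopologicalSpace E] [MeasurableSpace E] [OpensMeasurableSpace E]

/-- a truncated function -/
noncomputable def tq {h : E → ℝ} (hc : Continuous h) (G : E →ᵇ ℝ) (K : ℝ) (hK : 0 ≤ K) : E →ᵇ ℝ :=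
  BoundedContinuousFunction.ofNormedAddCommGroup (fun y => G y * min (Real.exp (-h y)) K)
    (by fun_prop) (‖G‖ * K) (by
      intro y
      rw [norm_mul]
      refine mul_le_mul (G.norm_coe_le_norm y) ?_ (norm_nonneg _) (norm_nonneg _)
      rw [Real.norm_of_nonneg (le_min (Real.exp_pos _).le hK)]
      exact min_le_right _ _)

omit [MeasurableSpace E] [OpensMeasurableSpace E] in
lemma tq_apply {h : E → ℝ} (hc : Continuous h) (G : E →ᵇ ℝ) (K : ℝ) (hK : 0 ≤ K) (y : E) :
    tq hc G K hK y = G y * min (Real.exp (-h y)) K := rfl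

/-- weak convergence of the tilted laws implies weak convergence -/
theorem untilt {lam : ℝ → ProbabilityMeasure E} {l0 : ProbabilityMeasure E} {h : E → ℝ} (hc : Continuous h)
    (i1 : ∀ᶠ T in atTop, Integrable (fun x => Real.exp (h x)) (lam T : Measure E))
    (i2 : Integrable (fun x => Real.exp (h x)) (l0 : Measure E))
    (hZ : Tendsto (fun T => ∫ x, Real.exp (h x) ∂(lam T : Measure E)) atTop (𝓝 (∫ x, Real.exp (h x) ∂(l0 : Measure E))))
    {κ : ℝ → ProbabilityMeasure E} {κ0 : ProbabilityMeasure E}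
    (hκ : ∀ᶠ T in atTop, (κ T : Measure E) = (lam T : Measure E).tilted h)
    (hκ0 : (κ0 : Measure E) = (l0 : Measure E).tilted h)
    (hT : Tendsto κ atTop (𝓝 κ0)) : Tendsto lam atTop (𝓝 l0) := by
  have hb : ∀ (G : E →ᵇ ℝ) (K : ℝ) (hK : 0 ≤ K) (y : E),
      |Real.exp (h y) * (G y * min (Real.exp (-h y)) K)| ≤ |G y| := by
    intro G K hK y
    have h3 : Real.exp (h y) * min (Real.exp (-h y)) K ≤ 1 := by
      refine (mul_le_mul_of_nonneg_left (min_le_left _ _) (Real.exp_pos _).le).trans ?_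
      rw [← Real.exp_add]
      simp
    have h4 : 0 ≤ Real.exp (h y) * min (Real.exp (-h y)) K :=
      mul_nonneg (Real.exp_pos _).le (le_min (Real.exp_pos _).le hK)
    have e1 : Real.exp (h y) * (G y * min (Real.exp (-h y)) K) =
        (Real.exp (h y) * min (Real.exp (-h y)) K) * G y := by ring
    rw [e1, abs_mul, abs_of_nonneg h4]
    exact mul_le_of_le_one_left (abs_nonneg _) h3
  have hZt : ∀ (m : Measure E) [IsProbabilityMeasure m] (G : E →ᵇ ℝ) (K : ℝ) (hK : 0 ≤ K),
      Integrable (fun x => Real.exp (h x)) m →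
      (∫ x, Real.exp (h x) ∂m) * ∫ y, tq hc G K hK y ∂(m.tilted h) =
        ∫ y, Real.exp (h y) * (G y * min (Real.exp (-h y)) K) ∂m := by
    intro m _ G K hK hm
    have hpos : 0 < ∫ x, Real.exp (h x) ∂m := integral_exp_pos hm
    rw [integral_tilted, ← integral_const_mul]
    refine integral_congr_ae (Eventually.of_forall fun y => ?_)
    simp only [smul_eq_mul, tq_apply]
    field_simp
  have hmeas : ∀ (G : E →ᵇ ℝ) (K : ℝ) (m : Measure E),
      AEStronglyMeasurable (fun y => Real.exp (h y) * (G y * min (Real.exp (-h y)) K)) m := by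
    intro G K m
    have : Measurable (fun y => Real.exp (h y) * (G y * min (Real.exp (-h y)) K)) := by
      have h1 := hc.measurable
      have h2 := G.continuous.measurable
      fun_prop
    exact this.aestronglyMeasurable
  -- the lower bound
  have hlow : ∀ G : E →ᵇ ℝ, (∀ y, 0 ≤ G y) → ∀ ε : ℝ, 0 < ε → ∀ᶠ T in atTop,
      ∫ y, G y ∂(l0 : Measure E) - ε < ∫ y, G y ∂(lam T : Measure E) := by
    intro G hG ε hε
    have h1 : Tendsto (fun K : ℕ => ∫ y, Real.exp (h y) * (G y * min (Real.exp (-h y)) K) ∂(l0 : Measure E)) atTop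
        (𝓝 (∫ y, G y ∂(l0 : Measure E))) := by
      refine tendsto_integral_of_dominated_convergence (fun y => |G y|) (fun K => hmeas G K _)
        (G.integrable _).abs (fun K => Eventually.of_forall fun y => ?_) (Eventually.of_forall fun y => ?_)
      · rw [Real.norm_eq_abs]
        exact hb G K (Nat.cast_nonneg K) y
      · refine tendsto_const_nhds.congr' ?_
        obtain ⟨K0, hK0⟩ := exists_nat_ge (Real.exp (-h y))
        filter_upwards [eventually_ge_atTop K0] with K hK
        rw [min_eq_left (hK0.trans (by exact_mod_cast hK)), mul_left_comm, ← Real.exp_add]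
        simp
    obtain ⟨K, hK⟩ := (h1.eventually (lt_mem_nhds (sub_lt_self _ hε))).exists
    have h2 := hZ.mul ((ProbabilityMeasure.tendsto_iff_forall_integral_tendsto.1 hT)
      (tq hc G K (Nat.cast_nonneg K)))
    rw [hκ0, hZt _ G K (Nat.cast_nonneg K) i2] at h2
    filter_upwards [h2.eventually (lt_mem_nhds hK), i1, hκ] with T a1 a2 a3
    refine a1.trans_le ?_
    rw [a3, hZt _ G K (Nat.cast_nonneg K) a2]
    have hle : ∀ y, Real.exp (h y) * (G y * min (Real.exp (-h y)) K) ≤ G y := fun y =>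
      (le_abs_self _).trans ((hb G K (Nat.cast_nonneg K) y).trans (le_of_eq (abs_of_nonneg (hG y))))
    refine integral_mono ((G.integrable _).abs.mono' (hmeas G K _) (Eventually.of_forall fun y => ?_))
      (G.integrable _) hle
    rw [Real.norm_eq_abs]
    exact hb G K (Nat.cast_nonneg K) y
  rw [ProbabilityMeasure.tendsto_iff_forall_integral_tendsto]
  intro F
  rw [Metric.tendsto_nhds]
  intro ε hε
  obtain ⟨cF, hcF⟩ : ∃ cF : E →ᵇ ℝ, cF = BoundedContinuousFunction.const _ ‖F‖ := ⟨_, rfl⟩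
  have hc1 : ∀ y, cF y = ‖F‖ := fun y => by rw [hcF]; rfl
  have k1 := hlow (F + cF) (fun y => by
    have := (abs_le.1 (by simpa using F.norm_coe_le_norm y)).1
    simp only [BoundedContinuousFunction.coe_add, Pi.add_apply, hc1]
    linarith) ε hε
  have k2 := hlow (cF - F) (fun y => by
    have := (abs_le.1 (by simpa using F.norm_coe_le_norm y)).2
    simp only [BoundedContinuousFunction.coe_sub, Pi.sub_apply, hc1]
    linarith) ε hε
  have e1 : ∀ κ : ProbabilityMeasure E, ∫ y, (F + cF) y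
      ∂(κ : Measure E) = ∫ y, F y ∂(κ : Measure E) + ‖F‖ := by
    intro κ
    simp only [BoundedContinuousFunction.coe_add, Pi.add_apply, hc1]
    rw [integral_add (F.integrable _) (integrable_const _)]
    simp
  have e2 : ∀ κ : ProbabilityMeasure E, ∫ y, (cF - F) y
      ∂(κ : Measure E) = ‖F‖ - ∫ y, F y ∂(κ : Measure E) := by
    intro κ
    simp only [BoundedContinuousFunction.coe_sub, Pi.sub_apply, hc1]
    rw [integral_sub (integrable_const _) (F.integrable _)]
    simp
  filter_upwards [k1, k2] with T a1 a2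
  rw [e1, e1] at a1
  rw [e2, e2] at a2
  rw [Real.dist_eq, abs_lt]
  constructor <;> linarith

end untilt

section curtn

variable {ι : Type*} [Fintype ι]

/-- linear forms -/
noncomputable def ll (c y : ι → ℝ) : ℝ := ∑ i, c i * y i

lemma ll_cont (c : ι → ℝ) : Continuous (ll c) := by
  unfold ll
  fun_prop

lemma ll_smul (u : ℝ) (c y : ι → ℝ) : ll (fun j => u * c j) y = u * ll c y := by
  unfold ll
  rw [Finset.mul_sum]
  exact Finset.sum_congr rfl fun j _ => by ring

lemma ll_add (c d y : ι → ℝ) : ll (fun j => c j + d j) y = ll c y + ll d y := by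
  unfold ll
  rw [← Finset.sum_add_distrib]
  exact Finset.sum_congr rfl fun j _ => by ring

/-- the law of a linear form -/
noncomputable def kq (c : ι → ℝ) (μ : ProbabilityMeasure (ι → ℝ)) : ProbabilityMeasure ℝ :=
  μ.map (ll_cont c).measurable.aemeasurable

lemma kq_exp (c : ι → ℝ) (μ : ProbabilityMeasure (ι → ℝ)) (u : ℝ) :
    ∫ x, Real.exp (u * x) ∂(kq c μ : Measure ℝ) =
      ∫ y, Real.exp (ll (fun j => u * c j) y) ∂(μ : Measure (ι → ℝ)) := by
  unfold kq
  rw [ProbabilityMeasure.toMeasure_map, integral_map (ll_cont c).measurable.aemeasurable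
    (by fun_prop)]
  simp only [ll_smul]

lemma kq_int (c : ι → ℝ) (μ : ProbabilityMeasure (ι → ℝ)) (u : ℝ)
    (h : Integrable (fun y => Real.exp (ll (fun j => u * c j) y)) (μ : Measure (ι → ℝ))) :
    Integrable (fun x => Real.exp (u * x)) (kq c μ : Measure ℝ) := by
  unfold kq
  rw [ProbabilityMeasure.toMeasure_map, integrable_map_measure (by fun_prop)
    (ll_cont c).measurable.aemeasurable]
  refine h.congr (Eventually.of_forall fun y => ?_)
  simp only [ll_smul, Function.comp]

/-- Laplace transforms around zero -/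
theorem curtn {μ : ℝ → ProbabilityMeasure (ι → ℝ)} {ν : ProbabilityMeasure (ι → ℝ)} {r : ℝ} (hr : 0 < r)
    (hν : ∀ c : ι → ℝ, (∀ i, |c i| < r) → Integrable (fun y => Real.exp (ll c y)) (ν : Measure (ι → ℝ)))
    (hi : ∀ c : ι → ℝ, (∀ i, |c i| < r) → ∀ᶠ T in atTop,
      Integrable (fun y => Real.exp (ll c y)) (μ T : Measure (ι → ℝ)))
    (h : ∀ c : ι → ℝ, (∀ i, |c i| < r) → Tendsto (fun T => ∫ y, Real.exp (ll c y) ∂(μ T : Measure (ι → ℝ))) atTop
      (𝓝 (∫ y, Real.exp (ll c y) ∂(ν : Measure (ι → ℝ))))) :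
    Tendsto μ atTop (𝓝 ν) := by
  have hf : ∀ c : ι → ℝ, Tendsto (fun T => kq c (μ T)) atTop (𝓝 (kq c ν)) := by
    intro c
    obtain ⟨K, hK⟩ : ∃ K : ℝ, K = 1 + ∑ j, |c j| := ⟨_, rfl⟩
    have hs : 0 ≤ ∑ j, |c j| := Finset.sum_nonneg fun j _ => abs_nonneg _
    have hK0 : 0 < K := by rw [hK]; linarith
    have hr' : 0 < r / K := by positivity
    have hθ : ∀ u : ℝ, |u| < r / K → ∀ j, |u * c j| < r := by
      intro u hu j
      have h1 : |c j| ≤ K := by
        have := Finset.single_le_sum (f := fun j => |c j|) (fun j _ => abs_nonneg _) (Finset.mem_univ j)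
        rw [hK]
        linarith
      rw [abs_mul]
      rw [lt_div_iff₀ hK0] at hu
      exact (mul_le_mul_of_nonneg_left h1 (abs_nonneg u)).trans_lt hu
    refine curt hr' (fun s hs => kq_int c ν s (hν _ (hθ s hs)))
      (fun s hs => (hi _ (hθ s hs)).mono fun T hT => kq_int c (μ T) s hT) fun s hs => ?_
    simp_rw [kq_exp]
    exact h _ (hθ s hs)
  have hto : Continuous (fun y : ι → ℝ => (WithLp.toLp 2 y : EuclideanSpace ℝ ι)) :=
    PiLp.continuous_toLp 2 _
  have hof : Continuous (fun y : EuclideanSpace ℝ ι => (WithLp.ofLp y : ι → ℝ)) :=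
    PiLp.continuous_ofLp 2 _
  obtain ⟨mE, hmE⟩ : ∃ mE : ProbabilityMeasure (ι → ℝ) → ProbabilityMeasure (EuclideanSpace ℝ ι),
      ∀ κ, mE κ = κ.map hto.measurable.aemeasurable := ⟨fun κ => _, fun κ => rfl⟩
  have hchar : ∀ (κ : ProbabilityMeasure (ι → ℝ)) (t : EuclideanSpace ℝ ι),
      charFun (mE κ : Measure (EuclideanSpace ℝ ι)) t =
        charFun (kq (WithLp.ofLp t) κ : Measure ℝ) 1 := by
    intro κ t
    rw [hmE, ProbabilityMeasure.toMeasure_map, charFun_apply, charFun_apply_real, kq,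
      ProbabilityMeasure.toMeasure_map, integral_map hto.measurable.aemeasurable (by fun_prop),
      integral_map (ll_cont _).measurable.aemeasurable (by fun_prop)]
    refine integral_congr_ae (Eventually.of_forall fun y => ?_)
    simp only
    congr 2
    rw [Complex.ofReal_one, one_mul]
    congr 1
  have hlim : ∀ t : EuclideanSpace ℝ ι,
      Tendsto (fun T => charFun (mE (μ T) : Measure (EuclideanSpace ℝ ι)) t) atTop
        (𝓝 (charFun (mE ν : Measure (EuclideanSpace ℝ ι)) t)) := by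
    intro t
    have h2 := (ProbabilityMeasure.tendsto_iff_forall_integral_rclike_tendsto ℂ).1 (hf (WithLp.ofLp t))
      (innerProbChar (1 : ℝ))
    simp_rw [hchar, charFun_eq_integral_innerProbChar]
    exact h2
  have hE : Tendsto (fun T => mE (μ T)) atTop (𝓝 (mE ν)) := by
    refine tendsto_of_seq_tendsto fun x hx => ?_
    exact ProbabilityMeasure.tendsto_of_tendsto_charFun fun t => (hlim t).comp hx
  have hback : ∀ κ, (mE κ).map hof.measurable.aemeasurable = κ := by
    intro κ
    apply Subtype.ext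
    rw [hmE]
    change ((κ : Measure (ι → ℝ)).map _).map _ = (κ : Measure (ι → ℝ))
    rw [Measure.map_map hof.measurable hto.measurable]
    exact Measure.map_id
  have h1 := ProbabilityMeasure.tendsto_map_of_tendsto_of_continuous _ _ hE hof
  simp only [hback] at h1
  exact h1

/-- Laplace transforms in an open box -/
theorem curtbox {μ : ℝ → ProbabilityMeasure (ι → ℝ)} {ν : ProbabilityMeasure (ι → ℝ)} {r : ℝ} (hr : 0 < r)
    (θ : ι → ℝ)
    (hν : ∀ c : ι → ℝ, (∀ i, |c i| < r) →
      Integrable (fun y => Real.exp (ll (fun j => θ j + c j) y)) (ν : Measure (ι → ℝ)))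
    (hi : ∀ c : ι → ℝ, (∀ i, |c i| < r) → ∀ᶠ T in atTop,
      Integrable (fun y => Real.exp (ll (fun j => θ j + c j) y)) (μ T : Measure (ι → ℝ)))
    (h : ∀ c : ι → ℝ, (∀ i, |c i| < r) →
      Tendsto (fun T => ∫ y, Real.exp (ll (fun j => θ j + c j) y) ∂(μ T : Measure (ι → ℝ))) atTop
      (𝓝 (∫ y, Real.exp (ll (fun j => θ j + c j) y) ∂(ν : Measure (ι → ℝ))))) :
    Tendsto μ atTop (𝓝 ν) := by
  classical
  have z1 : ∀ i : ι, |(fun _ : ι => (0 : ℝ)) i| < r := fun i => by simpa using hr
  have hν0 : Integrable (fun y => Real.exp (ll θ y)) (ν : Measure (ι → ℝ)) := by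
    simpa using hν (fun _ => 0) z1
  have hi0 : ∀ᶠ T in atTop, Integrable (fun y => Real.exp (ll θ y)) (μ T : Measure (ι → ℝ)) := by
    simpa using hi (fun _ => 0) z1
  have h0 : Tendsto (fun T => ∫ y, Real.exp (ll θ y) ∂(μ T : Measure (ι → ℝ))) atTop
      (𝓝 (∫ y, Real.exp (ll θ y) ∂(ν : Measure (ι → ℝ)))) := by
    simpa using h (fun _ => 0) z1
  obtain ⟨κ, hκ⟩ : ∃ κ : ℝ → ProbabilityMeasure (ι → ℝ), ∀ T,
      Integrable (fun y => Real.exp (ll θ y)) (μ T : Measure (ι → ℝ)) →
        (κ T : Measure (ι → ℝ)) = (μ T : Measure (ι → ℝ)).tilted (ll θ) := by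
    refine ⟨fun T => if hT : Integrable (fun y => Real.exp (ll θ y)) (μ T : Measure (ι → ℝ)) then
      ⟨(μ T : Measure (ι → ℝ)).tilted (ll θ), isProbabilityMeasure_tilted hT⟩ else μ T, fun T hT => ?_⟩
    simp only [dif_pos hT]
    rfl
  obtain ⟨κ0, hκ0⟩ : ∃ κ0 : ProbabilityMeasure (ι → ℝ),
      (κ0 : Measure (ι → ℝ)) = (ν : Measure (ι → ℝ)).tilted (ll θ) :=
    ⟨⟨_, isProbabilityMeasure_tilted hν0⟩, rfl⟩
  have hint : ∀ {m : Measure (ι → ℝ)} (c : ι → ℝ), Integrable (fun y => Real.exp (ll θ y)) m →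
      Integrable (fun y => Real.exp (ll (fun j => θ j + c j) y)) m →
      Integrable (fun y => Real.exp (ll c y)) (m.tilted (ll θ)) := by
    intro m c h1 h2
    rw [integrable_tilted_iff h1]
    refine h2.congr (Eventually.of_forall fun y => ?_)
    simp only [smul_eq_mul]
    rw [ll_add, Real.exp_add]
  have hval : ∀ {m : Measure (ι → ℝ)} (c : ι → ℝ),
      ∫ y, Real.exp (ll c y) ∂(m.tilted (ll θ)) =
      (∫ y, Real.exp (ll (fun j => θ j + c j) y) ∂m) / ∫ y, Real.exp (ll θ y) ∂m := by
    intro m c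
    rw [integral_tilted, ← integral_div]
    refine integral_congr_ae (Eventually.of_forall fun y => ?_)
    simp only [smul_eq_mul]
    rw [ll_add, Real.exp_add]
    ring
  have hlim : Tendsto κ atTop (𝓝 κ0) := by
    refine curtn hr (fun c hc => ?_) (fun c hc => ?_) fun c hc => ?_
    · rw [hκ0]
      exact hint c hν0 (hν c hc)
    · filter_upwards [hi0, hi c hc] with T a1 a2
      rw [hκ T a1]
      exact hint c a1 a2
    · rw [hκ0, hval]
      have h1 := (h c hc).div h0 (integral_exp_pos hν0).ne'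
      refine h1.congr' ?_
      filter_upwards [hi0] with T a1
      rw [hκ T a1, hval]
      rfl
  exact untilt (ll_cont θ) hi0 hν0 h0 (hi0.mono fun T hT => hκ T hT) hκ0 hlim

end curtn

end Pool.Agent.V11128.CXL
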