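import Pool.Agent.V11128.CXL.A
import Pool.Agent.V11128.SHL.Land

set_option autoImplicit false

/-! Normal laws: existence and the complex transforms. -/

namespace Pool.Agent.V11128.CXL

open MeasureTheory Filter Topology ProbabilityTheory
open Pool.Agent.Y753.SHL
open Pool.Agent.V11128.SHL

variable {N : ℕ}

/-- existence of the normal law -/
lemma nor_exists (m : Fin N → ℝ) (C : Fin N → Fin N → ℝ) (hsym : ∀ i j, C i j = C j i)
    (hp : ∀ c, 0 ≤ qf C c) : ∃ ρ : ProbabilityMeasure (Fin N → ℝ), Nor m C ρ := by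
  have hP : (Matrix.of C).PosSemidef := by
    refine Matrix.PosSemidef.of_dotProduct_mulVec_nonneg ?_ fun x => ?_
    · ext i j
      simp [Matrix.conjTranspose_apply, hsym j i]
    · have h1 := hp x
      have e1 : star x ⬝ᵥ (Matrix.of C).mulVec x = qf C x := by
        unfold qf
        simp only [dotProduct, Matrix.mulVec, star_trivial, Matrix.of_apply]
        refine Finset.sum_congr rfl fun i _ => ?_
        rw [Finset.mul_sum]
        exact Finset.sum_congr rfl fun j _ => by ring
      rw [e1]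
      exact h1
  obtain ⟨mE, hmE⟩ : ∃ mE : EuclideanSpace ℝ (Fin N), mE = WithLp.toLp 2 m := ⟨_, rfl⟩
  obtain ⟨ρE, hρE⟩ : ∃ ρE : ProbabilityMeasure (EuclideanSpace ℝ (Fin N)),
      (ρE : Measure (EuclideanSpace ℝ (Fin N))) = multivariateGaussian mE (Matrix.of C) :=
    ⟨⟨multivariateGaussian mE (Matrix.of C), inferInstance⟩, rfl⟩
  have hof : Continuous (fun y : EuclideanSpace ℝ (Fin N) => (WithLp.ofLp y : Fin N → ℝ)) :=
    PiLp.continuous_ofLp 2 _
  refine ⟨ρE.map hof.measurable.aemeasurable, fun c => ⟨hp c, ?_⟩⟩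
  rw [ProbabilityMeasure.toMeasure_map, Measure.map_map (lf_cont c).measurable hof.measurable]
  have hmp : IsProbabilityMeasure (Measure.map (lf c ∘ fun y : EuclideanSpace ℝ (Fin N) => y.ofLp)
      (ρE : Measure (EuclideanSpace ℝ (Fin N)))) :=
    Measure.isProbabilityMeasure_map ((lf_cont c).comp hof).measurable.aemeasurable
  refine Measure.ext_of_charFun ?_
  funext t
  obtain ⟨t', ht'⟩ : ∃ t' : EuclideanSpace ℝ (Fin N), t' = WithLp.toLp 2 (fun j => t * c j) := ⟨_, rfl⟩
  have h1 : charFun (Measure.map (lf c ∘ fun y : EuclideanSpace ℝ (Fin N) => y.ofLp)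
      (ρE : Measure (EuclideanSpace ℝ (Fin N)))) t = charFun (ρE : Measure (EuclideanSpace ℝ (Fin N))) t' := by
    rw [charFun_apply_real, charFun_apply, integral_map ((lf_cont c).comp hof).measurable.aemeasurable (by fun_prop)]
    refine integral_congr_ae (Eventually.of_forall fun y => ?_)
    simp only [Function.comp]
    congr 1
    have e2 : (inner ℝ y t' : ℝ) = t * lf c y.ofLp := by
      rw [ht', PiLp.inner_apply]
      unfold lf
      rw [Finset.mul_sum]
      refine Finset.sum_congr rfl fun j _ => ?_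
      simp
      ring
    rw [e2]
    push_cast
    ring
  rw [h1, hρE, charFun_multivariateGaussian hP, charFun_gaussianReal]
  congr 1
  have e2 : (inner ℝ t' mE : ℝ) = t * lf c m := by
    rw [ht', hmE, PiLp.inner_apply]
    unfold lf
    rw [Finset.mul_sum]
    refine Finset.sum_congr rfl fun j _ => ?_
    simp
    ring
  have e3 : (t'.ofLp ⬝ᵥ (Matrix.of C).mulVec t'.ofLp : ℝ) = t ^ 2 * qf C c := by
    rw [← qf_smul, ht']
    unfold qf
    simp only [dotProduct, Matrix.mulVec, Matrix.of_apply]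
    refine Finset.sum_congr rfl fun i _ => ?_
    rw [Finset.mul_sum]
    exact Finset.sum_congr rfl fun j _ => by ring
  rw [e2, e3, Real.coe_toNNReal _ (hp _)]
  push_cast
  ring

/-- the complex transforms of the normal law -/
lemma nor_cexp {m : Fin N → ℝ} {C : Fin N → Fin N → ℝ} {ρ : ProbabilityMeasure (Fin N → ℝ)}
    (hC : ∀ i j, C i j = C j i) (h : Nor m C ρ) (α β : Fin N → ℝ) :
    ∫ v, (Real.exp (lf α v) : ℂ) * Em 1 (lf β v) ∂(ρ : Measure (Fin N → ℝ)) =
      Complex.exp (((lf α m + qf C α / 2 - qf C β / 2 : ℝ) : ℂ) +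
        ((lf β m + bf C α β : ℝ) : ℂ) * Complex.I) := by
  obtain ⟨ρ', hρ', hN⟩ := nor_tilt hC h α
  have hZ : ∫ y, Real.exp (lf α y) ∂(ρ : Measure (Fin N → ℝ)) = Real.exp (lf α m + qf C α / 2) := nor_exp h α
  have h1 : ∫ v, Em 1 (lf β v) ∂(ρ' : Measure (Fin N → ℝ)) =
      Complex.exp (((- qf C β / 2 : ℝ) : ℂ) + ((lf β m + bf C α β : ℝ) : ℂ) * Complex.I) := by
    have h2 := charFun_gaussianReal (μ := lf β (ms m C α)) (v := (qf C β).toNNReal) (1 : ℝ)
    rw [← (hN β).2, charFun_apply_real, integral_map (lf_cont β).measurable.aemeasurable (by fun_prop),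
      Real.coe_toNNReal _ (hN β).1, lf_ms] at h2
    have e1 : ∀ v, Em 1 (lf β v) = Complex.exp (((1:ℝ):ℂ) * ((lf β v : ℝ) : ℂ) * Complex.I) := by
      intro v
      unfold Em
      push_cast
      ring_nf
    simp_rw [e1]
    rw [h2]
    congr 1
    push_cast
    ring
  rw [hρ', integral_tilted, hZ] at h1
  have e2 : ∀ v, (Real.exp (lf α v) : ℂ) * Em 1 (lf β v) = (Real.exp (lf α m + qf C α / 2) : ℂ) *
      ((Real.exp (lf α v) / Real.exp (lf α m + qf C α / 2)) • Em 1 (lf β v)) := by
    intro v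
    rw [Complex.real_smul]
    push_cast
    have := Complex.exp_ne_zero ((lf α m : ℂ) + (qf C α : ℂ) / 2)
    field_simp
  simp_rw [e2]
  rw [integral_const_mul, h1, Complex.ofReal_exp, ← Complex.exp_add]
  congr 1
  push_cast
  ring

end Pool.Agent.V11128.CXL
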