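import Pool.Agent.V11128.CXL.B
import Pool.Agent.V11128.CXL.C
import Pool.Agent.V11128.CXL.D

set_option autoImplicit false

/-! Convergence in law of the exponentials from the mixed transforms. -/

namespace Pool.Agent.V11128.CXL

open MeasureTheory Filter Topology ProbabilityTheory BoundedContinuousFunction
open Pool.Agent.Y753.SHL
open Pool.Agent.V11128.SHL (lf_cont nor_int qf_smul lf_smul)

lemma cv_real {Ω : Type*} [MeasurableSpace Ω] {μ : ℝ → Measure Ω} {ρ : Measure Ω} {h : Ω → ℝ}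
    (hh : Cv μ ρ (fun v => (h v : ℂ))) :
    (∀ᶠ T in atTop, Integrable h (μ T)) ∧ Integrable h ρ ∧
      Tendsto (fun T => ∫ v, h v ∂(μ T)) atTop (𝓝 (∫ v, h v ∂ρ)) := by
  obtain ⟨w1, w2, w3⟩ := hh
  refine ⟨w1.mono fun T hT => by simpa only [RCLike.re_to_complex, Complex.ofReal_re] using hT.re, by
    simpa only [RCLike.re_to_complex, Complex.ofReal_re] using w2.re, ?_⟩
  have h1 := (Complex.continuous_re.tendsto _).comp w3
  simp only [integral_complex_ofReal, Function.comp_def, Complex.ofReal_re] at h1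
  exact h1

lemma Cv.unif {Ω : Type*} [MeasurableSpace Ω] {μ : ℝ → Measure Ω} {ρ : Measure Ω} {h : Ω → ℝ}
    (h0 : ∀ v, 0 ≤ h v) (hh : Cv μ ρ (fun v => (h v : ℂ))) {f : Ω → ℂ} (hf : Measurable f) {B : ℝ}
    (hB : ∀ v, ‖f v‖ ≤ B) {g : ℕ → Ω → ℂ} {e : ℕ → ℝ} (he : Tendsto e atTop (𝓝 0))
    (hfg : ∀ K v, ‖f v - g K v‖ ≤ e K) (hg : ∀ K, Cv μ ρ (fun v => (h v : ℂ) * g K v)) :
    Cv μ ρ (fun v => (h v : ℂ) * f v) := by
  obtain ⟨i1, i2, i3⟩ := cv_real hh
  refine ⟨i1.mono fun T hT => int_bdd hT hf hB, int_bdd i2 hf hB, ?_⟩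
  rw [Metric.tendsto_nhds]
  intro ε hε
  obtain ⟨M, hM⟩ : ∃ M : ℝ, M = ∫ v, h v ∂ρ := ⟨_, rfl⟩
  have h1 := he.mul_const (2 * M + 1)
  rw [zero_mul] at h1
  obtain ⟨k, hk⟩ := (h1.eventually (gt_mem_nhds (half_pos hε))).exists
  obtain ⟨c1, c2, c3⟩ := hg k
  have hd : ∀ {κ : Measure Ω}, Integrable h κ → Integrable (fun v => (h v : ℂ) * g k v) κ →
      ‖(∫ v, (h v : ℂ) * f v ∂κ) - ∫ v, (h v : ℂ) * g k v ∂κ‖ ≤ e k * ∫ v, h v ∂κ := by
    intro κ k1 k2
    rw [← integral_sub (int_bdd k1 hf hB) k2, ← integral_const_mul]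
    refine norm_integral_le_of_norm_le (k1.const_mul _) (Eventually.of_forall fun v => ?_)
    rw [← mul_sub, norm_mul, Complex.norm_real, Real.norm_of_nonneg (h0 v), mul_comm]
    exact mul_le_mul_of_nonneg_right (hfg k v) (h0 v)
  have hlt : M < M + 1 := by linarith
  rw [hM] at hlt
  filter_upwards [i1, c1, i3.eventually (gt_mem_nhds hlt), (Metric.tendsto_nhds.1 c3) (ε / 2) (by positivity)] with
    T t1 t2 t3 t4
  have s1 := hd t1 t2
  have s2 := hd i2 c2
  rw [← hM] at t3 s2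
  rw [dist_eq_norm] at t4 ⊢
  obtain ⟨A1, hA1⟩ : ∃ x : ℂ, x = ∫ v, (h v : ℂ) * f v ∂(μ T) := ⟨_, rfl⟩
  obtain ⟨A2, hA2⟩ : ∃ x : ℂ, x = ∫ v, (h v : ℂ) * f v ∂ρ := ⟨_, rfl⟩
  obtain ⟨P1, hP1⟩ : ∃ x : ℂ, x = ∫ v, (h v : ℂ) * g k v ∂(μ T) := ⟨_, rfl⟩
  obtain ⟨P2, hP2⟩ : ∃ x : ℂ, x = ∫ v, (h v : ℂ) * g k v ∂ρ := ⟨_, rfl⟩
  rw [← hA1, ← hP1] at s1
  rw [← hA2, ← hP2] at s2
  rw [← hP1, ← hP2] at t4
  rw [← hA1, ← hA2]
  have e1 : A1 - A2 = (A1 - P1) + (P1 - P2) - (A2 - P2) := by ring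
  rw [e1]
  have n1 := norm_sub_le ((A1 - P1) + (P1 - P2)) (A2 - P2)
  have n2 := norm_add_le (A1 - P1) (P1 - P2)
  have he0 : 0 ≤ e k ∨ IsEmpty Ω := by
    rcases isEmpty_or_nonempty Ω with h | ⟨⟨v⟩⟩
    · exact Or.inr h
    · exact Or.inl ((norm_nonneg _).trans (hfg k v))
  rcases he0 with he0 | he0
  · have n3 : e k * ∫ v, h v ∂(μ T) ≤ e k * (M + 1) := mul_le_mul_of_nonneg_left t3.le he0
    have n4 : e k * (M + 1) + e k * M = e k * (2 * M + 1) := by ring
    linarith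
  · have z1 : A1 = 0 := by rw [hA1, Measure.eq_zero_of_isEmpty (μ T)]; simp
    have z2 : A2 = 0 := by rw [hA2, Measure.eq_zero_of_isEmpty ρ]; simp
    have z3 : P1 = 0 := by rw [hP1, Measure.eq_zero_of_isEmpty (μ T)]; simp
    have z4 : P2 = 0 := by rw [hP2, Measure.eq_zero_of_isEmpty ρ]; simp
    rw [z1, z2, z3, z4]
    simpa using hε

variable {n : ℕ}

/-- the first half of a vector -/
def yv (v : Fin (n + n) → ℝ) (j : Fin n) : ℝ := v (Fin.castAdd n j)

/-- the second half of a vector -/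
def xv (v : Fin (n + n) → ℝ) (j : Fin n) : ℝ := v (Fin.natAdd n j)

lemma yv_cont : Continuous (yv (n := n)) := by
  unfold yv
  fun_prop

lemma xv_cont : Continuous (xv (n := n)) := by
  unfold xv
  fun_prop

lemma lf_append (θ k : Fin n → ℝ) (v : Fin (n + n) → ℝ) :
    lf (Fin.append θ k) v = lf θ (yv v) + lf k (xv v) := by
  unfold lf yv xv
  rw [Fin.sum_univ_add]
  simp_rw [Fin.append_left, Fin.append_right]

lemma Em_one_add (x y : ℝ) : Em 1 (x + y) = Em 1 x * Em 1 y := by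
  unfold Em
  rw [← Complex.exp_add]
  congr 1
  push_cast
  ring

/-- the data: the mixed transforms converge at the rational points of a cone -/
def Data (μ : ℝ → Measure (Fin (n + n) → ℝ)) (ρ : Measure (Fin (n + n) → ℝ)) (β : ℝ) : Prop :=
  ∀ q p : Fin n → ℚ, (∀ j, |(p j : ℝ)| < q j) → ∑ j, (q j : ℝ) + |∑ j, (p j : ℝ)| < β →
    Cv μ ρ (fun v => (Real.exp (lf (fun j => (q j : ℝ)) (yv v)) : ℂ) * Em 1 (lf (fun j => (p j : ℝ)) (xv v)))

lemma step1 {μ : ℝ → Measure (Fin (n + n) → ℝ)} {ρ : Measure (Fin (n + n) → ℝ)} {β : ℝ} (hβ : 0 < β)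
    (H : Data μ ρ β) {t : ℝ} (ht : t = β / (2 * (n + 1))) {θ : Fin n → ℝ} (hθ : ∀ j, |θ j - t| < t / 2)
    {p : Fin n → ℚ} (hp : ∀ j, |(p j : ℝ)| < t / 2) :
    Cv μ ρ (fun v => (Real.exp (lf θ (yv v)) : ℂ) * Em 1 (lf (fun j => (p j : ℝ)) (xv v))) := by
  have ht0 : 0 < t := by rw [ht]; positivity
  have htn : 2 * (n : ℝ) * t < β := by
    rw [ht, mul_div_assoc', div_lt_iff₀ (by positivity)]
    nlinarith
  have key : ∀ q p : Fin n → ℚ, (∀ j, |(q j : ℝ) - t| < t / 2) → (∀ j, |(p j : ℝ)| < t / 2) →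
      Cv μ ρ (fun v => (Real.exp (lf (fun j => (q j : ℝ)) (yv v)) : ℂ) * Em 1 (lf (fun j => (p j : ℝ)) (xv v))) := by
    intro q p hq hp
    refine H q p (fun j => ?_) ?_
    · have := (abs_lt.1 (hq j)).1
      linarith [hp j]
    · have h1 : ∑ j, (q j : ℝ) ≤ ∑ _j : Fin n, (3 / 2 * t) := Finset.sum_le_sum fun j _ => by
        have := (abs_lt.1 (hq j)).2
        linarith
      have h2 : |∑ j, (p j : ℝ)| ≤ ∑ _j : Fin n, (t / 2) :=
        (Finset.abs_sum_le_sum_abs _ _).trans (Finset.sum_le_sum fun j _ => (hp j).le)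
      rw [Finset.sum_const, Finset.card_univ, Fintype.card_fin, nsmul_eq_mul] at h1 h2
      nlinarith
  refine real_exp (c := t) (t := t / 2) yv_cont.measurable (f := fun v => Em 1 (lf (fun j => (p j : ℝ)) (xv v)))
    ?_ (fun v => (Em_norm _ _).le) (by positivity) (fun q hq => ?_) (fun q hq => key q p hq hp) hθ
  · exact (Em_cont 1).measurable.comp ((lf_cont _).measurable.comp xv_cont.measurable)
  · refine (key q (fun _ => 0) hq fun j => by simpa using ht0).congr fun v => ?_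
    have : lf (fun j : Fin n => (((0 : ℚ)) : ℝ)) (xv v) = 0 := by
      unfold lf
      simp
    rw [this]
    unfold Em
    simp

lemma step2 {μ : ℝ → Measure (Fin (n + n) → ℝ)} {ρ : ProbabilityMeasure (Fin (n + n) → ℝ)} {β : ℝ} (hβ : 0 < β)
    {m : Fin (n + n) → ℝ} {C : Fin (n + n) → Fin (n + n) → ℝ} (hN : Nor m C ρ)
    (H : Data μ (ρ : Measure (Fin (n + n) → ℝ)) β) {t : ℝ} (ht : t = β / (2 * (n + 1)))
    {θ : Fin n → ℝ} (hθ : ∀ j, |θ j - t| < t / 2) (k : Fin n → ℤ) :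
    Cv μ (ρ : Measure (Fin (n + n) → ℝ))
      (fun v => (Real.exp (lf θ (yv v)) : ℂ) * Em 1 (lf (fun j => (k j : ℝ)) (xv v))) := by
  have ht0 : 0 < t := by rw [ht]; positivity
  obtain ⟨h, hh⟩ : ∃ h : (Fin (n + n) → ℝ) → ℝ, h = fun v => Real.exp (lf θ (yv v)) := ⟨_, rfl⟩
  obtain ⟨φ, hφ⟩ : ∃ φ : (Fin (n + n) → ℝ) → ℝ, φ = fun v => lf (fun j => (k j : ℝ)) (xv v) := ⟨_, rfl⟩
  have hhm : Measurable h := by
    rw [hh]
    exact Real.measurable_exp.comp ((lf_cont _).measurable.comp yv_cont.measurable)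
  have hφm : Measurable φ := by
    rw [hφ]
    exact (lf_cont _).measurable.comp xv_cont.measurable
  have hh0 : ∀ v, 0 ≤ h v := fun v => by rw [hh]; exact (Real.exp_pos _).le
  have h00 := step1 hβ H ht hθ (p := fun _ => 0) (fun j => by simpa using ht0)
  have h01 : Cv μ (ρ : Measure (Fin (n + n) → ℝ)) (fun v => (h v : ℂ)) := by
    refine h00.congr fun v => ?_
    have : lf (fun j : Fin n => (((0 : ℚ)) : ℝ)) (xv v) = 0 := by
      unfold lf
      simp
    rw [this, hh]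
    unfold Em
    simp
  obtain ⟨i1, i2, i3⟩ := cv_real h01
  have hEm : Measurable (fun v => Em 1 (φ v)) := (Em_cont 1).measurable.comp hφm
  have hexp : Integrable (fun v => h v * Real.exp |φ v|) (ρ : Measure (Fin (n + n) → ℝ)) := by
    have j1 := nor_int hN (Fin.append θ (fun j => (k j : ℝ)))
    have j2 := nor_int hN (Fin.append θ (fun j => -(k j : ℝ)))
    refine Integrable.mono' (j1.add j2) (hhm.mul (Real.measurable_exp.comp hφm.abs)).aestronglyMeasurable
      (Eventually.of_forall fun v => ?_)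
    rw [Real.norm_of_nonneg (mul_nonneg (hh0 v) (Real.exp_pos _).le)]
    show h v * Real.exp |φ v| ≤ Real.exp (lf (Fin.append θ fun j => (k j : ℝ)) v) +
      Real.exp (lf (Fin.append θ fun j => -(k j : ℝ)) v)
    rw [lf_append, lf_append, V11128.SHL.lf_neg, Real.exp_add, Real.exp_add, hh, hφ]
    simp only
    rw [← mul_add]
    refine mul_le_mul_of_nonneg_left ?_ (Real.exp_pos _).le
    rcases le_or_gt 0 (lf (fun j => (k j : ℝ)) (xv v)) with h1 | h1
    · rw [abs_of_nonneg h1]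
      linarith [Real.exp_pos (-lf (fun j => (k j : ℝ)) (xv v))]
    · rw [abs_of_neg h1]
      linarith [Real.exp_pos (lf (fun j => (k j : ℝ)) (xv v))]
  obtain ⟨K, hK⟩ : ∃ K : ℝ, K = 1 + ∑ j, |(k j : ℝ)| := ⟨_, rfl⟩
  have hs : 0 ≤ ∑ j, |(k j : ℝ)| := Finset.sum_nonneg fun j _ => abs_nonneg _
  have hK0 : 0 < K := by rw [hK]; linarith
  have hm := modes hhm hφm hh0 i1 hexp (r := t / 2 / K) (by positivity) (fun q hq => by
    have hq' : ∀ j, |((q * k j : ℚ) : ℝ)| < t / 2 := by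
      intro j
      have h1 : |(k j : ℝ)| ≤ K := by
        have := Finset.single_le_sum (f := fun j => |(k j : ℝ)|) (fun j _ => abs_nonneg _) (Finset.mem_univ j)
        rw [hK]
        linarith
      push_cast
      rw [abs_mul]
      rw [lt_div_iff₀ hK0] at hq
      exact (mul_le_mul_of_nonneg_left h1 (abs_nonneg _)).trans_lt hq
    have h1 := (step1 hβ H ht hθ (p := fun j => q * k j) hq').2.2
    have e1 : ∀ v : Fin (n + n) → ℝ, Em 1 (lf (fun j => ((q * k j : ℚ) : ℝ)) (xv v)) = Em q (φ v) := by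
      intro v
      have e2 : lf (fun j => ((q * k j : ℚ) : ℝ)) (xv v) = q * φ v := by
        rw [hφ]
        simp only
        rw [← lf_smul]
        congr 1
        funext j
        push_cast
        ring
      rw [e2]
      unfold Em
      rw [one_mul]
    simp only [e1] at h1
    rw [hh]
    exact h1)
  refine ⟨?_, ?_, ?_⟩
  · filter_upwards [i1] with T hT
    have := int_bdd hT hEm fun v => (Em_norm _ _).le
    rw [hh, hφ] at this
    exact this
  · have := int_bdd i2 hEm fun v => (Em_norm _ _).le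
    rw [hh, hφ] at this
    exact this
  · rw [hh, hφ] at hm
    exact hm

/-- the linear forms in the cosines and the sines -/
noncomputable def Lx (a b x : Fin n → ℝ) : ℝ := ∑ j, (a j * Real.cos (x j) + b j * Real.sin (x j))

lemma Lx_eq (a b x : Fin n → ℝ) : (Lx a b x : ℂ) = ∑ j,
    (((a j : ℂ) - Complex.I * b j) / 2 * Em 1 (x j) + ((a j : ℂ) + Complex.I * b j) / 2 * Em 1 (-x j)) := by
  unfold Lx
  push_cast
  refine Finset.sum_congr rfl fun j _ => ?_
  unfold Em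
  have e1 : Complex.exp (((1 * x j : ℝ) : ℂ) * Complex.I) = Complex.cos (x j) + Complex.sin (x j) * Complex.I := by
    rw [one_mul, Complex.exp_mul_I]
  have e2 : Complex.exp (((1 * -x j : ℝ) : ℂ) * Complex.I) = Complex.cos (x j) - Complex.sin (x j) * Complex.I := by
    rw [one_mul, Complex.ofReal_neg, Complex.exp_mul_I, Complex.cos_neg, Complex.sin_neg]
    ring
  rw [e1, e2]
  have hI : Complex.I * Complex.I = -1 := Complex.I_mul_I
  linear_combination ((b j : ℂ) * Complex.sin (x j)) * hI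

lemma Lx_le {a b : Fin n → ℝ} {r : ℝ} (ha : ∀ j, |a j| ≤ r) (hb : ∀ j, |b j| ≤ r) (x : Fin n → ℝ) :
    |Lx a b x| ≤ 2 * n * r := by
  unfold Lx
  refine (Finset.abs_sum_le_sum_abs _ _).trans ?_
  have h1 : ∀ j, |a j * Real.cos (x j) + b j * Real.sin (x j)| ≤ 2 * r := by
    intro j
    refine (abs_add_le _ _).trans ?_
    rw [abs_mul, abs_mul]
    have c1 := mul_le_mul (ha j) (Real.abs_cos_le_one (x j)) (abs_nonneg _) ((abs_nonneg _).trans (ha j))
    have c2 := mul_le_mul (hb j) (Real.abs_sin_le_one (x j)) (abs_nonneg _) ((abs_nonneg _).trans (hb j))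
    linarith
  refine (Finset.sum_le_sum fun j _ => h1 j).trans (le_of_eq ?_)
  rw [Finset.sum_const, Finset.card_univ, Fintype.card_fin, nsmul_eq_mul]
  ring

lemma step3 {μ : ℝ → Measure (Fin (n + n) → ℝ)} {ρ : ProbabilityMeasure (Fin (n + n) → ℝ)} {β : ℝ} (hβ : 0 < β)
    {m : Fin (n + n) → ℝ} {C : Fin (n + n) → Fin (n + n) → ℝ} (hN : Nor m C ρ)
    (H : Data μ (ρ : Measure (Fin (n + n) → ℝ)) β) {t : ℝ} (ht : t = β / (2 * (n + 1)))
    {θ : Fin n → ℝ} (hθ : ∀ j, |θ j - t| < t / 2) {a b : Fin n → ℝ} (ha : ∀ j, |a j| ≤ 1 / (4 * (n + 1)))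
    (hb : ∀ j, |b j| ≤ 1 / (4 * (n + 1))) :
    Cv μ (ρ : Measure (Fin (n + n) → ℝ))
      (fun v => (Real.exp (lf θ (yv v)) : ℂ) * (Real.exp (Lx a b (xv v)) : ℂ)) := by
  have hL : ∀ x, |Lx a b x| ≤ 1 / 2 := by
    intro x
    refine (Lx_le ha hb x).trans ?_
    rw [mul_one_div, div_le_div_iff₀ (by positivity) (by norm_num)]
    nlinarith
  have hpow : ∀ (k : ℕ) (κ : Fin n → ℤ), Cv μ (ρ : Measure (Fin (n + n) → ℝ))
      (fun v => (Real.exp (lf θ (yv v)) : ℂ) * ((Lx a b (xv v) : ℂ) ^ k * Em 1 (lf (fun j => (κ j : ℝ)) (xv v)))) := by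
    intro k
    induction k with
    | zero =>
      intro κ
      refine (step2 hβ hN H ht hθ κ).congr fun v => ?_
      rw [pow_zero, one_mul]
    | succ k ih =>
      intro κ
      have h1 : Cv μ (ρ : Measure (Fin (n + n) → ℝ)) (fun v => ∑ s : Fin n × Bool,
          (if s.2 then ((a s.1 : ℂ) - Complex.I * b s.1) / 2 else ((a s.1 : ℂ) + Complex.I * b s.1) / 2) *
          ((Real.exp (lf θ (yv v)) : ℂ) * ((Lx a b (xv v) : ℂ) ^ k *
            Em 1 (lf (fun j => ((κ + Pi.single s.1 (if s.2 then 1 else -1) : Fin n → ℤ) j : ℝ)) (xv v))))) :=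
        Cv.sum fun s _ => (ih _).const_mul _
      refine h1.congr fun v => ?_
      have e0 : ∀ (i : Fin n) (c : ℤ), lf (fun j => ((κ + Pi.single i c : Fin n → ℤ) j : ℝ)) (xv v) =
          lf (fun j => (κ j : ℝ)) (xv v) + c * xv v i := by
        intro i c
        unfold lf
        have e00 : ∀ j, (((κ + Pi.single i c : Fin n → ℤ) j : ℤ) : ℝ) * xv v j =
            (κ j : ℝ) * xv v j + (if j = i then (c : ℝ) * xv v i else 0) := by
          intro j
          rw [Pi.add_apply]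
          by_cases hj : j = i
          · subst hj
            rw [Pi.single_eq_same, if_pos rfl]
            push_cast
            ring
          · rw [Pi.single_eq_of_ne hj, if_neg hj]
            push_cast
            ring
        simp_rw [e00]
        rw [Finset.sum_add_distrib, Finset.sum_ite_eq' Finset.univ i, if_pos (Finset.mem_univ i)]
      simp_rw [e0]
      rw [pow_succ, Lx_eq a b (xv v), Fintype.sum_prod_type]
      simp only [Fintype.sum_bool, if_true, Bool.false_eq_true, if_false]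
      rw [Finset.mul_sum, Finset.sum_mul, Finset.mul_sum]
      refine Finset.sum_congr rfl fun j _ => ?_
      have e1 : ∀ (c : ℤ), Em 1 (lf (fun j => (κ j : ℝ)) (xv v) + (c : ℝ) * xv v j) =
          Em 1 (lf (fun j => (κ j : ℝ)) (xv v)) * Em 1 (c * xv v j) := fun c => Em_one_add _ _
      rw [e1 1, e1 (-1)]
      have e2 : (((1 : ℤ) : ℝ) * xv v j) = xv v j := by push_cast; ring
      have e3 : (((-1 : ℤ) : ℝ) * xv v j) = -xv v j := by push_cast; ring
      rw [e2, e3, ← Lx_eq a b (xv v)]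
      ring
  have hpow0 : ∀ k : ℕ, Cv μ (ρ : Measure (Fin (n + n) → ℝ))
      (fun v => (Real.exp (lf θ (yv v)) : ℂ) * (Lx a b (xv v) : ℂ) ^ k) := by
    intro k
    refine (hpow k 0).congr fun v => ?_
    have e1 : lf (fun j => (((0 : Fin n → ℤ) j : ℤ) : ℝ)) (xv v) = 0 := by
      unfold lf
      simp
    have e2 : Em 1 0 = 1 := by
      unfold Em
      simp
    rw [e1, e2, mul_one]
  refine Cv.unif (h := fun v => Real.exp (lf θ (yv v))) (fun v => (Real.exp_pos _).le) ?_ ?_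
    (B := Real.exp (1 / 2)) (fun v => ?_)
    (g := fun K v => ∑ k ∈ Finset.range K, (Lx a b (xv v) : ℂ) ^ k / (k.factorial : ℂ))
    (e := fun K => (1 / 2) ^ K * Real.exp (1 / 2)) ?_ (fun K v => ?_) (fun K => ?_)
  · exact (hpow0 0).congr fun v => by rw [pow_zero, mul_one]
  · refine Complex.measurable_ofReal.comp (Real.measurable_exp.comp ?_)
    unfold Lx
    have := xv_cont (n := n)
    have h1 : Continuous fun v : Fin (n + n) → ℝ => ∑ j, (a j * Real.cos (xv v j) + b j * Real.sin (xv v j)) := by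
      unfold xv
      fun_prop
    exact h1.measurable
  · rw [Complex.norm_real, Real.norm_of_nonneg (Real.exp_pos _).le]
    exact Real.exp_le_exp.2 ((le_abs_self _).trans (hL _))
  · have h1 := (tendsto_pow_atTop_nhds_zero_of_lt_one (show (0:ℝ) ≤ 1 / 2 by norm_num) (by norm_num)).mul_const
      (Real.exp (1 / 2))
    rwa [zero_mul] at h1
  · rw [Complex.ofReal_exp]
    refine (Complex.norm_exp_sub_sum_le_norm_mul_exp _ K).trans ?_
    have h1 : ‖(Lx a b (xv v) : ℂ)‖ ≤ 1 / 2 := by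
      rw [Complex.norm_real, Real.norm_eq_abs]
      exact hL _
    exact mul_le_mul (pow_le_pow_left₀ (norm_nonneg _) h1 _) (Real.exp_le_exp.2 h1) (Real.exp_pos _).le (by positivity)
  · have h1 : Cv μ (ρ : Measure (Fin (n + n) → ℝ)) (fun v => ∑ k ∈ Finset.range K, ((k.factorial : ℂ)⁻¹) *
        ((Real.exp (lf θ (yv v)) : ℂ) * (Lx a b (xv v) : ℂ) ^ k)) := Cv.sum fun k _ => (hpow0 k).const_mul _
    refine h1.congr fun v => ?_
    rw [Finset.mul_sum]
    refine Finset.sum_congr rfl fun k _ => ?_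
    rw [div_eq_mul_inv]
    ring

/-- the vector of the increments, the cosines and the sines -/
noncomputable def Dm (v : Fin (n + n) → ℝ) (s : Fin 3 × Fin n) : ℝ :=
  if s.1 = 0 then yv v s.2 else if s.1 = 1 then Real.cos (xv v s.2) else Real.sin (xv v s.2)

lemma Dm_cont : Continuous (Dm (n := n)) := by
  refine continuous_pi fun s => ?_
  unfold Dm yv xv
  split_ifs
  · fun_prop
  · fun_prop
  · fun_prop

lemma ll_Dm (c : Fin 3 × Fin n → ℝ) (v : Fin (n + n) → ℝ) :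
    ll c (Dm v) = lf (fun j => c (0, j)) (yv v) + Lx (fun j => c (1, j)) (fun j => c (2, j)) (xv v) := by
  unfold ll lf Lx Dm
  rw [Fintype.sum_prod_type, Fin.sum_univ_three, Finset.sum_add_distrib]
  simp
  ring

/-- the complex exponentials -/
noncomputable def Rm (v : Fin (n + n) → ℝ) (j : Fin n) : ℂ :=
  Complex.exp ((yv v j : ℂ) + (xv v j : ℂ) * Complex.I)

/-- the map from the vectors of increments, cosines and sines -/
noncomputable def rr (d : Fin 3 × Fin n → ℝ) (j : Fin n) : ℂ :=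
  (Real.exp (d (0, j)) : ℂ) * ((d (1, j) : ℂ) + (d (2, j) : ℂ) * Complex.I)

lemma rr_cont : Continuous (rr (n := n)) := by
  unfold rr
  fun_prop

lemma rr_Dm (v : Fin (n + n) → ℝ) : rr (Dm v) = Rm v := by
  funext j
  unfold rr Dm Rm
  simp only [if_true, one_ne_zero, if_false]
  rw [if_neg (by decide), if_neg (by decide), Complex.exp_add, Complex.exp_mul_I]
  push_cast
  ring

/-- convergence in law of the exponentials -/
theorem law {μ : ℝ → ProbabilityMeasure (Fin (n + n) → ℝ)} {ρ : ProbabilityMeasure (Fin (n + n) → ℝ)} {β : ℝ}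
    (hβ : 0 < β) {m : Fin (n + n) → ℝ} {C : Fin (n + n) → Fin (n + n) → ℝ} (hN : Nor m C ρ)
    (H : Data (fun T => (μ T : Measure (Fin (n + n) → ℝ))) (ρ : Measure (Fin (n + n) → ℝ)) β)
    (F : (Fin n → ℂ) →ᵇ ℝ) :
    Tendsto (fun T => ∫ v, F (Rm v) ∂(μ T : Measure (Fin (n + n) → ℝ))) atTop
      (𝓝 (∫ v, F (Rm v) ∂(ρ : Measure (Fin (n + n) → ℝ)))) := by
  obtain ⟨t, ht⟩ : ∃ t : ℝ, t = β / (2 * (n + 1)) := ⟨_, rfl⟩
  have ht0 : 0 < t := by rw [ht]; positivity
  obtain ⟨r, hr⟩ : ∃ r : ℝ, r = min (t / 2) (1 / (4 * (n + 1))) := ⟨_, rfl⟩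
  have hr0 : 0 < r := by rw [hr]; exact lt_min (by positivity) (by positivity)
  have hr1 : r ≤ t / 2 := by rw [hr]; exact min_le_left _ _
  have hr2 : r ≤ 1 / (4 * (n + 1)) := by rw [hr]; exact min_le_right _ _
  obtain ⟨θ, hθ⟩ : ∃ θ : Fin 3 × Fin n → ℝ, θ = fun s => if s.1 = 0 then t else 0 := ⟨_, rfl⟩
  have hC : ∀ c : Fin 3 × Fin n → ℝ, (∀ i, |c i| < r) →
      Cv (fun T => (μ T : Measure (Fin (n + n) → ℝ))) (ρ : Measure (Fin (n + n) → ℝ))
        (fun v => (Real.exp (ll (fun j => θ j + c j) (Dm v)) : ℂ)) := by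
    intro c hc
    have h1 := step3 hβ hN H ht (θ := fun j => t + c (0, j)) (a := fun j => c (1, j)) (b := fun j => c (2, j))
      (fun j => by rw [add_sub_cancel_left]; exact (hc _).trans_le hr1)
      (fun j => (hc _).le.trans hr2) (fun j => (hc _).le.trans hr2)
    refine h1.congr fun v => ?_
    rw [ll_Dm, Real.exp_add, hθ]
    simp
  have hDm := (Dm_cont (n := n)).measurable
  obtain ⟨lam, hlam⟩ : ∃ lam : ProbabilityMeasure (Fin (n + n) → ℝ) → ProbabilityMeasure (Fin 3 × Fin n → ℝ),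
      ∀ κ, lam κ = κ.map hDm.aemeasurable := ⟨fun κ => _, fun κ => rfl⟩
  have hexpm : ∀ c : Fin 3 × Fin n → ℝ, Measurable (fun y => Real.exp (ll c y)) := fun c =>
    Real.measurable_exp.comp (ll_cont c).measurable
  have hint : ∀ (κ : ProbabilityMeasure (Fin (n + n) → ℝ)) (c : Fin 3 × Fin n → ℝ),
      Integrable (fun v => Real.exp (ll c (Dm v))) (κ : Measure (Fin (n + n) → ℝ)) →
      Integrable (fun y => Real.exp (ll c y)) (lam κ : Measure (Fin 3 × Fin n → ℝ)) := by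
    intro κ c h
    rw [hlam, ProbabilityMeasure.toMeasure_map, integrable_map_measure (hexpm c).aestronglyMeasurable hDm.aemeasurable]
    exact h
  have hval : ∀ (κ : ProbabilityMeasure (Fin (n + n) → ℝ)) (c : Fin 3 × Fin n → ℝ),
      ∫ y, Real.exp (ll c y) ∂(lam κ : Measure (Fin 3 × Fin n → ℝ)) =
        ∫ v, Real.exp (ll c (Dm v)) ∂(κ : Measure (Fin (n + n) → ℝ)) := by
    intro κ c
    rw [hlam, ProbabilityMeasure.toMeasure_map, integral_map hDm.aemeasurable (hexpm c).aestronglyMeasurable]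
  have hlim : Tendsto (fun T => lam (μ T)) atTop (𝓝 (lam ρ)) := by
    refine curtbox hr0 θ (fun c hc => hint _ _ (cv_real (hC c hc)).2.1)
      (fun c hc => (cv_real (hC c hc)).1.mono fun T hT => hint _ _ hT) fun c hc => ?_
    simp_rw [hval]
    exact (cv_real (hC c hc)).2.2
  have h1 := (ProbabilityMeasure.tendsto_iff_forall_integral_tendsto.1 hlim)
    (F.compContinuous ⟨rr, rr_cont⟩)
  have h2 : ∀ κ : ProbabilityMeasure (Fin (n + n) → ℝ),
      ∫ d, (F.compContinuous ⟨rr, rr_cont⟩) d ∂(lam κ : Measure (Fin 3 × Fin n → ℝ)) =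
        ∫ v, F (Rm v) ∂(κ : Measure (Fin (n + n) → ℝ)) := by
    intro κ
    rw [hlam, ProbabilityMeasure.toMeasure_map, integral_map hDm.aemeasurable
      (F.compContinuous ⟨rr, rr_cont⟩).continuous.aestronglyMeasurable]
    refine integral_congr_ae (Eventually.of_forall fun v => ?_)
    show F (rr (Dm v)) = F (Rm v)
    rw [rr_Dm]
  simp_rw [h2] at h1
  exact h1

end Pool.Agent.V11128.CXL
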