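import Pool.Agent.V11128.CXL.D

set_option autoImplicit false

/-! The covariance kernel of the limit law and the product formula of the shifted moments. -/

namespace Pool.Agent.V11128.CXL

open MeasureTheory Filter Topology ProbabilityTheory
open Pool.Agent.Y753.SHL
open Pool.Agent.V11128.SHL

/-- the logarithm -/
noncomputable def el (x : ℝ) : ℂ := Complex.log (1 + Complex.I * (x : ℂ) / 2)

lemma u_re (x : ℝ) : (1 + Complex.I * (x : ℂ) / 2).re = 1 := by simp

lemma u_im (x : ℝ) : (1 + Complex.I * (x : ℂ) / 2).im = x / 2 := by simp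

lemma u_ne (x : ℝ) : (1 + Complex.I * (x : ℂ) / 2) ≠ 0 := by
  intro h
  have := congrArg Complex.re h
  rw [u_re] at this
  simp at this

lemma u_conj (x : ℝ) : (starRingEnd ℂ) (1 + Complex.I * (x : ℂ) / 2) = 1 + Complex.I * ((-x : ℝ) : ℂ) / 2 := by
  rw [map_add, map_div₀, map_mul, map_one, Complex.conj_I, Complex.conj_ofReal, map_ofNat]
  push_cast
  ring

lemma el_neg (x : ℝ) : el (-x) = (starRingEnd ℂ) (el x) := by
  unfold el
  rw [← u_conj, Complex.log_conj]
  intro h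
  have h1 : |(1 + Complex.I * (x : ℂ) / 2).arg| < Real.pi / 2 :=
    Complex.abs_arg_lt_pi_div_two_iff.2 (Or.inl (by rw [u_re]; exact one_pos))
  rw [h, abs_of_pos Real.pi_pos] at h1
  linarith [Real.pi_pos]

lemma el_zero : el 0 = 0 := by
  unfold el
  simp

lemma el_arg (x : ℝ) : |(el x).im| < Real.pi / 2 := by
  unfold el
  rw [Complex.log_im]
  exact Complex.abs_arg_lt_pi_div_two_iff.2 (Or.inl (by rw [u_re]; exact one_pos))

lemma el_exp (x : ℝ) : Complex.exp (el x) = 1 + Complex.I * (x : ℂ) / 2 := Complex.exp_log (u_ne x)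

/-- the points of the disc -/
noncomputable def pp (x : ℝ) : ℂ := (Complex.I * (x : ℂ) / 2) / (1 + Complex.I * (x : ℂ) / 2)

lemma pp_lt (x : ℝ) : ‖pp x‖ < 1 := by
  unfold pp
  rw [norm_div, div_lt_one (norm_pos_iff.2 (u_ne x))]
  have h1 : ‖Complex.I * (x : ℂ) / 2‖ ^ 2 = (x / 2) ^ 2 := by
    rw [← Complex.normSq_eq_norm_sq, Complex.normSq_apply]
    simp
    ring
  have h2 : ‖1 + Complex.I * (x : ℂ) / 2‖ ^ 2 = 1 + (x / 2) ^ 2 := by
    rw [← Complex.normSq_eq_norm_sq, Complex.normSq_apply, u_re, u_im]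
    ring
  refine lt_of_pow_lt_pow_left₀ 2 (norm_nonneg _) ?_
  rw [h1, h2]
  linarith

/-- the kernel -/
noncomputable def kl (a b : ℝ) : ℂ := el a + el (-b) - el (a - b)

lemma kl_conj (a b : ℝ) : (starRingEnd ℂ) (kl a b) = kl b a := by
  unfold kl
  rw [map_sub, map_add, ← el_neg, ← el_neg, ← el_neg]
  rw [neg_neg, neg_sub]
  ring

lemma kl_eq (a b : ℝ) : kl a b = -Complex.log (1 - pp a * (starRingEnd ℂ) (pp b)) := by
  obtain ⟨z, hz⟩ : ∃ z : ℂ, z = 1 - pp a * (starRingEnd ℂ) (pp b) := ⟨_, rfl⟩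
  have hzn : ‖pp a * (starRingEnd ℂ) (pp b)‖ < 1 := by
    rw [norm_mul, RCLike.norm_conj]
    have h1 := pp_lt a
    have h2 := pp_lt b
    nlinarith [norm_nonneg (pp a), norm_nonneg (pp b)]
  have hzre : 0 < z.re := by
    rw [hz, Complex.sub_re, Complex.one_re]
    have := (Complex.abs_re_le_norm (pp a * (starRingEnd ℂ) (pp b)))
    have h3 := (abs_le.1 this).2
    linarith
  have hz0 : z ≠ 0 := by
    intro h
    rw [h] at hzre
    simp at hzre
  have harg : |(Complex.log z).im| < Real.pi / 2 := by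
    rw [Complex.log_im]
    exact Complex.abs_arg_lt_pi_div_two_iff.2 (Or.inl hzre)
  have hprod : z * ((1 + Complex.I * (a : ℂ) / 2) * (1 + Complex.I * ((-b : ℝ) : ℂ) / 2)) =
      1 + Complex.I * ((a - b : ℝ) : ℂ) / 2 := by
    have h1 := u_ne a
    have h2 := u_ne (-b)
    rw [hz]
    unfold pp
    rw [map_div₀, u_conj]
    have h3 : (starRingEnd ℂ) (Complex.I * (b : ℂ) / 2) = Complex.I * ((-b : ℝ) : ℂ) / 2 := by
      rw [map_div₀, map_mul, Complex.conj_I, Complex.conj_ofReal, map_ofNat]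
      push_cast
      ring
    rw [h3, sub_mul, div_mul_div_comm, div_mul_cancel₀ _ (mul_ne_zero h1 h2)]
    push_cast
    ring
  have hexp : Complex.exp (Complex.log z) = Complex.exp (el (a - b) - el a - el (-b)) := by
    rw [Complex.exp_log hz0, Complex.exp_sub, Complex.exp_sub, el_exp, el_exp, el_exp, ← hprod]
    have h1 := u_ne a
    have h2 := u_ne (-b)
    rw [div_div, mul_div_assoc, div_self (mul_ne_zero h1 h2), mul_one]
  obtain ⟨k, hk⟩ := Complex.exp_eq_exp_iff_exists_int.1 hexp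
  have him := congrArg Complex.im hk
  have e1 : ((k : ℂ) * (2 * (Real.pi : ℂ) * Complex.I)).im = k * (2 * Real.pi) := by
    simp [Complex.mul_im]
  rw [Complex.add_im, e1, Complex.sub_im, Complex.sub_im] at him
  have b1 := abs_lt.1 harg
  have b2 := abs_lt.1 (el_arg (a - b))
  have b3 := abs_lt.1 (el_arg a)
  have b4 := abs_lt.1 (el_arg (-b))
  have hk0 : k = 0 := by
    have c1 : (k : ℝ) * (2 * Real.pi) < 1 * (2 * Real.pi) := by linarith
    have c2 : (-1 : ℝ) * (2 * Real.pi) < (k : ℝ) * (2 * Real.pi) := by linarith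
    have c3 : (k : ℝ) < 1 := lt_of_mul_lt_mul_right c1 (by positivity)
    have c4 : (-1 : ℝ) < k := lt_of_mul_lt_mul_right c2 (by positivity)
    have c5 : k < 1 := by exact_mod_cast c3
    have c6 : -1 < k := by exact_mod_cast c4
    omega
  rw [hk0] at hk
  rw [← hz, hk]
  unfold kl
  push_cast
  ring

variable {n : ℕ}

/-- the kernel is positive -/
lemma kl_psd (a : Fin n → ℝ) (W : Fin n → ℂ) :
    0 ≤ (∑ j, ∑ i, W j * (starRingEnd ℂ) (W i) * kl (a j) (a i)).re := by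
  have h1 : ∀ j i, HasSum (fun k : ℕ => W j * (starRingEnd ℂ) (W i) *
      ((pp (a j) * (starRingEnd ℂ) (pp (a i))) ^ k / k)) (W j * (starRingEnd ℂ) (W i) * kl (a j) (a i)) := by
    intro j i
    rw [kl_eq]
    refine (Complex.hasSum_taylorSeries_neg_log ?_).mul_left _
    rw [norm_mul, RCLike.norm_conj]
    have h1 := pp_lt (a j)
    have h2 := pp_lt (a i)
    nlinarith [norm_nonneg (pp (a j)), norm_nonneg (pp (a i))]
  have h2 := hasSum_sum (s := Finset.univ) fun (j : Fin n) _ => hasSum_sum (s := Finset.univ) fun (i : Fin n) _ => h1 j i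
  have h3 := Complex.hasSum_re h2
  refine h3.nonneg fun k => ?_
  have e1 : (∑ j, ∑ i, W j * (starRingEnd ℂ) (W i) * ((pp (a j) * (starRingEnd ℂ) (pp (a i))) ^ k / k)) =
      ((Complex.normSq (∑ j, W j * pp (a j) ^ k) / k : ℝ) : ℂ) := by
    rw [Complex.ofReal_div, ← Complex.mul_conj, map_sum, Finset.sum_mul_sum, Complex.ofReal_natCast,
      Finset.sum_div]
    refine Finset.sum_congr rfl fun j _ => ?_
    rw [Finset.sum_div]
    refine Finset.sum_congr rfl fun i _ => ?_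
    rw [map_mul, map_pow, mul_pow]
    ring
  rw [e1, Complex.ofReal_re]
  exact div_nonneg (Complex.normSq_nonneg _) (Nat.cast_nonneg _)

/-- the units -/
def om (s : Fin (n + n)) : ℂ := Fin.addCases (fun _ => 1) (fun _ => -Complex.I) s

/-- the index -/
def ix (s : Fin (n + n)) : Fin n := Fin.addCases (fun i => i) (fun i => i) s

lemma om_l (j : Fin n) : om (Fin.castAdd n j) = 1 := by
  unfold om
  rw [Fin.addCases_left]

lemma om_r (j : Fin n) : om (Fin.natAdd n j) = -Complex.I := by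
  unfold om
  rw [Fin.addCases_right]

lemma ix_l (j : Fin n) : ix (Fin.castAdd n j) = j := by
  unfold ix
  rw [Fin.addCases_left]

lemma ix_r (j : Fin n) : ix (Fin.natAdd n j) = j := by
  unfold ix
  rw [Fin.addCases_right]

/-- the real covariances -/
noncomputable def CC (a : Fin n → ℝ) (s t : Fin (n + n)) : ℝ :=
  (om s * (starRingEnd ℂ) (om t) * kl (a (ix s)) (a (ix t))).re / 2

/-- the real means -/
noncomputable def mC (β : ℝ) (a : Fin n → ℝ) (s : Fin (n + n)) : ℝ := (om s * (-(β / 2 : ℂ) * el (a (ix s)))).re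

lemma CC_symm (a : Fin n → ℝ) (s t : Fin (n + n)) : CC a s t = CC a t s := by
  unfold CC
  congr 1
  rw [← Complex.conj_re (om t * _ * _), map_mul, map_mul, Complex.conj_conj, kl_conj]
  ring_nf

lemma CC_qf (a : Fin n → ℝ) (c : Fin (n + n) → ℝ) :
    qf (CC a) c = (∑ j, ∑ i, ((c (Fin.castAdd n j) : ℂ) + (c (Fin.natAdd n j) : ℂ) * -Complex.I) *
      (starRingEnd ℂ) ((c (Fin.castAdd n i) : ℂ) + (c (Fin.natAdd n i) : ℂ) * -Complex.I) * kl (a j) (a i)).re / 2 := by
  unfold qf CC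
  have e1 : ∀ s t : Fin (n + n), c s * c t * ((om s * (starRingEnd ℂ) (om t) * kl (a (ix s)) (a (ix t))).re / 2) =
      ((c s : ℂ) * c t * (om s * (starRingEnd ℂ) (om t) * kl (a (ix s)) (a (ix t)))).re / 2 := by
    intro s t
    rw [← Complex.ofReal_mul, Complex.re_ofReal_mul]
    ring
  simp_rw [e1]
  simp_rw [← Finset.sum_div, ← Complex.re_sum]
  congr 2
  rw [Fin.sum_univ_add]
  simp_rw [Fin.sum_univ_add, om_l, om_r, ix_l, ix_r]
  rw [← Finset.sum_add_distrib]
  refine Finset.sum_congr rfl fun j _ => ?_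
  rw [← Finset.sum_add_distrib, ← Finset.sum_add_distrib, ← Finset.sum_add_distrib]
  refine Finset.sum_congr rfl fun i _ => ?_
  simp only [map_add, map_mul, map_neg, Complex.conj_I, Complex.conj_ofReal, map_one]
  ring

lemma CC_psd (a : Fin n → ℝ) (c : Fin (n + n) → ℝ) : 0 ≤ qf (CC a) c := by
  have h := kl_psd a (fun j => (c (Fin.castAdd n j) : ℂ) + (c (Fin.natAdd n j) : ℂ) * -Complex.I)
  rw [CC_qf]
  exact div_nonneg h (by norm_num)

lemma anti {f : Fin n → Fin n → ℂ} (h : ∀ j i, f j i = -f i j) : ∑ j, ∑ i, f j i = 0 := by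
  have h1 : ∑ j, ∑ i, f j i = -∑ j, ∑ i, f j i := by
    conv_lhs => rw [Finset.sum_comm]
    rw [← Finset.sum_neg_distrib]
    refine Finset.sum_congr rfl fun i _ => ?_
    rw [← Finset.sum_neg_distrib]
    exact Finset.sum_congr rfl fun j _ => h j i
  have h2 : (2 : ℂ) * ∑ j, ∑ i, f j i = 0 := by linear_combination h1
  exact (mul_eq_zero.1 h2).resolve_left (by norm_num)

/-- the exponents -/
noncomputable def kap (β : ℝ) (q p : Fin n → ℝ) : Fin (n + 1) → ℝ :=
  Fin.cons (β / 2 - ∑ j, (q j + p j) / 2) (fun j => (q j + p j) / 2)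

lemma kap_zero (β : ℝ) (q p : Fin n → ℝ) : kap β q p 0 = β / 2 - ∑ j, (q j + p j) / 2 := rfl

lemma kap_succ (β : ℝ) (q p : Fin n → ℝ) (j : Fin n) : kap β q p j.succ = (q j + p j) / 2 := rfl

lemma kap_sum (β : ℝ) (q p : Fin n → ℝ) : ∑ j, kap β q p j = β / 2 := by
  rw [Fin.sum_univ_succ]
  simp_rw [kap_zero, kap_succ]
  ring

/-- the transform of the limit law is the product -/
lemma product (β : ℝ) (a q p : Fin n → ℝ) :
    Complex.exp (((lf (Fin.append q (fun _ => 0)) (mC β a) + qf (CC a) (Fin.append q (fun _ => 0)) / 2 -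
        qf (CC a) (Fin.append (fun _ => 0) p) / 2 : ℝ) : ℂ) +
      ((lf (Fin.append (fun _ => 0) p) (mC β a) + bf (CC a) (Fin.append q (fun _ => 0)) (Fin.append (fun _ => 0) p) : ℝ) : ℂ) *
        Complex.I) =
    ∏ j, ∏ i, (1 + Complex.I * (((Fin.cons 0 a : Fin (n + 1) → ℝ) j - (Fin.cons 0 a : Fin (n + 1) → ℝ) i : ℝ) : ℂ) / 2) ^
      (-((kap β q p j * kap β q (fun j => -p j) i : ℝ) : ℂ)) := by
  have e1 : ∀ (x r : ℝ), (1 + Complex.I * (x : ℂ) / 2) ^ (-(r : ℂ)) = Complex.exp (-(el x * r)) := by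
    intro x r
    rw [Complex.cpow_def_of_ne_zero (u_ne x)]
    congr 1
    unfold el
    ring
  simp_rw [e1]
  simp_rw [← Complex.exp_sum]
  congr 1
  -- the right side
  have hR : ∑ j, ∑ i, -(el ((Fin.cons 0 a : Fin (n + 1) → ℝ) j - (Fin.cons 0 a : Fin (n + 1) → ℝ) i) *
      ((kap β q p j * kap β q (fun j => -p j) i : ℝ) : ℂ)) =
      (∑ j, ∑ i, (((q j + p j) / 2 * ((q i - p i) / 2) : ℝ) : ℂ) * kl (a j) (a i)) +
      ∑ j, ((((q j + p j) / 2 : ℝ) : ℂ) * (-(β / 2 : ℂ) * el (a j)) +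
        (((q j - p j) / 2 : ℝ) : ℂ) * (-(β / 2 : ℂ) * el (-a j))) := by
    rw [Fin.sum_univ_succ]
    simp_rw [Fin.sum_univ_succ, kap_zero, kap_succ, Fin.cons_zero, Fin.cons_succ, sub_self, el_zero, zero_mul, neg_zero,
      zero_add, zero_sub, sub_zero]
    unfold kl
    obtain ⟨A, hA⟩ : ∃ A : ℝ, A = ∑ j, (q j + p j) / 2 := ⟨_, rfl⟩
    obtain ⟨B, hB⟩ : ∃ B : ℝ, B = ∑ j, (q j + -p j) / 2 := ⟨_, rfl⟩
    rw [← hA, ← hB]
    have s1 : ∑ j, ∑ i, (((q j + p j) / 2 * ((q i - p i) / 2) : ℝ) : ℂ) * (el (a j) + el (-a i) - el (a j - a i)) =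
        (B : ℂ) * (∑ j, (((q j + p j) / 2 : ℝ) : ℂ) * el (a j)) + (A : ℂ) * (∑ i, (((q i - p i) / 2 : ℝ) : ℂ) * el (-a i)) -
          ∑ j, ∑ i, (((q j + p j) / 2 * ((q i - p i) / 2) : ℝ) : ℂ) * el (a j - a i) := by
      have t1 : ∀ j i, (((q j + p j) / 2 * ((q i - p i) / 2) : ℝ) : ℂ) * (el (a j) + el (-a i) - el (a j - a i)) =
          (((q i + -p i) / 2 : ℝ) : ℂ) * ((((q j + p j) / 2 : ℝ) : ℂ) * el (a j)) +
          (((q j + p j) / 2 : ℝ) : ℂ) * ((((q i - p i) / 2 : ℝ) : ℂ) * el (-a i)) -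
          (((q j + p j) / 2 * ((q i - p i) / 2) : ℝ) : ℂ) * el (a j - a i) := by
        intro j i
        push_cast
        ring
      simp_rw [t1, Finset.sum_sub_distrib, Finset.sum_add_distrib]
      congr 1
      congr 1
      · rw [hB, Complex.ofReal_sum, Finset.sum_mul_sum, Finset.sum_comm]
      · rw [hA, Complex.ofReal_sum, Finset.sum_mul_sum]
    rw [s1]
    have s2 : ∑ i, -(el (-a i) * (((β / 2 - A) * ((q i + -p i) / 2) : ℝ) : ℂ)) =
        -((β / 2 - A : ℝ) : ℂ) * ∑ i, (((q i - p i) / 2 : ℝ) : ℂ) * el (-a i) := by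
      rw [Finset.mul_sum]
      refine Finset.sum_congr rfl fun i _ => ?_
      push_cast
      ring
    have s3 : ∑ j, (-(el (a j) * (((q j + p j) / 2 * (β / 2 - B) : ℝ) : ℂ)) +
        ∑ i, -(el (a j - a i) * (((q j + p j) / 2 * ((q i + -p i) / 2) : ℝ) : ℂ))) =
        -((β / 2 - B : ℝ) : ℂ) * (∑ j, (((q j + p j) / 2 : ℝ) : ℂ) * el (a j)) -
          ∑ j, ∑ i, (((q j + p j) / 2 * ((q i - p i) / 2) : ℝ) : ℂ) * el (a j - a i) := by
      rw [Finset.mul_sum, ← Finset.sum_sub_distrib]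
      refine Finset.sum_congr rfl fun j _ => ?_
      have t1 : ∑ i, -(el (a j - a i) * (((q j + p j) / 2 * ((q i + -p i) / 2) : ℝ) : ℂ)) =
          -∑ i, (((q j + p j) / 2 * ((q i - p i) / 2) : ℝ) : ℂ) * el (a j - a i) := by
        rw [← Finset.sum_neg_distrib]
        refine Finset.sum_congr rfl fun i _ => ?_
        push_cast
        ring
      rw [t1]
      push_cast
      ring
    have s4 : ∑ j, ((((q j + p j) / 2 : ℝ) : ℂ) * (-(β / 2 : ℂ) * el (a j)) +
        (((q j - p j) / 2 : ℝ) : ℂ) * (-(β / 2 : ℂ) * el (-a j))) =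
        -(β / 2 : ℂ) * (∑ j, (((q j + p j) / 2 : ℝ) : ℂ) * el (a j)) +
        -(β / 2 : ℂ) * ∑ i, (((q i - p i) / 2 : ℝ) : ℂ) * el (-a i) := by
      rw [Finset.sum_add_distrib, Finset.mul_sum, Finset.mul_sum]
      congr 1
      · exact Finset.sum_congr rfl fun j _ => by ring
      · exact Finset.sum_congr rfl fun j _ => by ring
    rw [s2, s3, s4]
    push_cast
    ring
  rw [hR]
  -- the left side
  have hIm : ∀ x : ℂ, (-Complex.I * x).re = x.im := fun x => by simp
  have l1 : lf (Fin.append q (fun _ => 0)) (mC β a) = ∑ j, q j * (-(β / 2 : ℂ) * el (a j)).re := by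
    unfold lf mC
    rw [Fin.sum_univ_add]
    simp_rw [Fin.append_left, Fin.append_right, om_l, ix_l, zero_mul, Finset.sum_const_zero, add_zero, one_mul]
  have l2 : lf (Fin.append (fun _ => 0) p) (mC β a) = ∑ j, p j * (-(β / 2 : ℂ) * el (a j)).im := by
    unfold lf mC
    rw [Fin.sum_univ_add]
    simp_rw [Fin.append_left, Fin.append_right, om_r, ix_r, zero_mul, Finset.sum_const_zero, zero_add, hIm]
  have l3 : qf (CC a) (Fin.append q (fun _ => 0)) = ∑ j, ∑ i, q j * q i * ((kl (a j) (a i)).re / 2) := by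
    unfold qf CC
    rw [Fin.sum_univ_add]
    simp_rw [Fin.sum_univ_add, Fin.append_left, Fin.append_right, om_l, ix_l, zero_mul, mul_zero, zero_mul,
      Finset.sum_const_zero, add_zero, map_one, one_mul]
    rw [Finset.sum_const_zero, add_zero]
  have l4 : qf (CC a) (Fin.append (fun _ => 0) p) = ∑ j, ∑ i, p j * p i * ((kl (a j) (a i)).re / 2) := by
    unfold qf CC
    rw [Fin.sum_univ_add]
    simp_rw [Fin.sum_univ_add, Fin.append_left, Fin.append_right, om_r, ix_r, zero_mul, mul_zero, zero_mul,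
      Finset.sum_const_zero, zero_add]
    rw [Finset.sum_const_zero, zero_add]
    refine Finset.sum_congr rfl fun j _ => Finset.sum_congr rfl fun i _ => ?_
    have : -Complex.I * (starRingEnd ℂ) (-Complex.I) * kl (a j) (a i) = kl (a j) (a i) := by
      rw [map_neg, Complex.conj_I, neg_neg, neg_mul, Complex.I_mul_I]
      ring
    rw [this]
  have l5 : bf (CC a) (Fin.append q (fun _ => 0)) (Fin.append (fun _ => 0) p) =
      ∑ j, ∑ i, q j * p i * (-(kl (a j) (a i)).im / 2) := by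
    unfold bf CC
    rw [Fin.sum_univ_add]
    simp_rw [Fin.sum_univ_add, Fin.append_left, Fin.append_right, om_l, om_r, ix_l, ix_r, zero_mul, mul_zero, zero_mul,
      Finset.sum_const_zero, add_zero, zero_add]
    rw [Finset.sum_const_zero, add_zero]
    refine Finset.sum_congr rfl fun j _ => Finset.sum_congr rfl fun i _ => ?_
    have : (1 * (starRingEnd ℂ) (-Complex.I) * kl (a j) (a i)).re = -(kl (a j) (a i)).im := by
      rw [map_neg, Complex.conj_I, neg_neg, one_mul]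
      simp
    rw [this]
  rw [l1, l2, l3, l4, l5]
  have m1 : ∑ j, ((((q j + p j) / 2 : ℝ) : ℂ) * (-(β / 2 : ℂ) * el (a j)) +
      (((q j - p j) / 2 : ℝ) : ℂ) * (-(β / 2 : ℂ) * el (-a j))) =
      ((∑ j, q j * (-(β / 2 : ℂ) * el (a j)).re : ℝ) : ℂ) +
        ((∑ j, p j * (-(β / 2 : ℂ) * el (a j)).im : ℝ) : ℂ) * Complex.I := by
    push_cast
    rw [Finset.sum_mul, ← Finset.sum_add_distrib]
    refine Finset.sum_congr rfl fun j _ => ?_
    rw [el_neg]
    obtain ⟨z, hz⟩ : ∃ z : ℂ, z = -(β / 2 : ℂ) * el (a j) := ⟨_, rfl⟩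
    have hz' : -(β / 2 : ℂ) * (starRingEnd ℂ) (el (a j)) = (starRingEnd ℂ) z := by
      rw [hz, map_mul, map_neg, map_div₀, Complex.conj_ofReal, map_ofNat]
    rw [hz', ← hz]
    have h1 : z = (z.re : ℂ) + (z.im : ℂ) * Complex.I := (Complex.re_add_im z).symm
    have h2 : (starRingEnd ℂ) z = (z.re : ℂ) - (z.im : ℂ) * Complex.I := by
      apply Complex.ext <;> simp
    rw [h2]
    have h3 : (((q j : ℂ) + p j) / 2) * z = (((q j : ℂ) + p j) / 2) * ((z.re : ℂ) + (z.im : ℂ) * Complex.I) := by rw [← h1]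
    push_cast
    rw [h3]
    ring
  have m2 : ∑ j, ∑ i, (((q j + p j) / 2 * ((q i - p i) / 2) : ℝ) : ℂ) * kl (a j) (a i) =
      ((∑ j, ∑ i, q j * q i * ((kl (a j) (a i)).re / 2) : ℝ) : ℂ) / 2 -
      ((∑ j, ∑ i, p j * p i * ((kl (a j) (a i)).re / 2) : ℝ) : ℂ) / 2 +
      ((∑ j, ∑ i, q j * p i * (-(kl (a j) (a i)).im / 2) : ℝ) : ℂ) * Complex.I := by
    rw [← sub_eq_zero]
    push_cast
    rw [Finset.sum_div, Finset.sum_div, Finset.sum_mul]
    simp_rw [Finset.sum_div, Finset.sum_mul]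
    rw [← Finset.sum_sub_distrib, ← Finset.sum_add_distrib, ← Finset.sum_sub_distrib]
    simp_rw [← Finset.sum_sub_distrib, ← Finset.sum_add_distrib, ← Finset.sum_sub_distrib]
    refine anti fun j i => ?_
    have c1 : kl (a i) (a j) = (starRingEnd ℂ) (kl (a j) (a i)) := (kl_conj _ _).symm
    obtain ⟨z, hz⟩ : ∃ z : ℂ, z = kl (a j) (a i) := ⟨_, rfl⟩
    rw [c1, ← hz]
    have h1 : z = (z.re : ℂ) + (z.im : ℂ) * Complex.I := (Complex.re_add_im z).symm
    have h2 : (starRingEnd ℂ) z = (z.re : ℂ) - (z.im : ℂ) * Complex.I := by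
      apply Complex.ext <;> simp
    have h3 : ((starRingEnd ℂ) z).re = z.re := Complex.conj_re z
    have h4 : ((starRingEnd ℂ) z).im = -z.im := Complex.conj_im z
    rw [h3, h4, h2]
    have h5 : ∀ c : ℂ, c * z = c * ((z.re : ℂ) + (z.im : ℂ) * Complex.I) := fun c => by rw [← h1]
    rw [h5]
    push_cast
    ring
  rw [m1, m2]
  push_cast
  ring

end Pool.Agent.V11128.CXL
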