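import Pool.Agent.Y753.SHR.R20
import Pool.Agent.Y753.SHR.R13
import Pool.Agent.V11128.CXL.E
import Pool.Agent.V11128.CXL.K

set_option autoImplicit false

/-! The complex landscape: from the mixed moments to the limit law. -/

namespace Pool.Agent.V11128.CXL

open MeasureTheory Filter Topology ProbabilityTheory
open Pool.Agent.Y753.SHL
open Pool.Agent.Y753.SHR
open Pool.Agent.V11128.SHL (nor_int bf)
open Pool.Agent.H306R2 (aF aF_pos)

/-- the values of zeta at the shifted points -/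
noncomputable def zc (δ a t : ℝ) : ℂ := riemannZeta (1 / 2 + δ + ((t + a * δ : ℝ) : ℂ) * Complex.I)

lemma zc_norm (δ a t : ℝ) : ‖zc δ a t‖ = za δ a t := rfl

variable {n : ℕ}

/-- the ratios -/
noncomputable def Rt (δ : ℝ) (a : Fin n → ℝ) (t : ℝ) (j : Fin n) : ℂ := zc δ (a j) t / zc δ 0 t

/-- the increments, real and imaginary parts -/
noncomputable def Vt (w : ℝ → ℂ) (δ : ℝ) (a : Fin n → ℝ) (t : ℝ) (s : Fin (n + n)) : ℝ :=
  (om s * (w (t + a (ix s) * δ) - w (t + 0 * δ))).re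

lemma Vt_y (w : ℝ → ℂ) (δ : ℝ) (a : Fin n → ℝ) (t : ℝ) (j : Fin n) :
    yv (Vt w δ a t) j = (w (t + a j * δ) - w (t + 0 * δ)).re := by
  unfold yv Vt
  rw [om_l, ix_l, one_mul]

lemma Vt_x (w : ℝ → ℂ) (δ : ℝ) (a : Fin n → ℝ) (t : ℝ) (j : Fin n) :
    xv (Vt w δ a t) j = (w (t + a j * δ) - w (t + 0 * δ)).im := by
  unfold xv Vt
  rw [om_r, ix_r]
  simp

lemma Vt_meas {w : ℝ → ℂ} (hw : Measurable w) (δ : ℝ) (a : Fin n → ℝ) : Measurable (Vt w δ a) := by
  refine measurable_pi_lambda _ fun s => ?_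
  unfold Vt
  refine Complex.measurable_re.comp (Measurable.const_mul ?_ _)
  exact (hw.comp (measurable_id.add_const _)).sub (hw.comp (measurable_id.add_const _))

lemma Rm_Vt {w : ℝ → ℂ} {δ : ℝ} {a : Fin n → ℝ} {t : ℝ}
    (h : ∀ j : Fin (n + 1), Complex.exp (w (t + (Fin.cons 0 a : Fin (n + 1) → ℝ) j * δ)) =
      zc δ ((Fin.cons 0 a : Fin (n + 1) → ℝ) j) t) : Rm (Vt w δ a t) = Rt δ a t := by
  funext j
  unfold Rm Rt
  rw [Vt_y, Vt_x, Complex.re_add_im, Complex.exp_sub]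
  have h0 := h 0
  have h1 := h j.succ
  rw [Fin.cons_zero] at h0
  rw [Fin.cons_succ] at h1
  rw [h0, h1]

lemma point {w : ℝ → ℂ} {δ β : ℝ} {q p a : Fin n → ℝ} {t : ℝ}
    (h0 : Complex.exp (w (t + 0 * δ)) = zc δ 0 t) :
    ((za δ 0 t ^ β : ℝ) : ℂ) * ((Real.exp (lf q (yv (Vt w δ a t))) : ℂ) * Em 1 (lf p (xv (Vt w δ a t)))) =
      zr w δ (kap β q p) (Fin.cons 0 a) t *
        (starRingEnd ℂ) (zr w δ (kap β q (fun j => -p j)) (Fin.cons 0 a) t) := by
  have e0 : za δ 0 t ^ β = Real.exp ((w (t + 0 * δ)).re * β) := by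
    rw [← zc_norm, ← h0, Complex.norm_exp, ← Real.exp_mul]
  have e1 : ∀ κ : Fin (n + 1) → ℝ, zr w δ κ (Fin.cons 0 a) t = Complex.exp
      ((κ 0 : ℂ) * w (t + 0 * δ) + ∑ j : Fin n, (κ j.succ : ℂ) * w (t + a j * δ)) := by
    intro κ
    unfold zr
    rw [← Complex.exp_sum, Fin.sum_univ_succ]
    simp_rw [Fin.cons_zero, Fin.cons_succ]
  rw [e0, e1, e1, ← Complex.exp_conj, ← Complex.exp_add]
  unfold Em
  rw [Complex.ofReal_exp, Complex.ofReal_exp, ← Complex.exp_add, ← Complex.exp_add]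
  congr 1
  simp_rw [kap_zero, kap_succ]
  rw [map_add, map_sum, map_mul, Complex.conj_ofReal]
  simp_rw [map_mul, Complex.conj_ofReal]
  obtain ⟨w0, hw0⟩ : ∃ w0 : ℂ, w0 = w (t + 0 * δ) := ⟨_, rfl⟩
  obtain ⟨d, hd⟩ : ∃ d : Fin n → ℂ, ∀ j, d j = w (t + a j * δ) - w0 := ⟨_, fun _ => rfl⟩
  have hd' : ∀ j, w (t + a j * δ) = d j + w0 := fun j => by rw [hd]; ring
  have y1 : lf q (yv (Vt w δ a t)) = ∑ j, q j * (d j).re := by
    unfold lf
    exact Finset.sum_congr rfl fun j _ => by rw [Vt_y, hd, hw0]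
  have x1 : lf p (xv (Vt w δ a t)) = ∑ j, p j * (d j).im := by
    unfold lf
    exact Finset.sum_congr rfl fun j _ => by rw [Vt_x, hd, hw0]
  rw [y1, x1, ← hw0]
  simp_rw [hd', map_add]
  have hz : ∀ z : ℂ, (starRingEnd ℂ) z = (z.re : ℂ) - (z.im : ℂ) * Complex.I := fun z => by
    apply Complex.ext <;> simp
  have hz' : ∀ (z c : ℂ), c * z = c * ((z.re : ℂ) + (z.im : ℂ) * Complex.I) := fun z c => by
    rw [Complex.re_add_im]
  have t1 : ∑ j, (((q j + p j) / 2 : ℝ) : ℂ) * (d j + w0) =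
      ∑ j, (((q j + p j) / 2 : ℝ) : ℂ) * d j + ((∑ j, (q j + p j) / 2 : ℝ) : ℂ) * w0 := by
    rw [Complex.ofReal_sum, Finset.sum_mul, ← Finset.sum_add_distrib]
    exact Finset.sum_congr rfl fun j _ => by ring
  have t2 : ∑ j, (((q j + -p j) / 2 : ℝ) : ℂ) * ((starRingEnd ℂ) (d j) + (starRingEnd ℂ) w0) =
      ∑ j, (((q j + -p j) / 2 : ℝ) : ℂ) * (starRingEnd ℂ) (d j) + ((∑ j, (q j + -p j) / 2 : ℝ) : ℂ) * (starRingEnd ℂ) w0 := by
    rw [Complex.ofReal_sum, Finset.sum_mul, ← Finset.sum_add_distrib]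
    exact Finset.sum_congr rfl fun j _ => by ring
  have t3 : ∑ j, (((q j + p j) / 2 : ℝ) : ℂ) * d j + ∑ j, (((q j + -p j) / 2 : ℝ) : ℂ) * (starRingEnd ℂ) (d j) =
      ((∑ j, q j * (d j).re : ℝ) : ℂ) + ((∑ j, p j * (d j).im : ℝ) : ℂ) * Complex.I := by
    rw [Complex.ofReal_sum, Complex.ofReal_sum, Finset.sum_mul, ← Finset.sum_add_distrib, ← Finset.sum_add_distrib]
    refine Finset.sum_congr rfl fun j _ => ?_
    rw [hz (d j), hz' (d j)]
    push_cast
    ring
  rw [t1, t2]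
  rw [hz w0, hz' w0, hz' w0]
  push_cast
  push_cast at t3
  linear_combination (-1 : ℂ) * t3

lemma wm_int {G : Type*} [NormedAddCommGroup G] [NormedSpace ℝ G] {p : ℝ → ℝ} {Y : ℝ → (Fin (n + n) → ℝ)} {m : Measure ℝ}
    (hp : Measurable p) (h0 : ∀ t, 0 ≤ p t) (hY : Measurable Y) {g : (Fin (n + n) → ℝ) → G}
    (hg : StronglyMeasurable g) :
    ∫ x, g x ∂((m.withDensity fun t => ENNReal.ofReal (p t)).map Y) = ∫ t, p t • g (Y t) ∂m := by
  have hz : Measurable fun t => ENNReal.ofReal (p t) := ENNReal.measurable_ofReal.comp hp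
  rw [integral_map hY.aemeasurable hg.aestronglyMeasurable,
    integral_withDensity_eq_integral_toReal_smul hz
      (Eventually.of_forall fun _ => ENNReal.ofReal_lt_top)]
  refine integral_congr_ae (Eventually.of_forall fun t => ?_)
  show (ENNReal.ofReal (p t)).toReal • g (Y t) = p t • g (Y t)
  rw [ENNReal.toReal_ofReal (h0 t)]

lemma wm_integrable {G : Type*} [NormedAddCommGroup G] [NormedSpace ℝ G] {p : ℝ → ℝ} {Y : ℝ → (Fin (n + n) → ℝ)}
    {m : Measure ℝ} (hp : Measurable p) (h0 : ∀ t, 0 ≤ p t) (hY : Measurable Y) {g : (Fin (n + n) → ℝ) → G}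
    (hg : StronglyMeasurable g) (hi : Integrable (fun t => p t • g (Y t)) m) :
    Integrable g ((m.withDensity fun t => ENNReal.ofReal (p t)).map Y) := by
  have hz : Measurable fun t => ENNReal.ofReal (p t) := ENNReal.measurable_ofReal.comp hp
  rw [integrable_map_measure hg.aestronglyMeasurable hY.aemeasurable,
    integrable_withDensity_iff_integrable_smul' hz
      (Eventually.of_forall fun _ => ENNReal.ofReal_lt_top)]
  refine hi.congr (Eventually.of_forall fun t => ?_)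
  show p t • g (Y t) = (ENNReal.ofReal (p t)).toReal • (g ∘ Y) t
  rw [ENNReal.toReal_ofReal (h0 t), Function.comp]

lemma wm_prob {p : ℝ → ℝ} {Y : ℝ → (Fin (n + n) → ℝ)} {m : Measure ℝ} (h0 : ∀ t, 0 ≤ p t) (hi : Integrable p m)
    (hY : Measurable Y) (h1 : ∫ t, p t ∂m = 1) :
    IsProbabilityMeasure ((m.withDensity fun t => ENNReal.ofReal (p t)).map Y) := by
  constructor
  rw [Measure.map_apply hY MeasurableSet.univ, Set.preimage_univ, withDensity_apply _ MeasurableSet.univ,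
    Measure.restrict_univ, ← ofReal_integral_eq_lintegral_ofReal hi (Eventually.of_forall h0), h1, ENNReal.ofReal_one]

/-- the limit law of the complex landscape -/
theorem core {δ : ℝ → ℝ} (hδ : Tendsto δ atTop (𝓝 0))
    (hδL : Tendsto (fun T : ℝ => δ T * Real.log T) atTop atTop) {D : ℝ → Set ℝ}
    (hD : ∀ T, MeasurableSet (D T) ∧ D T ⊆ Set.Icc 0 T)
    {w : ℝ → ℝ → ℂ} (hwm : ∀ T, Measurable (w T)) {β : ℝ} (hβ : 0 < β) (a : Fin n → ℝ)
    (hw : ∀ᶠ T in atTop, ∀ᵐ t ∂(volume.restrict (D T)), ∀ j : Fin (n + 1),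
      Complex.exp (w T (t + (Fin.cons 0 a : Fin (n + 1) → ℝ) j * δ T)) = zc (δ T) ((Fin.cons 0 a : Fin (n + 1) → ℝ) j) t)
    (Hm : ∀ q p : Fin n → ℚ, (∀ j, |(p j : ℝ)| < q j) → ∑ j, (q j : ℝ) + |∑ j, (p j : ℝ)| < β →
      Tendsto (fun T : ℝ => (((2 * δ T) ^ ((β / 2) ^ 2) / T : ℝ) : ℂ) *
        ∫ t in D T, zr (w T) (δ T) (kap β (fun j => (q j : ℝ)) (fun j => (p j : ℝ))) (Fin.cons 0 a) t *
          (starRingEnd ℂ) (zr (w T) (δ T) (kap β (fun j => (q j : ℝ)) (fun j => -(p j : ℝ))) (Fin.cons 0 a) t)) atTop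
      (𝓝 ((aF (β / 2) : ℂ) * ∏ j, ∏ i, (1 + Complex.I * (((Fin.cons 0 a : Fin (n + 1) → ℝ) j -
        (Fin.cons 0 a : Fin (n + 1) → ℝ) i : ℝ) : ℂ) / 2) ^
          (-((kap β (fun j => (q j : ℝ)) (fun j => (p j : ℝ)) j *
            kap β (fun j => (q j : ℝ)) (fun j => -(p j : ℝ)) i : ℝ) : ℂ)))))
    (H0 : Tendsto (fun T : ℝ => (2 * δ T) ^ ((β / 2) ^ 2) / T * ∫ t in D T, za (δ T) 0 t ^ β) atTop (𝓝 (aF (β / 2)))) :
    ∃ ρ : ProbabilityMeasure (Fin (n + n) → ℝ), Nor (mC β a) (CC a) ρ ∧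
      ∀ F : BoundedContinuousFunction (Fin n → ℂ) ℝ,
      Tendsto (fun T : ℝ => (2 * δ T) ^ ((β / 2) ^ 2) / T * ∫ t in D T, za (δ T) 0 t ^ β * F (Rt (δ T) a t)) atTop
        (𝓝 (aF (β / 2) * ∫ v, F (Rm v) ∂(ρ : Measure (Fin (n + n) → ℝ)))) := by
  classical
  obtain ⟨ρ, hρ⟩ := nor_exists (mC β a) (CC a) (CC_symm a) (CC_psd a)
  refine ⟨ρ, hρ, fun F => ?_⟩
  obtain ⟨c0, hc0⟩ : ∃ c0 : ℝ, c0 = aF (β / 2) := ⟨_, rfl⟩
  have hc : 0 < c0 := by rw [hc0]; exact aF_pos (by positivity)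
  rw [← hc0] at Hm H0 ⊢
  obtain ⟨W, hW⟩ : ∃ W : ℝ → ℝ, ∀ T, W T = (2 * δ T) ^ ((β / 2) ^ 2) / T := ⟨_, fun _ => rfl⟩
  simp_rw [← hW] at Hm H0 ⊢
  have hlt : ∀ᶠ T in atTop, δ T < 1 / 2 := hδ.eventually (gt_mem_nhds (by norm_num))
  have hW0 : ∀ᶠ T in atTop, 0 ≤ W T := by
    filter_upwards [pos_path hδL, eventually_gt_atTop 0] with T h1 h2
    rw [hW]
    positivity
  obtain ⟨ps, hps⟩ : ∃ ps : ℝ → ℝ, ∀ T, ps T = W T * ∫ t in D T, za (δ T) 0 t ^ β := ⟨_, fun _ => rfl⟩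
  simp_rw [← hps] at H0
  have hps0 : ∀ᶠ T in atTop, 0 < ps T := H0.eventually (lt_mem_nhds hc)
  obtain ⟨P, hP⟩ : ∃ P : ℝ → ℝ → ℝ, ∀ T t, P T t = W T * za (δ T) 0 t ^ β / ps T := ⟨_, fun _ _ => rfl⟩
  have hcont : ∀ {T : ℝ}, δ T < 1 / 2 → ∀ x r : ℝ, 0 ≤ r → Continuous fun t => za (δ T) x t ^ r := fun hT x r hr =>
    (za_cont hT x).rpow_const fun _ => Or.inr hr
  have hPm : ∀ᶠ T in atTop, Measurable (P T) ∧ (∀ t, 0 ≤ P T t) ∧ Integrable (P T) (volume.restrict (D T)) ∧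
      ∫ t in D T, P T t = 1 := by
    filter_upwards [hlt, hW0, hps0] with T h1 h2 h3
    have e : P T = fun t => (W T / ps T) * za (δ T) 0 t ^ β := by
      funext t
      rw [hP]
      ring
    refine ⟨?_, fun t => ?_, ?_, ?_⟩
    · rw [e]
      exact (hcont h1 0 β hβ.le).measurable.const_mul _
    · rw [hP]
      exact div_nonneg (mul_nonneg h2 (Real.rpow_nonneg (za_nonneg _ _ _) _)) h3.le
    · rw [e]
      exact (((hcont h1 0 β hβ.le).continuousOn.integrableOn_compact isCompact_Icc).mono_set (hD T).2).const_mul _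
    · rw [e, integral_const_mul, div_mul_eq_mul_div, ← hps, div_self h3.ne']
  obtain ⟨μ, hμ⟩ : ∃ μ : ℝ → ProbabilityMeasure (Fin (n + n) → ℝ), ∀ T,
      (∀ t, 0 ≤ P T t) → Integrable (P T) (volume.restrict (D T)) → ∫ t in D T, P T t = 1 →
        (μ T : Measure (Fin (n + n) → ℝ)) =
          ((volume.restrict (D T)).withDensity fun t => ENNReal.ofReal (P T t)).map (Vt (w T) (δ T) a) := by
    refine ⟨fun T => if h : (∀ t, 0 ≤ P T t) ∧ Integrable (P T) (volume.restrict (D T)) ∧ ∫ t in D T, P T t = 1 then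
      ⟨_, wm_prob h.1 h.2.1 (Vt_meas (hwm T) (δ T) a) h.2.2⟩ else ρ, fun T h1 h2 h3 => ?_⟩
    simp only [dif_pos (show (∀ t, 0 ≤ P T t) ∧ Integrable (P T) (volume.restrict (D T)) ∧ ∫ t in D T, P T t = 1 from
      ⟨h1, h2, h3⟩)]
    rfl
  have hdata : Data (fun T => (μ T : Measure (Fin (n + n) → ℝ))) (ρ : Measure (Fin (n + n) → ℝ)) β := by
    intro q p hqp hsum
    obtain ⟨g, hg⟩ : ∃ g : (Fin (n + n) → ℝ) → ℂ, ∀ v, g v =
        (Real.exp (lf (fun j => (q j : ℝ)) (yv v)) : ℂ) * Em 1 (lf (fun j => (p j : ℝ)) (xv v)) := ⟨_, fun _ => rfl⟩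
    have hgc : Continuous g := by
      have e : g = fun v => (Real.exp (lf (fun j => (q j : ℝ)) (yv v)) : ℂ) * Em 1 (lf (fun j => (p j : ℝ)) (xv v)) :=
        funext hg
      rw [e]
      exact (Complex.continuous_ofReal.comp (Real.continuous_exp.comp ((V11128.SHL.lf_cont _).comp yv_cont))).mul
        ((Em_cont 1).comp ((V11128.SHL.lf_cont _).comp xv_cont))
    have hgn : ∀ v, ‖g v‖ = Real.exp (lf (fun j => (q j : ℝ)) (yv v)) := by
      intro v
      rw [hg, norm_mul, Em_norm, mul_one, Complex.norm_real, Real.norm_of_nonneg (Real.exp_pos _).le]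
    have hq0 : ∀ j, (0 : ℝ) < q j := fun j => lt_of_le_of_lt (abs_nonneg _) (hqp j)
    have hex0 : ∀ j, 0 ≤ ex β (fun j => (q j : ℝ)) j := by
      intro j
      refine Fin.cases ?_ (fun i => ?_) j
      · rw [ex_zero]
        have := abs_nonneg (∑ j, (p j : ℝ))
        linarith
      · rw [ex_succ]
        have := hq0 i
        positivity
    -- the transforms of the limit law
    have hlim : ∫ v, g v ∂(ρ : Measure (Fin (n + n) → ℝ)) = ∏ j, ∏ i, (1 + Complex.I * (((Fin.cons 0 a : Fin (n + 1) → ℝ) j -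
        (Fin.cons 0 a : Fin (n + 1) → ℝ) i : ℝ) : ℂ) / 2) ^
          (-((kap β (fun j => (q j : ℝ)) (fun j => (p j : ℝ)) j *
            kap β (fun j => (q j : ℝ)) (fun j => -(p j : ℝ)) i : ℝ) : ℂ)) := by
      rw [← product, ← nor_cexp (CC_symm a) hρ]
      refine integral_congr_ae (Eventually.of_forall fun v => ?_)
      simp only
      rw [hg, lf_append, lf_append]
      have z1 : ∀ x : Fin n → ℝ, lf (fun _ => (0 : ℝ)) x = 0 := fun x => by
        unfold lf
        simp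
      rw [z1, z1, add_zero, zero_add]
    have hint : ∀ᶠ T in atTop, Integrable (fun t => P T t • g (Vt (w T) (δ T) a t)) (volume.restrict (D T)) := by
      filter_upwards [hlt, hw, hPm, hW0, hps0] with T h1 h2 h3 h4 h5
      have hc1 : Continuous fun t => ∏ j, za (δ T) ((Fin.cons 0 a : Fin (n + 1) → ℝ) j) t ^ (2 * ex β (fun j => (q j : ℝ)) j) :=
        continuous_finsetProd _ fun j _ => hcont h1 _ _ (by have := hex0 j; positivity)
      refine Integrable.mono' ((((hc1.continuousOn.integrableOn_compact isCompact_Icc).mono_set (hD T).2).const_mul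
        (W T / ps T))) ?_ ?_
      · exact (h3.1.smul (hgc.measurable.comp (Vt_meas (hwm T) (δ T) a))).aestronglyMeasurable
      · filter_upwards [h2] with t ht
        rw [norm_smul, Real.norm_of_nonneg (h3.2.1 t), hgn]
        have hzne : ∀ j : Fin (n + 1), 0 < za (δ T) ((Fin.cons 0 a : Fin (n + 1) → ℝ) j) t := by
          intro j
          rw [← zc_norm, ← ht j, Complex.norm_exp]
          exact Real.exp_pos _
        have h00 : 0 < za (δ T) 0 t := by
          have := hzne 0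
          rwa [Fin.cons_zero] at this
        have haj : ∀ j, 0 < za (δ T) (a j) t := fun j => by
          have := hzne j.succ
          rwa [Fin.cons_succ] at this
        have hYl : yv (Vt (w T) (δ T) a t) = Yl (δ T) a t := by
          funext j
          rw [Vt_y, Complex.sub_re]
          unfold Yl
          have k0 := ht 0
          have k1 := ht j.succ
          rw [Fin.cons_zero] at k0
          rw [Fin.cons_succ] at k1
          rw [← zc_norm, ← zc_norm, ← k0, ← k1, Complex.norm_exp, Complex.norm_exp, Real.log_exp, Real.log_exp]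
        rw [hYl, hP, ← point_id h00 haj]
        apply le_of_eq
        ring
    refine Cv.congr (f := g) ⟨?_, ?_, ?_⟩ hg
    · filter_upwards [hint, hPm] with T h1 h2
      rw [hμ T h2.2.1 h2.2.2.1 h2.2.2.2]
      exact wm_integrable h2.1 h2.2.1 (Vt_meas (hwm T) (δ T) a) hgc.stronglyMeasurable h1
    · refine Integrable.mono' (nor_int hρ (Fin.append (fun j => (q j : ℝ)) (fun _ => 0))) hgc.aestronglyMeasurable
        (Eventually.of_forall fun v => ?_)
      rw [hgn, lf_append]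
      have z1 : lf (fun _ : Fin n => (0 : ℝ)) (xv v) = 0 := by
        unfold lf
        simp
      rw [z1, add_zero]
    · rw [hlim]
      have h1 := (Hm q p hqp hsum).div (Complex.continuous_ofReal.tendsto _ |>.comp H0)
        (by exact_mod_cast hc.ne')
      rw [mul_div_cancel_left₀ _ (by exact_mod_cast hc.ne')] at h1
      refine h1.congr' ?_
      filter_upwards [hw, hPm, hps0] with T t1 t2 t3
      rw [hμ T t2.2.1 t2.2.2.1 t2.2.2.2, wm_int t2.1 t2.2.1 (Vt_meas (hwm T) (δ T) a) hgc.stronglyMeasurable]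
      show ((W T : ℝ) : ℂ) * _ / ((ps T : ℝ) : ℂ) = _
      rw [mul_div_right_comm, ← integral_const_mul]
      refine integral_congr_ae ?_
      filter_upwards [t1] with t ht
      have k0 := ht 0
      rw [Fin.cons_zero] at k0
      rw [← point k0, hg, hP, Complex.real_smul]
      push_cast
      ring
  have h1 := law hβ hρ hdata F
  have h2 := H0.mul h1
  refine h2.congr' ?_
  filter_upwards [hw, hPm, hps0] with T t1 t2 t3
  have hRmc : Continuous (Rm (n := n)) := by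
    have : Rm (n := n) = fun v => rr (Dm v) := funext fun v => (rr_Dm v).symm
    rw [this]
    exact rr_cont.comp Dm_cont
  rw [hμ T t2.2.1 t2.2.2.1 t2.2.2.2, wm_int t2.1 t2.2.1 (Vt_meas (hwm T) (δ T) a)
    (g := fun v => F (Rm v)) (F.continuous.comp hRmc).stronglyMeasurable, ← integral_const_mul, ← integral_const_mul]
  refine integral_congr_ae ?_
  filter_upwards [t1] with t ht
  rw [Rm_Vt ht, hP, smul_eq_mul]
  field_simp

end Pool.Agent.V11128.CXL
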