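import Pool.Agent.V11128.CXL.F
import Pool.Agent.Y753.SHR.R19
import Pool.Agent.Y753.SHR.Star
import Pool.Agent.Y901.SHR.Diag

set_option autoImplicit false

/-! The complex landscape: all orders. -/

namespace Pool.Agent.V11128.CXL

open MeasureTheory Filter Topology ProbabilityTheory
open Pool.Agent.Y753.SHL
open Pool.Agent.Y753.SHR
open Pool.Agent.H306R2 (aF aF_pos)

variable {n : ℕ}

/-- the exponents of the mixed moments -/
def Ad (β : ℝ) (x : ℝ) : Prop := 0 < x ∧ ∃ r : ℚ, x = r ∨ x = β / 2 + r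

theorem core' {δ : ℝ → ℝ} (hδ : Tendsto δ atTop (𝓝 0))
    (hδL : Tendsto (fun T : ℝ => δ T * Real.log T) atTop atTop) {D : ℝ → Set ℝ}
    (hD : ∀ T, MeasurableSet (D T) ∧ D T ⊆ Set.Icc 0 T)
    {w : ℝ → ℝ → ℂ} (hwm : ∀ T, Measurable (w T)) {β : ℝ} (hβ : 0 < β) (a : Fin n → ℝ)
    (hw : ∀ᶠ T in atTop, ∀ᵐ t ∂(volume.restrict (D T)), ∀ j : Fin (n + 1),
      Complex.exp (w T (t + (Fin.cons 0 a : Fin (n + 1) → ℝ) j * δ T)) = zc (δ T) ((Fin.cons 0 a : Fin (n + 1) → ℝ) j) t)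
    (HM : ∀ (k l : ℕ) (κ x : Fin k → ℝ) (τ y : Fin l → ℝ), 1 ≤ k → 1 ≤ l → ∑ j, κ j = β / 2 → ∑ i, τ i = β / 2 →
      (∀ j, Ad β (κ j)) → (∀ j, x j = 0 ∨ ∃ i, x j = a i) → (∀ j, Ad β (τ j)) → (∀ j, y j = 0 ∨ ∃ i, y j = a i) →
      Tendsto (fun T : ℝ => (((2 * δ T) ^ ((β / 2) ^ 2) / T : ℝ) : ℂ) *
        ∫ t in D T, zr (w T) (δ T) κ x t * (starRingEnd ℂ) (zr (w T) (δ T) τ y t)) atTop
      (𝓝 ((aF (β / 2) : ℂ) * ∏ j, ∏ i, (1 + Complex.I * ((x j - y i : ℝ) : ℂ) / 2) ^ (-((κ j * τ i : ℝ) : ℂ))))) :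
    ∃ ρ : ProbabilityMeasure (Fin (n + n) → ℝ), Nor (mC β a) (CC a) ρ ∧
      ∀ F : BoundedContinuousFunction (Fin n → ℂ) ℝ,
      Tendsto (fun T : ℝ => (2 * δ T) ^ ((β / 2) ^ 2) / T * ∫ t in D T, za (δ T) 0 t ^ β * F (Rt (δ T) a t)) atTop
        (𝓝 (aF (β / 2) * ∫ v, F (Rm v) ∂(ρ : Measure (Fin (n + n) → ℝ)))) := by
  have hx : ∀ j : Fin (n + 1), (Fin.cons 0 a : Fin (n + 1) → ℝ) j = 0 ∨ ∃ i, (Fin.cons 0 a : Fin (n + 1) → ℝ) j = a i := by
    intro j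
    refine Fin.cases (Or.inl ?_) (fun i => Or.inr ⟨i, ?_⟩) j
    · rw [Fin.cons_zero]
    · rw [Fin.cons_succ]
  refine core hδ hδL hD hwm hβ a hw (fun q p hqp hsum => ?_) ?_
  · have habs := abs_le.1 (le_refl |∑ j, (p j : ℝ)|)
    refine HM (n + 1) (n + 1) _ _ _ _ (Nat.le_add_left 1 n) (Nat.le_add_left 1 n) (kap_sum _ _ _) (kap_sum _ _ _)
      (fun j => ?_) hx (fun j => ?_) hx
    · refine Fin.cases ⟨?_, -(∑ j, (q j + p j) / 2), Or.inr ?_⟩ (fun i => ⟨?_, (q i + p i) / 2, Or.inl ?_⟩) j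
      · rw [kap_zero, ← Finset.sum_div, Finset.sum_add_distrib]
        linarith [habs.2]
      · rw [kap_zero]
        push_cast
        ring
      · rw [kap_succ]
        have := (abs_lt.1 (hqp i)).1
        linarith
      · rw [kap_succ]
        push_cast
        ring
    · refine Fin.cases ⟨?_, -(∑ j, (q j - p j) / 2), Or.inr ?_⟩ (fun i => ⟨?_, (q i - p i) / 2, Or.inl ?_⟩) j
      · rw [kap_zero, ← Finset.sum_div, Finset.sum_add_distrib, Finset.sum_neg_distrib]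
        linarith [habs.1]
      · rw [kap_zero]
        push_cast
        have : ∀ j : Fin n, ((q j : ℝ) + -(p j : ℝ)) / 2 = ((q j : ℝ) - p j) / 2 := fun j => by ring
        simp_rw [this]
        ring
      · rw [kap_succ]
        have := (abs_lt.1 (hqp i)).2
        linarith
      · rw [kap_succ]
        push_cast
        ring
  · have h1 := HM 1 1 (fun _ => β / 2) (fun _ => 0) (fun _ => β / 2) (fun _ => 0) le_rfl le_rfl (by simp) (by simp)
      (fun _ => ⟨by positivity, 0, Or.inr (by push_cast; ring)⟩) (fun _ => Or.inl rfl)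
      (fun _ => ⟨by positivity, 0, Or.inr (by push_cast; ring)⟩) (fun _ => Or.inl rfl)
    have h2 := (Complex.continuous_re.tendsto _).comp h1
    simp only [Finset.univ_unique, Fin.default_eq_zero, Finset.prod_singleton, sub_self, Complex.ofReal_zero, mul_zero,
      zero_div, add_zero, Complex.one_cpow, mul_one, Complex.ofReal_re] at h2
    refine h2.congr' ?_
    filter_upwards [hw] with T hT
    simp only [Function.comp]
    rw [Complex.re_ofReal_mul]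
    congr 1
    have e1 : ∫ t in D T, zr (w T) (δ T) (fun _ : Fin 1 => β / 2) (fun _ => 0) t *
        (starRingEnd ℂ) (zr (w T) (δ T) (fun _ : Fin 1 => β / 2) (fun _ => 0) t) =
        ((∫ t in D T, za (δ T) 0 t ^ β : ℝ) : ℂ) := by
      rw [← integral_complex_ofReal]
      refine integral_congr_ae ?_
      filter_upwards [hT] with t ht
      have k0 := ht 0
      rw [Fin.cons_zero] at k0
      have h6 := zr_sq (k := 1) (w := w T) (δ := δ T) (κ := fun _ => β / 2) (a := fun _ => 0) (t := t) fun _ => k0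
      rw [h6, Fin.prod_univ_one]
      have e2 : 2 * (β / 2) = β := by ring
      rw [e2]
      rfl
    rw [e1, Complex.ofReal_re]

/-- order at most four, no exceptional set -/
theorem full {δ : ℝ → ℝ} (hδ : Tendsto δ atTop (𝓝 0))
    (hδL : Tendsto (fun T : ℝ => δ T * Real.log T) atTop atTop) {β : ℝ} (hβ : 0 < β) (hβ4 : β ≤ 4) (a : Fin n → ℝ) :
    ∃ ρ : ProbabilityMeasure (Fin (n + n) → ℝ), Nor (mC β a) (CC a) ρ ∧
      ∀ F : BoundedContinuousFunction (Fin n → ℂ) ℝ,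
      Tendsto (fun T : ℝ => (2 * δ T) ^ ((β / 2) ^ 2) / T * ∫ t in Set.Icc 0 T, za (δ T) 0 t ^ β * F (Rt (δ T) a t)) atTop
        (𝓝 (aF (β / 2) * ∫ v, F (Rm v) ∂(ρ : Measure (Fin (n + n) → ℝ)))) := by
  obtain ⟨S, hS⟩ : ∃ S : Set ℝ, S = insert 0 (Set.range a) := ⟨_, rfl⟩
  obtain ⟨R, hR⟩ : ∃ R : Set ℝ, R = {x | Ad β x} := ⟨_, rfl⟩
  have hSc : S.Countable := by rw [hS]; exact (Set.countable_range a).insert 0
  have hRc : R.Countable := by
    have h1 : ((Set.range fun r : ℚ => (r : ℝ)) ∪ Set.range fun r : ℚ => β / 2 + (r : ℝ)).Countable :=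
      (Set.countable_range _).union (Set.countable_range _)
    refine h1.mono ?_
    rw [hR]
    rintro x ⟨_, r, hr | hr⟩
    · exact Or.inl ⟨r, hr.symm⟩
    · exact Or.inr ⟨r, hr.symm⟩
  have hR0 : ∀ r ∈ R, 0 < r := fun r hr => by rw [hR] at hr; exact hr.1
  obtain ⟨E, w, hE, hvol, hw, hm⟩ := mixed_small Pool.Agent.Y901.SHR.done Pool.Agent.Y753.SHR.star hδ hδL le_rfl hSc hRc hR0
  have hmemS : ∀ x : ℝ, (x = 0 ∨ ∃ i, x = a i) → x ∈ S := by
    rintro x (h | ⟨i, h⟩)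
    · rw [hS, h]; exact Set.mem_insert _ _
    · rw [hS, h]; exact Set.mem_insert_of_mem _ (Set.mem_range_self i)
  refine core' hδ hδL (fun T => ⟨measurableSet_Icc, subset_rfl⟩) (fun T => (hE T).2.2.1) hβ a ?_ ?_
  · filter_upwards [hw] with T hT
    refine ae_restrict_of_ae (ae_all_iff.mpr fun j => ?_)
    filter_upwards [zeros_ae (δ T) ((Fin.cons 0 a : Fin (n + 1) → ℝ) j * δ T)] with t ht
    exact hT _ ht
  · intro k l κ x τ y hk hl hκs hτs hκ hx hτ hy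
    exact (hm k l κ x τ y (β / 2) hk hl hκs hτs (fun j => by rw [hR]; exact hκ j) (fun j => hmemS _ (hx j))
      (fun j => by rw [hR]; exact hτ j) (fun j => hmemS _ (hy j))).2 (by linarith)

/-- all orders, off one set -/
theorem off {δ : ℝ → ℝ} (hδ : Tendsto δ atTop (𝓝 0))
    (hδL : Tendsto (fun T : ℝ => δ T * Real.log T) atTop atTop) {S B : Set ℝ} (hS : S.Countable) (hB : B.Countable)
    (hB0 : ∀ β ∈ B, 0 < β) :
    ∃ E : ℝ → Set ℝ, (∀ T, MeasurableSet (E T) ∧ E T ⊆ Set.Icc 0 T) ∧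
      Tendsto (fun T => (volume (E T)).toReal / T) atTop (𝓝 0) ∧
      ∀ β ∈ B, ∀ (n : ℕ) (a : Fin n → ℝ), (∀ j, a j ∈ S) →
    ∃ ρ : ProbabilityMeasure (Fin (n + n) → ℝ), Nor (mC β a) (CC a) ρ ∧ ∀ F : BoundedContinuousFunction (Fin n → ℂ) ℝ,
      Tendsto (fun T : ℝ => (2 * δ T) ^ ((β / 2) ^ 2) / T * ∫ t in Set.Icc 0 T \ E T, za (δ T) 0 t ^ β * F (Rt (δ T) a t)) atTop
        (𝓝 (aF (β / 2) * ∫ v, F (Rm v) ∂(ρ : Measure (Fin (n + n) → ℝ)))) := by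
  obtain ⟨R, hR⟩ : ∃ R : Set ℝ, R = {x | 0 < x ∧ ∃ β ∈ insert 0 B, ∃ r : ℚ, x = β / 2 + r} := ⟨_, rfl⟩
  have hRc : R.Countable := by
    have h1 : ((fun z : ℝ × ℚ => z.1 / 2 + (z.2 : ℝ)) '' ((insert 0 B) ×ˢ Set.univ)).Countable :=
      ((hB.insert 0).prod (Set.to_countable _)).image _
    refine h1.mono ?_
    rw [hR]
    rintro x ⟨_, β, hβ, r, hr⟩
    exact ⟨(β, r), ⟨hβ, Set.mem_univ _⟩, hr.symm⟩
  have hR0 : ∀ r ∈ R, 0 < r := fun r hr => by rw [hR] at hr; exact hr.1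
  obtain ⟨E, w, hE, hvol, hw, hm⟩ := main_R Pool.Agent.Y901.SHR.done Pool.Agent.Y753.SHR.star hδ hδL (hS.insert 0) hRc hR0
  refine ⟨E, fun T => ⟨(hE T).1, (hE T).2.1⟩, hvol, fun β hβ n a ha => ?_⟩
  have hmemR : ∀ x : ℝ, Ad β x → x ∈ R := by
    rintro x ⟨h0, r, hr | hr⟩
    · rw [hR]
      exact ⟨h0, 0, Set.mem_insert _ _, r, by rw [hr]; ring⟩
    · rw [hR]
      exact ⟨h0, β, Set.mem_insert_of_mem _ hβ, r, hr⟩
  have hmemS : ∀ x : ℝ, (x = 0 ∨ ∃ i, x = a i) → x ∈ insert 0 S := by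
    rintro x (h | ⟨i, h⟩)
    · rw [h]; exact Set.mem_insert _ _
    · rw [h]; exact Set.mem_insert_of_mem _ (ha i)
  refine core' hδ hδL (fun T => ⟨measurableSet_Icc.diff (hE T).1, Set.sdiff_subset⟩) (fun T => (hE T).2.2) (hB0 β hβ) a ?_ ?_
  · have h1 : ∀ᶠ T in atTop, ∀ j : Fin (n + 1), ∀ t ∈ Set.Icc 0 T \ E T,
        Complex.exp (w T (t + (Fin.cons 0 a : Fin (n + 1) → ℝ) j * δ T)) =
          riemannZeta (1 / 2 + δ T + ((t + (Fin.cons 0 a : Fin (n + 1) → ℝ) j * δ T : ℝ) : ℂ) * Complex.I) := by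
      refine eventually_all.mpr fun j => hw _ (hmemS _ ?_)
      refine Fin.cases (Or.inl ?_) (fun i => Or.inr ⟨i, ?_⟩) j
      · rw [Fin.cons_zero]
      · rw [Fin.cons_succ]
    filter_upwards [h1] with T hT
    filter_upwards [ae_restrict_mem (measurableSet_Icc.diff (hE T).1)] with t ht j
    exact hT j t ht
  · intro k l κ x τ y hk hl hκs hτs hκ hx hτ hy
    exact (hm k l κ x τ y (β / 2) hk hl hκs hτs (fun j => hmemR _ (hκ j)) (fun j => hmemS _ (hx j))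
      (fun j => hmemR _ (hτ j)) (fun j => hmemS _ (hy j))).2

lemma Rt_meas {δ : ℝ} (h : δ < 1 / 2) (a : Fin n → ℝ) : Measurable (Rt δ a) := by
  refine measurable_pi_lambda _ fun j => ?_
  have h1 : ∀ x : ℝ, Measurable (zc δ x) := by
    intro x
    have h1 : Continuous fun t : ℝ => riemannZeta (1 / 2 + δ + t * Complex.I) := Pool.Agent.Y753.NL.zl_cont h
    exact (h1.comp (continuous_id.add continuous_const)).measurable
  unfold Rt
  exact (h1 _).div (h1 _)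

/-- the landscape, off a small set of large values -/
theorem small {δ : ℝ → ℝ} (hδ : Tendsto δ atTop (𝓝 0))
    (hδL : Tendsto (fun T : ℝ => δ T * Real.log T) atTop atTop) {c : ℝ} (hc : 0 ≤ c) {S B : Set ℝ} (hS : S.Countable)
    (hB : B.Countable) (hB0 : ∀ β ∈ B, 0 < β) :
    ∃ E : ℝ → Set ℝ, (∀ T, MeasurableSet (E T) ∧ E T ⊆ Set.Icc 0 T ∧ ∀ t ∈ E T, (δ T) ^ (-(2 + c)) < za (δ T) 0 t) ∧
      Tendsto (fun T => (volume (E T)).toReal / (T * (δ T) ^ (4 + 4 * c))) atTop (𝓝 0) ∧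
      ∀ β ∈ B, (β ≤ 4 ∨ 4 + 4 * c ≤ β) → ∀ (n : ℕ) (a : Fin n → ℝ), (∀ j, a j ∈ S) →
    ∃ ρ : ProbabilityMeasure (Fin (n + n) → ℝ), Nor (mC β a) (CC a) ρ ∧ ∀ F : BoundedContinuousFunction (Fin n → ℂ) ℝ,
      Tendsto (fun T : ℝ => (2 * δ T) ^ ((β / 2) ^ 2) / T * ∫ t in Set.Icc 0 T \ E T, za (δ T) 0 t ^ β * F (Rt (δ T) a t)) atTop
        (𝓝 (aF (β / 2) * ∫ v, F (Rm v) ∂(ρ : Measure (Fin (n + n) → ℝ)))) := by
  obtain ⟨E, hE, hvol, hm⟩ := off hδ hδL hS (hB.insert 4) (by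
    intro β hβ
    rcases Set.mem_insert_iff.mp hβ with h | h
    · rw [h]; norm_num
    · exact hB0 _ h)
  have hone : ∀ β ∈ insert 4 B, Tendsto (fun T : ℝ => (2 * δ T) ^ ((β / 2) ^ 2) / T *
      ∫ t in Set.Icc 0 T \ E T, za (δ T) 0 t ^ (2 * (β / 2))) atTop (𝓝 (aF (β / 2))) := by
    intro β hβ
    obtain ⟨ρ, _, h2⟩ := hm β hβ 0 (fun _ => 0) (fun j => j.elim0)
    have h3 := h2 (BoundedContinuousFunction.const _ 1)
    have e1 : 2 * (β / 2) = β := by ring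
    simp only [BoundedContinuousFunction.const_apply, mul_one, integral_const, smul_eq_mul, probReal_univ] at h3
    rw [e1]
    exact h3
  have h4 := hone 4 (Set.mem_insert _ _)
  have e4 : (4:ℝ) / 2 = 2 := by norm_num
  rw [e4] at h4
  have h4' := small_E (by norm_num) le_rfl hδ hδL hE 0 h4
  obtain ⟨E', hE', hvol', hV⟩ := shrink (κ := c) hδ hδL hE (a := fun _ => 0) fun _ => h4'
  refine ⟨E', fun T => ⟨(hE' T).1, (hE' T).2.1.trans (hE T).2, fun t ht => ((hE' T).2.2 t ht).choose_spec⟩, hvol', ?_⟩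
  intro β hβ hcase n a ha
  have hβ0 := hB0 β hβ
  obtain ⟨ρ, hρ, hF⟩ := hm β (Set.mem_insert_of_mem _ hβ) n a ha
  refine ⟨ρ, hρ, fun F => ?_⟩
  have hE'' : ∀ T, MeasurableSet (E' T) ∧ E' T ⊆ E T := fun T => ⟨(hE' T).1, (hE' T).2.1⟩
  have hd := diff_E hc (show 0 < β / 2 by positivity) (by
    rcases hcase with h | h
    · left; linarith
    · right; linarith) hδ hδL hE hE'' 0 (hV 0) h4' (hone β (Set.mem_insert_of_mem _ hβ))
  have e1 : 2 * (β / 2) = β := by ring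
  rw [e1] at hd
  have hd' : Tendsto (fun T => (2 * δ T) ^ ((β / 2) ^ 2) / T * ∫ t in E T \ E' T, ‖F‖ * za (δ T) 0 t ^ β) atTop (𝓝 0) := by
    have h1 := hd.const_mul ‖F‖
    rw [mul_zero] at h1
    refine h1.congr fun T => ?_
    rw [integral_const_mul]
    ring
  have hδ2 := hδ.eventually (gt_mem_nhds (show (0:ℝ) < 1 / 2 by norm_num))
  refine transfer (V := ℝ) (c := fun T => (2 * δ T) ^ ((β / 2) ^ 2) / T) (f := fun T t => za (δ T) 0 t ^ β * F (Rt (δ T) a t))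
    (g := fun T t => ‖F‖ * za (δ T) 0 t ^ β) ?_ hE hE'' ?_ ?_ ?_ (hF F) hd'
  · filter_upwards [pos_path hδL, eventually_gt_atTop 0] with T t1 t2
    positivity
  · filter_upwards [hδ2] with T hT
    exact (ic hT 0 hβ0.le).mul_bdd (c := ‖F‖) (F.continuous.measurable.comp (Rt_meas hT a)).aestronglyMeasurable
      (Eventually.of_forall fun t => F.norm_coe_le_norm _)
  · filter_upwards [hδ2] with T hT
    exact (ic hT 0 hβ0.le).const_mul _
  · refine Eventually.of_forall fun T t => ?_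
    rw [Real.norm_eq_abs, abs_mul, abs_of_nonneg (Real.rpow_nonneg (za_nonneg _ _ _) _), mul_comm]
    exact mul_le_mul_of_nonneg_right (F.norm_coe_le_norm _) (Real.rpow_nonneg (za_nonneg _ _ _) _)

end Pool.Agent.V11128.CXL
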