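import Pool.Agent.V11128.CXL.G

set_option autoImplicit false

/-! Homogeneous functions of finitely many shifted values. -/

namespace Pool.Agent.V11128.CXL

open MeasureTheory Filter Topology ProbabilityTheory BoundedContinuousFunction
open Pool.Agent.Y753.SHL
open Pool.Agent.Y753.SHR
open Pool.Agent.V11128.SHL (nor_int nor_exp bf)
open Pool.Agent.H306R2 (aF aF_pos)

variable {n : ℕ}

/-- homogeneous functions -/
def Hom (β : ℝ) (Φ : (Fin n → ℂ) → ℝ) : Prop :=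
  ∀ (l : ℂ) (z : Fin n → ℂ), Φ (fun j => l * z j) = ‖l‖ ^ β * Φ z

lemma hom_bound {β : ℝ} (hβ : 0 < β) {Φ : (Fin n → ℂ) → ℝ} (hc : Continuous Φ) (hh : Hom β Φ) :
    ∃ C : ℝ, 0 ≤ C ∧ ∀ z, |Φ z| ≤ C * ∑ j, ‖z j‖ ^ β := by
  obtain ⟨C, hC⟩ := (isCompact_closedBall (0 : Fin n → ℂ) 1).exists_bound_of_continuousOn hc.continuousOn
  refine ⟨max C 0, le_max_right _ _, fun z => ?_⟩
  have hS : 0 ≤ ∑ j, ‖z j‖ ^ β := Finset.sum_nonneg fun j _ => Real.rpow_nonneg (norm_nonneg _) _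
  rcases eq_or_ne z 0 with hz | hz
  · have h1 := hh 0 z
    have e : (fun j => (0 : ℂ) * z j) = z := by
      rw [hz]
      funext j
      simp
    rw [e, norm_zero, Real.zero_rpow hβ.ne', zero_mul] at h1
    rw [h1, abs_zero]
    exact mul_nonneg (le_max_right _ _) hS
  · have hr : 0 < ‖z‖ := norm_pos_iff.2 hz
    have hrc : ((‖z‖ : ℝ) : ℂ) ≠ 0 := by exact_mod_cast hr.ne'
    have h1 := hh ((‖z‖ : ℝ) : ℂ) (fun j => ((‖z‖ : ℝ) : ℂ)⁻¹ * z j)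
    have e : (fun j => ((‖z‖ : ℝ) : ℂ) * (((‖z‖ : ℝ) : ℂ)⁻¹ * z j)) = z := by
      funext j
      rw [← mul_assoc, mul_inv_cancel₀ hrc, one_mul]
    rw [e, Complex.norm_real, norm_norm] at h1
    have h2 : |Φ (fun j => ((‖z‖ : ℝ) : ℂ)⁻¹ * z j)| ≤ max C 0 := by
      refine le_trans (hC _ ?_) (le_max_left _ _)
      rw [Metric.mem_closedBall, dist_zero_right, pi_norm_le_iff_of_nonneg zero_le_one]
      intro j
      rw [norm_mul, norm_inv, Complex.norm_real, norm_norm, inv_mul_le_iff₀ hr, mul_one]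
      exact norm_le_pi_norm z j
    have h3 : ‖z‖ ^ β ≤ ∑ j, ‖z j‖ ^ β := by
      have h4 : ‖z‖ ≤ (∑ j, ‖z j‖ ^ β) ^ (1 / β) := by
        rw [pi_norm_le_iff_of_nonneg (Real.rpow_nonneg hS _)]
        intro j
        have h5 : ‖z j‖ ^ β ≤ ∑ j, ‖z j‖ ^ β :=
          Finset.single_le_sum (f := fun j => ‖z j‖ ^ β) (fun i _ => Real.rpow_nonneg (norm_nonneg _) _) (Finset.mem_univ j)
        have h6 := Real.rpow_le_rpow (Real.rpow_nonneg (norm_nonneg _) _) h5 (show 0 ≤ 1 / β by positivity)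
        rwa [← Real.rpow_mul (norm_nonneg _), mul_one_div_cancel hβ.ne', Real.rpow_one] at h6
      have h5 := Real.rpow_le_rpow hr.le h4 hβ.le
      rwa [← Real.rpow_mul hS, one_div_mul_cancel hβ.ne', Real.rpow_one] at h5
    rw [h1, abs_mul, abs_of_nonneg (Real.rpow_nonneg hr.le _), mul_comm]
    exact mul_le_mul h2 h3 (Real.rpow_nonneg hr.le _) (le_max_right _ _)

/-- the cutoff -/
noncomputable def cut (K : ℝ) (z : Fin n → ℂ) : ℝ := max 0 (min 1 (2 - ‖z‖ / K))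

lemma cut_nonneg (K : ℝ) (z : Fin n → ℂ) : 0 ≤ cut K z := le_max_left _ _

lemma cut_le_one (K : ℝ) (z : Fin n → ℂ) : cut K z ≤ 1 := max_le zero_le_one (min_le_left _ _)

lemma cut_cont (K : ℝ) : Continuous (cut (n := n) K) := by
  unfold cut
  fun_prop

lemma cut_one {K : ℝ} (hK : 0 < K) {z : Fin n → ℂ} (h : ‖z‖ ≤ K) : cut K z = 1 := by
  unfold cut
  have : ‖z‖ / K ≤ 1 := (div_le_one hK).2 h
  rw [min_eq_left (by linarith), max_eq_right zero_le_one]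

lemma cut_zero {K : ℝ} (hK : 0 < K) {z : Fin n → ℂ} (h : 2 * K ≤ ‖z‖) : cut K z = 0 := by
  unfold cut
  have : 2 ≤ ‖z‖ / K := (le_div_iff₀ hK).2 h
  exact max_eq_left ((min_le_right _ _).trans (by linarith))

/-- the truncated functions are bounded -/
lemma cut_bound {β C K : ℝ} (hβ : 0 < β) (hC : 0 ≤ C) (hK : 0 < K) {Φ : (Fin n → ℂ) → ℝ}
    (h : ∀ z, |Φ z| ≤ C * ∑ j, ‖z j‖ ^ β) (z : Fin n → ℂ) : ‖Φ z * cut K z‖ ≤ C * (n * (2 * K) ^ β) := by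
  rcases le_or_gt (2 * K) ‖z‖ with h1 | h1
  · rw [cut_zero hK h1, mul_zero, norm_zero]
    positivity
  · rw [Real.norm_eq_abs, abs_mul, abs_of_nonneg (cut_nonneg K z)]
    have h2 : ∑ j, ‖z j‖ ^ β ≤ n * (2 * K) ^ β := by
      have h3 : ∀ j, ‖z j‖ ^ β ≤ (2 * K) ^ β := fun j =>
        Real.rpow_le_rpow (norm_nonneg _) ((norm_le_pi_norm z j).trans h1.le) hβ.le
      refine (Finset.sum_le_sum fun j _ => h3 j).trans (le_of_eq ?_)
      rw [Finset.sum_const, Finset.card_univ, Fintype.card_fin, nsmul_eq_mul]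
    calc |Φ z| * cut K z ≤ |Φ z| * 1 := mul_le_mul_of_nonneg_left (cut_le_one K z) (abs_nonneg _)
      _ ≤ C * ∑ j, ‖z j‖ ^ β := by rw [mul_one]; exact h z
      _ ≤ _ := mul_le_mul_of_nonneg_left h2 hC

lemma Rm_norm (v : Fin (n + n) → ℝ) (j : Fin n) : ‖Rm v j‖ = Real.exp (yv v j) := by
  unfold Rm
  rw [Complex.norm_exp]
  simp

lemma Rm_cont : Continuous (Rm (n := n)) := by
  have : Rm (n := n) = fun v => rr (Dm v) := funext fun v => (rr_Dm v).symm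
  rw [this]
  exact rr_cont.comp Dm_cont

/-- the moments of the limit law at the critical exponent -/
lemma crit {β : ℝ} {a : Fin n → ℝ} {ρ : ProbabilityMeasure (Fin (n + n) → ℝ)} (hρ : Nor (mC β a) (CC a) ρ) (j : Fin n) :
    Integrable (fun v => ‖Rm v j‖ ^ β) (ρ : Measure (Fin (n + n) → ℝ)) ∧
      ∫ v, ‖Rm v j‖ ^ β ∂(ρ : Measure (Fin (n + n) → ℝ)) = 1 := by
  classical
  obtain ⟨c, hc⟩ : ∃ c : Fin (n + n) → ℝ, c = Fin.append (Pi.single j β) (fun _ => 0) := ⟨_, rfl⟩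
  have e0 : ∀ f : Fin n → ℝ, ∑ i, (Pi.single j β : Fin n → ℝ) i * f i = β * f j := by
    intro f
    rw [Finset.sum_eq_single j]
    · rw [Pi.single_eq_same]
    · intro i _ hi
      rw [Pi.single_eq_of_ne hi, zero_mul]
    · intro h
      exact absurd (Finset.mem_univ j) h
  have e1 : ∀ v, ‖Rm v j‖ ^ β = Real.exp (lf c v) := by
    intro v
    rw [Rm_norm, ← Real.exp_mul, hc, lf_append]
    congr 1
    unfold lf
    rw [e0]
    simp
    ring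
  have e2 : lf c (mC β a) = β * (-(β / 2) * (el (a j)).re) := by
    have h1 : lf c (mC β a) = lf (Pi.single j β) (yv (mC β a)) + lf (fun _ => 0) (xv (mC β a)) := by rw [hc, lf_append]
    rw [h1]
    unfold lf
    rw [e0]
    simp only [zero_mul, Finset.sum_const_zero, add_zero]
    congr 1
    unfold yv mC
    rw [om_l, ix_l, one_mul]
    have : -(β / 2 : ℂ) * el (a j) = ((-(β / 2) : ℝ) : ℂ) * el (a j) := by push_cast; ring
    rw [this, Complex.re_ofReal_mul]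
  have e3 : qf (CC a) c = β * (β * ((el (a j)).re)) := by
    unfold qf CC
    rw [hc, Fin.sum_univ_add]
    simp_rw [Fin.sum_univ_add, Fin.append_left, Fin.append_right, om_l, ix_l, zero_mul, mul_zero, zero_mul,
      Finset.sum_const_zero, add_zero, map_one, one_mul]
    rw [Finset.sum_const_zero, add_zero]
    have h1 : ∀ i k : Fin n, (Pi.single j β : Fin n → ℝ) i * (Pi.single j β : Fin n → ℝ) k * ((kl (a i) (a k)).re / 2) =
        (Pi.single j β : Fin n → ℝ) i * ((Pi.single j β : Fin n → ℝ) k * ((kl (a i) (a k)).re / 2)) := fun i k => by ring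
    simp_rw [h1, ← Finset.mul_sum]
    rw [e0, e0]
    congr 2
    unfold kl
    rw [sub_self, el_zero, sub_zero, el_neg, Complex.add_re, Complex.conj_re]
    ring
  have h1 := nor_int hρ c
  have h2 := nor_exp hρ c
  simp_rw [e1]
  refine ⟨h1, ?_⟩
  rw [h2, e2, e3, Real.exp_eq_one_iff]
  ring

/-- one point -/
lemma one_pt {δ : ℝ → ℝ} {D : ℝ → Set ℝ} {w : ℝ → ℝ → ℂ} {β x : ℝ}
    (hw : ∀ᶠ T in atTop, ∀ᵐ t ∂(volume.restrict (D T)), Complex.exp (w T (t + x * δ T)) = zc (δ T) x t)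
    (H : Tendsto (fun T : ℝ => (((2 * δ T) ^ ((β / 2) ^ 2) / T : ℝ) : ℂ) *
        ∫ t in D T, zr (w T) (δ T) (fun _ : Fin 1 => β / 2) (fun _ => x) t *
          (starRingEnd ℂ) (zr (w T) (δ T) (fun _ : Fin 1 => β / 2) (fun _ => x) t)) atTop
      (𝓝 ((aF (β / 2) : ℂ) * ∏ _j : Fin 1, ∏ _i : Fin 1, (1 + Complex.I * ((x - x : ℝ) : ℂ) / 2) ^
        (-((β / 2 * (β / 2) : ℝ) : ℂ))))) :
    Tendsto (fun T : ℝ => (2 * δ T) ^ ((β / 2) ^ 2) / T * ∫ t in D T, za (δ T) x t ^ β) atTop (𝓝 (aF (β / 2))) := by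
  have h2 := (Complex.continuous_re.tendsto _).comp H
  simp only [Finset.univ_unique, Fin.default_eq_zero, Finset.prod_singleton, sub_self, Complex.ofReal_zero, mul_zero,
    zero_div, add_zero, Complex.one_cpow, mul_one, Complex.ofReal_re] at h2
  refine h2.congr' ?_
  filter_upwards [hw] with T hT
  simp only [Function.comp]
  rw [Complex.re_ofReal_mul]
  congr 1
  have e1 : ∫ t in D T, zr (w T) (δ T) (fun _ : Fin 1 => β / 2) (fun _ => x) t *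
      (starRingEnd ℂ) (zr (w T) (δ T) (fun _ : Fin 1 => β / 2) (fun _ => x) t) =
      ((∫ t in D T, za (δ T) x t ^ β : ℝ) : ℂ) := by
    rw [← integral_complex_ofReal]
    refine integral_congr_ae ?_
    filter_upwards [hT] with t ht
    have h6 := zr_sq (k := 1) (w := w T) (δ := δ T) (κ := fun _ => β / 2) (a := fun _ => x) (t := t) fun _ => ht
    rw [h6, Fin.prod_univ_one]
    have e2 : 2 * (β / 2) = β := by ring
    rw [e2]
    rfl
  rw [e1, Complex.ofReal_re]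

lemma zc_cont {δ : ℝ} (h : δ < 1 / 2) (x : ℝ) : Continuous (zc δ x) := by
  have h1 : Continuous fun t : ℝ => riemannZeta (1 / 2 + δ + t * Complex.I) := Pool.Agent.Y753.NL.zl_cont h
  exact h1.comp (continuous_id.add continuous_const)

/-- the means of homogeneous functions -/
theorem core_hom {δ : ℝ → ℝ} (hδ : Tendsto δ atTop (𝓝 0))
    (hδL : Tendsto (fun T : ℝ => δ T * Real.log T) atTop atTop) {D : ℝ → Set ℝ}
    (hD : ∀ T, MeasurableSet (D T) ∧ D T ⊆ Set.Icc 0 T)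
    {w : ℝ → ℝ → ℂ} (hwm : ∀ T, Measurable (w T)) {β : ℝ} (hβ : 0 < β) (a : Fin n → ℝ)
    (hw : ∀ᶠ T in atTop, ∀ᵐ t ∂(volume.restrict (D T)), ∀ j : Fin (n + 1),
      Complex.exp (w T (t + (Fin.cons 0 a : Fin (n + 1) → ℝ) j * δ T)) = zc (δ T) ((Fin.cons 0 a : Fin (n + 1) → ℝ) j) t)
    (HM : ∀ (k l : ℕ) (κ x : Fin k → ℝ) (τ y : Fin l → ℝ), 1 ≤ k → 1 ≤ l → ∑ j, κ j = β / 2 → ∑ i, τ i = β / 2 →
      (∀ j, Ad β (κ j)) → (∀ j, x j = 0 ∨ ∃ i, x j = a i) → (∀ j, Ad β (τ j)) → (∀ j, y j = 0 ∨ ∃ i, y j = a i) →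
      Tendsto (fun T : ℝ => (((2 * δ T) ^ ((β / 2) ^ 2) / T : ℝ) : ℂ) *
        ∫ t in D T, zr (w T) (δ T) κ x t * (starRingEnd ℂ) (zr (w T) (δ T) τ y t)) atTop
      (𝓝 ((aF (β / 2) : ℂ) * ∏ j, ∏ i, (1 + Complex.I * ((x j - y i : ℝ) : ℂ) / 2) ^ (-((κ j * τ i : ℝ) : ℂ))))) :
    ∃ ρ : ProbabilityMeasure (Fin (n + n) → ℝ), Nor (mC β a) (CC a) ρ ∧
      ∀ Φ : (Fin n → ℂ) → ℝ, Continuous Φ → Hom β Φ →
      Integrable (fun v => Φ (Rm v)) (ρ : Measure (Fin (n + n) → ℝ)) ∧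
      Tendsto (fun T : ℝ => (2 * δ T) ^ ((β / 2) ^ 2) / T * ∫ t in D T, Φ (fun j => zc (δ T) (a j) t)) atTop
        (𝓝 (aF (β / 2) * ∫ v, Φ (Rm v) ∂(ρ : Measure (Fin (n + n) → ℝ)))) := by
  obtain ⟨ρ, hρ, hL⟩ := core' hδ hδL hD hwm hβ a hw HM
  refine ⟨ρ, hρ, fun Φ hΦc hΦ => ?_⟩
  have hM : ∀ j, Tendsto (fun T : ℝ => (2 * δ T) ^ ((β / 2) ^ 2) / T * ∫ t in D T, za (δ T) (a j) t ^ β) atTop
      (𝓝 (aF (β / 2))) := by
    intro j
    refine one_pt (w := w) (hw.mono fun T hT => hT.mono fun t ht => ?_) ?_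
    · have := ht j.succ
      rwa [Fin.cons_succ] at this
    · exact HM 1 1 (fun _ => β / 2) (fun _ => a j) (fun _ => β / 2) (fun _ => a j) le_rfl le_rfl (by simp) (by simp)
        (fun _ => ⟨by positivity, 0, Or.inr (by push_cast; ring)⟩) (fun _ => Or.inr ⟨j, rfl⟩)
        (fun _ => ⟨by positivity, 0, Or.inr (by push_cast; ring)⟩) (fun _ => Or.inr ⟨j, rfl⟩)
  obtain ⟨c0, hc0⟩ : ∃ c0 : ℝ, c0 = aF (β / 2) := ⟨_, rfl⟩
  have hc : 0 < c0 := by rw [hc0]; exact aF_pos (by positivity)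
  rw [← hc0] at hM hL ⊢
  obtain ⟨W, hW⟩ : ∃ W : ℝ → ℝ, ∀ T, W T = (2 * δ T) ^ ((β / 2) ^ 2) / T := ⟨_, fun _ => rfl⟩
  simp_rw [← hW] at hM hL ⊢
  have hlt : ∀ᶠ T in atTop, δ T < 1 / 2 := hδ.eventually (gt_mem_nhds (by norm_num))
  have hW0 : ∀ᶠ T in atTop, 0 ≤ W T := by
    filter_upwards [pos_path hδL, eventually_gt_atTop 0] with T h1 h2
    rw [hW]
    positivity
  obtain ⟨C, hC, hB⟩ := hom_bound hβ hΦc hΦ
  -- the norm powers
  have hNc : ∀ j : Fin n, Continuous fun z : Fin n → ℂ => ‖z j‖ ^ β := fun j =>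
    Continuous.rpow_const (by fun_prop) fun _ => Or.inr hβ.le
  have hNB : ∀ (j : Fin n) (z : Fin n → ℂ), |‖z j‖ ^ β| ≤ 1 * ∑ i, ‖z i‖ ^ β := by
    intro j z
    rw [abs_of_nonneg (Real.rpow_nonneg (norm_nonneg _) _), one_mul]
    exact Finset.single_le_sum (f := fun i => ‖z i‖ ^ β) (fun i _ => Real.rpow_nonneg (norm_nonneg _) _) (Finset.mem_univ j)
  have hcr := fun j => crit hρ j
  have hΨ : ∀ (Ψ : (Fin n → ℂ) → ℝ) (C' : ℝ), Continuous Ψ → (∀ z, |Ψ z| ≤ C' * ∑ j, ‖z j‖ ^ β) →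
      Tendsto (fun K : ℕ => ∫ v, Ψ (Rm v) * cut ((K : ℝ) + 1) (Rm v) ∂(ρ : Measure (Fin (n + n) → ℝ))) atTop
        (𝓝 (∫ v, Ψ (Rm v) ∂(ρ : Measure (Fin (n + n) → ℝ)))) := by
    intro Ψ C' h1 h2
    refine tendsto_integral_of_dominated_convergence (fun v => C' * ∑ j, ‖Rm v j‖ ^ β)
      (fun K => ((h1.comp Rm_cont).mul ((cut_cont _).comp Rm_cont)).aestronglyMeasurable)
      ((integrable_finsetSum _ fun j _ => (hcr j).1).const_mul C') (fun K => Eventually.of_forall fun v => ?_)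
      (Eventually.of_forall fun v => ?_)
    · rw [Real.norm_eq_abs, abs_mul, abs_of_nonneg (cut_nonneg _ _)]
      exact (mul_le_of_le_one_right (abs_nonneg _) (cut_le_one _ _)).trans (h2 _)
    · refine tendsto_const_nhds.congr' ?_
      obtain ⟨K0, hK0⟩ := exists_nat_ge ‖Rm v‖
      filter_upwards [eventually_ge_atTop K0] with K hK
      have : (K0 : ℝ) ≤ K := by exact_mod_cast hK
      rw [cut_one (by positivity) (by linarith), mul_one]
  -- the truncated functions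
  have hbd : ∀ (Ψ : (Fin n → ℂ) → ℝ) (C' : ℝ), 0 ≤ C' → Continuous Ψ → (∀ z, |Ψ z| ≤ C' * ∑ j, ‖z j‖ ^ β) → ∀ K : ℕ,
      Tendsto (fun T : ℝ => W T * ∫ t in D T, za (δ T) 0 t ^ β * (Ψ (Rt (δ T) a t) * cut ((K : ℝ) + 1) (Rt (δ T) a t))) atTop
        (𝓝 (c0 * ∫ v, Ψ (Rm v) * cut ((K : ℝ) + 1) (Rm v) ∂(ρ : Measure (Fin (n + n) → ℝ)))) := by
    intro Ψ C' h0 h1 h2 K
    exact hL (BoundedContinuousFunction.ofNormedAddCommGroup (fun z => Ψ z * cut ((K : ℝ) + 1) z)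
      (h1.mul (cut_cont _)) _ (cut_bound hβ h0 (by positivity) h2))
  refine ⟨Integrable.mono' ((integrable_finsetSum _ fun j _ => (hcr j).1).const_mul C)
    (hΦc.comp Rm_cont).aestronglyMeasurable (Eventually.of_forall fun v => hB _), ?_⟩
  rw [Metric.tendsto_nhds]
  intro ε hε
  have hs1 : Tendsto (fun K : ℕ => c0 * |(∫ v, Φ (Rm v) * cut ((K : ℝ) + 1) (Rm v) ∂(ρ : Measure (Fin (n + n) → ℝ))) -
      ∫ v, Φ (Rm v) ∂(ρ : Measure (Fin (n + n) → ℝ))|) atTop (𝓝 0) := by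
    have h1 := (((hΨ Φ C hΦc hB).sub_const (∫ v, Φ (Rm v) ∂(ρ : Measure (Fin (n + n) → ℝ)))).abs).const_mul c0
    rwa [sub_self, abs_zero, mul_zero] at h1
  have hs2 : Tendsto (fun K : ℕ => C * ∑ j, (c0 - c0 * ∫ v, ‖Rm v j‖ ^ β * cut ((K : ℝ) + 1) (Rm v)
      ∂(ρ : Measure (Fin (n + n) → ℝ)))) atTop (𝓝 0) := by
    have h1 : ∀ j, Tendsto (fun K : ℕ => c0 - c0 * ∫ v, ‖Rm v j‖ ^ β * cut ((K : ℝ) + 1) (Rm v)
        ∂(ρ : Measure (Fin (n + n) → ℝ))) atTop (𝓝 0) := by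
      intro j
      have h2 := ((hΨ (fun z => ‖z j‖ ^ β) 1 (hNc j) (hNB j)).const_mul c0).const_sub c0
      rwa [(hcr j).2, mul_one, sub_self] at h2
    have h2 := (tendsto_finsetSum Finset.univ fun j _ => h1 j).const_mul C
    rwa [Finset.sum_const_zero, mul_zero] at h2
  obtain ⟨K, hK1, hK2⟩ := ((hs1.eventually (gt_mem_nhds (show 0 < ε / 4 by positivity))).and
    (hs2.eventually (gt_mem_nhds (show 0 < ε / 4 by positivity)))).exists
  have l1 := hbd Φ C hC hΦc hB K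
  have l2 : Tendsto (fun T : ℝ => C * ∑ j, (W T * (∫ t in D T, za (δ T) (a j) t ^ β) -
      W T * ∫ t in D T, za (δ T) 0 t ^ β * (‖Rt (δ T) a t j‖ ^ β * cut ((K : ℝ) + 1) (Rt (δ T) a t)))) atTop
      (𝓝 (C * ∑ j, (c0 - c0 * ∫ v, ‖Rm v j‖ ^ β * cut ((K : ℝ) + 1) (Rm v) ∂(ρ : Measure (Fin (n + n) → ℝ))))) :=
    (tendsto_finsetSum Finset.univ fun j _ => (hM j).sub (hbd (fun z => ‖z j‖ ^ β) 1 zero_le_one (hNc j) (hNB j) K)).const_mul C
  filter_upwards [hlt, hW0, hw, l2.eventually (gt_mem_nhds hK2), (Metric.tendsto_nhds.1 l1) (ε / 4) (by positivity)] with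
    T t1 t2 t3 t4 t5
  -- integrability
  have hRm : Measurable (Rt (δ T) a) := Rt_meas t1 a
  have i0 : ∀ {F : (Fin n → ℂ) → ℝ} {B : ℝ}, Continuous F → (∀ z, ‖F z‖ ≤ B) →
      IntegrableOn (fun t => za (δ T) 0 t ^ β * F (Rt (δ T) a t)) (D T) := by
    intro F B h1 h2
    refine ((ic t1 0 hβ.le).mono_set (hD T).2).mul_bdd (c := B) (h1.measurable.comp hRm).aestronglyMeasurable
      (Eventually.of_forall fun t => h2 _)
  have i1 : IntegrableOn (fun t => Φ (fun j => zc (δ T) (a j) t)) (D T) := by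
    have h1 : Continuous fun t => Φ (fun j => zc (δ T) (a j) t) :=
      hΦc.comp (continuous_pi fun j => zc_cont t1 (a j))
    exact (h1.continuousOn.integrableOn_compact isCompact_Icc).mono_set (hD T).2
  have i2 : ∀ j, IntegrableOn (fun t => za (δ T) (a j) t ^ β) (D T) := fun j => (ic t1 (a j) hβ.le).mono_set (hD T).2
  have i3 := i0 (F := fun z => Φ z * cut ((K : ℝ) + 1) z) (hΦc.mul (cut_cont _)) (cut_bound hβ hC (by positivity) hB)
  have i4 := fun j : Fin n => i0 (F := fun z => ‖z j‖ ^ β * cut ((K : ℝ) + 1) z) ((hNc j).mul (cut_cont _))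
    (cut_bound hβ zero_le_one (by positivity) (hNB j))
  have i5 : ∀ j, IntegrableOn (fun t => za (δ T) (a j) t ^ β -
      za (δ T) 0 t ^ β * (‖Rt (δ T) a t j‖ ^ β * cut ((K : ℝ) + 1) (Rt (δ T) a t))) (D T) := fun j => (i2 j).sub (i4 j)
  have key : |W T * (∫ t in D T, Φ (fun j => zc (δ T) (a j) t)) -
      W T * ∫ t in D T, za (δ T) 0 t ^ β * (Φ (Rt (δ T) a t) * cut ((K : ℝ) + 1) (Rt (δ T) a t))| ≤
      C * ∑ j, (W T * (∫ t in D T, za (δ T) (a j) t ^ β) -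
      W T * ∫ t in D T, za (δ T) 0 t ^ β * (‖Rt (δ T) a t j‖ ^ β * cut ((K : ℝ) + 1) (Rt (δ T) a t))) := by
    have e1 : C * ∑ j, (W T * (∫ t in D T, za (δ T) (a j) t ^ β) -
      W T * ∫ t in D T, za (δ T) 0 t ^ β * (‖Rt (δ T) a t j‖ ^ β * cut ((K : ℝ) + 1) (Rt (δ T) a t))) =
      W T * ∫ t in D T, C * ∑ j, (za (δ T) (a j) t ^ β -
        za (δ T) 0 t ^ β * (‖Rt (δ T) a t j‖ ^ β * cut ((K : ℝ) + 1) (Rt (δ T) a t))) := by
      rw [integral_const_mul, integral_finsetSum _ fun j _ => i5 j]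
      rw [mul_left_comm (W T) C]
      congr 1
      rw [Finset.mul_sum]
      refine Finset.sum_congr rfl fun j _ => ?_
      rw [integral_sub (i2 j) (i4 j), mul_sub]
    rw [e1, ← mul_sub, abs_mul, abs_of_nonneg t2, ← integral_sub i1 i3]
    refine mul_le_mul_of_nonneg_left ?_ t2
    rw [← Real.norm_eq_abs]
    refine norm_integral_le_of_norm_le
      ((integrable_finsetSum _ fun j _ => i5 j).const_mul C) ?_
    filter_upwards [t3] with t ht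
    have k0 := ht 0
    rw [Fin.cons_zero] at k0
    have hz0 : zc (δ T) 0 t ≠ 0 := by rw [← k0]; exact Complex.exp_ne_zero _
    have hzj : ∀ j, zc (δ T) (a j) t = zc (δ T) 0 t * Rt (δ T) a t j := by
      intro j
      unfold Rt
      rw [mul_div_cancel₀ _ hz0]
    have hΦt : Φ (fun j => zc (δ T) (a j) t) = za (δ T) 0 t ^ β * Φ (Rt (δ T) a t) := by
      have h1 := hΦ (zc (δ T) 0 t) (Rt (δ T) a t)
      rw [zc_norm] at h1
      rw [← h1]
      congr 1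
      funext j
      exact hzj j
    have hzat : ∀ j, za (δ T) (a j) t ^ β = za (δ T) 0 t ^ β * ‖Rt (δ T) a t j‖ ^ β := by
      intro j
      rw [← zc_norm, hzj, norm_mul, zc_norm, Real.mul_rpow (za_nonneg _ _ _) (norm_nonneg _)]
    obtain ⟨A, hA⟩ : ∃ A : ℝ, A = za (δ T) 0 t ^ β := ⟨_, rfl⟩
    obtain ⟨χ, hχ⟩ : ∃ χ : ℝ, χ = cut ((K : ℝ) + 1) (Rt (δ T) a t) := ⟨_, rfl⟩
    have hA0 : 0 ≤ A := by rw [hA]; exact Real.rpow_nonneg (za_nonneg _ _ _) _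
    have hχ1 : χ ≤ 1 := by rw [hχ]; exact cut_le_one _ _
    simp only [hΦt, hzat, ← hA, ← hχ]
    have e2 : A * Φ (Rt (δ T) a t) - A * (Φ (Rt (δ T) a t) * χ) = A * (1 - χ) * Φ (Rt (δ T) a t) := by ring
    have e3 : C * ∑ j, (A * ‖Rt (δ T) a t j‖ ^ β - A * (‖Rt (δ T) a t j‖ ^ β * χ)) =
        A * (1 - χ) * (C * ∑ j, ‖Rt (δ T) a t j‖ ^ β) := by
      rw [mul_left_comm (A * (1 - χ)), Finset.mul_sum _ _ (A * (1 - χ))]
      congr 1
      exact Finset.sum_congr rfl fun j _ => by ring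
    rw [e2, e3, Real.norm_eq_abs, abs_mul, abs_of_nonneg (mul_nonneg hA0 (by linarith))]
    exact mul_le_mul_of_nonneg_left (hB _) (mul_nonneg hA0 (by linarith))
  rw [Real.dist_eq] at t5 ⊢
  obtain ⟨X, hX⟩ : ∃ X : ℝ, X = W T * (∫ t in D T, Φ (fun j => zc (δ T) (a j) t)) := ⟨_, rfl⟩
  obtain ⟨Y, hY⟩ : ∃ Y : ℝ, Y = W T * ∫ t in D T, za (δ T) 0 t ^ β * (Φ (Rt (δ T) a t) * cut ((K : ℝ) + 1) (Rt (δ T) a t)) :=
    ⟨_, rfl⟩
  obtain ⟨P, hP⟩ : ∃ P : ℝ, P = ∫ v, Φ (Rm v) * cut ((K : ℝ) + 1) (Rm v) ∂(ρ : Measure (Fin (n + n) → ℝ)) := ⟨_, rfl⟩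
  obtain ⟨Q, hQ⟩ : ∃ Q : ℝ, Q = ∫ v, Φ (Rm v) ∂(ρ : Measure (Fin (n + n) → ℝ)) := ⟨_, rfl⟩
  rw [← hX, ← hY] at key
  rw [← hY, ← hP] at t5
  rw [← hP, ← hQ] at hK1
  rw [← hX, ← hQ]
  have n0 : |X - Y| < ε / 4 := key.trans_lt t4
  have n1 : |c0 * P - c0 * Q| < ε / 4 := by
    rw [← mul_sub, abs_mul, abs_of_pos hc]
    exact hK1
  have e : X - c0 * Q = (X - Y) + (Y - c0 * P) + (c0 * P - c0 * Q) := by ring
  rw [e]
  have n2 := abs_add_le ((X - Y) + (Y - c0 * P)) (c0 * P - c0 * Q)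
  have n3 := abs_add_le (X - Y) (Y - c0 * P)
  linarith

end Pool.Agent.V11128.CXL
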