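import Pool.Agent.V11128.CXL.H

set_option autoImplicit false

/-! Homogeneous functions: all orders; the limit law as a complex normal law. -/

namespace Pool.Agent.V11128.CXL

open MeasureTheory Filter Topology ProbabilityTheory
open Pool.Agent.Y753.SHL
open Pool.Agent.Y753.SHR
open Pool.Agent.H306R2 (aF aF_pos)

variable {n : ℕ}

/-- order at most four -/
theorem homog_full {δ : ℝ → ℝ} (hδ : Tendsto δ atTop (𝓝 0))
    (hδL : Tendsto (fun T : ℝ => δ T * Real.log T) atTop atTop) {β : ℝ} (hβ : 0 < β) (hβ4 : β ≤ 4) (a : Fin n → ℝ) :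
    ∃ ρ : ProbabilityMeasure (Fin (n + n) → ℝ), Nor (mC β a) (CC a) ρ ∧
      ∀ Φ : (Fin n → ℂ) → ℝ, Continuous Φ → Hom β Φ →
      Integrable (fun v => Φ (Rm v)) (ρ : Measure (Fin (n + n) → ℝ)) ∧
      Tendsto (fun T : ℝ => (2 * δ T) ^ ((β / 2) ^ 2) / T * ∫ t in Set.Icc 0 T, Φ (fun j => zc (δ T) (a j) t)) atTop
        (𝓝 (aF (β / 2) * ∫ v, Φ (Rm v) ∂(ρ : Measure (Fin (n + n) → ℝ)))) := by
  obtain ⟨S, hS⟩ : ∃ S : Set ℝ, S = insert 0 (Set.range a) := ⟨_, rfl⟩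
  obtain ⟨R, hR⟩ : ∃ R : Set ℝ, R = {x | Ad β x} := ⟨_, rfl⟩
  have hSc : S.Countable := by rw [hS]; exact (Set.countable_range a).insert 0
  have hRc : R.Countable := by
    have h1 : ((Set.range fun r : ℚ => (r : ℝ)) ∪ Set.range fun r : ℚ => β / 2 + (r : ℝ)).Countable :=
      (Set.countable_range _).union (Set.countable_range _)
    refine h1.mono ?_
    rw [hR]
    rintro x ⟨_, r, hr | hr⟩
    · exact Or.inl ⟨r, hr.symm⟩
    · exact Or.inr ⟨r, hr.symm⟩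
  have hR0 : ∀ r ∈ R, 0 < r := fun r hr => by rw [hR] at hr; exact hr.1
  obtain ⟨E, w, hE, hvol, hw, hm⟩ := mixed_small Pool.Agent.Y901.SHR.done Pool.Agent.Y753.SHR.star hδ hδL le_rfl hSc hRc hR0
  have hmemS : ∀ x : ℝ, (x = 0 ∨ ∃ i, x = a i) → x ∈ S := by
    rintro x (h | ⟨i, h⟩)
    · rw [hS, h]; exact Set.mem_insert _ _
    · rw [hS, h]; exact Set.mem_insert_of_mem _ (Set.mem_range_self i)
  refine core_hom hδ hδL (fun T => ⟨measurableSet_Icc, subset_rfl⟩) (fun T => (hE T).2.2.1) hβ a ?_ ?_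
  · filter_upwards [hw] with T hT
    refine ae_restrict_of_ae (ae_all_iff.mpr fun j => ?_)
    filter_upwards [zeros_ae (δ T) ((Fin.cons 0 a : Fin (n + 1) → ℝ) j * δ T)] with t ht
    exact hT _ ht
  · intro k l κ x τ y hk hl hκs hτs hκ hx hτ hy
    exact (hm k l κ x τ y (β / 2) hk hl hκs hτs (fun j => by rw [hR]; exact hκ j) (fun j => hmemS _ (hx j))
      (fun j => by rw [hR]; exact hτ j) (fun j => hmemS _ (hy j))).2 (by linarith)

/-- all orders, off a small set of large values -/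
theorem homog_small {δ : ℝ → ℝ} (hδ : Tendsto δ atTop (𝓝 0))
    (hδL : Tendsto (fun T : ℝ => δ T * Real.log T) atTop atTop) {c : ℝ} (hc : 0 ≤ c) {S B : Set ℝ} (hS : S.Countable)
    (hB : B.Countable) (hB0 : ∀ β ∈ B, 0 < β) :
    ∃ E : ℝ → Set ℝ, (∀ T, MeasurableSet (E T) ∧ E T ⊆ Set.Icc 0 T ∧ ∀ t ∈ E T, ∃ x ∈ insert 0 S,
        (δ T) ^ (-(2 + c)) < za (δ T) x t) ∧
      Tendsto (fun T => (volume (E T)).toReal / (T * (δ T) ^ (4 + 4 * c))) atTop (𝓝 0) ∧
      ∀ β ∈ B, (β ≤ 4 ∨ 4 + 4 * c ≤ β) → ∀ (n : ℕ) (a : Fin n → ℝ), (∀ j, a j ∈ S) →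
    ∃ ρ : ProbabilityMeasure (Fin (n + n) → ℝ), Nor (mC β a) (CC a) ρ ∧
      ∀ Φ : (Fin n → ℂ) → ℝ, Continuous Φ → Hom β Φ →
      Integrable (fun v => Φ (Rm v)) (ρ : Measure (Fin (n + n) → ℝ)) ∧
      Tendsto (fun T : ℝ => (2 * δ T) ^ ((β / 2) ^ 2) / T * ∫ t in Set.Icc 0 T \ E T, Φ (fun j => zc (δ T) (a j) t)) atTop
        (𝓝 (aF (β / 2) * ∫ v, Φ (Rm v) ∂(ρ : Measure (Fin (n + n) → ℝ)))) := by
  obtain ⟨R, hR⟩ : ∃ R : Set ℝ, R = {x | 0 < x ∧ ∃ β ∈ insert 0 B, ∃ r : ℚ, x = β / 2 + r} := ⟨_, rfl⟩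
  have hRc : R.Countable := by
    have h1 : ((fun z : ℝ × ℚ => z.1 / 2 + (z.2 : ℝ)) '' ((insert 0 B) ×ˢ Set.univ)).Countable :=
      ((hB.insert 0).prod (Set.to_countable _)).image _
    refine h1.mono ?_
    rw [hR]
    rintro x ⟨_, β, hβ, r, hr⟩
    exact ⟨(β, r), ⟨hβ, Set.mem_univ _⟩, hr.symm⟩
  have hR0 : ∀ r ∈ R, 0 < r := fun r hr => by rw [hR] at hr; exact hr.1
  obtain ⟨E, w, hE, hvol, hw, hm⟩ := mixed_small Pool.Agent.Y901.SHR.done Pool.Agent.Y753.SHR.star hδ hδL hc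
    (hS.insert 0) hRc hR0
  refine ⟨E, fun T => ⟨(hE T).1, (hE T).2.1, (hE T).2.2.2⟩, hvol, fun β hβ hcase n a ha => ?_⟩
  have hmemR : ∀ x : ℝ, Ad β x → x ∈ R := by
    rintro x ⟨h0, r, hr | hr⟩
    · rw [hR]
      exact ⟨h0, 0, Set.mem_insert _ _, r, by rw [hr]; ring⟩
    · rw [hR]
      exact ⟨h0, β, Set.mem_insert_of_mem _ hβ, r, hr⟩
  have hmemS : ∀ x : ℝ, (x = 0 ∨ ∃ i, x = a i) → x ∈ insert 0 S := by
    rintro x (h | ⟨i, h⟩)
    · rw [h]; exact Set.mem_insert _ _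
    · rw [h]; exact Set.mem_insert_of_mem _ (ha i)
  refine core_hom hδ hδL (fun T => ⟨measurableSet_Icc.diff (hE T).1, Set.sdiff_subset⟩) (fun T => (hE T).2.2.1) (hB0 β hβ) a
    ?_ ?_
  · filter_upwards [hw] with T hT
    refine ae_restrict_of_ae (ae_all_iff.mpr fun j => ?_)
    filter_upwards [zeros_ae (δ T) ((Fin.cons 0 a : Fin (n + 1) → ℝ) j * δ T)] with t ht
    exact hT _ ht
  · intro k l κ x τ y hk hl hκs hτs hκ hx hτ hy
    refine (hm k l κ x τ y (β / 2) hk hl hκs hτs (fun j => hmemR _ (hκ j)) (fun j => hmemS _ (hx j))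
      (fun j => hmemR _ (hτ j)) (fun j => hmemS _ (hy j))).1 ?_
    rcases hcase with h | h
    · left; linarith
    · right; linarith

/-- the limit law on `ℂ^n` -/
theorem toC (β : ℝ) (a : Fin n → ℝ) {ρ : ProbabilityMeasure (Fin (n + n) → ℝ)} (hρ : Nor (mC β a) (CC a) ρ) :
    ∃ ρ' : ProbabilityMeasure (Fin n → ℂ),
      (∀ c : Fin n → ℂ, 0 ≤ (∑ j, ∑ i, c j * (starRingEnd ℂ) (c i) * kl (a j) (a i)).re / 2 ∧
        (ρ' : Measure (Fin n → ℂ)).map (fun z => (∑ j, c j * z j).re) =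
          gaussianReal (∑ j, c j * (-(β / 2 : ℂ) * el (a j))).re
            ((∑ j, ∑ i, c j * (starRingEnd ℂ) (c i) * kl (a j) (a i)).re / 2).toNNReal) ∧
      ∀ G : (Fin n → ℂ) → ℝ, Continuous G →
        (Integrable (fun v => G (Rm v)) (ρ : Measure (Fin (n + n) → ℝ)) →
          Integrable (fun z => G (fun j => Complex.exp (z j))) (ρ' : Measure (Fin n → ℂ))) ∧
        ∫ z, G (fun j => Complex.exp (z j)) ∂(ρ' : Measure (Fin n → ℂ)) =
          ∫ v, G (Rm v) ∂(ρ : Measure (Fin (n + n) → ℝ)) := by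
  obtain ⟨g, hg⟩ : ∃ g : (Fin (n + n) → ℝ) → (Fin n → ℂ), g = fun v j =>
      (yv v j : ℂ) + (xv v j : ℂ) * Complex.I := ⟨_, rfl⟩
  have hgc : Continuous g := by
    rw [hg]
    unfold yv xv
    fun_prop
  refine ⟨ρ.map hgc.measurable.aemeasurable, fun c => ?_, fun F hF => ?_⟩
  · obtain ⟨c', hc'⟩ : ∃ c' : Fin (n + n) → ℝ, c' = Fin.append (fun j => (c j).re) (fun j => -(c j).im) := ⟨_, rfl⟩
    have e1 : qf (CC a) c' = (∑ j, ∑ i, c j * (starRingEnd ℂ) (c i) * kl (a j) (a i)).re / 2 := by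
      rw [CC_qf, hc']
      simp_rw [Fin.append_left, Fin.append_right]
      have e2 : ∀ j, (((c j).re : ℝ) : ℂ) + ((-(c j).im : ℝ) : ℂ) * -Complex.I = c j := by
        intro j
        push_cast
        rw [neg_mul_neg, Complex.re_add_im]
      simp_rw [e2]
    have e3 : lf c' (mC β a) = (∑ j, c j * (-(β / 2 : ℂ) * el (a j))).re := by
      unfold lf mC
      rw [hc', Fin.sum_univ_add]
      simp_rw [Fin.append_left, Fin.append_right, om_l, om_r, ix_l, ix_r]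
      rw [← Finset.sum_add_distrib, Complex.re_sum]
      refine Finset.sum_congr rfl fun j _ => ?_
      obtain ⟨z, hz⟩ : ∃ z : ℂ, z = -(β / 2 : ℂ) * el (a j) := ⟨_, rfl⟩
      rw [← hz, Complex.mul_re]
      simp
      ring
    obtain ⟨k1, k2⟩ := hρ c'
    rw [e1] at k1 k2
    rw [e3] at k2
    refine ⟨k1, ?_⟩
    rw [ProbabilityMeasure.toMeasure_map, Measure.map_map (by fun_prop) hgc.measurable, ← k2]
    congr 1
    funext v
    simp only [Function.comp, hg]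
    rw [hc', lf_append]
    unfold lf
    rw [← Finset.sum_add_distrib, Complex.re_sum]
    refine Finset.sum_congr rfl fun j _ => ?_
    rw [Complex.mul_re]
    simp
    ring
  · have hin : Continuous (fun (z : Fin n → ℂ) (j : Fin n) => Complex.exp (z j)) := by fun_prop
    have hFc : Continuous (fun z : Fin n → ℂ => F (fun j => Complex.exp (z j))) := hF.comp hin
    have hv : ∀ v, F (fun j => Complex.exp (g v j)) = F (Rm v) := fun v => by
      simp only [hg]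
      rfl
    refine ⟨fun hi => ?_, ?_⟩
    · rw [ProbabilityMeasure.toMeasure_map, integrable_map_measure hFc.aestronglyMeasurable hgc.measurable.aemeasurable]
      refine hi.congr (Eventually.of_forall fun v => ?_)
      exact (hv v).symm
    · rw [ProbabilityMeasure.toMeasure_map, integral_map hgc.measurable.aemeasurable hFc.aestronglyMeasurable]
      exact integral_congr_ae (Eventually.of_forall fun v => hv v)

end Pool.Agent.V11128.CXL
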