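import Mathlib

set_option autoImplicit false

/-! Divided differences and derivatives, and homogeneous functions of both. -/

namespace Pool.Agent.V11128.CXL

open Metric Filter Topology MeasureTheory

lemma two_pt {f : ℂ → ℂ} {S : ℝ} (hS : 0 ≤ S) (hf : DifferentiableOn ℂ f (ball 0 (1 / 4)))
    (hb : ∀ z ∈ ball (0 : ℂ) (1 / 4), ‖f z‖ ≤ S) {z : ℂ} (hz : z ∈ ball (0 : ℂ) (1 / 4)) (hz0 : z ≠ 0) :
    ‖f 0‖ ≤ S ∧ ‖deriv f 0‖ ≤ 8 * S ∧ ‖(f z - f 0) / z‖ ≤ 8 * S ∧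
      ‖(f z - f 0) / z - deriv f 0‖ ≤ 64 * S * ‖z‖ := by
  have h0 : (0 : ℂ) ∈ ball (0 : ℂ) (1 / 4) := mem_ball_self (by norm_num)
  have hm : Set.MapsTo f (ball 0 (1 / 4)) (closedBall (f 0) (2 * S)) := by
    intro w hw
    rw [mem_closedBall, dist_eq_norm]
    have h1 := norm_sub_le (f w) (f 0)
    linarith [hb w hw, hb 0 h0]
  have hg : ∀ w ∈ ball (0 : ℂ) (1 / 4), ‖dslope f 0 w‖ ≤ 8 * S := by
    intro w hw
    have h1 := Complex.norm_dslope_le_div_of_mapsTo_ball hf hm hw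
    have e : 2 * S / (1 / 4) = 8 * S := by ring
    rwa [e] at h1
  have hd : dslope f 0 z = (f z - f 0) / z := by
    rw [dslope_of_ne _ hz0, slope_def_field, sub_zero]
  have hd0 : dslope f 0 0 = deriv f 0 := dslope_same f 0
  have hgd : DifferentiableOn ℂ (dslope f 0) (ball 0 (1 / 4)) :=
    (Complex.differentiableOn_dslope (ball_mem_nhds 0 (by norm_num))).2 hf
  have hm2 : Set.MapsTo (dslope f 0) (ball 0 (1 / 4)) (closedBall (dslope f 0 0) (16 * S)) := by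
    intro w hw
    rw [mem_closedBall, dist_eq_norm]
    have h1 := norm_sub_le (dslope f 0 w) (dslope f 0 0)
    linarith [hg w hw, hg 0 h0]
  have h2 := Complex.dist_le_div_mul_dist_of_mapsTo_ball hgd hm2 hz
  refine ⟨hb 0 h0, ?_, ?_, ?_⟩
  · rw [← hd0]
    exact hg 0 h0
  · rw [← hd]
    exact hg z hz
  · rw [dist_eq_norm, dist_zero_right, hd, hd0] at h2
    refine h2.trans (le_of_eq ?_)
    ring

/-- homogeneous functions of two variables -/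
def Hom2 (β : ℝ) (Φ : ℂ × ℂ → ℝ) : Prop := ∀ l a b : ℂ, Φ (l * a, l * b) = ‖l‖ ^ β * Φ (a, b)

lemma modul {β : ℝ} {Φ : ℂ × ℂ → ℝ} (hc : Continuous Φ) (hh : Hom2 β Φ) {ε : ℝ} (hε : 0 < ε) :
    ∃ h0 : ℝ, 0 < h0 ∧ h0 ≤ 1 / 4 ∧ ∀ (f : ℂ → ℂ) (S : ℝ), 0 ≤ S → DifferentiableOn ℂ f (ball 0 (1 / 4)) →
      (∀ z ∈ ball (0 : ℂ) (1 / 4), ‖f z‖ ≤ S) → ∀ z : ℂ, z ≠ 0 → ‖z‖ < h0 →
        |Φ (f 0, deriv f 0) - Φ (f 0, (f z - f 0) / z)| ≤ ε * S ^ β := by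
  have huc := (isCompact_closedBall (0 : ℂ × ℂ) 8).uniformContinuousOn_of_continuous hc.continuousOn
  rw [Metric.uniformContinuousOn_iff] at huc
  obtain ⟨η, hη, h⟩ := huc ε hε
  refine ⟨min (1 / 4) (η / 64), lt_min (by norm_num) (by positivity), min_le_left _ _, ?_⟩
  intro f S hS hf hb z hz0 hz
  have hz1 : z ∈ ball (0 : ℂ) (1 / 4) := by
    rw [mem_ball, dist_zero_right]
    exact hz.trans_le (min_le_left _ _)
  obtain ⟨a1, a2, a3, a4⟩ := two_pt hS hf hb hz1 hz0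
  rcases hS.eq_or_lt with h0 | h0
  · rw [← h0] at a1 a2 a3
    have b1 : f 0 = 0 := norm_le_zero_iff.1 a1
    have b2 : deriv f 0 = 0 := norm_le_zero_iff.1 (by simpa using a2)
    have b3 : (f z - f 0) / z = 0 := norm_le_zero_iff.1 (by simpa using a3)
    rw [b2, b3, sub_self, abs_zero]
    positivity
  · have hSc : ((S : ℝ) : ℂ) ≠ 0 := by exact_mod_cast h0.ne'
    have hsc : ∀ b : ℂ, Φ (f 0, b) = S ^ β * Φ ((S : ℂ)⁻¹ * f 0, (S : ℂ)⁻¹ * b) := by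
      intro b
      have h1 := hh (S : ℂ) ((S : ℂ)⁻¹ * f 0) ((S : ℂ)⁻¹ * b)
      rw [← mul_assoc, ← mul_assoc, mul_inv_cancel₀ hSc, one_mul, one_mul, Complex.norm_real,
        Real.norm_of_nonneg hS] at h1
      exact h1
    have hn : ∀ b : ℂ, ‖(S : ℂ)⁻¹ * b‖ = ‖b‖ / S := by
      intro b
      rw [norm_mul, norm_inv, Complex.norm_real, Real.norm_of_nonneg hS]
      ring
    have hmem : ∀ b : ℂ, ‖b‖ ≤ 8 * S → ((S : ℂ)⁻¹ * f 0, (S : ℂ)⁻¹ * b) ∈ closedBall (0 : ℂ × ℂ) 8 := by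
      intro b hb'
      rw [mem_closedBall, dist_zero_right, Prod.norm_def]
      refine max_le ?_ ?_
      · show ‖(S : ℂ)⁻¹ * f 0‖ ≤ 8
        rw [hn, div_le_iff₀ h0]
        linarith
      · show ‖(S : ℂ)⁻¹ * b‖ ≤ 8
        rw [hn, div_le_iff₀ h0]
        exact hb'
    have hd : dist (((S : ℂ)⁻¹ * f 0, (S : ℂ)⁻¹ * deriv f 0) : ℂ × ℂ)
        ((S : ℂ)⁻¹ * f 0, (S : ℂ)⁻¹ * ((f z - f 0) / z)) < η := by
      rw [Prod.dist_eq, dist_self, dist_eq_norm]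
      refine max_lt hη ?_
      show ‖(S : ℂ)⁻¹ * deriv f 0 - (S : ℂ)⁻¹ * ((f z - f 0) / z)‖ < η
      rw [← mul_sub, hn, norm_sub_rev, div_lt_iff₀ h0]
      refine a4.trans_lt ?_
      have h2 : ‖z‖ < η / 64 := hz.trans_le (min_le_right _ _)
      nlinarith
    have h3 := h _ (hmem _ a2) _ (hmem _ a3) hd
    rw [Real.dist_eq] at h3
    rw [hsc (deriv f 0), hsc ((f z - f 0) / z), ← mul_sub, abs_mul, abs_of_pos (Real.rpow_pos_of_pos h0 _), mul_comm]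
    exact mul_le_mul_of_nonneg_right h3.le (Real.rpow_nonneg hS _)

end Pool.Agent.V11128.CXL
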