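import Pool.Agent.H402R2.SubMean
import Pool.Agent.Y753.SHR.R20
import Pool.Agent.Y753.NL.Uni0
import Pool.Agent.V11128.CXL.J

set_option autoImplicit false

/-! Means of local maxima of `|ζ|^β` near the critical line. -/

namespace Pool.Agent.V11128.CXL

open Metric Filter Topology MeasureTheory
open Pool.Agent.Y755
open Pool.Agent.Y753.NL
open Pool.Agent.Y753.SHR
open Pool.Agent.H306R2 (aF aF_pos)
open scoped ENNReal

/-- the zeta function around a point at distance `δ` from the critical line -/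
noncomputable def ft (δ t : ℝ) (z : ℂ) : ℂ := riemannZeta (1 / 2 + δ + (t : ℂ) * Complex.I + z * δ)

lemma ft_diff {δ t : ℝ} (h0 : 0 < δ) (h1 : δ < 1 / 4) : DifferentiableOn ℂ (ft δ t) (ball 0 1) := by
  intro z hz
  rw [mem_ball, dist_zero_right] at hz
  refine DifferentiableAt.differentiableWithinAt ?_
  unfold ft
  refine DifferentiableAt.comp (g := riemannZeta) z (differentiableAt_riemannZeta ?_) (by fun_prop)
  intro h
  have h2 := congrArg Complex.re h
  simp at h2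
  have h3 := (abs_le.1 (Complex.abs_re_le_norm z)).2
  nlinarith

lemma zeta_meas : Measurable riemannZeta :=
  measurable_of_continuousOn_compl_singleton 1 fun _ hz => (differentiableAt_riemannZeta hz).continuousAt.continuousWithinAt

lemma ft_meas (δ : ℝ) : Measurable (fun p : ℝ × ℂ => ft δ p.1 p.2) := by
  unfold ft
  exact zeta_meas.comp (by fun_prop)

/-- the area integral -/
noncomputable def Ar (β δ t : ℝ) : ℝ≥0∞ := ∫⁻ z in ball (0 : ℂ) (1 / 2), ‖ft δ t z‖ₑ ^ β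

lemma Ar_meas (β δ : ℝ) : Measurable (Ar β δ) := by
  unfold Ar
  exact ((ft_meas δ).enorm.pow_const β).lintegral_prod_right'

lemma Ar_fin {β δ t : ℝ} (hβ : 0 < β) (h0 : 0 < δ) (h1 : δ < 1 / 4) : Ar β δ t < ∞ := by
  have hc : ContinuousOn (ft δ t) (closedBall 0 (1 / 2)) :=
    (ft_diff h0 h1).continuousOn.mono (closedBall_subset_ball (by norm_num))
  obtain ⟨C, hC⟩ := (isCompact_closedBall (0 : ℂ) (1 / 2)).exists_bound_of_continuousOn hc
  unfold Ar
  have hle : ∫⁻ z in ball (0 : ℂ) (1 / 2), ‖ft δ t z‖ₑ ^ β ≤ ∫⁻ _z in ball (0 : ℂ) (1 / 2), (ENNReal.ofReal C) ^ β := by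
    refine setLIntegral_mono' measurableSet_ball fun z hz => ?_
    refine ENNReal.rpow_le_rpow ?_ hβ.le
    rw [← ofReal_norm]
    exact ENNReal.ofReal_le_ofReal (hC z (ball_subset_closedBall hz))
  refine hle.trans_lt ?_
  rw [setLIntegral_const]
  exact ENNReal.mul_lt_top (ENNReal.rpow_lt_top_of_nonneg hβ.le ENNReal.ofReal_ne_top) measure_ball_lt_top

/-- the local maximum -/
noncomputable def Sm (β δ t : ℝ) : ℝ := (16 / Real.pi * (Ar β δ t).toReal) ^ (1 / β)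

lemma Sm_nonneg (β δ t : ℝ) : 0 ≤ Sm β δ t := Real.rpow_nonneg (by positivity) _

lemma Sm_pow {β δ t : ℝ} (hβ : 0 < β) : Sm β δ t ^ β = 16 / Real.pi * (Ar β δ t).toReal := by
  unfold Sm
  rw [← Real.rpow_mul (by positivity), one_div_mul_cancel hβ.ne', Real.rpow_one]

lemma Sm_le {β δ t : ℝ} (hβ : 0 < β) (h0 : 0 < δ) (h1 : δ < 1 / 4) {z : ℂ} (hz : z ∈ ball (0 : ℂ) (1 / 4)) :
    ‖ft δ t z‖ ≤ Sm β δ t := by
  have hsub : ball z (1 / 4) ⊆ ball (0 : ℂ) (1 / 2) := by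
    refine ball_subset_ball' ?_
    rw [mem_ball] at hz
    linarith
  have h2 := Pool.Agent.H402R2.SubMean.rpow_mul_le_lintegral (g := ft δ t) (w := z) (ρ := 1 / 4) (p := β) (by norm_num) hβ
    ((ft_diff h0 h1).mono (hsub.trans (ball_subset_ball (by norm_num))))
  have h3 : ENNReal.ofReal (‖ft δ t z‖ ^ β * (Real.pi * (1 / 4) ^ 2)) ≤ Ar β δ t :=
    h2.trans (lintegral_mono_set hsub)
  have h4 : ‖ft δ t z‖ ^ β * (Real.pi * (1 / 4) ^ 2) ≤ (Ar β δ t).toReal := by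
    have h5 := ENNReal.toReal_mono (Ar_fin hβ h0 h1).ne h3
    rwa [ENNReal.toReal_ofReal (by positivity)] at h5
  have h5 : ‖ft δ t z‖ ^ β ≤ 16 / Real.pi * (Ar β δ t).toReal := by
    have hpi := Real.pi_pos
    have h6 : 16 / Real.pi * (‖ft δ t z‖ ^ β * (Real.pi * (1 / 4) ^ 2)) = ‖ft δ t z‖ ^ β := by
      field_simp
      ring
    rw [← h6]
    exact mul_le_mul_of_nonneg_left h4 (by positivity)
  have h6 := Real.rpow_le_rpow (Real.rpow_nonneg (norm_nonneg _) _) h5 (show 0 ≤ 1 / β by positivity)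
  rwa [← Real.rpow_mul (norm_nonneg _), mul_one_div_cancel hβ.ne', Real.rpow_one] at h6

/-- the mean over one line -/
lemma line_le {s : ℝ} (hs : 0 < s) {δ' y T M : ℝ} (hδ1 : δ' < 1 / 2) (hy : |y| < 1) (hT : 0 < T)
    (hM : mom (2 * s) (1 / 2 + δ') (-1) (T + 2) ≤ M) :
    ∫⁻ t in Set.Icc 0 T, ENNReal.ofReal (za δ' 0 (t + y) ^ (2 * s)) ≤ ENNReal.ofReal ((T + 2) * M) := by
  have hcont : Continuous fun t => za δ' 0 t ^ (2 * s) := (za_cont hδ1 0).rpow_const fun t => Or.inr (by positivity)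
  have hcont' : Continuous fun t => za δ' 0 (t + y) ^ (2 * s) := hcont.comp (continuous_id.add continuous_const)
  rw [← ofReal_integral_eq_lintegral_ofReal (hcont'.continuousOn.integrableOn_compact isCompact_Icc)
    (Eventually.of_forall fun t => Real.rpow_nonneg (za_nonneg _ _ _) _)]
  refine ENNReal.ofReal_le_ofReal ?_
  have h6' := abs_lt.mp hy
  have e1 : ∫ t in Set.Icc 0 T, za δ' 0 (t + y) ^ (2 * s) = ∫ t in (0 + y)..(T + y), za δ' 0 t ^ (2 * s) := by
    rw [integral_Icc_eq_integral_Ioc, ← intervalIntegral.integral_of_le hT.le]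
    rw [intervalIntegral.integral_comp_add_right (fun t => za δ' 0 t ^ (2 * s))]
  have e2 : ∫ t in (0 + y)..(T + y), za δ' 0 t ^ (2 * s) ≤ ∫ t in (-1:ℝ)..(T + 1), za δ' 0 t ^ (2 * s) :=
    intervalIntegral.integral_mono_interval (by linarith) (by linarith) (by linarith)
      (Eventually.of_forall fun t => Real.rpow_nonneg (za_nonneg _ _ _) _) (hcont.intervalIntegrable _ _)
  have e3 : ∫ t in (-1:ℝ)..(T + 1), za δ' 0 t ^ (2 * s) = (T + 2) * mom (2 * s) (1 / 2 + δ') (-1) (T + 2) := by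
    unfold mom
    have h8 := intervalIntegral.mul_integral_comp_mul_add (a := 0) (b := 1) (f := fun t => za δ' 0 t ^ (2 * s)) (c := T + 2) (-1)
    have e4 : (T + 2) * 0 + -1 = -1 := by ring
    have e5 : (T + 2) * 1 + -1 = T + 1 := by ring
    rw [e4, e5] at h8
    rw [← h8]
    congr 1
    refine intervalIntegral.integral_congr fun u _ => ?_
    unfold za
    congr 3
    push_cast
    ring
  rw [e1]
  refine e2.trans ?_
  rw [e3]
  exact mul_le_mul_of_nonneg_left hM (by linarith)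

/-- the mean of the local maxima -/
theorem max_mean {s : ℝ} (hs : 0 < s) (hs2 : s ≤ 2) {δ : ℝ → ℝ} (hδ : Tendsto δ atTop (𝓝 0))
    (hδL : Tendsto (fun T : ℝ => δ T * Real.log T) atTop atTop) :
    ∃ C : ℝ, 0 < C ∧ ∀ᶠ T : ℝ in atTop,
      ENNReal.ofReal ((2 * δ T) ^ (s ^ 2) / T) * ∫⁻ t in Set.Icc 0 T, Ar (2 * s) (δ T) t ≤ ENNReal.ofReal C := by
  have hpos := pos_path hδL
  obtain ⟨lam, hlam, hup⟩ := up_full hs hs2 one_pos
  obtain ⟨δ0, C0, hδ0, hC0, hDD⟩ := DD_up hs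
  obtain ⟨C1, hC1⟩ : ∃ C1 : ℝ, C1 = 2 * (C0 * (1 / 4) ^ (-(s ^ 2))) * 3 := ⟨_, rfl⟩
  have hC1' : 0 < C1 := by rw [hC1]; positivity
  have hvol : volume (ball (0 : ℂ) (1 / 2)) ≠ ∞ := measure_ball_lt_top.ne
  obtain ⟨v, hv⟩ : ∃ v : ℝ, v = (volume (ball (0 : ℂ) (1 / 2))).toReal := ⟨_, rfl⟩
  have hv0 : 0 ≤ v := by rw [hv]; exact ENNReal.toReal_nonneg
  refine ⟨C1 * v + 1, by positivity, ?_⟩
  have hL : ∀ᶠ T : ℝ in atTop, lam / Real.log (T + 2) ≤ δ T / 2 := by
    filter_upwards [hδL.eventually_ge_atTop (2 * lam), hpos, eventually_gt_atTop 1] with T h1 h2 h3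
    have h4 := Real.log_pos h3
    have h5 : Real.log T ≤ Real.log (T + 2) := Real.log_le_log (by linarith) (by linarith)
    rw [div_le_iff₀ (h4.trans_le h5)]
    have := mul_le_mul_of_nonneg_left h5 h2.le
    linarith
  have hup' : ∀ᶠ T : ℝ in atTop, ∀ δ : ℝ, lam / Real.log (T + 2) ≤ δ → δ ≤ 1 / 16 →
      mom (2 * s) (1 / 2 + δ) (-1) (T + 2) ≤ (1 + 1) * DD s δ :=
    (tendsto_atTop_add_const_right atTop 2 tendsto_id).eventually (hup (-1))
  filter_upwards [hup', hL, hpos, hδ.eventually (gt_mem_nhds (show (0:ℝ) < 1 / 32 by norm_num)),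
    hδ.eventually (gt_mem_nhds (show (0:ℝ) < δ0 / 2 by positivity)), eventually_ge_atTop 1] with T h1 h2 h3 h4 h5 h6
  have hT0 : 0 < T := by linarith
  -- the inner integrals
  have hin : ∀ z ∈ ball (0 : ℂ) (1 / 2), ∫⁻ t in Set.Icc 0 T, ‖ft (δ T) t z‖ₑ ^ (2 * s) ≤
      ENNReal.ofReal ((T + 2) * (2 * (C0 * (δ T / 2) ^ (-(s ^ 2))))) := by
    intro z hz
    rw [mem_ball, dist_zero_right] at hz
    obtain ⟨δ', hδ'⟩ : ∃ δ' : ℝ, δ' = δ T * (1 + z.re) := ⟨_, rfl⟩
    have hre := abs_le.1 ((Complex.abs_re_le_norm z).trans hz.le)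
    have him := (Complex.abs_im_le_norm z).trans hz.le
    have hl : δ T / 2 ≤ δ' := by rw [hδ']; nlinarith
    have hu : δ' ≤ 2 * δ T := by rw [hδ']; nlinarith
    have hd0 : 0 < δ' := by linarith
    have hmom := h1 δ' (h2.trans hl) (by linarith)
    have hDD' := hDD δ' hd0 (by linarith)
    have hmono : δ' ^ (-(s ^ 2)) ≤ (δ T / 2) ^ (-(s ^ 2)) :=
      Real.rpow_le_rpow_of_nonpos (by linarith) hl (by nlinarith)
    have hM : mom (2 * s) (1 / 2 + δ') (-1) (T + 2) ≤ 2 * (C0 * (δ T / 2) ^ (-(s ^ 2))) := by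
      refine hmom.trans ?_
      have := hDD'.trans (mul_le_mul_of_nonneg_left hmono hC0.le)
      linarith
    have hy : |z.im * δ T| < 1 := by
      rw [abs_mul, abs_of_pos h3]
      nlinarith [abs_nonneg z.im]
    refine le_trans (le_of_eq ?_) (line_le hs (δ' := δ') (by linarith) hy hT0 hM)
    refine lintegral_congr fun t => ?_
    rw [← ofReal_norm, ENNReal.ofReal_rpow_of_nonneg (norm_nonneg _) (by positivity)]
    congr 2
    unfold ft za
    congr 2
    rw [hδ']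
    apply Complex.ext <;> simp <;> ring
  have hswap : ∫⁻ t in Set.Icc 0 T, Ar (2 * s) (δ T) t =
      ∫⁻ z in ball (0 : ℂ) (1 / 2), ∫⁻ t in Set.Icc 0 T, ‖ft (δ T) t z‖ₑ ^ (2 * s) := by
    unfold Ar
    rw [lintegral_lintegral_swap]
    exact ((ft_meas (δ T)).enorm.pow_const _).aemeasurable
  have hA : ∫⁻ t in Set.Icc 0 T, Ar (2 * s) (δ T) t ≤
      ENNReal.ofReal ((T + 2) * (2 * (C0 * (δ T / 2) ^ (-(s ^ 2))))) * ENNReal.ofReal v := by
    rw [hswap]
    refine (setLIntegral_mono' measurableSet_ball hin).trans (le_of_eq ?_)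
    rw [setLIntegral_const, hv, ENNReal.ofReal_toReal hvol]
  refine (mul_le_mul_right hA _).trans ?_
  rw [← ENNReal.ofReal_mul (by positivity), ← ENNReal.ofReal_mul (by positivity)]
  refine ENNReal.ofReal_le_ofReal ?_
  have e1 : (2 * δ T) ^ (s ^ 2) * (δ T / 2) ^ (-(s ^ 2)) = (1 / 4) ^ (-(s ^ 2)) := by
    rw [Real.rpow_neg (by positivity), Real.rpow_neg (by positivity), ← div_eq_mul_inv, ← Real.div_rpow (by positivity) (by positivity),
      ← Real.inv_rpow (by positivity)]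
    congr 1
    field_simp
    norm_num
  have e2 : (2 * δ T) ^ (s ^ 2) / T * ((T + 2) * (2 * (C0 * (δ T / 2) ^ (-(s ^ 2)))) * v) =
      ((T + 2) / T) * (2 * (C0 * ((2 * δ T) ^ (s ^ 2) * (δ T / 2) ^ (-(s ^ 2))))) * v := by
    field_simp
  rw [e2, e1]
  have e3 : (T + 2) / T ≤ 3 := by
    rw [div_le_iff₀ hT0]
    linarith
  have e4 : (T + 2) / T * (2 * (C0 * (1 / 4) ^ (-(s ^ 2)))) * v ≤ C1 * v := by
    refine mul_le_mul_of_nonneg_right ?_ hv0
    rw [hC1, mul_comm]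
    exact mul_le_mul_of_nonneg_left e3 (by positivity)
  linarith

end Pool.Agent.V11128.CXL
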