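import Pool.Agent.V11128.CXL.I
import Pool.Agent.V11128.CXL.J

set_option autoImplicit false

/-! The limit law at two points. -/

namespace Pool.Agent.V11128.CXL

open MeasureTheory Filter Topology ProbabilityTheory
open Pool.Agent.Y753.SHL
open Pool.Agent.Y753.SHR
open scoped NNReal

variable {N : ℕ}

/-- the normal law is unique -/
lemma nor_unique {m : Fin N → ℝ} {C : Fin N → Fin N → ℝ} {ρ ρ' : ProbabilityMeasure (Fin N → ℝ)}
    (h : Nor m C ρ) (h' : Nor m C ρ') : ρ = ρ' := by
  have hmain : (ρ : Measure (Fin N → ℝ)) = (ρ' : Measure (Fin N → ℝ)) := by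
    refine Measure.ext_of_charFunDual (funext fun L => ?_)
    rw [charFunDual_eq_charFun_map_one, charFunDual_eq_charFun_map_one]
    have hL : (⇑L : (Fin N → ℝ) → ℝ) = lf (fun j => L (Pi.single j 1)) := by
      funext v
      unfold lf
      conv_lhs => rw [pi_eq_sum_univ' v]
      rw [map_sum]
      refine Finset.sum_congr rfl fun j _ => ?_
      rw [map_smul, smul_eq_mul, mul_comm]
    rw [hL]
    congr 1
    exact (h _).2.trans (h' _).2.symm
  exact Subtype.ext hmain

/-- the standard normal law on the plane -/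
noncomputable def N2 : Measure (ℝ × ℝ) := (gaussianReal 0 1).prod (gaussianReal 0 1)

instance : IsProbabilityMeasure N2 := by
  unfold N2
  infer_instance

lemma gauss2 (A B m : ℝ) :
    N2.map (fun p : ℝ × ℝ => m + (A * p.1 + B * p.2)) = gaussianReal m (A ^ 2 + B ^ 2).toNNReal := by
  unfold N2
  have h1 := Measure.map_prod_map (f := fun x : ℝ => A * x) (g := fun x : ℝ => B * x) (gaussianReal 0 1) (gaussianReal 0 1)
    (by fun_prop) (by fun_prop)
  rw [gaussianReal_map_const_mul, gaussianReal_map_const_mul] at h1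
  have h2 := gaussianReal_conv_gaussianReal (m₁ := A * 0) (m₂ := B * 0) (v₁ := .mk (A ^ 2) (sq_nonneg _) * 1)
    (v₂ := .mk (B ^ 2) (sq_nonneg _) * 1)
  unfold Measure.conv at h2
  rw [h1, Measure.map_map (by fun_prop) (by fun_prop)] at h2
  have h3 := congrArg (Measure.map (m + ·)) h2
  rw [Measure.map_map (by fun_prop) (by fun_prop), gaussianReal_map_const_add] at h3
  refine Eq.trans ?_ (h3.trans ?_)
  · rfl
  · congr 1
    · ring
    · ext
      rw [Real.coe_toNNReal _ (by positivity)]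
      simp

/-- the scale -/
noncomputable def sg (h : ℝ) : ℝ := √((el h).re)

lemma el_re (h : ℝ) : (el h).re = Real.log (1 + h ^ 2 / 4) / 2 := by
  unfold el
  rw [Complex.log_re]
  have h2 : ‖1 + Complex.I * (h : ℂ) / 2‖ = √(1 + h ^ 2 / 4) := by
    rw [Complex.norm_eq_sqrt_sq_add_sq, u_re, u_im]
    congr 1
    ring
  rw [h2, Real.log_sqrt (by positivity)]

lemma el_re_nonneg (h : ℝ) : 0 ≤ (el h).re := by
  rw [el_re]
  exact div_nonneg (Real.log_nonneg (by nlinarith [sq_nonneg h])) (by norm_num)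

lemma sg_sq (h : ℝ) : sg h ^ 2 = (el h).re := Real.sq_sqrt (el_re_nonneg h)

/-- the logarithm of the ratio -/
noncomputable def uu (β h : ℝ) (p : ℝ × ℝ) : ℂ :=
  -(β / 2 : ℂ) * el h + (sg h : ℂ) * (Complex.I * ((p.1 : ℂ) + (p.2 : ℂ) * Complex.I))

/-- the vector -/
noncomputable def vv (β h : ℝ) (p : ℝ × ℝ) (s : Fin (2 + 2)) : ℝ := (om s * (![0, uu β h p] (ix s))).re

lemma vv_cont (β h : ℝ) : Continuous (vv β h) := by
  refine continuous_pi fun s => ?_
  unfold vv
  refine Complex.continuous_re.comp (continuous_const.mul ?_)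
  generalize ix s = i
  fin_cases i
  · exact continuous_const
  · show Continuous fun a : ℝ × ℝ => uu β h a
    unfold uu
    fun_prop

lemma Rm_vv (β h : ℝ) (p : ℝ × ℝ) : Rm (vv β h p) = ![1, Complex.exp (uu β h p)] := by
  funext j
  have e : ((yv (vv β h p) j : ℂ) + (xv (vv β h p) j : ℂ) * Complex.I) = ![0, uu β h p] j := by
    unfold yv xv vv
    rw [om_l, om_r, ix_l, ix_r]
    generalize (![0, uu β h p] : Fin 2 → ℂ) j = z
    have h2 : (-Complex.I * z).re = z.im := by simp
    rw [one_mul, h2, Complex.re_add_im]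
  unfold Rm
  rw [e]
  fin_cases j
  · simp
  · simp

lemma kl_zero_left (b : ℝ) : kl 0 b = 0 := by
  unfold kl
  rw [el_zero, zero_sub]
  ring

lemma kl_zero_right (a : ℝ) : kl a 0 = 0 := by
  unfold kl
  rw [neg_zero, el_zero, sub_zero]
  ring

lemma kl_self (h : ℝ) : (kl h h) = ((2 * (el h).re : ℝ) : ℂ) := by
  unfold kl
  rw [sub_self, el_zero, el_neg]
  apply Complex.ext
  · simp
    ring
  · simp

lemma nor_vv (β h : ℝ) : Nor (mC β ![0, h]) (CC ![0, h])
    ⟨N2.map (vv β h), Measure.isProbabilityMeasure_map (vv_cont β h).measurable.aemeasurable⟩ := by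
  intro c
  refine ⟨CC_psd _ _, ?_⟩
  obtain ⟨W, hW⟩ : ∃ W : ℂ, W = (c (Fin.castAdd 2 1) : ℂ) + (c (Fin.natAdd 2 1) : ℂ) * -Complex.I := ⟨_, rfl⟩
  have hlf : ∀ p, lf c (vv β h p) = (W * uu β h p).re := by
    intro p
    unfold lf vv
    rw [Fin.sum_univ_add]
    simp_rw [om_l, om_r, ix_l, ix_r]
    rw [Fin.sum_univ_two, Fin.sum_univ_two]
    simp only [Matrix.cons_val_zero, Matrix.cons_val_one, mul_zero, Complex.zero_re, zero_add, one_mul]
    rw [hW, Complex.mul_re]
    simp
  have hm : lf c (mC β ![0, h]) = (W * (-(β / 2 : ℂ) * el h)).re := by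
    unfold lf mC
    rw [Fin.sum_univ_add]
    simp_rw [om_l, om_r, ix_l, ix_r]
    rw [Fin.sum_univ_two, Fin.sum_univ_two]
    simp only [Matrix.cons_val_zero, Matrix.cons_val_one, el_zero, mul_zero, Complex.zero_re, zero_add, one_mul]
    rw [hW]
    generalize -(β / 2 : ℂ) * el h = z
    rw [Complex.mul_re]
    simp
  have hq : qf (CC ![0, h]) c = (-sg h * W.im) ^ 2 + (-sg h * W.re) ^ 2 := by
    rw [CC_qf, Fin.sum_univ_two, Fin.sum_univ_two, Fin.sum_univ_two]
    simp only [Matrix.cons_val_zero, Matrix.cons_val_one, kl_zero_left, kl_zero_right, mul_zero, zero_add]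
    rw [kl_self h, ← hW, Complex.mul_conj, ← Complex.ofReal_mul, Complex.ofReal_re, Complex.normSq_apply]
    have := sg_sq h
    rw [mul_pow, mul_pow, neg_sq, this]
    ring
  show (N2.map (vv β h)).map (lf c) = _
  rw [Measure.map_map (by unfold lf; fun_prop) (vv_cont β h).measurable, hq, hm, ← gauss2]
  congr 1
  funext p
  simp only [Function.comp]
  rw [hlf]
  unfold uu
  rw [mul_add, Complex.add_re]
  congr 1
  simp [Complex.mul_re, Complex.mul_im]
  ring

/-- the integrals against the limit law at two points -/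
lemma two_law {β h : ℝ} {ρ : ProbabilityMeasure (Fin (2 + 2) → ℝ)} (hρ : Nor (mC β ![0, h]) (CC ![0, h]) ρ)
    {G : (Fin 2 → ℂ) → ℝ} (hG : Continuous G) :
    ∫ v, G (Rm v) ∂(ρ : Measure (Fin (2 + 2) → ℝ)) = ∫ p, G ![1, Complex.exp (uu β h p)] ∂N2 := by
  rw [nor_unique hρ (nor_vv β h)]
  show ∫ v, G (Rm v) ∂(N2.map (vv β h)) = _
  have hm : AEStronglyMeasurable (fun v => G (Rm v)) (N2.map (vv β h)) := (hG.comp Rm_cont).aestronglyMeasurable
  rw [integral_map (vv_cont β h).measurable.aemeasurable hm]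
  refine integral_congr_ae (Eventually.of_forall fun p => ?_)
  simp only
  rw [Rm_vv]

end Pool.Agent.V11128.CXL
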