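import Pool.Agent.V11128.CXL.M

set_option autoImplicit false

/-! The limit law at two points as they come together. -/

namespace Pool.Agent.V11128.CXL

open MeasureTheory Filter Topology ProbabilityTheory
open Pool.Agent.Y753.SHL
open Pool.Agent.Y753.SHR
open scoped NNReal

/-- the divided difference of the exponential -/
noncomputable def ee (z : ℂ) : ℂ := dslope Complex.exp 0 z

lemma ee_mul (z : ℂ) : z * ee z = Complex.exp z - 1 := by
  have h := sub_smul_dslope Complex.exp 0 z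
  rw [sub_zero, smul_eq_mul, Complex.exp_zero] at h
  exact h

lemma ee_cont : ContinuousAt ee 0 := by
  unfold ee
  exact continuousAt_dslope_same.2 Complex.differentiableAt_exp

lemma ee_zero : ee 0 = 1 := by
  unfold ee
  rw [dslope_same, Complex.deriv_exp, Complex.exp_zero]

/-- the divided difference of the logarithm -/
noncomputable def ll1 (z : ℂ) : ℂ := dslope (fun w => Complex.log (1 + w)) 0 z

lemma ll1_mul (z : ℂ) : z * ll1 z = Complex.log (1 + z) := by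
  have h := sub_smul_dslope (fun w => Complex.log (1 + w)) 0 z
  rw [sub_zero, smul_eq_mul, add_zero, Complex.log_one, sub_zero] at h
  exact h

lemma log_hda : HasDerivAt (fun w : ℂ => Complex.log (1 + w)) 1 0 := by
  have h1 : HasDerivAt (fun w : ℂ => 1 + w) 1 0 := by
    simpa using (hasDerivAt_id (0 : ℂ)).const_add 1
  have h2 := h1.clog (by simp)
  simpa using h2

lemma ll1_cont : ContinuousAt ll1 0 := by
  unfold ll1
  exact continuousAt_dslope_same.2 log_hda.differentiableAt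

lemma ll1_zero : ll1 0 = 1 := by
  unfold ll1
  rw [dslope_same, log_hda.deriv]

/-- the slope of the logarithm of the ratio -/
noncomputable def qq (β h : ℝ) (p : ℝ × ℝ) : ℂ :=
  -(β / 4 : ℂ) * ll1 (Complex.I * h / 2) + ((sg h / h : ℝ) : ℂ) * ((p.1 : ℂ) + (p.2 : ℂ) * Complex.I)

lemma uu_eq (β : ℝ) {h : ℝ} (hh : h ≠ 0) (p : ℝ × ℝ) : uu β h p = Complex.I * h * qq β h p := by
  unfold uu qq
  have h1 : el h = (Complex.I * h / 2) * ll1 (Complex.I * h / 2) := by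
    rw [ll1_mul]
    rfl
  have h2 : (h : ℂ) ≠ 0 := by exact_mod_cast hh
  rw [h1]
  push_cast
  field_simp
  ring

lemma sg_div {h : ℝ} (hh : 0 < h) : sg h / h = √(Real.log (1 + h ^ 2 / 4) / 2 / h ^ 2) := by
  unfold sg
  have h1 := Real.sqrt_div' (Real.log (1 + h ^ 2 / 4) / 2) (sq_nonneg h)
  rw [el_re, h1, Real.sqrt_sq hh.le]

lemma sg_div_le {h : ℝ} (hh : 0 < h) : sg h / h ≤ 1 / 2 := by
  rw [sg_div hh]
  refine Real.sqrt_le_iff.2 ⟨by norm_num, ?_⟩
  have h1 : Real.log (1 + h ^ 2 / 4) ≤ h ^ 2 / 4 := by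
    have := Real.log_le_sub_one_of_pos (show 0 < 1 + h ^ 2 / 4 by positivity)
    linarith
  rw [div_le_iff₀ (by positivity)]
  nlinarith [sq_nonneg h]

lemma sg_div_nonneg {h : ℝ} (hh : 0 < h) : 0 ≤ sg h / h := by
  rw [sg_div hh]
  exact Real.sqrt_nonneg _

lemma sg_lim : Tendsto (fun h => sg h / h) (𝓝[>] 0) (𝓝 (1 / (2 * √2))) := by
  have h1 : HasDerivAt (fun x : ℝ => Real.log (1 + x)) 1 0 := by
    have h2 : HasDerivAt (fun x : ℝ => 1 + x) 1 0 := by simpa using (hasDerivAt_id (0 : ℝ)).const_add 1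
    simpa using h2.log (by simp)
  have h2 := hasDerivAt_iff_tendsto_slope_zero.1 h1
  have h3 : Tendsto (fun h : ℝ => h ^ 2 / 4) (𝓝[>] 0) (𝓝[≠] 0) := by
    refine tendsto_nhdsWithin_iff.2 ⟨?_, ?_⟩
    · have : Tendsto (fun h : ℝ => h ^ 2 / 4) (𝓝 0) (𝓝 (0 ^ 2 / 4)) := by
        exact (Continuous.tendsto (by fun_prop) 0)
      rw [show (0:ℝ) ^ 2 / 4 = 0 by norm_num] at this
      exact this.mono_left nhdsWithin_le_nhds
    · filter_upwards [self_mem_nhdsWithin] with h hh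
      have : (0:ℝ) < h := hh
      exact (by positivity : (0:ℝ) < h ^ 2 / 4).ne'
  have h4 := h2.comp h3
  have h5 : Tendsto (fun h : ℝ => Real.log (1 + h ^ 2 / 4) / 2 / h ^ 2) (𝓝[>] 0) (𝓝 (1 / 8)) := by
    have h6 := h4.div_const 8
    refine h6.congr' ?_
    filter_upwards [self_mem_nhdsWithin] with h hh
    have : (0:ℝ) < h := hh
    simp only [Function.comp, zero_add, add_zero, Real.log_one, sub_zero, smul_eq_mul]
    field_simp
    ring
  have h6 := (Real.continuous_sqrt.tendsto _).comp h5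
  have h7 : √(1 / 8) = 1 / (2 * √2) := by
    rw [show (1:ℝ) / 8 = (1 / (2 * √2)) ^ 2 by
      rw [div_pow, mul_pow, Real.sq_sqrt (by norm_num)]; norm_num]
    exact Real.sqrt_sq (by positivity)
  rw [h7] at h6
  refine h6.congr' ?_
  filter_upwards [self_mem_nhdsWithin] with h hh
  exact (sg_div hh).symm

/-- the limit of the slopes -/
noncomputable def q0 (β : ℝ) (p : ℝ × ℝ) : ℂ :=
  -(β / 4 : ℂ) + ((p.1 : ℂ) + (p.2 : ℂ) * Complex.I) / (2 * √2 : ℝ)

lemma ih_lim : Tendsto (fun h : ℝ => Complex.I * (h : ℂ) / 2) (𝓝[>] 0) (𝓝 0) := by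
  have : Tendsto (fun h : ℝ => Complex.I * (h : ℂ) / 2) (𝓝 0) (𝓝 (Complex.I * ((0 : ℝ) : ℂ) / 2)) :=
    Continuous.tendsto (by fun_prop) 0
  rw [Complex.ofReal_zero, mul_zero, zero_div] at this
  exact this.mono_left nhdsWithin_le_nhds

lemma qq_lim (β : ℝ) (p : ℝ × ℝ) : Tendsto (fun h => qq β h p) (𝓝[>] 0) (𝓝 (q0 β p)) := by
  unfold qq q0
  have h1 : Tendsto (fun h : ℝ => ll1 (Complex.I * h / 2)) (𝓝[>] 0) (𝓝 1) := by
    have := ll1_cont.tendsto.comp ih_lim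
    rwa [ll1_zero] at this
  have h2 : Tendsto (fun h : ℝ => ((sg h / h : ℝ) : ℂ)) (𝓝[>] 0) (𝓝 ((1 / (2 * √2) : ℝ) : ℂ)) :=
    (Complex.continuous_ofReal.tendsto _).comp sg_lim
  have h3 := (h1.const_mul (-(β / 4 : ℂ))).add (h2.mul_const ((p.1 : ℂ) + (p.2 : ℂ) * Complex.I))
  have e : -(β / 4 : ℂ) * 1 + ((1 / (2 * √2) : ℝ) : ℂ) * ((p.1 : ℂ) + (p.2 : ℂ) * Complex.I) =
      -(β / 4 : ℂ) + ((p.1 : ℂ) + (p.2 : ℂ) * Complex.I) / (2 * √2 : ℝ) := by
    push_cast
    ring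
  rwa [e] at h3

/-- the bound of the slopes -/
noncomputable def Bd (β : ℝ) (p : ℝ × ℝ) : ℝ := β / 2 + (|p.1| + |p.2|) / 2

lemma Bd_nonneg {β : ℝ} (hβ : 0 < β) (p : ℝ × ℝ) : 0 ≤ Bd β p := by
  unfold Bd
  positivity

lemma norm_xy (p : ℝ × ℝ) : ‖(p.1 : ℂ) + (p.2 : ℂ) * Complex.I‖ ≤ |p.1| + |p.2| := by
  refine (norm_add_le _ _).trans (le_of_eq ?_)
  rw [norm_mul, Complex.norm_I, mul_one, Complex.norm_real, Complex.norm_real]
  rfl

lemma qq_bound {β : ℝ} (hβ : 0 < β) {h : ℝ} (h0 : 0 < h) (h1 : h ≤ 1) (p : ℝ × ℝ) : ‖qq β h p‖ ≤ Bd β p := by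
  have hz : ‖Complex.I * (h : ℂ) / 2‖ = h / 2 := by
    rw [norm_div, norm_mul, Complex.norm_I, one_mul, Complex.norm_real, Real.norm_of_nonneg h0.le]
    norm_num
  have h2 : ‖ll1 (Complex.I * (h : ℂ) / 2)‖ ≤ 3 / 2 := by
    have h3 := Complex.norm_log_one_add_half_le_self (z := Complex.I * (h : ℂ) / 2) (by rw [hz]; linarith)
    rw [← ll1_mul, norm_mul, hz] at h3
    have h4 : h / 2 * ‖ll1 (Complex.I * (h : ℂ) / 2)‖ ≤ h / 2 * (3 / 2) := by linarith
    exact le_of_mul_le_mul_left h4 (by positivity)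
  unfold qq Bd
  refine (norm_add_le _ _).trans (add_le_add ?_ ?_)
  · rw [norm_mul, norm_neg]
    have e : ‖(β / 4 : ℂ)‖ = β / 4 := by
      rw [norm_div, Complex.norm_real, Real.norm_of_nonneg hβ.le]
      norm_num
    rw [e]
    nlinarith [norm_nonneg (ll1 (Complex.I * (h : ℂ) / 2))]
  · rw [norm_mul, Complex.norm_real, Real.norm_of_nonneg (sg_div_nonneg h0)]
    calc sg h / h * ‖(p.1 : ℂ) + (p.2 : ℂ) * Complex.I‖ ≤ 1 / 2 * (|p.1| + |p.2|) :=
          mul_le_mul (sg_div_le h0) (norm_xy p) (norm_nonneg _) (by norm_num)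
      _ = (|p.1| + |p.2|) / 2 := by ring

lemma q0_bound {β : ℝ} (hβ : 0 < β) (p : ℝ × ℝ) : ‖q0 β p‖ ≤ Bd β p :=
  le_of_tendsto (qq_lim β p).norm (by
    filter_upwards [Ioc_mem_nhdsGT (show (0:ℝ) < 1 by norm_num)] with h hh
    exact qq_bound hβ hh.1 hh.2 p)

/-- the divided difference -/
noncomputable def ww (β h : ℝ) (p : ℝ × ℝ) : ℂ := (Complex.exp (uu β h p) - 1) / (Complex.I * h)

lemma ww_eq (β : ℝ) {h : ℝ} (hh : h ≠ 0) (p : ℝ × ℝ) : ww β h p = qq β h p * ee (uu β h p) := by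
  unfold ww
  rw [← ee_mul]
  nth_rewrite 1 [uu_eq β hh]
  have h2 : (h : ℂ) ≠ 0 := by exact_mod_cast hh
  have h3 : Complex.I * (h : ℂ) ≠ 0 := mul_ne_zero Complex.I_ne_zero h2
  rw [mul_assoc, mul_div_cancel_left₀ _ h3]

lemma ww_bound {β : ℝ} (hβ : 0 < β) {h : ℝ} (h0 : 0 < h) (h1 : h ≤ 1) (p : ℝ × ℝ) :
    ‖ww β h p‖ ≤ Real.exp (2 * Bd β p) := by
  have hB := Bd_nonneg hβ p
  have hq := qq_bound hβ h0 h1 p
  have hu : ‖uu β h p‖ = h * ‖qq β h p‖ := by
    rw [uu_eq β h0.ne', norm_mul, norm_mul, Complex.norm_I, one_mul, Complex.norm_real, Real.norm_of_nonneg h0.le]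
  have h2 : ‖Complex.exp (uu β h p) - 1‖ ≤ ‖uu β h p‖ * Real.exp ‖uu β h p‖ := by
    have := Complex.norm_exp_sub_sum_le_norm_mul_exp (uu β h p) 1
    simpa using this
  have h3 : ‖ww β h p‖ ≤ ‖qq β h p‖ * Real.exp ‖uu β h p‖ := by
    unfold ww
    rw [norm_div, norm_mul, Complex.norm_I, one_mul, Complex.norm_real, Real.norm_of_nonneg h0.le, div_le_iff₀ h0]
    refine h2.trans (le_of_eq ?_)
    rw [hu]
    ring
  have h4 : ‖uu β h p‖ ≤ Bd β p := by
    rw [hu]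
    nlinarith [norm_nonneg (qq β h p)]
  calc ‖ww β h p‖ ≤ ‖qq β h p‖ * Real.exp ‖uu β h p‖ := h3
    _ ≤ Real.exp (Bd β p) * Real.exp (Bd β p) := by
        refine mul_le_mul ?_ (Real.exp_le_exp.2 h4) (Real.exp_pos _).le (Real.exp_pos _).le
        have := Real.add_one_le_exp (Bd β p)
        linarith
    _ = _ := by rw [← Real.exp_add]; ring_nf

lemma ww_lim (β : ℝ) (p : ℝ × ℝ) : Tendsto (fun h => ww β h p) (𝓝[>] 0) (𝓝 (q0 β p)) := by
  have h1 := qq_lim β p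
  have h2 : Tendsto (fun h => uu β h p) (𝓝[>] 0) (𝓝 0) := by
    have h3 : Tendsto (fun h : ℝ => Complex.I * (h : ℂ)) (𝓝[>] 0) (𝓝 0) := by
      have := ih_lim.mul_const 2
      rw [zero_mul] at this
      refine this.congr fun h => ?_
      ring
    have h4 := h3.mul h1
    rw [zero_mul] at h4
    refine h4.congr' ?_
    filter_upwards [self_mem_nhdsWithin] with h hh
    exact (uu_eq β (show h ≠ 0 from (show (0:ℝ) < h from hh).ne') p).symm
  have h3 := ee_cont.tendsto.comp h2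
  rw [ee_zero] at h3
  have h4 := h1.mul h3
  rw [mul_one] at h4
  refine h4.congr' ?_
  filter_upwards [self_mem_nhdsWithin] with h hh
  exact (ww_eq β (show h ≠ 0 from (show (0:ℝ) < h from hh).ne') p).symm

lemma hom2_bound {β : ℝ} (hβ : 0 < β) {Φ : ℂ × ℂ → ℝ} (hc : Continuous Φ) (hh : Hom2 β Φ) :
    ∃ C : ℝ, 0 ≤ C ∧ ∀ a b, |Φ (a, b)| ≤ C * (‖a‖ ^ β + ‖b‖ ^ β) := by
  have hc' : Continuous (fun z : Fin 2 → ℂ => Φ (z 0, z 1)) := hc.comp (by fun_prop)
  have hh' : Hom β (fun z : Fin 2 → ℂ => Φ (z 0, z 1)) := fun l z => hh l (z 0) (z 1)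
  obtain ⟨C, hC, h⟩ := hom_bound hβ hc' hh'
  refine ⟨C, hC, fun a b => ?_⟩
  have := h ![a, b]
  rw [Fin.sum_univ_two] at this
  simpa using this

lemma exp_abs_int (c : ℝ) : Integrable (fun x : ℝ => Real.exp (c * |x|)) (gaussianReal 0 1) :=
  integrable_exp_mul_abs (X := fun x => x) (integrable_exp_mul_gaussianReal c) (integrable_exp_mul_gaussianReal (-c))

lemma dom_int (β C : ℝ) : Integrable (fun p => 2 * C * Real.exp (2 * Bd β p * β)) N2 := by
  refine Integrable.const_mul ?_ _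
  have h1 := ((exp_abs_int β).mul_prod (exp_abs_int β)).const_mul (Real.exp (β * β))
  unfold N2
  refine h1.congr (Eventually.of_forall fun p => ?_)
  simp only
  rw [← Real.exp_add, ← Real.exp_add]
  congr 1
  unfold Bd
  ring

lemma dom_le {β C : ℝ} (hβ : 0 < β) (hC : 0 ≤ C) {w : ℂ} {p : ℝ × ℝ} (hw : ‖w‖ ≤ Real.exp (2 * Bd β p)) :
    C * (‖(1 : ℂ)‖ ^ β + ‖w‖ ^ β) ≤ 2 * C * Real.exp (2 * Bd β p * β) := by
  have hB := Bd_nonneg hβ p
  rw [norm_one, Real.one_rpow]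
  have h1 : ‖w‖ ^ β ≤ Real.exp (2 * Bd β p * β) := by
    refine (Real.rpow_le_rpow (norm_nonneg _) hw hβ.le).trans (le_of_eq ?_)
    rw [← Real.exp_mul]
  have h2 : 1 ≤ Real.exp (2 * Bd β p * β) := Real.one_le_exp (by positivity)
  nlinarith

lemma uu_cont (β h : ℝ) : Continuous (uu β h) := by
  unfold uu
  fun_prop

lemma q0_cont (β : ℝ) : Continuous (q0 β) := by
  unfold q0
  fun_prop

/-- the limit law as the points come together -/
theorem two_lim {β : ℝ} (hβ : 0 < β) {Φ : ℂ × ℂ → ℝ} (hc : Continuous Φ) (hh : Hom2 β Φ) :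
    Integrable (fun p => Φ (1, q0 β p)) N2 ∧
      Tendsto (fun h => ∫ p, Φ (1, ww β h p) ∂N2) (𝓝[>] 0) (𝓝 (∫ p, Φ (1, q0 β p) ∂N2)) := by
  obtain ⟨C, hC, hb⟩ := hom2_bound hβ hc hh
  refine ⟨?_, ?_⟩
  · refine (dom_int β C).mono' ((hc.comp (continuous_const.prodMk (q0_cont β))).aestronglyMeasurable)
      (Eventually.of_forall fun p => ?_)
    rw [Real.norm_eq_abs]
    refine (hb _ _).trans (dom_le hβ hC ?_)
    refine (q0_bound hβ p).trans ?_
    have := Real.add_one_le_exp (2 * Bd β p)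
    linarith [Bd_nonneg hβ p]
  · refine tendsto_integral_filter_of_dominated_convergence (fun p => 2 * C * Real.exp (2 * Bd β p * β)) ?_ ?_ (dom_int β C) ?_
    · refine Eventually.of_forall fun h => Continuous.aestronglyMeasurable ?_
      refine hc.comp (continuous_const.prodMk ?_)
      unfold ww
      exact ((Complex.continuous_exp.comp (uu_cont β h)).sub continuous_const).div_const _
    · filter_upwards [Ioc_mem_nhdsGT (show (0:ℝ) < 1 by norm_num)] with h hh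
      refine Eventually.of_forall fun p => ?_
      rw [Real.norm_eq_abs]
      exact (hb _ _).trans (dom_le hβ hC (ww_bound hβ hh.1 hh.2 p))
    · refine Eventually.of_forall fun p => ?_
      exact (hc.tendsto _).comp ((tendsto_const_nhds (x := (1 : ℂ))).prodMk_nhds (ww_lim β p))

end Pool.Agent.V11128.CXL
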