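import Pool.Agent.V11128.CXL.L
import Pool.Agent.V11128.CXL.N

set_option autoImplicit false

/-! Moments of the zeta function and its derivative near the critical line. -/

namespace Pool.Agent.V11128.CXL

open MeasureTheory Filter Topology ProbabilityTheory
open Pool.Agent.Y755
open Pool.Agent.Y753.SHL
open Pool.Agent.Y753.SHR
open Pool.Agent.H306R2 (aF aF_pos)
open scoped ENNReal

/-- the point -/
noncomputable def pt (δ t : ℝ) : ℂ := 1 / 2 + δ + (t : ℂ) * Complex.I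

lemma pt_ne {δ t : ℝ} (h : δ < 1 / 4) : pt δ t ≠ 1 := by
  intro h1
  have h2 := congrArg Complex.re h1
  unfold pt at h2
  simp at h2
  linarith

lemma pt_cont (δ : ℝ) : Continuous (pt δ) := by
  unfold pt
  fun_prop

lemma zeta_line_cont {δ : ℝ} (h : δ < 1 / 4) : Continuous fun t => riemannZeta (pt δ t) := by
  rw [continuous_iff_continuousAt]
  intro t
  exact ContinuousAt.comp (f := pt δ) (g := riemannZeta) (differentiableAt_riemannZeta (pt_ne h)).continuousAt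
    (pt_cont δ).continuousAt

lemma dzeta_line_cont {δ : ℝ} (h : δ < 1 / 4) : Continuous fun t => deriv riemannZeta (pt δ t) := by
  rw [continuous_iff_continuousAt]
  intro t
  have h1 : DifferentiableOn ℂ riemannZeta {1}ᶜ := fun z hz => (differentiableAt_riemannZeta hz).differentiableWithinAt
  have h2 : ContinuousAt (deriv riemannZeta) (pt δ t) :=
    (h1.deriv isOpen_compl_singleton).continuousOn.continuousAt (isOpen_compl_singleton.mem_nhds (pt_ne h))
  exact ContinuousAt.comp (f := pt δ) (g := deriv riemannZeta) h2 (pt_cont δ).continuousAt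

lemma ft_zero (δ t : ℝ) : ft δ t 0 = riemannZeta (pt δ t) := by
  unfold ft pt
  rw [zero_mul, add_zero]

lemma zc_zero (δ t : ℝ) : zc δ 0 t = riemannZeta (pt δ t) := by
  unfold zc pt
  rw [zero_mul, add_zero]

lemma ft_ih (δ h t : ℝ) : ft δ t (Complex.I * h) = zc δ h t := by
  unfold ft zc
  congr 1
  push_cast
  ring

lemma ft_deriv {δ t : ℝ} (h : δ < 1 / 4) : deriv (ft δ t) 0 = δ * deriv riemannZeta (pt δ t) := by
  have h1 : HasDerivAt riemannZeta (deriv riemannZeta (pt δ t)) (pt δ t + 0 * δ) := by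
    rw [zero_mul, add_zero]
    exact (differentiableAt_riemannZeta (pt_ne h)).hasDerivAt
  have h2 : HasDerivAt (fun z : ℂ => pt δ t + z * δ) (δ : ℂ) 0 := by
    simpa using ((hasDerivAt_id (0 : ℂ)).mul_const (δ : ℂ)).const_add (pt δ t)
  have h3 := HasDerivAt.comp (0 : ℂ) (h₂ := riemannZeta) h1 h2
  have h4 : ft δ t = riemannZeta ∘ fun z : ℂ => pt δ t + z * δ := by
    funext z
    rfl
  rw [h4, h3.deriv, mul_comm]

/-- the moments of the divided differences -/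
lemma lim_h {δ : ℝ → ℝ} (hδ : Tendsto δ atTop (𝓝 0))
    (hδL : Tendsto (fun T : ℝ => δ T * Real.log T) atTop atTop) {β : ℝ} (hβ : 0 < β) (hβ4 : β ≤ 4)
    {Φ : ℂ × ℂ → ℝ} (hc : Continuous Φ) (hh : Hom2 β Φ) (h : ℝ) :
    Tendsto (fun T : ℝ => (2 * δ T) ^ ((β / 2) ^ 2) / T *
      ∫ t in Set.Icc 0 T, Φ (zc (δ T) 0 t, (zc (δ T) h t - zc (δ T) 0 t) / (Complex.I * h))) atTop
      (𝓝 (aF (β / 2) * ∫ p, Φ (1, ww β h p) ∂N2)) := by
  obtain ⟨ρ, hρ, H⟩ := homog_full hδ hδL hβ hβ4 ![0, h]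
  obtain ⟨G, hG⟩ : ∃ G : (Fin 2 → ℂ) → ℝ, G = fun z => Φ (z 0, (z 1 - z 0) / (Complex.I * h)) := ⟨_, rfl⟩
  have hGc : Continuous G := by
    rw [hG]
    exact hc.comp ((continuous_apply 0).prodMk (((continuous_apply 1).sub (continuous_apply 0)).div_const _))
  have hGh : Hom β G := by
    rw [hG]
    intro l z
    simp only
    rw [← hh]
    congr 2
    ring
  have h1 := (H G hGc hGh).2
  rw [two_law hρ hGc, hG] at h1
  exact h1

/-- the comparison -/
lemma comp_h {δ : ℝ → ℝ} (hδ : Tendsto δ atTop (𝓝 0))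
    (hδL : Tendsto (fun T : ℝ => δ T * Real.log T) atTop atTop) {β : ℝ} (hβ : 0 < β) (hβ4 : β ≤ 4)
    {Φ : ℂ × ℂ → ℝ} (hc : Continuous Φ) (hh : Hom2 β Φ) {ε : ℝ} (hε : 0 < ε) :
    ∃ h0 : ℝ, 0 < h0 ∧ ∀ h : ℝ, 0 < h → h < h0 → ∀ᶠ T : ℝ in atTop,
      |(2 * δ T) ^ ((β / 2) ^ 2) / T * (∫ t in Set.Icc 0 T, Φ (riemannZeta (pt (δ T) t), δ T * deriv riemannZeta (pt (δ T) t))) -
        (2 * δ T) ^ ((β / 2) ^ 2) / T *
          ∫ t in Set.Icc 0 T, Φ (zc (δ T) 0 t, (zc (δ T) h t - zc (δ T) 0 t) / (Complex.I * h))| ≤ ε := by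
  obtain ⟨C, hC, hmax⟩ := max_mean (s := β / 2) (by positivity) (by linarith) hδ hδL
  obtain ⟨ε', hε'⟩ : ∃ ε' : ℝ, ε' = ε / (16 / Real.pi * C) := ⟨_, rfl⟩
  have hpi := Real.pi_pos
  have hε'0 : 0 < ε' := by rw [hε']; positivity
  obtain ⟨h0, h00, h04, hm⟩ := modul hc hh hε'0
  refine ⟨h0, h00, fun h hh0 hhh => ?_⟩
  filter_upwards [hmax, pos_path hδL, hδ.eventually (gt_mem_nhds (show (0:ℝ) < 1 / 4 by norm_num)),
    eventually_gt_atTop 0] with T h1 h2 h3 h4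
  have e2 : 2 * (β / 2) = β := by ring
  rw [e2] at h1
  obtain ⟨W, hW⟩ : ∃ W : ℝ, W = (2 * δ T) ^ ((β / 2) ^ 2) / T := ⟨_, rfl⟩
  have hW0 : 0 < W := by rw [hW]; positivity
  rw [← hW] at h1 ⊢
  obtain ⟨A, hA⟩ : ∃ A : ℝ≥0∞, A = ∫⁻ t in Set.Icc 0 T, Ar β (δ T) t := ⟨_, rfl⟩
  rw [← hA] at h1
  have hAfin : A ≠ ∞ := by
    intro h5
    rw [h5, ENNReal.mul_top (by simpa using hW0)] at h1
    exact absurd (top_le_iff.1 h1) ENNReal.ofReal_ne_top
  have hWA : W * A.toReal ≤ C := by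
    have h5 := ENNReal.toReal_mono ENNReal.ofReal_ne_top h1
    rwa [ENNReal.toReal_mul, ENNReal.toReal_ofReal hW0.le, ENNReal.toReal_ofReal hC.le] at h5
  have hAint : IntegrableOn (fun t => (Ar β (δ T) t).toReal) (Set.Icc 0 T) :=
    integrable_toReal_of_lintegral_ne_top (Ar_meas β (δ T)).aemeasurable (by rw [← hA]; exact hAfin)
  have hAeq : ∫ t in Set.Icc 0 T, (Ar β (δ T) t).toReal = A.toReal := by
    rw [integral_toReal (Ar_meas β (δ T)).aemeasurable (Eventually.of_forall fun t => Ar_fin hβ h2 h3), hA]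
  have hz0 : Complex.I * (h : ℂ) ≠ 0 := mul_ne_zero Complex.I_ne_zero (by exact_mod_cast hh0.ne')
  have hzn : ‖Complex.I * (h : ℂ)‖ < h0 := by
    rw [norm_mul, Complex.norm_I, one_mul, Complex.norm_real, Real.norm_of_nonneg hh0.le]
    exact hhh
  have hpt : ∀ t : ℝ, |Φ (riemannZeta (pt (δ T) t), δ T * deriv riemannZeta (pt (δ T) t)) -
      Φ (zc (δ T) 0 t, (zc (δ T) h t - zc (δ T) 0 t) / (Complex.I * h))| ≤ ε' * (16 / Real.pi * (Ar β (δ T) t).toReal) := by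
    intro t
    have k := hm (ft (δ T) t) (Sm β (δ T) t) (Sm_nonneg _ _ _)
      ((ft_diff h2 h3).mono (Metric.ball_subset_ball (by norm_num))) (fun z hz => Sm_le hβ h2 h3 hz) _ hz0 hzn
    rw [Sm_pow hβ, ft_deriv h3, ft_ih, ft_zero] at k
    rw [zc_zero]
    exact k
  have hF1 : Continuous fun t => Φ (riemannZeta (pt (δ T) t), δ T * deriv riemannZeta (pt (δ T) t)) :=
    hc.comp ((zeta_line_cont h3).prodMk (continuous_const.mul (dzeta_line_cont h3)))
  have hzc : ∀ a : ℝ, Continuous fun t => zc (δ T) a t := by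
    intro a
    have e : (fun t => zc (δ T) a t) = (fun t => riemannZeta (pt (δ T) t)) ∘ fun t => t + a * δ T := by
      funext t
      rfl
    rw [e]
    exact (zeta_line_cont h3).comp (by fun_prop)
  have hF2 : Continuous fun t => Φ (zc (δ T) 0 t, (zc (δ T) h t - zc (δ T) 0 t) / (Complex.I * h)) :=
    hc.comp ((hzc 0).prodMk (((hzc h).sub (hzc 0)).div_const _))
  rw [← mul_sub, ← integral_sub (hF1.continuousOn.integrableOn_compact isCompact_Icc)
    (hF2.continuousOn.integrableOn_compact isCompact_Icc), abs_mul, abs_of_pos hW0]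
  have h5 : |∫ t in Set.Icc 0 T, (Φ (riemannZeta (pt (δ T) t), δ T * deriv riemannZeta (pt (δ T) t)) -
      Φ (zc (δ T) 0 t, (zc (δ T) h t - zc (δ T) 0 t) / (Complex.I * h)))| ≤ ε' * (16 / Real.pi * A.toReal) := by
    rw [← Real.norm_eq_abs]
    refine (norm_integral_le_integral_norm _).trans ?_
    rw [← hAeq, ← integral_const_mul, ← integral_const_mul]
    refine integral_mono_of_nonneg (Eventually.of_forall fun t => norm_nonneg _) ((hAint.const_mul _).const_mul _)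
      (Eventually.of_forall fun t => ?_)
    exact hpt t
  calc W * |∫ t in Set.Icc 0 T, (Φ (riemannZeta (pt (δ T) t), δ T * deriv riemannZeta (pt (δ T) t)) -
      Φ (zc (δ T) 0 t, (zc (δ T) h t - zc (δ T) 0 t) / (Complex.I * h)))| ≤ W * (ε' * (16 / Real.pi * A.toReal)) :=
        mul_le_mul_of_nonneg_left h5 hW0.le
    _ = ε' * (16 / Real.pi) * (W * A.toReal) := by ring
    _ ≤ ε' * (16 / Real.pi) * C := mul_le_mul_of_nonneg_left hWA (by positivity)
    _ = ε := by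
        rw [hε']
        field_simp

/-- moments of the zeta function and its derivative -/
theorem deriv_moment {δ : ℝ → ℝ} (hδ : Tendsto δ atTop (𝓝 0))
    (hδL : Tendsto (fun T : ℝ => δ T * Real.log T) atTop atTop) {β : ℝ} (hβ : 0 < β) (hβ4 : β ≤ 4)
    {Φ : ℂ × ℂ → ℝ} (hc : Continuous Φ) (hh : Hom2 β Φ) :
    Integrable (fun p => Φ (1, q0 β p)) N2 ∧
    Tendsto (fun T : ℝ => (2 * δ T) ^ ((β / 2) ^ 2) / T *
      ∫ t in Set.Icc 0 T, Φ (riemannZeta (pt (δ T) t), δ T * deriv riemannZeta (pt (δ T) t))) atTop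
      (𝓝 (aF (β / 2) * ∫ p, Φ (1, q0 β p) ∂N2)) := by
  obtain ⟨hint, hlim⟩ := two_lim hβ hc hh
  refine ⟨hint, ?_⟩
  have hlim' := hlim.const_mul (aF (β / 2))
  rw [Metric.tendsto_atTop']
  intro ε hε
  obtain ⟨h0, h00, hcomp⟩ := comp_h hδ hδL hβ hβ4 hc hh (show 0 < ε / 4 by positivity)
  obtain ⟨h, hh1, hh2, hh3⟩ : ∃ h : ℝ, 0 < h ∧ h < h0 ∧
      dist (aF (β / 2) * ∫ p, Φ (1, ww β h p) ∂N2) (aF (β / 2) * ∫ p, Φ (1, q0 β p) ∂N2) < ε / 4 := by
    have h1 := (hlim'.eventually (Metric.ball_mem_nhds _ (show 0 < ε / 4 by positivity))).and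
      (Ioo_mem_nhdsGT h00)
    obtain ⟨h, k1, k2⟩ := h1.exists
    exact ⟨h, k2.1, k2.2, k1⟩
  have hA := hcomp h hh1 hh2
  have hB := (lim_h hδ hδL hβ hβ4 hc hh h).eventually (Metric.ball_mem_nhds _ (show 0 < ε / 4 by positivity))
  obtain ⟨N, hN⟩ := ((hA.and hB).and (eventually_gt_atTop 0)).exists_forall_of_atTop
  refine ⟨N, fun T hT => ?_⟩
  obtain ⟨⟨k1, k2⟩, _⟩ := hN T hT.le
  rw [← Real.dist_eq] at k1
  exact (dist_triangle4 _ _ _ _).trans_lt (lt_of_lt_of_le (add_lt_add (add_lt_add_of_le_of_lt k1 k2) hh3) (by linarith))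

end Pool.Agent.V11128.CXL
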