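import Mathlib

set_option autoImplicit false

/-! Homogeneous functionals on windows. -/

namespace Pool.Agent.V11128.CXL

open Metric Filter Topology MeasureTheory Uniformity

/-- the continuous functions on the window -/
abbrev Wn (r : ℝ) : Type := C(Set.Icc (-r) r, ℂ)

/-- the class of functions bounded by `S` with Lipschitz constant `16 S` -/
def Cl {r : ℝ} (S : ℝ) (f : Wn r) : Prop :=
  (∀ x, ‖f x‖ ≤ S) ∧ ∀ x y : Set.Icc (-r) r, ‖f x - f y‖ ≤ 16 * S * |(x : ℝ) - y|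

/-- homogeneous functionals -/
def HomW {r : ℝ} (β : ℝ) (Φ : Wn r → ℝ) : Prop := ∀ (l : ℂ) (f : Wn r), Φ (l • f) = ‖l‖ ^ β * Φ f

lemma cl_compact (r : ℝ) : IsCompact (closure {f : Wn r | Cl 1 f}) := by
  obtain ⟨A, hA⟩ : ∃ A : Set (BoundedContinuousFunction (Set.Icc (-r) r) ℂ),
      A = {f | (∀ x, ‖f x‖ ≤ 1) ∧ ∀ x y : Set.Icc (-r) r, ‖f x - f y‖ ≤ 16 * |(x : ℝ) - y|} := ⟨_, rfl⟩
  have h1 : IsCompact (closure A) := by
    refine BoundedContinuousFunction.arzela_ascoli (closedBall 0 1) (isCompact_closedBall _ _) A ?_ ?_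
    · intro f x hf
      rw [hA] at hf
      rw [mem_closedBall, dist_zero_right]
      exact hf.1 x
    · refine (LipschitzWith.uniformEquicontinuous (K := 16) _ fun f => ?_).equicontinuous
      refine LipschitzWith.of_dist_le_mul fun x y => ?_
      obtain ⟨f, hf⟩ := f
      rw [hA] at hf
      rw [dist_eq_norm, Subtype.dist_eq, Real.dist_eq]
      exact hf.2 x y
  have h2 := h1.image (ContinuousMap.isometryEquivBoundedOfCompact (Set.Icc (-r) r) ℂ).symm.continuous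
  refine h2.of_isClosed_subset isClosed_closure ?_
  refine closure_minimal ?_ h2.isClosed
  intro f hf
  refine ⟨ContinuousMap.isometryEquivBoundedOfCompact (Set.Icc (-r) r) ℂ f, subset_closure ?_, ?_⟩
  · rw [hA]
    refine ⟨fun x => hf.1 x, fun x y => ?_⟩
    have := hf.2 x y
    rw [mul_one] at this
    exact this
  · exact (ContinuousMap.isometryEquivBoundedOfCompact (Set.Icc (-r) r) ℂ).symm_apply_apply f

lemma cl_zero {r : ℝ} {f : Wn r} (h : Cl 0 f) : f = 0 := by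
  ext x
  exact norm_le_zero_iff.1 (h.1 x)

lemma cl_scale {r S : ℝ} (hS : 0 < S) {f : Wn r} (h : Cl S f) : Cl 1 ((S : ℂ)⁻¹ • f) := by
  have hn : ∀ z : ℂ, ‖(S : ℂ)⁻¹ * z‖ = ‖z‖ / S := by
    intro z
    rw [norm_mul, norm_inv, Complex.norm_real, Real.norm_of_nonneg hS.le]
    ring
  refine ⟨fun x => ?_, fun x y => ?_⟩
  · rw [ContinuousMap.smul_apply, smul_eq_mul, hn, div_le_one hS]
    exact h.1 x
  · rw [ContinuousMap.smul_apply, ContinuousMap.smul_apply, smul_eq_mul, smul_eq_mul, ← mul_sub, hn, div_le_iff₀ hS]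
    refine (h.2 x y).trans (le_of_eq ?_)
    ring

lemma homW_scale {r β S : ℝ} {Φ : Wn r → ℝ} (hh : HomW β Φ) (hS : 0 < S) (f : Wn r) :
    Φ f = S ^ β * Φ ((S : ℂ)⁻¹ • f) := by
  have hSc : ((S : ℝ) : ℂ) ≠ 0 := by exact_mod_cast hS.ne'
  have h1 := hh (S : ℂ) ((S : ℂ)⁻¹ • f)
  rwa [smul_smul, mul_inv_cancel₀ hSc, one_smul, Complex.norm_real, Real.norm_of_nonneg hS.le] at h1

lemma homW_zero {r β : ℝ} (hβ : 0 < β) {Φ : Wn r → ℝ} (hh : HomW β Φ) : Φ 0 = 0 := by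
  have h1 := hh 0 0
  have h2 : (0 : ℂ) • (0 : Wn r) = 0 := by
    ext x
    simp
  rwa [h2, norm_zero, Real.zero_rpow hβ.ne', zero_mul] at h1

lemma modulW {r β : ℝ} (hβ : 0 < β) {Φ : Wn r → ℝ} (hc : Continuous Φ) (hh : HomW β Φ) {ε : ℝ} (hε : 0 < ε) :
    ∃ η : ℝ, 0 < η ∧ ∀ (f g : Wn r) (S : ℝ), 0 ≤ S → Cl S f → ‖f - g‖ ≤ η * S → |Φ f - Φ g| ≤ ε * S ^ β := by
  have h1 := (cl_compact r).uniformContinuousAt_of_continuousAt Φ (fun a _ => hc.continuousAt)
    (Metric.dist_mem_uniformity hε)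
  obtain ⟨η, hη, h⟩ := Metric.mem_uniformity_dist.1 h1
  refine ⟨η / 2, by positivity, fun f g S hS hf hfg => ?_⟩
  rcases hS.eq_or_lt with h0 | h0
  · subst h0
    have e1 := cl_zero hf
    rw [mul_zero] at hfg
    have e2 : f - g = 0 := norm_le_zero_iff.1 hfg
    have e3 : g = 0 := by rw [e1] at e2; simpa using e2
    rw [e1, e3, sub_self, abs_zero]
    positivity
  · have hSc : ((S : ℝ) : ℂ) ≠ 0 := by exact_mod_cast h0.ne'
    have h2 : dist ((S : ℂ)⁻¹ • f) ((S : ℂ)⁻¹ • g) < η := by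
      have e1 : ‖(S : ℂ)⁻¹ • f - (S : ℂ)⁻¹ • g‖ ≤ S⁻¹ * ‖f - g‖ := by
        rw [ContinuousMap.norm_le _ (by positivity)]
        intro x
        rw [ContinuousMap.sub_apply, ContinuousMap.smul_apply, ContinuousMap.smul_apply, smul_eq_mul, smul_eq_mul,
          ← mul_sub, norm_mul, norm_inv, Complex.norm_real, Real.norm_of_nonneg hS]
        exact mul_le_mul_of_nonneg_left ((f - g).norm_coe_le_norm x) (by positivity)
      rw [dist_eq_norm]
      refine e1.trans_lt ?_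
      rw [inv_mul_lt_iff₀ h0]
      nlinarith
    have h3 := h h2 (subset_closure (cl_scale h0 hf))
    simp only at h3
    rw [homW_scale hh h0 f, homW_scale hh h0 g, ← mul_sub, abs_mul, abs_of_pos (Real.rpow_pos_of_pos h0 _), mul_comm]
    refine mul_le_mul_of_nonneg_right ?_ (Real.rpow_nonneg hS _)
    have h4 : dist (Φ ((S : ℂ)⁻¹ • f)) (Φ ((S : ℂ)⁻¹ • g)) < ε := h3
    rw [Real.dist_eq] at h4
    exact h4.le

lemma boundW {r β : ℝ} (hβ : 0 < β) {Φ : Wn r → ℝ} (hc : Continuous Φ) (hh : HomW β Φ) :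
    ∃ C : ℝ, 0 ≤ C ∧ ∀ (f : Wn r) (S : ℝ), 0 ≤ S → Cl S f → |Φ f| ≤ C * S ^ β := by
  obtain ⟨C, hC⟩ := (cl_compact r).exists_bound_of_continuousOn hc.continuousOn
  refine ⟨max C 0, le_max_right _ _, fun f S hS hf => ?_⟩
  rcases hS.eq_or_lt with h0 | h0
  · subst h0
    rw [cl_zero hf, homW_zero hβ hh, abs_zero]
    positivity
  · rw [homW_scale hh h0 f, abs_mul, abs_of_pos (Real.rpow_pos_of_pos h0 _), mul_comm]
    refine mul_le_mul_of_nonneg_right ?_ (Real.rpow_nonneg hS _)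
    exact (hC _ (subset_closure (cl_scale h0 hf))).trans (le_max_left _ _)

/-- the nodes -/
noncomputable def nd (r : ℝ) (n : ℕ) (j : Fin (n + 1)) : ℝ := -r + 2 * r * j / n

lemma nd_mem {r : ℝ} (hr : 0 < r) {n : ℕ} (hn : 1 ≤ n) (j : Fin (n + 1)) : nd r n j ∈ Set.Icc (-r) r := by
  have hn0 : (0 : ℝ) < n := by exact_mod_cast hn
  have hj : (j : ℝ) ≤ n := by exact_mod_cast Nat.lt_succ_iff.1 j.2
  unfold nd
  refine ⟨?_, ?_⟩
  · have : 0 ≤ 2 * r * j / n := by positivity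
    linarith
  · have : 2 * r * j / n ≤ 2 * r := by
      rw [div_le_iff₀ hn0]
      exact mul_le_mul_of_nonneg_left hj (by positivity)
    linarith

/-- the weights -/
noncomputable def wt (r : ℝ) (n : ℕ) (j : Fin (n + 1)) (x : ℝ) : ℝ := max 0 (4 * r / n - |x - nd r n j|)

lemma wt_nonneg (r : ℝ) (n : ℕ) (j : Fin (n + 1)) (x : ℝ) : 0 ≤ wt r n j x := le_max_left _ _

lemma wt_cont (r : ℝ) (n : ℕ) (j : Fin (n + 1)) : Continuous (wt r n j) := by
  unfold wt
  fun_prop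

lemma wt_ne {r : ℝ} {n : ℕ} {j : Fin (n + 1)} {x : ℝ} (h : wt r n j x ≠ 0) : |x - nd r n j| ≤ 4 * r / n := by
  by_contra h1
  push Not at h1
  exact h (max_eq_left (by linarith))

lemma wt_sum_pos {r : ℝ} (hr : 0 < r) {n : ℕ} (hn : 1 ≤ n) {x : ℝ} (hx : x ∈ Set.Icc (-r) r) : 0 < ∑ j, wt r n j x := by
  have hn0 : (0 : ℝ) < n := by exact_mod_cast hn
  obtain ⟨y, hy⟩ : ∃ y : ℝ, y = (x + r) * n / (2 * r) := ⟨_, rfl⟩
  have hy0 : 0 ≤ y := by
    rw [hy]
    have : 0 ≤ x + r := by linarith [hx.1]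
    positivity
  have hyn : y ≤ n := by
    rw [hy, div_le_iff₀ (by positivity)]
    nlinarith [hx.2]
  have hfl : ⌊y⌋₊ < n + 1 := by
    have : ⌊y⌋₊ ≤ n := Nat.floor_le_of_le hyn
    omega
  refine Finset.sum_pos' (fun j _ => wt_nonneg _ _ _ _) ⟨⟨⌊y⌋₊, hfl⟩, Finset.mem_univ _, ?_⟩
  unfold wt nd
  refine lt_max_of_lt_right ?_
  have h1 := Nat.floor_le hy0
  have h2 := Nat.lt_floor_add_one y
  have h3 : x = -r + 2 * r * y / n := by
    rw [hy]
    field_simp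
    ring
  have h4 : x - (-r + 2 * r * (⌊y⌋₊ : ℝ) / n) = 2 * r / n * (y - ⌊y⌋₊) := by
    rw [h3]
    ring
  simp only
  rw [h4, abs_of_nonneg (mul_nonneg (by positivity) (by linarith))]
  have h5 : 2 * r / n * (y - ⌊y⌋₊) ≤ 2 * r / n * 1 := mul_le_mul_of_nonneg_left (by linarith) (by positivity)
  have h6 : 0 < 2 * r / n := by positivity
  have h7 : 4 * r / n = 2 * r / n + 2 * r / n := by ring
  linarith

/-- the partition of unity -/
noncomputable def pu (r : ℝ) (n : ℕ) (j : Fin (n + 1)) (x : ℝ) : ℝ := wt r n j x / ∑ i, wt r n i x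

lemma pu_nonneg (r : ℝ) (n : ℕ) (j : Fin (n + 1)) (x : ℝ) : 0 ≤ pu r n j x :=
  div_nonneg (wt_nonneg _ _ _ _) (Finset.sum_nonneg fun i _ => wt_nonneg _ _ _ _)

lemma pu_sum {r : ℝ} (hr : 0 < r) {n : ℕ} (hn : 1 ≤ n) {x : ℝ} (hx : x ∈ Set.Icc (-r) r) : ∑ j, pu r n j x = 1 := by
  unfold pu
  rw [← Finset.sum_div, div_self (wt_sum_pos hr hn hx).ne']

/-- the interpolation -/
noncomputable def In {r : ℝ} (hr : 0 < r) {n : ℕ} (hn : 1 ≤ n) (z : Fin (n + 1) → ℂ) : Wn r :=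
  ⟨fun x => ∑ j, z j * (pu r n j x : ℂ), by
    refine continuous_finsetSum _ fun j _ => continuous_const.mul (Complex.continuous_ofReal.comp ?_)
    unfold pu
    refine Continuous.div ((wt_cont _ _ _).comp continuous_subtype_val) ?_ fun x => (wt_sum_pos hr hn x.2).ne'
    exact continuous_finsetSum _ fun i _ => (wt_cont _ _ _).comp continuous_subtype_val⟩

lemma In_smul {r : ℝ} (hr : 0 < r) {n : ℕ} (hn : 1 ≤ n) (l : ℂ) (z : Fin (n + 1) → ℂ) :
    In hr hn (fun j => l * z j) = l • In hr hn z := by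
  ext x
  simp only [In, ContinuousMap.coe_mk, ContinuousMap.smul_apply, smul_eq_mul, Finset.mul_sum]
  exact Finset.sum_congr rfl fun j _ => by ring

lemma In_cont {r : ℝ} (hr : 0 < r) {n : ℕ} (hn : 1 ≤ n) : Continuous (In hr hn) := by
  obtain ⟨L, hL⟩ : ∃ L : (Fin (n + 1) → ℂ) →ₗ[ℂ] Wn r, ∀ z, L z = In hr hn z := by
    refine ⟨⟨⟨In hr hn, fun z w => ?_⟩, fun l z => ?_⟩, fun z => rfl⟩
    · ext x
      simp only [In, ContinuousMap.coe_mk, ContinuousMap.add_apply, Pi.add_apply, ← Finset.sum_add_distrib]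
      exact Finset.sum_congr rfl fun j _ => by ring
    · exact In_smul hr hn l z
  have h := L.continuous_of_finiteDimensional
  exact h.congr hL

lemma In_near {r : ℝ} (hr : 0 < r) {n : ℕ} (hn : 1 ≤ n) {g : ℝ → ℂ} {L : ℝ} (hL : 0 ≤ L)
    (hg : ∀ x ∈ Set.Icc (-r) r, ∀ y ∈ Set.Icc (-r) r, ‖g x - g y‖ ≤ L * |x - y|) {f : Wn r} (hf : ∀ x, f x = g x) :
    ‖f - In hr hn (fun j => g (nd r n j))‖ ≤ L * (4 * r / n) := by
  rw [ContinuousMap.norm_le _ (by positivity)]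
  intro x
  have hx := x.2
  have e1 : (f - In hr hn (fun j => g (nd r n j))) x = ∑ j, (pu r n j x : ℂ) * (g x - g (nd r n j)) := by
    rw [ContinuousMap.sub_apply, hf]
    simp only [In, ContinuousMap.coe_mk, mul_sub, Finset.sum_sub_distrib, ← Finset.sum_mul]
    rw [← Complex.ofReal_sum, pu_sum hr hn hx, Complex.ofReal_one, one_mul]
    congr 1
    exact Finset.sum_congr rfl fun j _ => by ring
  rw [e1]
  refine (norm_sum_le _ _).trans ?_
  have e2 : ∀ j ∈ Finset.univ, ‖(pu r n j x : ℂ) * (g x - g (nd r n j))‖ ≤ pu r n j x * (L * (4 * r / n)) := by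
    intro j _
    rw [norm_mul, Complex.norm_real, Real.norm_of_nonneg (pu_nonneg _ _ _ _)]
    rcases eq_or_ne (wt r n j x) 0 with h | h
    · have : pu r n j x = 0 := by
        unfold pu
        rw [h, zero_div]
      rw [this, zero_mul, zero_mul]
    · refine mul_le_mul_of_nonneg_left ?_ (pu_nonneg _ _ _ _)
      exact (hg _ hx _ (nd_mem hr hn j)).trans (mul_le_mul_of_nonneg_left (wt_ne h) hL)
  refine (Finset.sum_le_sum e2).trans (le_of_eq ?_)
  rw [← Finset.sum_mul, pu_sum hr hn hx, one_mul]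

/-- the restriction to the window -/
noncomputable def win (r : ℝ) (g : ℝ → ℂ) : Wn r :=
  open Classical in if h : Continuous (fun x : Set.Icc (-r) r => g x) then ⟨_, h⟩ else 0

lemma win_apply {r : ℝ} {g : ℝ → ℂ} (h : Continuous (fun x : Set.Icc (-r) r => g x)) (x : Set.Icc (-r) r) :
    win r g x = g x := by
  unfold win
  rw [dif_pos h]
  rfl

/-- the comparison of a functional with its discretisation -/
lemma near_all {r β : ℝ} (hr : 0 < r) (hβ : 0 < β) {Φ : Wn r → ℝ} (hc : Continuous Φ) (hh : HomW β Φ) {ε : ℝ}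
    (hε : 0 < ε) : ∃ n0 : ℕ, 1 ≤ n0 ∧ ∀ (n : ℕ) (_ : n0 ≤ n) (hn : 1 ≤ n) (g : ℝ → ℂ) (S : ℝ), 0 ≤ S →
      (∀ x ∈ Set.Icc (-r) r, ‖g x‖ ≤ S) →
      (∀ x ∈ Set.Icc (-r) r, ∀ y ∈ Set.Icc (-r) r, ‖g x - g y‖ ≤ 16 * S * |x - y|) →
      |Φ (win r g) - Φ (In hr hn (fun j => g (nd r n j)))| ≤ ε * S ^ β := by
  obtain ⟨η, hη, h⟩ := modulW hβ hc hh hε
  obtain ⟨n1, hn1⟩ := exists_nat_gt (64 * r / η)
  refine ⟨n1 + 1, by omega, fun n hn0 hn g S hS h1 h2 => ?_⟩
  have hn0' : (0 : ℝ) < n := by exact_mod_cast hn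
  have hcont : Continuous (fun x : Set.Icc (-r) r => g x) := by
    have hl : LipschitzWith (Real.toNNReal (16 * S)) (fun x : Set.Icc (-r) r => g x) := by
      refine LipschitzWith.of_dist_le_mul fun x y => ?_
      rw [dist_eq_norm, Subtype.dist_eq, Real.dist_eq, Real.coe_toNNReal _ (by positivity)]
      exact h2 x x.2 y y.2
    exact hl.continuous
  have hw := win_apply hcont
  refine h _ _ S hS ⟨fun x => by rw [hw]; exact h1 x x.2, fun x y => by rw [hw, hw]; exact h2 x x.2 y y.2⟩ ?_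
  refine (In_near hr hn (by positivity) h2 hw).trans ?_
  have h3 : 64 * r / n ≤ η := by
    have h4 : (n1 : ℝ) ≤ n := by exact_mod_cast (by omega : n1 ≤ n)
    rw [div_le_iff₀ hn0']
    rw [div_lt_iff₀ hη] at hn1
    nlinarith
  calc 16 * S * (4 * r / n) = 64 * r / n * S := by ring
    _ ≤ η * S := mul_le_mul_of_nonneg_right h3 hS

end Pool.Agent.V11128.CXL
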