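import Pool.Agent.V11128.CXL.N

set_option autoImplicit false

/-! The limit process: the random series, its exponential moments. -/

namespace Pool.Agent.V11128.CXL

open MeasureTheory Filter Topology ProbabilityTheory
open scoped ENNReal NNReal

/-- the product measure -/
noncomputable def PP : Measure (ℕ → ℝ × ℝ) := Measure.infinitePi fun _ : ℕ => N2

instance : IsProbabilityMeasure PP := by
  unfold PP
  infer_instance

/-- the coefficients -/
noncomputable def xi (k : ℕ) (ω : ℕ → ℝ × ℝ) : ℂ := (((ω k).1 : ℂ) + ((ω k).2 : ℂ) * Complex.I) / (√2 : ℝ)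

/-- the norm -/
def nx (p : ℝ × ℝ) : ℝ := |p.1| + |p.2|

lemma nx_nonneg (p : ℝ × ℝ) : 0 ≤ nx p := by
  unfold nx
  positivity

lemma nx_cont : Continuous nx := by
  unfold nx
  fun_prop

lemma one_le_sqrt_two : (1 : ℝ) ≤ √2 := Real.one_le_sqrt.2 (by norm_num)

lemma xi_le (k : ℕ) (ω : ℕ → ℝ × ℝ) : ‖xi k ω‖ ≤ nx (ω k) := by
  unfold xi
  rw [norm_div, Complex.norm_real, Real.norm_of_nonneg (Real.sqrt_nonneg 2)]
  refine (div_le_self (norm_nonneg _) one_le_sqrt_two).trans (norm_xy (ω k))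

/-- the radius -/
noncomputable def ro (r : ℝ) : ℝ := ‖pp r‖

lemma ro_lt (r : ℝ) : ro r < 1 := pp_lt r

lemma ro_nonneg (r : ℝ) : 0 ≤ ro r := norm_nonneg _

/-- the weights -/
noncomputable def wk (r : ℝ) (k : ℕ) : ℝ := √(k + 1) * ro r ^ k

lemma wk_nonneg (r : ℝ) (k : ℕ) : 0 ≤ wk r k := mul_nonneg (Real.sqrt_nonneg _) (pow_nonneg (ro_nonneg r) _)

lemma wk_zero (r : ℝ) : wk r 0 = 1 := by
  unfold wk
  simp

lemma wk_summable (r : ℝ) : Summable (wk r) := by
  have h1 : ‖ro r‖ < 1 := by rw [Real.norm_of_nonneg (ro_nonneg r)]; exact ro_lt r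
  have h2 := (summable_pow_mul_geometric_of_norm_lt_one 1 h1).add (summable_geometric_of_lt_one (ro_nonneg r) (ro_lt r))
  refine Summable.of_nonneg_of_le (wk_nonneg r) (fun k => ?_) h2
  unfold wk
  have h3 : √((k : ℝ) + 1) ≤ k + 1 := by
    rw [Real.sqrt_le_left (by positivity)]
    nlinarith [(Nat.cast_nonneg k : (0 : ℝ) ≤ k)]
  calc √((k : ℝ) + 1) * ro r ^ k ≤ (k + 1) * ro r ^ k := mul_le_mul_of_nonneg_right h3 (pow_nonneg (ro_nonneg r) _)
    _ = (k : ℝ) ^ 1 * ro r ^ k + ro r ^ k := by ring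

/-- the total weight -/
noncomputable def wtot (r : ℝ) : ℝ := ∑' k, wk r k

lemma wtot_ge (r : ℝ) (N : ℕ) : ∑ k ∈ Finset.range N, wk r k ≤ wtot r := (wk_summable r).sum_le_tsum _ fun k _ => wk_nonneg r k

lemma wtot_nonneg (r : ℝ) : 0 ≤ wtot r := tsum_nonneg (wk_nonneg r)

/-- the majorant -/
noncomputable def Uu (κ r : ℝ) (ω : ℕ → ℝ × ℝ) : ℝ≥0∞ :=
  ∑' k, ENNReal.ofReal (wk r k * Real.exp (κ * wtot r * nx (ω k)))

lemma Uu_meas (κ r : ℝ) : Measurable (Uu κ r) := by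
  unfold Uu
  refine Measurable.tsum fun k => ENNReal.measurable_ofReal.comp ?_
  exact (Real.measurable_exp.comp ((nx_cont.measurable.comp (measurable_pi_apply k)).const_mul _)).const_mul _

lemma exp_nx_int (c : ℝ) : Integrable (fun p => Real.exp (c * nx p)) N2 := by
  have h1 := (exp_abs_int c).mul_prod (exp_abs_int c)
  unfold N2
  refine h1.congr (Eventually.of_forall fun p => ?_)
  simp only
  rw [← Real.exp_add]
  congr 1
  unfold nx
  ring

lemma Uu_fin (κ r : ℝ) : ∫⁻ ω, Uu κ r ω ∂PP ≠ ∞ := by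
  obtain ⟨c, hc⟩ : ∃ c : ℝ≥0∞, c = ∫⁻ p, ENNReal.ofReal (Real.exp (κ * wtot r * nx p)) ∂N2 := ⟨_, rfl⟩
  have hcf : c ≠ ∞ := by
    rw [hc]
    exact ((exp_nx_int _).lintegral_lt_top).ne
  have hterm : ∀ k, ∫⁻ ω, ENNReal.ofReal (wk r k * Real.exp (κ * wtot r * nx (ω k))) ∂PP = ENNReal.ofReal (wk r k) * c := by
    intro k
    have hmp := measurePreserving_eval_infinitePi (fun _ : ℕ => N2) k
    have hm : Measurable fun p => ENNReal.ofReal (Real.exp (κ * wtot r * nx p)) :=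
      ENNReal.measurable_ofReal.comp (Real.measurable_exp.comp (nx_cont.measurable.const_mul _))
    have h1 := hmp.lintegral_comp hm
    have hm' : Measurable fun ω : ℕ → ℝ × ℝ => ENNReal.ofReal (Real.exp (κ * wtot r * nx (ω k))) :=
      hm.comp (measurable_pi_apply k)
    have h2 : ∫⁻ ω, ENNReal.ofReal (wk r k * Real.exp (κ * wtot r * nx (ω k))) ∂PP =
        ENNReal.ofReal (wk r k) * ∫⁻ ω, ENNReal.ofReal (Real.exp (κ * wtot r * nx (ω k))) ∂PP := by
      rw [← lintegral_const_mul _ hm']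
      exact lintegral_congr fun ω => ENNReal.ofReal_mul (wk_nonneg r k)
    rw [h2, hc]
    congr 1
  unfold Uu
  rw [lintegral_tsum fun k => by
    refine (ENNReal.measurable_ofReal.comp ?_).aemeasurable
    exact (Real.measurable_exp.comp ((nx_cont.measurable.comp (measurable_pi_apply k)).const_mul _)).const_mul _]
  simp_rw [hterm]
  rw [ENNReal.tsum_mul_right, ← ENNReal.ofReal_tsum_of_nonneg (wk_nonneg r) (wk_summable r)]
  exact ENNReal.mul_ne_top ENNReal.ofReal_ne_top hcf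

lemma exp_part {κ : ℝ} (hκ : 0 ≤ κ) {r : ℝ} {ω : ℕ → ℝ × ℝ} (h : Uu κ r ω ≠ ∞) (N : ℕ) :
    Real.exp (κ * ∑ k ∈ Finset.range (N + 1), wk r k * nx (ω k)) ≤ (Uu κ r ω).toReal := by
  obtain ⟨W, hW⟩ : ∃ W : ℝ, W = ∑ k ∈ Finset.range (N + 1), wk r k := ⟨_, rfl⟩
  have hW1 : 1 ≤ W := by
    rw [hW, Finset.sum_range_succ', wk_zero]
    have : 0 ≤ ∑ k ∈ Finset.range N, wk r (k + 1) := Finset.sum_nonneg fun k _ => wk_nonneg r _
    linarith
  have hW0 : 0 < W := by linarith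
  have hWt : W ≤ wtot r := by rw [hW]; exact wtot_ge r _
  have hJ := convexOn_exp.map_sum_le (t := Finset.range (N + 1)) (w := fun k => wk r k / W) (p := fun k => κ * W * nx (ω k))
    (fun k _ => div_nonneg (wk_nonneg r k) hW0.le) (by rw [← Finset.sum_div, ← hW, div_self hW0.ne']) (fun k _ => Set.mem_univ _)
  simp only [smul_eq_mul] at hJ
  have e1 : ∑ k ∈ Finset.range (N + 1), wk r k / W * (κ * W * nx (ω k)) = κ * ∑ k ∈ Finset.range (N + 1), wk r k * nx (ω k) := by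
    rw [Finset.mul_sum]
    refine Finset.sum_congr rfl fun k _ => ?_
    field_simp
  rw [e1] at hJ
  refine hJ.trans ?_
  have e2 : ∑ k ∈ Finset.range (N + 1), wk r k / W * Real.exp (κ * W * nx (ω k)) ≤
      ∑ k ∈ Finset.range (N + 1), wk r k * Real.exp (κ * wtot r * nx (ω k)) := by
    refine Finset.sum_le_sum fun k _ => mul_le_mul (div_le_self (wk_nonneg r k) hW1) ?_ (Real.exp_pos _).le (wk_nonneg r k)
    refine Real.exp_le_exp.2 ?_
    exact mul_le_mul_of_nonneg_right (mul_le_mul_of_nonneg_left hWt hκ) (nx_nonneg _)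
  refine e2.trans ?_
  have e3 : ENNReal.ofReal (∑ k ∈ Finset.range (N + 1), wk r k * Real.exp (κ * wtot r * nx (ω k))) ≤ Uu κ r ω := by
    rw [ENNReal.ofReal_sum_of_nonneg fun k _ => mul_nonneg (wk_nonneg r k) (Real.exp_pos _).le]
    exact ENNReal.sum_le_tsum _
  have e4 := ENNReal.toReal_mono h e3
  rwa [ENNReal.toReal_ofReal (Finset.sum_nonneg fun k _ => mul_nonneg (wk_nonneg r k) (Real.exp_pos _).le)] at e4

/-- the good set -/
def Gd (r : ℝ) (ω : ℕ → ℝ × ℝ) : Prop := Summable fun k => wk r k * nx (ω k)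

/-- the size -/
noncomputable def Vv (r : ℝ) (ω : ℕ → ℝ × ℝ) : ℝ := ∑' k, wk r k * nx (ω k)

lemma Vv_nonneg (r : ℝ) (ω : ℕ → ℝ × ℝ) : 0 ≤ Vv r ω := tsum_nonneg fun k => mul_nonneg (wk_nonneg r k) (nx_nonneg _)

lemma gd_ae (r : ℝ) : ∀ᵐ ω ∂PP, Gd r ω := by
  filter_upwards [ae_lt_top (Uu_meas 1 r) (Uu_fin 1 r)] with ω hω
  refine summable_of_sum_range_le (c := (Uu 1 r ω).toReal) (fun k => mul_nonneg (wk_nonneg r k) (nx_nonneg _)) fun N => ?_
  have h1 := exp_part zero_le_one hω.ne N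
  rw [one_mul] at h1
  have h2 := Real.add_one_le_exp (∑ k ∈ Finset.range (N + 1), wk r k * nx (ω k))
  have h3 : ∑ k ∈ Finset.range N, wk r k * nx (ω k) ≤ ∑ k ∈ Finset.range (N + 1), wk r k * nx (ω k) := by
    rw [Finset.sum_range_succ]
    linarith [mul_nonneg (wk_nonneg r N) (nx_nonneg (ω N))]
  linarith

lemma exp_V_int {κ : ℝ} (hκ : 0 ≤ κ) (r : ℝ) : Integrable (fun ω => Real.exp (κ * Vv r ω)) PP := by
  have hint : Integrable (fun ω => (Uu κ r ω).toReal) PP :=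
    integrable_toReal_of_lintegral_ne_top (Uu_meas κ r).aemeasurable (Uu_fin κ r)
  have hlim : ∀ᵐ ω ∂PP, Tendsto (fun N : ℕ => Real.exp (κ * ∑ k ∈ Finset.range (N + 1), wk r k * nx (ω k))) atTop
      (𝓝 (Real.exp (κ * Vv r ω))) := by
    filter_upwards [gd_ae r] with ω hω
    exact (Real.continuous_exp.tendsto _).comp (((hω.hasSum.tendsto_sum_nat).comp (tendsto_add_atTop_nat 1)).const_mul κ)
  refine hint.mono' (aestronglyMeasurable_of_tendsto_ae atTop (fun N => ?_) hlim) ?_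
  · refine Measurable.aestronglyMeasurable (Real.measurable_exp.comp (Measurable.const_mul ?_ _))
    exact Finset.measurable_fun_sum _ fun k _ => (nx_cont.measurable.comp (measurable_pi_apply k)).const_mul _
  · filter_upwards [hlim, ae_lt_top (Uu_meas κ r) (Uu_fin κ r)] with ω h1 h2
    rw [Real.norm_of_nonneg (Real.exp_pos _).le]
    exact le_of_tendsto' h1 fun N => exp_part hκ h2.ne N

/-! ### The paths -/

lemma u_norm (x : ℝ) : 1 ≤ ‖1 + Complex.I * (x : ℂ) / 2‖ := by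
  have h := Complex.abs_re_le_norm (1 + Complex.I * (x : ℂ) / 2)
  rw [u_re, abs_one] at h
  exact h

lemma pp_lip (x y : ℝ) : ‖pp x - pp y‖ ≤ |x - y| / 2 := by
  have h1 := u_ne x
  have h2 := u_ne y
  have e : pp x - pp y = (Complex.I * ((x - y : ℝ) : ℂ) / 2) / ((1 + Complex.I * (x : ℂ) / 2) * (1 + Complex.I * (y : ℂ) / 2)) := by
    unfold pp
    rw [div_sub_div _ _ h1 h2]
    congr 1
    push_cast
    ring
  rw [e, norm_div]
  have e2 : ‖Complex.I * ((x - y : ℝ) : ℂ) / 2‖ = |x - y| / 2 := by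
    rw [norm_div, norm_mul, Complex.norm_I, one_mul, Complex.norm_real]
    norm_num
  rw [e2, norm_mul]
  refine div_le_self (by positivity) ?_
  nlinarith [u_norm x, u_norm y]

lemma pp_le {r x : ℝ} (hx : x ∈ Set.Icc (-r) r) : ‖pp x‖ ≤ ro r := by
  have hsq : ∀ y : ℝ, ‖pp y‖ ^ 2 = 1 - 1 / (1 + (y / 2) ^ 2) := by
    intro y
    unfold pp
    rw [norm_div, div_pow]
    have h1 : ‖Complex.I * (y : ℂ) / 2‖ ^ 2 = (y / 2) ^ 2 := by
      rw [← Complex.normSq_eq_norm_sq, Complex.normSq_apply]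
      simp
      ring
    have h2 : ‖1 + Complex.I * (y : ℂ) / 2‖ ^ 2 = 1 + (y / 2) ^ 2 := by
      rw [← Complex.normSq_eq_norm_sq, Complex.normSq_apply, u_re, u_im]
      ring
    rw [h1, h2]
    field_simp
    ring
  refine le_of_sq_le_sq ?_ (ro_nonneg r)
  unfold ro
  rw [hsq, hsq]
  have h3 : (x / 2) ^ 2 ≤ (r / 2) ^ 2 := by
    refine sq_le_sq' ?_ ?_ <;> linarith [hx.1, hx.2]
  have h4 := one_div_le_one_div_of_le (show (0:ℝ) < 1 + (x / 2) ^ 2 by positivity) (add_le_add_right h3 1)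
  linarith

lemma el_lip (x y : ℝ) : ‖el x - el y‖ ≤ |x - y| / 2 := by
  have hd : ∀ z : ℝ, HasDerivAt el ((Complex.I * 1 / 2) / (1 + Complex.I * (z : ℂ) / 2)) z := by
    intro z
    have h1 : HasDerivAt (fun z : ℝ => 1 + Complex.I * (z : ℂ) / 2) (Complex.I * 1 / 2) z :=
      ((((hasDerivAt_id z).ofReal_comp).const_mul Complex.I).div_const 2).const_add 1
    exact h1.clog_real (Or.inl (by rw [u_re]; exact one_pos))
  have hL : LipschitzWith (1 / 2) el := by
    refine lipschitzWith_of_nnnorm_deriv_le (fun z => (hd z).differentiableAt) fun z => ?_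
    rw [(hd z).deriv, ← NNReal.coe_le_coe, coe_nnnorm, norm_div]
    have e : ‖Complex.I * 1 / 2‖ = 1 / 2 := by
      rw [norm_div, mul_one, Complex.norm_I]
      norm_num
    rw [e]
    push_cast
    exact div_le_self (by norm_num) (u_norm z)
  have h := hL.dist_le_mul x y
  rw [dist_eq_norm, Real.dist_eq] at h
  push_cast at h
  linarith

lemma pow_lip {a b : ℂ} {M : ℝ} (ha : ‖a‖ ≤ M) (hb : ‖b‖ ≤ M) (k : ℕ) :
    ‖a ^ (k + 1) - b ^ (k + 1)‖ ≤ (k + 1) * M ^ k * ‖a - b‖ := by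
  have hM : 0 ≤ M := (norm_nonneg a).trans ha
  induction k with
  | zero => simp
  | succ k ih =>
    have e : a ^ (k + 1 + 1) - b ^ (k + 1 + 1) = a * (a ^ (k + 1) - b ^ (k + 1)) + (a - b) * b ^ (k + 1) := by ring
    rw [e]
    refine (norm_add_le _ _).trans ?_
    rw [norm_mul, norm_mul, norm_pow]
    have h1 : ‖a‖ * ‖a ^ (k + 1) - b ^ (k + 1)‖ ≤ M * ((k + 1) * M ^ k * ‖a - b‖) :=
      mul_le_mul ha ih (norm_nonneg _) hM
    have h2 : ‖a - b‖ * ‖b‖ ^ (k + 1) ≤ ‖a - b‖ * M ^ (k + 1) :=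
      mul_le_mul_of_nonneg_left (pow_le_pow_left₀ (norm_nonneg _) hb _) (norm_nonneg _)
    calc ‖a‖ * ‖a ^ (k + 1) - b ^ (k + 1)‖ + ‖a - b‖ * ‖b‖ ^ (k + 1) ≤
        M * ((k + 1) * M ^ k * ‖a - b‖) + ‖a - b‖ * M ^ (k + 1) := add_le_add h1 h2
      _ = ((k + 1 : ℕ) + 1) * M ^ (k + 1) * ‖a - b‖ := by push_cast; ring

/-- the functions of the series -/
noncomputable def fk (k : ℕ) (x : ℝ) : ℂ := pp x ^ (k + 1) / (√((k : ℝ) + 1) : ℝ)

lemma sqrt_k (k : ℕ) : 1 ≤ √((k : ℝ) + 1) := Real.one_le_sqrt.2 (by linarith [(Nat.cast_nonneg k : (0 : ℝ) ≤ k)])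

lemma fk_le {r x : ℝ} (hx : x ∈ Set.Icc (-r) r) (k : ℕ) : ‖fk k x‖ ≤ wk r k := by
  unfold fk wk
  rw [norm_div, norm_pow, Complex.norm_real, Real.norm_of_nonneg (Real.sqrt_nonneg _)]
  have h1 : ‖pp x‖ ^ (k + 1) ≤ ro r ^ k := by
    refine (pow_le_pow_left₀ (norm_nonneg _) (pp_le hx) _).trans ?_
    exact pow_le_pow_of_le_one (ro_nonneg r) (ro_lt r).le (Nat.le_succ k)
  refine (div_le_self (by positivity) (sqrt_k k)).trans (h1.trans ?_)
  exact le_mul_of_one_le_left (pow_nonneg (ro_nonneg r) _) (sqrt_k k)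

lemma fk_lip {r x y : ℝ} (hx : x ∈ Set.Icc (-r) r) (hy : y ∈ Set.Icc (-r) r) (k : ℕ) :
    ‖fk k x - fk k y‖ ≤ wk r k * (|x - y| / 2) := by
  unfold fk wk
  rw [← sub_div, norm_div, Complex.norm_real, Real.norm_of_nonneg (Real.sqrt_nonneg _)]
  have h1 := pow_lip (pp_le hx) (pp_le hy) k
  have hs := sqrt_k k
  have hs0 : 0 < √((k : ℝ) + 1) := by linarith
  rw [div_le_iff₀ hs0]
  have h2 : √((k : ℝ) + 1) * √((k : ℝ) + 1) = k + 1 := Real.mul_self_sqrt (by positivity)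
  calc ‖pp x ^ (k + 1) - pp y ^ (k + 1)‖ ≤ (k + 1) * ro r ^ k * ‖pp x - pp y‖ := h1
    _ ≤ (k + 1) * ro r ^ k * (|x - y| / 2) := by
        refine mul_le_mul_of_nonneg_left (pp_lip x y) ?_
        have := pow_nonneg (ro_nonneg r) k
        positivity
    _ = √((k : ℝ) + 1) * ro r ^ k * (|x - y| / 2) * √((k : ℝ) + 1) := by
        linear_combination (-(ro r ^ k * (|x - y| / 2))) * h2

/-- the limit process -/
noncomputable def GG (β : ℝ) (ω : ℕ → ℝ × ℝ) (x : ℝ) : ℂ := -(β / 2 : ℂ) * el x + ∑' k, xi k ω * fk k x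

lemma ser_summable {r : ℝ} {ω : ℕ → ℝ × ℝ} (h : Gd r ω) {x : ℝ} (hx : x ∈ Set.Icc (-r) r) :
    Summable fun k => xi k ω * fk k x := by
  refine Summable.of_norm_bounded h fun k => ?_
  rw [norm_mul, mul_comm]
  exact mul_le_mul (fk_le hx k) (xi_le k ω) (norm_nonneg _) (wk_nonneg r k)

lemma GG_le {β r : ℝ} (hβ : 0 < β) (hr : 0 < r) {ω : ℕ → ℝ × ℝ} (h : Gd r ω) {x : ℝ} (hx : x ∈ Set.Icc (-r) r) :
    ‖GG β ω x‖ ≤ β * r / 4 + Vv r ω := by
  unfold GG
  refine (norm_add_le _ _).trans (add_le_add ?_ ?_)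
  · rw [norm_mul, norm_neg]
    have e : ‖(β / 2 : ℂ)‖ = β / 2 := by
      rw [norm_div, Complex.norm_real, Real.norm_of_nonneg hβ.le]
      norm_num
    have h1 := el_lip x 0
    rw [el_zero, sub_zero, sub_zero] at h1
    have h2 : |x| ≤ r := abs_le.2 hx
    rw [e]
    calc β / 2 * ‖el x‖ ≤ β / 2 * (r / 2) := mul_le_mul_of_nonneg_left (by linarith) (by positivity)
      _ = β * r / 4 := by ring
  · refine tsum_of_norm_bounded h.hasSum fun k => ?_
    rw [norm_mul, mul_comm]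
    exact mul_le_mul (fk_le hx k) (xi_le k ω) (norm_nonneg _) (wk_nonneg r k)

lemma GG_lip {β r : ℝ} (hβ : 0 < β) {ω : ℕ → ℝ × ℝ} (h : Gd r ω) {x y : ℝ} (hx : x ∈ Set.Icc (-r) r)
    (hy : y ∈ Set.Icc (-r) r) : ‖GG β ω x - GG β ω y‖ ≤ (β / 4 + Vv r ω / 2) * |x - y| := by
  have e : GG β ω x - GG β ω y = -(β / 2 : ℂ) * (el x - el y) + ∑' k, xi k ω * (fk k x - fk k y) := by
    unfold GG
    have h1 : ∑' k, xi k ω * (fk k x - fk k y) = (∑' k, xi k ω * fk k x) - ∑' k, xi k ω * fk k y := by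
      rw [← (ser_summable h hx).tsum_sub (ser_summable h hy)]
      exact tsum_congr fun k => by ring
    rw [h1]
    ring
  rw [e, add_mul]
  refine (norm_add_le _ _).trans (add_le_add ?_ ?_)
  · rw [norm_mul, norm_neg]
    have e : ‖(β / 2 : ℂ)‖ = β / 2 := by
      rw [norm_div, Complex.norm_real, Real.norm_of_nonneg hβ.le]
      norm_num
    rw [e]
    calc β / 2 * ‖el x - el y‖ ≤ β / 2 * (|x - y| / 2) := mul_le_mul_of_nonneg_left (el_lip x y) (by positivity)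
      _ = β / 4 * |x - y| := by ring
  · have h2 : HasSum (fun k => wk r k * nx (ω k) * (|x - y| / 2)) (Vv r ω * (|x - y| / 2)) := h.hasSum.mul_right _
    have h3 : Vv r ω / 2 * |x - y| = Vv r ω * (|x - y| / 2) := by ring
    rw [h3]
    refine tsum_of_norm_bounded h2 fun k => ?_
    rw [norm_mul]
    calc ‖xi k ω‖ * ‖fk k x - fk k y‖ ≤ nx (ω k) * (wk r k * (|x - y| / 2)) :=
          mul_le_mul (xi_le k ω) (fk_lip hx hy k) (norm_nonneg _) (nx_nonneg _)
      _ = wk r k * nx (ω k) * (|x - y| / 2) := by ring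

/-- the constant -/
noncomputable def Ac (β r : ℝ) : ℝ := β * r / 4 + (1 + 2 * r) * (β / 4) + 1 + (1 + 2 * r) / 2

/-- the size of the paths -/
noncomputable def Sw (β r : ℝ) (ω : ℕ → ℝ × ℝ) : ℝ := Real.exp (Ac β r * (1 + Vv r ω))

lemma Sw_pos (β r : ℝ) (ω : ℕ → ℝ × ℝ) : 0 < Sw β r ω := Real.exp_pos _

lemma exp_diff (a b : ℂ) : ‖Complex.exp a - Complex.exp b‖ ≤ Real.exp ‖b‖ * (‖a - b‖ * Real.exp ‖a - b‖) := by
  have e : Complex.exp a - Complex.exp b = Complex.exp b * (Complex.exp (a - b) - 1) := by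
    rw [mul_sub, ← Complex.exp_add, add_sub_cancel, mul_one]
  rw [e, norm_mul]
  refine mul_le_mul (Complex.norm_exp_le_exp_norm b) ?_ (norm_nonneg _) (Real.exp_pos _).le
  have := Complex.norm_exp_sub_sum_le_norm_mul_exp (a - b) 1
  simpa using this

lemma path_class {β r : ℝ} (hβ : 0 < β) (hr : 0 < r) {ω : ℕ → ℝ × ℝ} (h : Gd r ω) :
    (∀ x ∈ Set.Icc (-r) r, ‖Complex.exp (GG β ω x)‖ ≤ Sw β r ω) ∧
    ∀ x ∈ Set.Icc (-r) r, ∀ y ∈ Set.Icc (-r) r,
      ‖Complex.exp (GG β ω x) - Complex.exp (GG β ω y)‖ ≤ 16 * Sw β r ω * |x - y| := by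
  have hV := Vv_nonneg r ω
  refine ⟨fun x hx => ?_, fun x hx y hy => ?_⟩
  · refine (Complex.norm_exp_le_exp_norm _).trans (Real.exp_le_exp.2 ((GG_le hβ hr h hx).trans ?_))
    unfold Ac
    have h1 : 0 ≤ β * r / 4 * Vv r ω := by positivity
    have h2 : 0 ≤ (1 + 2 * r) * (β / 4) * (1 + Vv r ω) := by positivity
    have h3 : 0 ≤ (1 + 2 * r) / 2 * (1 + Vv r ω) := by positivity
    nlinarith
  · obtain ⟨D, hD⟩ : ∃ D : ℝ, D = β / 4 + Vv r ω / 2 := ⟨_, rfl⟩
    have hD0 : 0 ≤ D := by rw [hD]; positivity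
    have h1 := GG_lip hβ h hx hy
    rw [← hD] at h1
    have hxy : |x - y| ≤ 2 * r := by
      rw [abs_le]
      constructor <;> linarith [hx.1, hx.2, hy.1, hy.2]
    have h2 : ‖GG β ω x - GG β ω y‖ ≤ 2 * r * D := by
      refine h1.trans ?_
      nlinarith
    have h3 : D ≤ Real.exp D := by linarith [Real.add_one_le_exp D]
    calc ‖Complex.exp (GG β ω x) - Complex.exp (GG β ω y)‖ ≤ Real.exp ‖GG β ω y‖ *
          (‖GG β ω x - GG β ω y‖ * Real.exp ‖GG β ω x - GG β ω y‖) := exp_diff _ _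
      _ ≤ Real.exp (β * r / 4 + Vv r ω) * ((Real.exp D * |x - y|) * Real.exp (2 * r * D)) := by
          refine mul_le_mul (Real.exp_le_exp.2 (GG_le hβ hr h hy)) ?_ (by positivity) (Real.exp_pos _).le
          refine mul_le_mul (h1.trans (mul_le_mul_of_nonneg_right h3 (abs_nonneg _))) (Real.exp_le_exp.2 h2)
            (Real.exp_pos _).le (by positivity)
      _ = Real.exp (β * r / 4 + Vv r ω + D + 2 * r * D) * |x - y| := by
          have e : Real.exp (β * r / 4 + Vv r ω + D + 2 * r * D) =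
              Real.exp (β * r / 4 + Vv r ω) * Real.exp D * Real.exp (2 * r * D) := by
            rw [← Real.exp_add, ← Real.exp_add]
          rw [e]
          ring
      _ ≤ Sw β r ω * |x - y| := by
          refine mul_le_mul_of_nonneg_right (Real.exp_le_exp.2 ?_) (abs_nonneg _)
          rw [hD]
          unfold Ac
          have h1 : 0 ≤ β * r / 4 * Vv r ω := by positivity
          have h2 : 0 ≤ (1 + 2 * r) * (β / 4) * Vv r ω := by positivity
          nlinarith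
      _ ≤ 16 * Sw β r ω * |x - y| := by
          refine mul_le_mul_of_nonneg_right ?_ (abs_nonneg _)
          linarith [Sw_pos β r ω]

lemma Sw_int {β r : ℝ} (hβ : 0 < β) (hr : 0 < r) : Integrable (fun ω => Sw β r ω ^ β) PP := by
  have hA : 0 ≤ Ac β r := by
    unfold Ac
    positivity
  have h1 := (exp_V_int (κ := Ac β r * β) (by positivity) r).const_mul (Real.exp (Ac β r * β))
  refine h1.congr (Eventually.of_forall fun ω => ?_)
  simp only
  unfold Sw
  rw [← Real.exp_mul, ← Real.exp_add]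
  congr 1
  ring

end Pool.Agent.V11128.CXL
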