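import Pool.Agent.V11128.CXL.P
import Pool.Agent.V11128.CXL.Q

set_option autoImplicit false

/-! The limit process: finite-dimensional laws, functionals. -/

namespace Pool.Agent.V11128.CXL

open MeasureTheory Filter Topology ProbabilityTheory
open Pool.Agent.Y753.SHL
open Pool.Agent.Y753.SHR
open scoped ENNReal NNReal

variable {n : ℕ}

lemma lf_om (c : Fin (n + n) → ℝ) (u : Fin n → ℂ) : lf c (fun s => (om s * u (ix s)).re) =
    (∑ j, ((c (Fin.castAdd n j) : ℂ) + (c (Fin.natAdd n j) : ℂ) * -Complex.I) * u j).re := by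
  unfold lf
  rw [Fin.sum_univ_add]
  simp_rw [om_l, om_r, ix_l, ix_r]
  rw [← Finset.sum_add_distrib, Complex.re_sum]
  refine Finset.sum_congr rfl fun j _ => ?_
  simp [Complex.mul_re]

/-- the coefficients of the linear form -/
noncomputable def Hk (a : Fin n → ℝ) (W : Fin n → ℂ) (k : ℕ) : ℂ := ∑ j, W j * fk k (a j)

lemma Hk_sum (a : Fin n → ℝ) (c : Fin (n + n) → ℝ) :
    HasSum (fun k => Complex.normSq (Hk a (fun j => (c (Fin.castAdd n j) : ℂ) + (c (Fin.natAdd n j) : ℂ) * -Complex.I) k) / 2)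
      (qf (CC a) c) := by
  obtain ⟨W, hW⟩ : ∃ W : Fin n → ℂ, W = fun j => (c (Fin.castAdd n j) : ℂ) + (c (Fin.natAdd n j) : ℂ) * -Complex.I := ⟨_, rfl⟩
  rw [← hW]
  have h1 : ∀ j i, HasSum (fun k : ℕ => W j * (starRingEnd ℂ) (W i) *
      ((pp (a j) * (starRingEnd ℂ) (pp (a i))) ^ k / k)) (W j * (starRingEnd ℂ) (W i) * kl (a j) (a i)) := by
    intro j i
    rw [kl_eq]
    refine (Complex.hasSum_taylorSeries_neg_log ?_).mul_left _
    rw [norm_mul, RCLike.norm_conj]
    have h1 := pp_lt (a j)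
    have h2 := pp_lt (a i)
    nlinarith [norm_nonneg (pp (a j)), norm_nonneg (pp (a i))]
  have h2 := hasSum_sum (s := Finset.univ) fun (j : Fin n) _ => hasSum_sum (s := Finset.univ) fun (i : Fin n) _ => h1 j i
  have h3 := Complex.hasSum_re h2
  have e1 : ∀ k : ℕ, (∑ j, ∑ i, W j * (starRingEnd ℂ) (W i) * ((pp (a j) * (starRingEnd ℂ) (pp (a i))) ^ k / k)) =
      ((Complex.normSq (∑ j, W j * pp (a j) ^ k) / k : ℝ) : ℂ) := by
    intro k
    rw [Complex.ofReal_div, ← Complex.mul_conj, map_sum, Finset.sum_mul_sum, Complex.ofReal_natCast,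
      Finset.sum_div]
    refine Finset.sum_congr rfl fun j _ => ?_
    rw [Finset.sum_div]
    refine Finset.sum_congr rfl fun i _ => ?_
    rw [map_mul, map_pow, mul_pow]
    ring
  simp_rw [e1, Complex.ofReal_re] at h3
  have h4 := (hasSum_nat_add_iff (f := fun k : ℕ => Complex.normSq (∑ j, W j * pp (a j) ^ k) / (k : ℝ)) 1
    (g := (∑ j, ∑ i, W j * (starRingEnd ℂ) (W i) * kl (a j) (a i)).re)).2 (by simpa using h3)
  have e4 : qf (CC a) c = (∑ j, ∑ i, W j * (starRingEnd ℂ) (W i) * kl (a j) (a i)).re / 2 := by rw [CC_qf, hW]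
  rw [e4]
  have e5 : (fun k => Complex.normSq (Hk a W k) / 2) =
      fun k : ℕ => Complex.normSq (∑ j, W j * pp (a j) ^ (k + 1)) / ((k + 1 : ℕ) : ℝ) / 2 := by
    funext k
    congr 1
    have e2 : Hk a W k = (∑ j, W j * pp (a j) ^ (k + 1)) * (((√((k : ℝ) + 1))⁻¹ : ℝ) : ℂ) := by
      unfold Hk fk
      rw [Finset.sum_mul]
      refine Finset.sum_congr rfl fun j _ => ?_
      push_cast
      ring
    rw [e2, Complex.normSq_mul, Complex.normSq_ofReal, ← mul_inv, Real.mul_self_sqrt (by positivity)]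
    push_cast
    rfl
  rw [e5]
  exact h4.div_const 2

lemma xi_meas (k : ℕ) : Measurable (xi k) := by
  unfold xi
  have h1 : Measurable fun ω : ℕ → ℝ × ℝ => (ω k).1 := measurable_fst.comp (measurable_pi_apply k)
  have h2 : Measurable fun ω : ℕ → ℝ × ℝ => (ω k).2 := measurable_snd.comp (measurable_pi_apply k)
  exact ((Complex.measurable_ofReal.comp h1).add ((Complex.measurable_ofReal.comp h2).mul_const _)).div_const _

lemma GG_aem (β : ℝ) {r x : ℝ} (hx : x ∈ Set.Icc (-r) r) : AEMeasurable (fun ω => GG β ω x) PP := by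
  refine aemeasurable_of_tendsto_metrizable_ae atTop
    (f := fun (N : ℕ) ω => -(β / 2 : ℂ) * el x + ∑ k ∈ Finset.range N, xi k ω * fk k x) (fun N => ?_) ?_
  · refine (measurable_const.add (Finset.measurable_fun_sum _ fun k _ => (xi_meas k).mul_const _)).aemeasurable
  · filter_upwards [gd_ae r] with ω hω
    exact ((ser_summable hω hx).hasSum.tendsto_sum_nat).const_add _

/-- the vector of the values -/
noncomputable def vG (β : ℝ) (a : Fin n → ℝ) (ω : ℕ → ℝ × ℝ) (s : Fin (n + n)) : ℝ := (om s * GG β ω (a (ix s))).re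

lemma vG_aem (β : ℝ) {r : ℝ} {a : Fin n → ℝ} (ha : ∀ j, a j ∈ Set.Icc (-r) r) : AEMeasurable (vG β a) PP := by
  refine aemeasurable_pi_lambda _ fun s => ?_
  unfold vG
  exact Complex.measurable_re.comp_aemeasurable ((GG_aem β (ha (ix s))).const_mul _)

lemma Rm_vG (β : ℝ) (a : Fin n → ℝ) (ω : ℕ → ℝ × ℝ) : Rm (vG β a ω) = fun j => Complex.exp (GG β ω (a j)) := by
  funext j
  unfold Rm
  congr 1
  unfold yv xv vG
  rw [om_l, om_r, ix_l, ix_r]
  generalize GG β ω (a j) = z
  have h2 : (-Complex.I * z).re = z.im := by simp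
  rw [one_mul, h2, Complex.re_add_im]

/-- the law of one term -/
lemma term_law (H : ℂ) (k : ℕ) : PP.map (fun ω => (xi k ω * H).re) = gaussianReal 0 (Complex.normSq H / 2).toNNReal := by
  obtain ⟨A, hA⟩ : ∃ A : ℝ, A = H.re / √2 := ⟨_, rfl⟩
  obtain ⟨B, hB⟩ : ∃ B : ℝ, B = -(H.im / √2) := ⟨_, rfl⟩
  have hs : √2 * √2 = 2 := Real.mul_self_sqrt (by norm_num)
  have hs0 : √2 ≠ 0 := by positivity
  have e1 : A ^ 2 + B ^ 2 = Complex.normSq H / 2 := by
    rw [hA, hB, Complex.normSq_apply, neg_sq, div_pow, div_pow, Real.sq_sqrt (by norm_num)]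
    ring
  have e2 : (fun ω : ℕ → ℝ × ℝ => (xi k ω * H).re) = (fun p : ℝ × ℝ => 0 + (A * p.1 + B * p.2)) ∘ Function.eval k := by
    funext ω
    simp only [Function.comp, Function.eval]
    unfold xi
    rw [Complex.mul_re, Complex.div_ofReal_re, Complex.div_ofReal_im, hA, hB]
    simp
    ring
  have hev : Measurable (Function.eval k : (ℕ → ℝ × ℝ) → ℝ × ℝ) := measurable_pi_apply k
  rw [e2, ← Measure.map_map (by fun_prop) hev]
  unfold PP
  rw [(measurePreserving_eval_infinitePi (fun _ : ℕ => N2) k).map_eq, gauss2, e1]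

/-- the law of the partial sums -/
lemma part_law (H : ℕ → ℂ) (N : ℕ) (t : ℝ) :
    ∫ ω, Complex.exp (t * ((∑ k ∈ Finset.range N, (xi k ω * H k).re : ℝ) : ℂ) * Complex.I) ∂PP =
      Complex.exp ((-(∑ k ∈ Finset.range N, Complex.normSq (H k) / 2) * t ^ 2 / 2 : ℝ) : ℂ) := by
  obtain ⟨Y, hY⟩ : ∃ Y : ℕ → (ℝ × ℝ) → ℝ, Y = fun k p => ((((p.1 : ℂ) + (p.2 : ℂ) * Complex.I) / (√2 : ℝ)) * H k).re := ⟨_, rfl⟩
  have hYm : ∀ k, Measurable (Y k) := by
    intro k
    rw [hY]
    exact (Continuous.measurable (by fun_prop))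
  have hI : iIndepFun (fun k (ω : ℕ → ℝ × ℝ) => Y k (ω k)) PP := iIndepFun_infinitePi hYm
  have hm : ∀ k ∈ Finset.range N, AEMeasurable (fun ω : ℕ → ℝ × ℝ => Y k (ω k)) PP := fun k _ =>
    ((hYm k).comp (measurable_pi_apply k)).aemeasurable
  have h1 := congrFun (iIndepFun.charFun_map_fun_finsetSum_eq_prod hm (hI.restrict _)) t
  have hsm : AEMeasurable (fun ω : ℕ → ℝ × ℝ => ∑ i ∈ Finset.range N, Y i (ω i)) PP :=
    (Finset.measurable_fun_sum _ fun k _ => (hYm k).comp (measurable_pi_apply k)).aemeasurable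
  rw [charFun_apply_real, integral_map hsm (by fun_prop)] at h1
  have h2 : ∀ k, charFun (PP.map (fun ω : ℕ → ℝ × ℝ => Y k (ω k))) t =
      Complex.exp ((-(Complex.normSq (H k) / 2) * t ^ 2 / 2 : ℝ) : ℂ) := by
    intro k
    have h3 := term_law (H k) k
    have e : (fun ω : ℕ → ℝ × ℝ => Y k (ω k)) = fun ω => (xi k ω * H k).re := by
      funext ω
      rw [hY]
      rfl
    rw [e, h3, charFun_gaussianReal, Real.coe_toNNReal _ (div_nonneg (Complex.normSq_nonneg _) (by norm_num))]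
    congr 1
    push_cast
    ring
  rw [Finset.prod_apply] at h1
  simp_rw [h2] at h1
  rw [← Complex.exp_sum] at h1
  refine Eq.trans ?_ (h1.trans ?_)
  · refine integral_congr_ae (Eventually.of_forall fun ω => ?_)
    simp only [hY]
    rfl
  · congr 1
    rw [← Complex.ofReal_sum]
    congr 1
    rw [neg_mul, neg_div, Finset.sum_mul, Finset.sum_div, ← Finset.sum_neg_distrib]
    refine Finset.sum_congr rfl fun k _ => ?_
    ring

/-- the finite-dimensional laws of the limit process -/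
theorem nor_vG (β : ℝ) {r : ℝ} {a : Fin n → ℝ} (ha : ∀ j, a j ∈ Set.Icc (-r) r) : Nor (mC β a) (CC a)
    ⟨PP.map (vG β a), Measure.isProbabilityMeasure_map (vG_aem β ha)⟩ := by
  intro c
  refine ⟨CC_psd _ _, ?_⟩
  obtain ⟨W, hW⟩ : ∃ W : Fin n → ℂ, W = fun j => (c (Fin.castAdd n j) : ℂ) + (c (Fin.natAdd n j) : ℂ) * -Complex.I := ⟨_, rfl⟩
  have hsum := Hk_sum a c
  rw [← hW] at hsum
  have hm : lf c (mC β a) = (∑ j, W j * (-(β / 2 : ℂ) * el (a j))).re := by
    rw [hW]
    exact lf_om c fun j => -(β / 2 : ℂ) * el (a j)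
  have hv : ∀ ω, lf c (vG β a ω) = (∑ j, W j * GG β ω (a j)).re := by
    intro ω
    rw [hW]
    exact lf_om c fun j => GG β ω (a j)
  have hlim : ∀ᵐ ω ∂PP, Tendsto (fun N : ℕ => ∑ k ∈ Finset.range N, (xi k ω * Hk a W k).re) atTop
      (𝓝 (lf c (vG β a ω) - lf c (mC β a))) := by
    filter_upwards [gd_ae r] with ω hω
    have h1 : HasSum (fun k => xi k ω * Hk a W k) (∑ j, W j * (∑' k, xi k ω * fk k (a j))) := by
      have h2 := hasSum_sum (s := Finset.univ) fun (j : Fin n) _ => ((ser_summable hω (ha j)).hasSum).mul_left (W j)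
      refine h2.congr_fun ?_ |> fun h => h
      intro k
      unfold Hk
      rw [Finset.mul_sum]
      exact Finset.sum_congr rfl fun j _ => by ring
    have h2 := (Complex.hasSum_re h1).tendsto_sum_nat
    have e : lf c (vG β a ω) - lf c (mC β a) = (∑ j, W j * (∑' k, xi k ω * fk k (a j))).re := by
      rw [hv, hm, ← Complex.sub_re, ← Finset.sum_sub_distrib]
      congr 1
      refine Finset.sum_congr rfl fun j _ => ?_
      unfold GG
      ring
    rw [e]
    exact h2
  show (PP.map (vG β a)).map (lf c) = _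
  have hlf : Measurable (lf c) := by unfold lf; fun_prop
  have haem : AEMeasurable (lf c ∘ vG β a) PP := hlf.comp_aemeasurable (vG_aem β ha)
  rw [AEMeasurable.map_map_of_aemeasurable hlf.aemeasurable (vG_aem β ha)]
  have hprob : IsProbabilityMeasure (PP.map (lf c ∘ vG β a)) := Measure.isProbabilityMeasure_map haem
  refine Measure.ext_of_charFun (funext fun t => ?_)
  rw [charFun_apply_real, integral_map haem (by fun_prop), charFun_gaussianReal, Real.coe_toNNReal _ (CC_psd _ _)]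
  have h1 : Tendsto (fun N : ℕ => ∫ ω, Complex.exp (t * ((∑ k ∈ Finset.range N, (xi k ω * Hk a W k).re : ℝ) : ℂ) * Complex.I) ∂PP)
      atTop (𝓝 (∫ ω, Complex.exp (t * ((lf c (vG β a ω) - lf c (mC β a) : ℝ) : ℂ) * Complex.I) ∂PP)) := by
    refine tendsto_integral_of_dominated_convergence (fun _ => 1) (fun N => ?_) (integrable_const _) (fun N => ?_) ?_
    · have h2 : Measurable fun ω => ∑ k ∈ Finset.range N, (xi k ω * Hk a W k).re :=
        Finset.measurable_fun_sum _ fun k _ => Complex.measurable_re.comp ((xi_meas k).mul_const _)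
      exact (Complex.measurable_exp.comp (((Complex.measurable_ofReal.comp h2).const_mul _).mul_const _)).aestronglyMeasurable
    · refine Eventually.of_forall fun ω => ?_
      rw [← Complex.ofReal_mul, Complex.norm_exp_ofReal_mul_I]
    · filter_upwards [hlim] with ω hω
      exact (Complex.continuous_exp.tendsto _).comp
        ((((Complex.continuous_ofReal.tendsto _).comp hω).const_mul _).mul_const _)
  have h2 : Tendsto (fun N : ℕ => Complex.exp ((-(∑ k ∈ Finset.range N, Complex.normSq (Hk a W k) / 2) * t ^ 2 / 2 : ℝ) : ℂ)) atTop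
      (𝓝 (Complex.exp ((-(qf (CC a) c) * t ^ 2 / 2 : ℝ) : ℂ))) := by
    refine (Complex.continuous_exp.tendsto _).comp ((Complex.continuous_ofReal.tendsto _).comp ?_)
    exact ((hsum.tendsto_sum_nat.neg).mul_const _).div_const _
  simp_rw [part_law] at h1
  have h3 := tendsto_nhds_unique h1 h2
  have h4 : ∀ ω, Complex.exp (t * ((lf c ∘ vG β a) ω : ℝ) * Complex.I) =
      Complex.exp (t * (lf c (mC β a) : ℝ) * Complex.I) *
        Complex.exp (t * ((lf c (vG β a ω) - lf c (mC β a) : ℝ) : ℂ) * Complex.I) := by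
    intro ω
    rw [← Complex.exp_add]
    congr 1
    simp only [Function.comp]
    push_cast
    ring
  simp_rw [h4]
  rw [integral_const_mul, h3, ← Complex.exp_add]
  congr 1
  push_cast
  ring

/-- the integrals against the limit law -/
lemma fin_law {β r : ℝ} {a : Fin n → ℝ} (ha : ∀ j, a j ∈ Set.Icc (-r) r) {ρ : ProbabilityMeasure (Fin (n + n) → ℝ)}
    (hρ : Nor (mC β a) (CC a) ρ) {G : (Fin n → ℂ) → ℝ} (hG : Continuous G) :
    ∫ v, G (Rm v) ∂(ρ : Measure (Fin (n + n) → ℝ)) = ∫ ω, G (fun j => Complex.exp (GG β ω (a j))) ∂PP := by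
  rw [nor_unique hρ (nor_vG β ha)]
  show ∫ v, G (Rm v) ∂(PP.map (vG β a)) = _
  have hm : AEStronglyMeasurable (fun v => G (Rm v)) (PP.map (vG β a)) := (hG.comp Rm_cont).aestronglyMeasurable
  rw [integral_map (vG_aem β ha) hm]
  refine integral_congr_ae (Eventually.of_forall fun ω => ?_)
  simp only
  rw [Rm_vG]

end Pool.Agent.V11128.CXL
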