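import Pool.Agent.V11128.CXL.L
import Pool.Agent.V11128.CXL.R

set_option autoImplicit false

/-! Functionals of the limit process; the size of zeta on windows. -/

namespace Pool.Agent.V11128.CXL

open Metric MeasureTheory Filter Topology ProbabilityTheory
open Pool.Agent.Y755
open Pool.Agent.Y753.NL
open Pool.Agent.Y753.SHL
open Pool.Agent.Y753.SHR
open Pool.Agent.H306R2 (aF aF_pos)
open scoped ENNReal NNReal

lemma cl_win {r S : ℝ} (hS : 0 ≤ S) {g : ℝ → ℂ} (h1 : ∀ x ∈ Set.Icc (-r) r, ‖g x‖ ≤ S)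
    (h2 : ∀ x ∈ Set.Icc (-r) r, ∀ y ∈ Set.Icc (-r) r, ‖g x - g y‖ ≤ 16 * S * |x - y|) : Cl S (win r g) := by
  have hcont : Continuous (fun x : Set.Icc (-r) r => g x) := by
    have hl : LipschitzWith (Real.toNNReal (16 * S)) (fun x : Set.Icc (-r) r => g x) := by
      refine LipschitzWith.of_dist_le_mul fun x y => ?_
      rw [dist_eq_norm, Subtype.dist_eq, Real.dist_eq, Real.coe_toNNReal _ (by positivity)]
      exact h2 x x.2 y y.2
    exact hl.continuous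
  have hw := win_apply hcont
  exact ⟨fun x => by rw [hw]; exact h1 x x.2, fun x y => by rw [hw, hw]; exact h2 x x.2 y y.2⟩

/-- the paths of the limit process -/
noncomputable def pth (β : ℝ) (ω : ℕ → ℝ × ℝ) (x : ℝ) : ℂ := Complex.exp (GG β ω x)

/-- the functionals of the limit process -/
theorem func_lim {r β : ℝ} (hr : 0 < r) (hβ : 0 < β) {Φ : Wn r → ℝ} (hc : Continuous Φ) (hh : HomW β Φ) :
    Integrable (fun ω => Φ (win r (pth β ω))) PP ∧
    ∀ ε : ℝ, 0 < ε → ∃ n0 : ℕ, ∀ (n : ℕ) (_ : n0 ≤ n) (hn : 1 ≤ n),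
      |(∫ ω, Φ (In hr hn (fun j => pth β ω (nd r n j))) ∂PP) - ∫ ω, Φ (win r (pth β ω)) ∂PP| ≤ ε := by
  have hmeas : ∀ (n : ℕ) (hn : 1 ≤ n), AEStronglyMeasurable (fun ω => Φ (In hr hn (fun j => pth β ω (nd r n j)))) PP := by
    intro n hn
    have h1 : AEMeasurable (fun ω (j : Fin (n + 1)) => pth β ω (nd r n j)) PP :=
      aemeasurable_pi_lambda _ fun j => Complex.measurable_exp.comp_aemeasurable (GG_aem β (nd_mem hr hn j))
    have h2 : Measurable fun z => Φ (In hr hn z) := (hc.comp (In_cont hr hn)).measurable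
    exact (h2.comp_aemeasurable h1).aestronglyMeasurable
  have hdiff : ∀ ε : ℝ, 0 < ε → ∃ n0 : ℕ, 1 ≤ n0 ∧ ∀ (n : ℕ) (_ : n0 ≤ n) (hn : 1 ≤ n), ∀ ω, Gd r ω →
      |Φ (win r (pth β ω)) - Φ (In hr hn (fun j => pth β ω (nd r n j)))| ≤ ε * Sw β r ω ^ β := by
    intro ε hε
    obtain ⟨n0, h0, h⟩ := near_all hr hβ hc hh hε
    refine ⟨n0, h0, fun n hn0 hn ω hω => ?_⟩
    obtain ⟨k1, k2⟩ := path_class hβ hr hω
    exact h n hn0 hn (pth β ω) (Sw β r ω) (Sw_pos _ _ _).le k1 k2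
  have hlim : ∀ᵐ ω ∂PP, Tendsto (fun k : ℕ => Φ (In hr (Nat.le_add_left 1 k) (fun j => pth β ω (nd r (k + 1) j)))) atTop
      (𝓝 (Φ (win r (pth β ω)))) := by
    filter_upwards [gd_ae r] with ω hω
    rw [Metric.tendsto_atTop]
    intro ε hε
    have hS : 0 < Sw β r ω ^ β := Real.rpow_pos_of_pos (Sw_pos _ _ _) _
    obtain ⟨n0, h0, h⟩ := hdiff (ε / (2 * Sw β r ω ^ β)) (by positivity)
    refine ⟨n0, fun k hk => ?_⟩
    have h1 := h (k + 1) (by omega) (Nat.le_add_left 1 k) ω hω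
    rw [dist_comm, Real.dist_eq]
    refine h1.trans_lt ?_
    have e : ε / (2 * Sw β r ω ^ β) * Sw β r ω ^ β = ε / 2 := by
      field_simp
    rw [e]
    linarith
  have hint : Integrable (fun ω => Φ (win r (pth β ω))) PP := by
    obtain ⟨C, hC, hb⟩ := boundW hβ hc hh
    refine ((Sw_int hβ hr).const_mul C).mono' (aestronglyMeasurable_of_tendsto_ae atTop (fun k => hmeas _ _) hlim) ?_
    filter_upwards [gd_ae r] with ω hω
    obtain ⟨k1, k2⟩ := path_class hβ hr hω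
    exact hb _ _ (Sw_pos _ _ _).le (cl_win (Sw_pos _ _ _).le k1 k2)
  refine ⟨hint, fun ε hε => ?_⟩
  obtain ⟨M, hM⟩ : ∃ M : ℝ, M = ∫ ω, Sw β r ω ^ β ∂PP := ⟨_, rfl⟩
  have hM0 : 0 ≤ M := by
    rw [hM]
    exact integral_nonneg fun ω => Real.rpow_nonneg (Sw_pos _ _ _).le _
  obtain ⟨n0, h0, h⟩ := hdiff (ε / (M + 1)) (by positivity)
  refine ⟨n0, fun n hn0 hn => ?_⟩
  have hdi : Integrable (fun ω => Φ (In hr hn (fun j => pth β ω (nd r n j))) - Φ (win r (pth β ω))) PP := by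
    refine ((Sw_int hβ hr).const_mul (ε / (M + 1))).mono' ((hmeas n hn).sub hint.1) ?_
    filter_upwards [gd_ae r] with ω hω
    rw [Real.norm_eq_abs, abs_sub_comm]
    exact h n hn0 hn ω hω
  have hIn : Integrable (fun ω => Φ (In hr hn (fun j => pth β ω (nd r n j)))) PP := by
    have := hdi.add hint
    refine this.congr (Eventually.of_forall fun ω => ?_)
    simp
  rw [← integral_sub hIn hint, ← Real.norm_eq_abs]
  refine (norm_integral_le_integral_norm _).trans ?_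
  have h3 : ∫ ω, ‖Φ (In hr hn (fun j => pth β ω (nd r n j))) - Φ (win r (pth β ω))‖ ∂PP ≤ ∫ ω, ε / (M + 1) * Sw β r ω ^ β ∂PP := by
    refine integral_mono_ae hdi.norm ((Sw_int hβ hr).const_mul _) ?_
    filter_upwards [gd_ae r] with ω hω
    rw [Real.norm_eq_abs, abs_sub_comm]
    exact h n hn0 hn ω hω
  refine h3.trans ?_
  rw [integral_const_mul, ← hM]
  calc ε / (M + 1) * M ≤ ε / (M + 1) * (M + 1) := mul_le_mul_of_nonneg_left (by linarith) (by positivity)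
    _ = ε := by field_simp

/-- the mean of the shifted local maxima -/
theorem max_mean_shift (y0 : ℝ) {s : ℝ} (hs : 0 < s) (hs2 : s ≤ 2) {δ : ℝ → ℝ} (hδ : Tendsto δ atTop (𝓝 0))
    (hδL : Tendsto (fun T : ℝ => δ T * Real.log T) atTop atTop) :
    ∃ C : ℝ, 0 < C ∧ ∀ᶠ T : ℝ in atTop,
      ENNReal.ofReal ((2 * δ T) ^ (s ^ 2) / T) * ∫⁻ t in Set.Icc 0 T, Ar (2 * s) (δ T) (t + y0 * δ T) ≤ ENNReal.ofReal C := by
  have hpos := pos_path hδL
  obtain ⟨lam, hlam, hup⟩ := up_full hs hs2 one_pos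
  obtain ⟨δ0, C0, hδ0, hC0, hDD⟩ := DD_up hs
  obtain ⟨C1, hC1⟩ : ∃ C1 : ℝ, C1 = 2 * (C0 * (1 / 4) ^ (-(s ^ 2))) * 3 := ⟨_, rfl⟩
  have hC1' : 0 < C1 := by rw [hC1]; positivity
  have hvol : volume (ball (0 : ℂ) (1 / 2)) ≠ ∞ := measure_ball_lt_top.ne
  obtain ⟨v, hv⟩ : ∃ v : ℝ, v = (volume (ball (0 : ℂ) (1 / 2))).toReal := ⟨_, rfl⟩
  have hv0 : 0 ≤ v := by rw [hv]; exact ENNReal.toReal_nonneg
  refine ⟨C1 * v + 1, by positivity, ?_⟩
  have hL : ∀ᶠ T : ℝ in atTop, lam / Real.log (T + 2) ≤ δ T / 2 := by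
    filter_upwards [hδL.eventually_ge_atTop (2 * lam), hpos, eventually_gt_atTop 1] with T h1 h2 h3
    have h4 := Real.log_pos h3
    have h5 : Real.log T ≤ Real.log (T + 2) := Real.log_le_log (by linarith) (by linarith)
    rw [div_le_iff₀ (h4.trans_le h5)]
    have := mul_le_mul_of_nonneg_left h5 h2.le
    linarith
  have hup' : ∀ᶠ T : ℝ in atTop, ∀ δ : ℝ, lam / Real.log (T + 2) ≤ δ → δ ≤ 1 / 16 →
      mom (2 * s) (1 / 2 + δ) (-1) (T + 2) ≤ (1 + 1) * DD s δ :=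
    (tendsto_atTop_add_const_right atTop 2 tendsto_id).eventually (hup (-1))
  filter_upwards [hup', hL, hpos, hδ.eventually (gt_mem_nhds (show (0:ℝ) < 1 / 32 by norm_num)),
    hδ.eventually (gt_mem_nhds (show (0:ℝ) < δ0 / 2 by positivity)), eventually_ge_atTop 1,
    hδ.eventually (gt_mem_nhds (show (0:ℝ) < 1 / (1 + |y0|) by positivity))] with T h1 h2 h3 h4 h5 h6 h7
  have hT0 : 0 < T := by linarith
  -- the inner integrals
  have hin : ∀ z ∈ ball (0 : ℂ) (1 / 2), ∫⁻ t in Set.Icc 0 T, ‖ft (δ T) (t + y0 * δ T) z‖ₑ ^ (2 * s) ≤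
      ENNReal.ofReal ((T + 2) * (2 * (C0 * (δ T / 2) ^ (-(s ^ 2))))) := by
    intro z hz
    rw [mem_ball, dist_zero_right] at hz
    obtain ⟨δ', hδ'⟩ : ∃ δ' : ℝ, δ' = δ T * (1 + z.re) := ⟨_, rfl⟩
    have hre := abs_le.1 ((Complex.abs_re_le_norm z).trans hz.le)
    have him := (Complex.abs_im_le_norm z).trans hz.le
    have hl : δ T / 2 ≤ δ' := by rw [hδ']; nlinarith
    have hu : δ' ≤ 2 * δ T := by rw [hδ']; nlinarith
    have hd0 : 0 < δ' := by linarith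
    have hmom := h1 δ' (h2.trans hl) (by linarith)
    have hDD' := hDD δ' hd0 (by linarith)
    have hmono : δ' ^ (-(s ^ 2)) ≤ (δ T / 2) ^ (-(s ^ 2)) :=
      Real.rpow_le_rpow_of_nonpos (by linarith) hl (by nlinarith)
    have hM : mom (2 * s) (1 / 2 + δ') (-1) (T + 2) ≤ 2 * (C0 * (δ T / 2) ^ (-(s ^ 2))) := by
      refine hmom.trans ?_
      have := hDD'.trans (mul_le_mul_of_nonneg_left hmono hC0.le)
      linarith
    have hy : |(z.im + y0) * δ T| < 1 := by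
      rw [abs_mul, abs_of_pos h3]
      have k1 : |z.im + y0| ≤ 1 + |y0| := (abs_add_le _ _).trans (by linarith)
      rw [lt_div_iff₀ (by positivity)] at h7
      nlinarith [abs_nonneg (z.im + y0)]
    refine le_trans (le_of_eq ?_) (line_le hs (δ' := δ') (by linarith) hy hT0 hM)
    refine lintegral_congr fun t => ?_
    rw [← ofReal_norm, ENNReal.ofReal_rpow_of_nonneg (norm_nonneg _) (by positivity)]
    congr 2
    unfold ft za
    congr 2
    rw [hδ']
    apply Complex.ext <;> simp <;> ring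
  have hswap : ∫⁻ t in Set.Icc 0 T, Ar (2 * s) (δ T) (t + y0 * δ T) =
      ∫⁻ z in ball (0 : ℂ) (1 / 2), ∫⁻ t in Set.Icc 0 T, ‖ft (δ T) (t + y0 * δ T) z‖ₑ ^ (2 * s) := by
    unfold Ar
    rw [lintegral_lintegral_swap]
    have hmm : Measurable fun p : ℝ × ℂ => ft (δ T) (p.1 + y0 * δ T) p.2 :=
      (ft_meas (δ T)).comp (((measurable_fst).add_const _).prodMk measurable_snd)
    exact (hmm.enorm.pow_const _).aemeasurable
  have hA : ∫⁻ t in Set.Icc 0 T, Ar (2 * s) (δ T) (t + y0 * δ T) ≤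
      ENNReal.ofReal ((T + 2) * (2 * (C0 * (δ T / 2) ^ (-(s ^ 2))))) * ENNReal.ofReal v := by
    rw [hswap]
    refine (setLIntegral_mono' measurableSet_ball hin).trans (le_of_eq ?_)
    rw [setLIntegral_const, hv, ENNReal.ofReal_toReal hvol]
  refine (mul_le_mul_right hA _).trans ?_
  rw [← ENNReal.ofReal_mul (by positivity), ← ENNReal.ofReal_mul (by positivity)]
  refine ENNReal.ofReal_le_ofReal ?_
  have e1 : (2 * δ T) ^ (s ^ 2) * (δ T / 2) ^ (-(s ^ 2)) = (1 / 4) ^ (-(s ^ 2)) := by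
    rw [Real.rpow_neg (by positivity), Real.rpow_neg (by positivity), ← div_eq_mul_inv, ← Real.div_rpow (by positivity) (by positivity),
      ← Real.inv_rpow (by positivity)]
    congr 1
    field_simp
    norm_num
  have e2 : (2 * δ T) ^ (s ^ 2) / T * ((T + 2) * (2 * (C0 * (δ T / 2) ^ (-(s ^ 2)))) * v) =
      ((T + 2) / T) * (2 * (C0 * ((2 * δ T) ^ (s ^ 2) * (δ T / 2) ^ (-(s ^ 2))))) * v := by
    field_simp
  rw [e2, e1]
  have e3 : (T + 2) / T ≤ 3 := by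
    rw [div_le_iff₀ hT0]
    linarith
  have e4 : (T + 2) / T * (2 * (C0 * (1 / 4) ^ (-(s ^ 2)))) * v ≤ C1 * v := by
    refine mul_le_mul_of_nonneg_right ?_ hv0
    rw [hC1, mul_comm]
    exact mul_le_mul_of_nonneg_left e3 (by positivity)
  linarith


/-- the centres -/
noncomputable def cy (r : ℝ) (m : ℕ) : ℝ := -r + m / 8

/-- the number of the centres -/
noncomputable def cn (r : ℝ) : ℕ := ⌊16 * r⌋₊ + 1

/-- the size on the window -/
noncomputable def St (β r δ t : ℝ) : ℝ :=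
  (∑ m ∈ Finset.range (cn r), 16 / Real.pi * (Ar β δ (t + cy r m * δ)).toReal) ^ (1 / β)

lemma St_nonneg (β r δ t : ℝ) : 0 ≤ St β r δ t :=
  Real.rpow_nonneg (Finset.sum_nonneg fun m _ => by positivity) _

lemma St_pow {β r δ t : ℝ} (hβ : 0 < β) :
    St β r δ t ^ β = ∑ m ∈ Finset.range (cn r), 16 / Real.pi * (Ar β δ (t + cy r m * δ)).toReal := by
  unfold St
  rw [← Real.rpow_mul (Finset.sum_nonneg fun m _ => by positivity), one_div_mul_cancel hβ.ne', Real.rpow_one]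

lemma Sm_le_St {β r δ t : ℝ} (hβ : 0 < β) {m : ℕ} (hm : m < cn r) : Sm β δ (t + cy r m * δ) ≤ St β r δ t := by
  unfold Sm St
  refine Real.rpow_le_rpow (by positivity) ?_ (by positivity)
  exact Finset.single_le_sum (f := fun m => 16 / Real.pi * (Ar β δ (t + cy r m * δ)).toReal)
    (fun i _ => by positivity) (Finset.mem_range.2 hm)

lemma centre {r x : ℝ} (hx : x ∈ Set.Icc (-r) r) : ∃ m : ℕ, m < cn r ∧ 0 ≤ x - cy r m ∧ x - cy r m < 1 / 8 := by
  have h0 : 0 ≤ 8 * (x + r) := by linarith [hx.1]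
  refine ⟨⌊8 * (x + r)⌋₊, ?_, ?_, ?_⟩
  · unfold cn
    have : ⌊8 * (x + r)⌋₊ ≤ ⌊16 * r⌋₊ := Nat.floor_mono (by linarith [hx.2])
    omega
  · unfold cy
    have := Nat.floor_le h0
    linarith
  · unfold cy
    have := Nat.lt_floor_add_one (8 * (x + r))
    linarith

lemma zc_ft (δ t x : ℝ) (y : ℝ) : zc δ x t = ft δ (t + y * δ) (Complex.I * ((x - y : ℝ) : ℂ)) := by
  unfold ft zc
  congr 1
  push_cast
  ring

lemma zeta_class {β r δ t : ℝ} (hβ : 0 < β) (h0 : 0 < δ) (h1 : δ < 1 / 4) :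
    (∀ x ∈ Set.Icc (-r) r, ‖zc δ x t‖ ≤ St β r δ t) ∧
    ∀ x ∈ Set.Icc (-r) r, ∀ y ∈ Set.Icc (-r) r, ‖zc δ x t - zc δ y t‖ ≤ 16 * St β r δ t * |x - y| := by
  have hS := St_nonneg β r δ t
  have hsup : ∀ x ∈ Set.Icc (-r) r, ‖zc δ x t‖ ≤ St β r δ t := by
    intro x hx
    obtain ⟨m, hm, k1, k2⟩ := centre hx
    rw [zc_ft δ t x (cy r m)]
    refine (Sm_le hβ h0 h1 ?_).trans (Sm_le_St hβ hm)
    rw [mem_ball, dist_zero_right, norm_mul, Complex.norm_I, one_mul, Complex.norm_real, Real.norm_of_nonneg k1]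
    linarith
  refine ⟨hsup, fun x hx y hy => ?_⟩
  rcases lt_or_ge |x - y| (1 / 8) with hxy | hxy
  · obtain ⟨m, hm, k1, k2⟩ := centre hx
    obtain ⟨f, hf⟩ : ∃ f : ℂ → ℂ, f = ft δ (t + cy r m * δ) := ⟨_, rfl⟩
    obtain ⟨c, hc⟩ : ∃ c : ℂ, c = Complex.I * ((x - cy r m : ℝ) : ℂ) := ⟨_, rfl⟩
    obtain ⟨z, hz⟩ : ∃ z : ℂ, z = Complex.I * ((y - cy r m : ℝ) : ℂ) := ⟨_, rfl⟩
    have hcn : ‖c‖ < 1 / 8 := by
      rw [hc, norm_mul, Complex.norm_I, one_mul, Complex.norm_real, Real.norm_of_nonneg k1]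
      exact k2
    have hzc : dist z c = |x - y| := by
      rw [hz, hc, dist_eq_norm, ← mul_sub, ← Complex.ofReal_sub, norm_mul, Complex.norm_I, one_mul, Complex.norm_real,
        Real.norm_eq_abs, abs_sub_comm]
      congr 1
      ring
    have hsub : ball c (1 / 8) ⊆ ball (0 : ℂ) (1 / 4) := by
      refine ball_subset_ball' ?_
      rw [dist_zero_right]
      linarith
    have hb : ∀ w ∈ ball c (1 / 8), ‖f w‖ ≤ St β r δ t := fun w hw => by
      rw [hf]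
      exact (Sm_le hβ h0 h1 (hsub hw)).trans (Sm_le_St hβ hm)
    have hd : DifferentiableOn ℂ f (ball c (1 / 8)) := by
      rw [hf]
      exact (ft_diff h0 h1).mono (hsub.trans (ball_subset_ball (by norm_num)))
    have hmap : Set.MapsTo f (ball c (1 / 8)) (closedBall (f c) (2 * St β r δ t)) := by
      intro w hw
      rw [mem_closedBall, dist_eq_norm]
      have k3 := norm_sub_le (f w) (f c)
      linarith [hb w hw, hb c (mem_ball_self (by norm_num))]
    have hzm : z ∈ ball c (1 / 8) := by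
      rw [mem_ball, hzc]
      exact hxy
    have k4 := Complex.dist_le_div_mul_dist_of_mapsTo_ball hd hmap hzm
    rw [hzc, dist_eq_norm] at k4
    rw [zc_ft δ t x (cy r m), zc_ft δ t y (cy r m), ← hc, ← hz, ← hf, norm_sub_rev]
    refine k4.trans (le_of_eq ?_)
    ring
  · have k1 := norm_sub_le (zc δ x t) (zc δ y t)
    have k2 := hsup x hx
    have k3 := hsup y hy
    nlinarith

/-- the mean of the sizes -/
theorem St_mean {r β : ℝ} (hβ : 0 < β) (hβ4 : β ≤ 4) {δ : ℝ → ℝ} (hδ : Tendsto δ atTop (𝓝 0))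
    (hδL : Tendsto (fun T : ℝ => δ T * Real.log T) atTop atTop) :
    ∃ C : ℝ, 0 < C ∧ ∀ᶠ T : ℝ in atTop, IntegrableOn (fun t => St β r (δ T) t ^ β) (Set.Icc 0 T) ∧
      (2 * δ T) ^ ((β / 2) ^ 2) / T * ∫ t in Set.Icc 0 T, St β r (δ T) t ^ β ≤ C := by
  have hpi := Real.pi_pos
  have hm : ∀ m : ℕ, ∃ C : ℝ, 0 < C ∧ ∀ᶠ T : ℝ in atTop,
      ENNReal.ofReal ((2 * δ T) ^ ((β / 2) ^ 2) / T) * ∫⁻ t in Set.Icc 0 T, Ar (2 * (β / 2)) (δ T) (t + cy r m * δ T) ≤
        ENNReal.ofReal C := fun m => max_mean_shift (cy r m) (by positivity) (by linarith) hδ hδL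
  choose C hC hCm using hm
  refine ⟨∑ m ∈ Finset.range (cn r), 16 / Real.pi * C m + 1, ?_, ?_⟩
  · have : 0 ≤ ∑ m ∈ Finset.range (cn r), 16 / Real.pi * C m := Finset.sum_nonneg fun m _ => by
      have := hC m
      positivity
    linarith
  filter_upwards [(Filter.eventually_all_finset (Finset.range (cn r))).2 fun m _ => hCm m, pos_path hδL,
    hδ.eventually (gt_mem_nhds (show (0:ℝ) < 1 / 4 by norm_num)), eventually_gt_atTop 0] with T h1 h2 h3 h4
  have e2 : 2 * (β / 2) = β := by ring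
  rw [e2] at h1
  obtain ⟨W, hW⟩ : ∃ W : ℝ, W = (2 * δ T) ^ ((β / 2) ^ 2) / T := ⟨_, rfl⟩
  have hW0 : 0 < W := by rw [hW]; positivity
  rw [← hW] at h1 ⊢
  have hmeas : ∀ y : ℝ, Measurable fun t => Ar β (δ T) (t + y * δ T) := fun y =>
    (Ar_meas β (δ T)).comp (measurable_id.add_const _)
  have key : ∀ m ∈ Finset.range (cn r), IntegrableOn (fun t => (Ar β (δ T) (t + cy r m * δ T)).toReal) (Set.Icc 0 T) ∧
      W * ∫ t in Set.Icc 0 T, (Ar β (δ T) (t + cy r m * δ T)).toReal ≤ C m := by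
    intro m hm
    have k1 := h1 m hm
    obtain ⟨A, hA⟩ : ∃ A : ℝ≥0∞, A = ∫⁻ t in Set.Icc 0 T, Ar β (δ T) (t + cy r m * δ T) := ⟨_, rfl⟩
    rw [← hA] at k1
    have hAfin : A ≠ ∞ := by
      intro h5
      rw [h5, ENNReal.mul_top (by simpa using hW0)] at k1
      exact absurd (top_le_iff.1 k1) ENNReal.ofReal_ne_top
    refine ⟨integrable_toReal_of_lintegral_ne_top (hmeas _).aemeasurable (by rw [← hA]; exact hAfin), ?_⟩
    rw [integral_toReal (hmeas _).aemeasurable (Eventually.of_forall fun t => Ar_fin hβ h2 h3), ← hA]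
    have h5 := ENNReal.toReal_mono ENNReal.ofReal_ne_top k1
    rwa [ENNReal.toReal_mul, ENNReal.toReal_ofReal hW0.le, ENNReal.toReal_ofReal (hC m).le] at h5
  have hint : ∀ m ∈ Finset.range (cn r), IntegrableOn (fun t => 16 / Real.pi * (Ar β (δ T) (t + cy r m * δ T)).toReal)
      (Set.Icc 0 T) := fun m hm => (key m hm).1.const_mul _
  simp_rw [St_pow hβ]
  refine ⟨integrable_finsetSum _ hint, ?_⟩
  rw [integral_finsetSum _ hint, Finset.mul_sum]
  have h6 : ∀ m ∈ Finset.range (cn r), W * ∫ t in Set.Icc 0 T, 16 / Real.pi * (Ar β (δ T) (t + cy r m * δ T)).toReal ≤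
      16 / Real.pi * C m := by
    intro m hm
    rw [integral_const_mul]
    have k1 := mul_le_mul_of_nonneg_left (key m hm).2 (show 0 ≤ 16 / Real.pi by positivity)
    linarith
  have h7 := Finset.sum_le_sum h6
  linarith

end Pool.Agent.V11128.CXL
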