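import Pool.Agent.V11128.CXL.O
import Pool.Agent.V11128.CXL.S

set_option autoImplicit false

/-! Functionals of the zeta function on windows: the limit. -/

namespace Pool.Agent.V11128.CXL

open Metric MeasureTheory Filter Topology ProbabilityTheory
open Pool.Agent.Y755
open Pool.Agent.Y753.SHL
open Pool.Agent.Y753.SHR
open Pool.Agent.H306R2 (aF aF_pos)
open scoped ENNReal NNReal

lemma zc_cont2 {δ : ℝ} (h : δ < 1 / 4) : Continuous fun p : ℝ × ℝ => zc δ p.2 p.1 := by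
  have e : (fun p : ℝ × ℝ => zc δ p.2 p.1) = (fun t => riemannZeta (pt δ t)) ∘ fun p : ℝ × ℝ => p.1 + p.2 * δ := by
    funext p
    rfl
  rw [e]
  exact (zeta_line_cont h).comp (by fun_prop)

lemma zc_cont1 {δ : ℝ} (h : δ < 1 / 4) (a : ℝ) : Continuous fun t => zc δ a t :=
  (zc_cont2 h).comp (continuous_id.prodMk continuous_const)

/-- the map to the windows is continuous -/
lemma win_cont {δ r : ℝ} (h : δ < 1 / 4) : Continuous fun t => win r (fun x => zc δ x t) := by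
  obtain ⟨F, hF⟩ : ∃ F : C(ℝ × Set.Icc (-r) r, ℂ), ∀ p, F p = zc δ p.2 p.1 :=
    ⟨⟨fun p => zc δ p.2 p.1, (zc_cont2 h).comp (continuous_fst.prodMk (continuous_subtype_val.comp continuous_snd))⟩,
      fun p => rfl⟩
  have h1 : (fun t => win r (fun x => zc δ x t)) = F.curry := by
    funext t
    ext x
    have hcont : Continuous (fun x : Set.Icc (-r) r => zc δ x t) :=
      (zc_cont2 h).comp (continuous_const.prodMk continuous_subtype_val)
    rw [win_apply hcont, ContinuousMap.curry_apply, hF]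
  rw [h1]
  exact F.curry.continuous

lemma lim_n {δ : ℝ → ℝ} (hδ : Tendsto δ atTop (𝓝 0))
    (hδL : Tendsto (fun T : ℝ => δ T * Real.log T) atTop atTop) {β : ℝ} (hβ : 0 < β) (hβ4 : β ≤ 4) {r : ℝ} (hr : 0 < r)
    {Φ : Wn r → ℝ} (hc : Continuous Φ) (hh : HomW β Φ) {n : ℕ} (hn : 1 ≤ n) :
    Tendsto (fun T : ℝ => (2 * δ T) ^ ((β / 2) ^ 2) / T *
      ∫ t in Set.Icc 0 T, Φ (In hr hn (fun j => zc (δ T) (nd r n j) t))) atTop
      (𝓝 (aF (β / 2) * ∫ ω, Φ (In hr hn (fun j => pth β ω (nd r n j))) ∂PP)) := by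
  obtain ⟨ρ, hρ, H⟩ := homog_full hδ hδL hβ hβ4 (nd r n)
  have hGc : Continuous fun z => Φ (In hr hn z) := hc.comp (In_cont hr hn)
  have hGh : Hom β (fun z => Φ (In hr hn z)) := by
    intro l z
    simp only
    rw [In_smul, hh]
  have h1 := (H _ hGc hGh).2
  rw [fin_law (fun j => nd_mem hr hn j) hρ hGc] at h1
  exact h1

/-- the functional limit theorem -/
theorem func_moment {δ : ℝ → ℝ} (hδ : Tendsto δ atTop (𝓝 0))
    (hδL : Tendsto (fun T : ℝ => δ T * Real.log T) atTop atTop) {β : ℝ} (hβ : 0 < β) (hβ4 : β ≤ 4) {r : ℝ} (hr : 0 < r)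
    {Φ : Wn r → ℝ} (hc : Continuous Φ) (hh : HomW β Φ) :
    Integrable (fun ω => Φ (win r (pth β ω))) PP ∧
    Tendsto (fun T : ℝ => (2 * δ T) ^ ((β / 2) ^ 2) / T *
      ∫ t in Set.Icc 0 T, Φ (win r (fun x => zc (δ T) x t))) atTop
      (𝓝 (aF (β / 2) * ∫ ω, Φ (win r (pth β ω)) ∂PP)) := by
  obtain ⟨hint, hlim⟩ := func_lim hr hβ hc hh
  refine ⟨hint, ?_⟩
  have haF : 0 < aF (β / 2) := aF_pos (by positivity)
  obtain ⟨C, hC, hmean⟩ := St_mean (r := r) hβ hβ4 hδ hδL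
  rw [Metric.tendsto_atTop']
  intro ε hε
  obtain ⟨n1, hn1⟩ := hlim (ε / (4 * aF (β / 2))) (by positivity)
  obtain ⟨n2, hn2, h2⟩ := near_all hr hβ hc hh (show 0 < ε / (4 * C) by positivity)
  obtain ⟨n, hnn⟩ : ∃ n : ℕ, n = max n1 n2 := ⟨_, rfl⟩
  have hn : 1 ≤ n := by rw [hnn]; exact hn2.trans (le_max_right _ _)
  have hA := hn1 n (by rw [hnn]; exact le_max_left _ _) hn
  have hB := (lim_n hδ hδL hβ hβ4 hr hc hh hn).eventually (Metric.ball_mem_nhds _ (show 0 < ε / 4 by positivity))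
  have hD := h2 n (by rw [hnn]; exact le_max_right _ _) hn
  have hall : ∀ᶠ T : ℝ in atTop, dist ((2 * δ T) ^ ((β / 2) ^ 2) / T * ∫ t in Set.Icc 0 T, Φ (win r (fun x => zc (δ T) x t)))
      (aF (β / 2) * ∫ ω, Φ (win r (pth β ω)) ∂PP) < ε := by
    filter_upwards [hmean, hB, pos_path hδL, hδ.eventually (gt_mem_nhds (show (0:ℝ) < 1 / 4 by norm_num)),
      eventually_gt_atTop 0] with T k1 k2 k3 k4 k5
    obtain ⟨W, hW⟩ : ∃ W : ℝ, W = (2 * δ T) ^ ((β / 2) ^ 2) / T := ⟨_, rfl⟩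
    have hW0 : 0 < W := by rw [hW]; positivity
    rw [← hW] at k1 k2 ⊢
    have hF1 : Continuous fun t => Φ (win r (fun x => zc (δ T) x t)) := hc.comp (win_cont k4)
    have hF2 : Continuous fun t => Φ (In hr hn (fun j => zc (δ T) (nd r n j) t)) :=
      (hc.comp (In_cont hr hn)).comp (continuous_pi fun j => zc_cont1 k4 _)
    have h5 : |W * (∫ t in Set.Icc 0 T, Φ (win r (fun x => zc (δ T) x t))) -
        W * ∫ t in Set.Icc 0 T, Φ (In hr hn (fun j => zc (δ T) (nd r n j) t))| ≤ ε / 4 := by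
      rw [← mul_sub, ← integral_sub (hF1.continuousOn.integrableOn_compact isCompact_Icc)
        (hF2.continuousOn.integrableOn_compact isCompact_Icc), abs_mul, abs_of_pos hW0]
      have h6 : |∫ t in Set.Icc 0 T, (Φ (win r (fun x => zc (δ T) x t)) -
          Φ (In hr hn (fun j => zc (δ T) (nd r n j) t)))| ≤ ε / (4 * C) * ∫ t in Set.Icc 0 T, St β r (δ T) t ^ β := by
        rw [← Real.norm_eq_abs]
        refine (norm_integral_le_integral_norm _).trans ?_
        rw [← integral_const_mul]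
        refine integral_mono_of_nonneg (Eventually.of_forall fun t => norm_nonneg _) (k1.1.const_mul _)
          (Eventually.of_forall fun t => ?_)
        obtain ⟨m1, m2⟩ := zeta_class (r := r) (t := t) hβ k3 k4
        exact hD (fun x => zc (δ T) x t) (St β r (δ T) t) (St_nonneg _ _ _ _) m1 m2
      calc W * |∫ t in Set.Icc 0 T, (Φ (win r (fun x => zc (δ T) x t)) -
          Φ (In hr hn (fun j => zc (δ T) (nd r n j) t)))| ≤ W * (ε / (4 * C) * ∫ t in Set.Icc 0 T, St β r (δ T) t ^ β) :=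
            mul_le_mul_of_nonneg_left h6 hW0.le
        _ = ε / (4 * C) * (W * ∫ t in Set.Icc 0 T, St β r (δ T) t ^ β) := by ring
        _ ≤ ε / (4 * C) * C := mul_le_mul_of_nonneg_left k1.2 (by positivity)
        _ = ε / 4 := by field_simp
    have h6 : dist (aF (β / 2) * ∫ ω, Φ (In hr hn (fun j => pth β ω (nd r n j))) ∂PP)
        (aF (β / 2) * ∫ ω, Φ (win r (pth β ω)) ∂PP) ≤ ε / 4 := by
      rw [Real.dist_eq, ← mul_sub, abs_mul, abs_of_pos haF]
      calc aF (β / 2) * |(∫ ω, Φ (In hr hn (fun j => pth β ω (nd r n j))) ∂PP) - ∫ ω, Φ (win r (pth β ω)) ∂PP| ≤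
          aF (β / 2) * (ε / (4 * aF (β / 2))) := mul_le_mul_of_nonneg_left hA haF.le
        _ = ε / 4 := by field_simp
    rw [← Real.dist_eq] at h5
    have h7 := dist_triangle4 (W * ∫ t in Set.Icc 0 T, Φ (win r (fun x => zc (δ T) x t)))
      (W * ∫ t in Set.Icc 0 T, Φ (In hr hn (fun j => zc (δ T) (nd r n j) t)))
      (aF (β / 2) * ∫ ω, Φ (In hr hn (fun j => pth β ω (nd r n j))) ∂PP) (aF (β / 2) * ∫ ω, Φ (win r (pth β ω)) ∂PP)
    have h8 : dist (W * ∫ t in Set.Icc 0 T, Φ (In hr hn (fun j => zc (δ T) (nd r n j) t)))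
      (aF (β / 2) * ∫ ω, Φ (In hr hn (fun j => pth β ω (nd r n j))) ∂PP) < ε / 4 := k2
    linarith
  obtain ⟨N, hN⟩ := hall.exists_forall_of_atTop
  exact ⟨N, fun T hT => hN T hT.le⟩

end Pool.Agent.V11128.CXL
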