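import Pool.Agent.V11128.CXL.T

set_option autoImplicit false

/-! Stability of the size on windows under the moment measures. -/

namespace Pool.Agent.V11128.CXL

open Metric MeasureTheory Filter Topology ProbabilityTheory
open Pool.Agent.Y755
open Pool.Agent.Y753.SHL
open Pool.Agent.Y753.SHR
open Pool.Agent.H306R2 (aF aF_pos)
open scoped ENNReal NNReal

variable {r : ℝ}

/-- the centre of the window -/
def z0 (hr : 0 < r) : Set.Icc (-r) r := ⟨0, by constructor <;> linarith⟩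

/-- the function `‖f‖ - |f|` -/
noncomputable def gN (f : Wn r) : C(Set.Icc (-r) r, ℝ) :=
  ContinuousMap.const _ ‖f‖ - (⟨fun z : ℂ => ‖z‖, continuous_norm⟩ : C(ℂ, ℝ)).comp f

lemma gN_apply (f : Wn r) (x : Set.Icc (-r) r) : gN f x = ‖f‖ - ‖f x‖ := rfl

lemma gN_cont : Continuous (gN (r := r)) := by
  unfold gN
  exact (ContinuousMap.continuous_const'.comp continuous_norm).sub
    (ContinuousMap.continuous_postcomp (⟨fun z : ℂ => ‖z‖, continuous_norm⟩ : C(ℂ, ℝ)))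

/-- the minimum of `|f|` -/
noncomputable def mn (f : Wn r) : ℝ := ‖f‖ - ‖gN f‖

lemma mn_cont : Continuous (mn (r := r)) := by
  unfold mn
  exact continuous_norm.sub gN_cont.norm

lemma mn_le (f : Wn r) (x : Set.Icc (-r) r) : mn f ≤ ‖f x‖ := by
  have h := (gN f).norm_coe_le_norm x
  rw [gN_apply, Real.norm_eq_abs] at h
  have h2 := le_abs_self (‖f‖ - ‖f x‖)
  unfold mn
  linarith

lemma mn_ge (hr : 0 < r) {f : Wn r} {b : ℝ} (h : ∀ x, b ≤ ‖f x‖) : b ≤ mn f := by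
  have h0 : b ≤ ‖f‖ := (h (z0 hr)).trans (f.norm_coe_le_norm _)
  have h1 : ‖gN f‖ ≤ ‖f‖ - b := by
    rw [ContinuousMap.norm_le _ (by linarith)]
    intro x
    rw [gN_apply, Real.norm_of_nonneg (by linarith [f.norm_coe_le_norm x])]
    linarith [h x]
  unfold mn
  linarith

lemma nsmul_wn (l : ℂ) (f : Wn r) : ‖l • f‖ = ‖l‖ * ‖f‖ := norm_smul l f

lemma mn_smul (l : ℂ) (f : Wn r) : mn (l • f) = ‖l‖ * mn f := by
  have h1 : gN (l • f) = ‖l‖ • gN f := by
    ext x
    rw [gN_apply, nsmul_wn, ContinuousMap.smul_apply, ContinuousMap.smul_apply, gN_apply, smul_eq_mul, smul_eq_mul, norm_mul]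
    ring
  unfold mn
  rw [h1, nsmul_wn, norm_smul, norm_norm]
  ring

/-- the functionals -/
noncomputable def Fu (hr : 0 < r) (β K : ℝ) (f : Wn r) : ℝ := (max 0 (‖f‖ - K * ‖f (z0 hr)‖)) ^ β

/-- the functionals -/
noncomputable def Fl (hr : 0 < r) (β K : ℝ) (f : Wn r) : ℝ := (max 0 (‖f (z0 hr)‖ - K * mn f)) ^ β

lemma Fu_cont (hr : 0 < r) {β : ℝ} (hβ : 0 < β) (K : ℝ) : Continuous (Fu hr β K) := by
  unfold Fu
  have h1 : Continuous fun f : Wn r => ‖f (z0 hr)‖ := (ContinuousEvalConst.continuous_eval_const (F := C(Set.Icc (-r) r, ℂ)) _).norm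
  exact (continuous_const.max (continuous_norm.sub (continuous_const.mul h1))).rpow_const fun _ => Or.inr hβ.le

lemma Fl_cont (hr : 0 < r) {β : ℝ} (hβ : 0 < β) (K : ℝ) : Continuous (Fl hr β K) := by
  unfold Fl
  have h1 : Continuous fun f : Wn r => ‖f (z0 hr)‖ := (ContinuousEvalConst.continuous_eval_const (F := C(Set.Icc (-r) r, ℂ)) _).norm
  exact (continuous_const.max (h1.sub (continuous_const.mul mn_cont))).rpow_const fun _ => Or.inr hβ.le

lemma Fu_hom (hr : 0 < r) (β K : ℝ) : HomW β (Fu hr β K) := by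
  intro l f
  unfold Fu
  rw [nsmul_wn, ContinuousMap.smul_apply, smul_eq_mul, norm_mul]
  have e : max 0 (‖l‖ * ‖f‖ - K * (‖l‖ * ‖f (z0 hr)‖)) = ‖l‖ * max 0 (‖f‖ - K * ‖f (z0 hr)‖) := by
    rw [mul_max_of_nonneg _ _ (norm_nonneg l), mul_zero]
    congr 1
    ring
  rw [e, Real.mul_rpow (norm_nonneg _) (le_max_left _ _)]

lemma Fl_hom (hr : 0 < r) (β K : ℝ) : HomW β (Fl hr β K) := by
  intro l f
  unfold Fl
  rw [mn_smul, ContinuousMap.smul_apply, smul_eq_mul, norm_mul]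
  have e : max 0 (‖l‖ * ‖f (z0 hr)‖ - K * (‖l‖ * mn f)) = ‖l‖ * max 0 (‖f (z0 hr)‖ - K * mn f) := by
    rw [mul_max_of_nonneg _ _ (norm_nonneg l), mul_zero]
    congr 1
    ring
  rw [e, Real.mul_rpow (norm_nonneg _) (le_max_left _ _)]

lemma pth_zero (β : ℝ) (ω : ℕ → ℝ × ℝ) : pth β ω 0 = 1 := by
  unfold pth GG
  have h1 : ∀ k, xi k ω * fk k 0 = 0 := by
    intro k
    unfold fk pp
    simp
  rw [el_zero, mul_zero, zero_add]
  simp_rw [h1]
  simp

lemma win_pth {β : ℝ} (hβ : 0 < β) (hr : 0 < r) {ω : ℕ → ℝ × ℝ} (h : Gd r ω) (x : Set.Icc (-r) r) :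
    win r (pth β ω) x = pth β ω x := by
  obtain ⟨k1, k2⟩ := path_class hβ hr h
  have hS := (Sw_pos β r ω).le
  have hcont : Continuous (fun x : Set.Icc (-r) r => pth β ω x) := by
    have hl : LipschitzWith (Real.toNNReal (16 * Sw β r ω)) (fun x : Set.Icc (-r) r => pth β ω x) := by
      refine LipschitzWith.of_dist_le_mul fun x y => ?_
      rw [dist_eq_norm, Subtype.dist_eq, Real.dist_eq, Real.coe_toNNReal _ (by positivity)]
      exact k2 x x.2 y y.2
    exact hl.continuous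
  exact win_apply hcont x

/-- the functionals tend to zero -/
lemma F_lim {β : ℝ} (hβ : 0 < β) (hr : 0 < r) :
    Tendsto (fun K : ℕ => (∫ ω, Fu hr β K (win r (pth β ω)) ∂PP) + 2 ^ β * ∫ ω, Fl hr β K (win r (pth β ω)) ∂PP)
      atTop (𝓝 0) := by
  have hN : Integrable (fun ω => ‖win r (pth β ω)‖ ^ β) PP :=
    (func_lim hr hβ (Φ := fun f => ‖f‖ ^ β) (continuous_norm.rpow_const fun _ => Or.inr hβ.le)
      (fun l f => by
        show ‖l • f‖ ^ β = ‖l‖ ^ β * ‖f‖ ^ β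
        rw [nsmul_wn, Real.mul_rpow (norm_nonneg _) (norm_nonneg _)])).1
  have h1 : Tendsto (fun K : ℕ => ∫ ω, Fu hr β K (win r (pth β ω)) ∂PP) atTop (𝓝 (∫ _ω : ℕ → ℝ × ℝ, (0 : ℝ) ∂PP)) := by
    refine tendsto_integral_of_dominated_convergence (fun ω => ‖win r (pth β ω)‖ ^ β) (fun K => ?_) hN (fun K => ?_) ?_
    · exact (func_lim hr hβ (Fu_cont hr hβ K) (Fu_hom hr β K)).1.1
    · refine Eventually.of_forall fun ω => ?_
      unfold Fu
      rw [Real.norm_of_nonneg (Real.rpow_nonneg (le_max_left _ _) _)]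
      refine Real.rpow_le_rpow (le_max_left _ _) (max_le (norm_nonneg _) ?_) hβ.le
      have : 0 ≤ (K : ℝ) * ‖(win r (pth β ω)) (z0 hr)‖ := by positivity
      linarith
    · filter_upwards [gd_ae r] with ω hω
      refine tendsto_const_nhds.congr' ?_
      obtain ⟨K0, hK0⟩ := exists_nat_gt ‖win r (pth β ω)‖
      filter_upwards [eventually_ge_atTop K0] with K hK
      unfold Fu
      rw [win_pth hβ hr hω]
      show (0:ℝ) = (max 0 (‖win r (pth β ω)‖ - K * ‖pth β ω 0‖)) ^ β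
      have hKK : (K0 : ℝ) ≤ K := by exact_mod_cast hK
      rw [pth_zero, norm_one, mul_one, max_eq_left (by linarith), Real.zero_rpow hβ.ne']
  have h2 : Tendsto (fun K : ℕ => ∫ ω, Fl hr β K (win r (pth β ω)) ∂PP) atTop (𝓝 (∫ _ω : ℕ → ℝ × ℝ, (0 : ℝ) ∂PP)) := by
    refine tendsto_integral_of_dominated_convergence (fun _ => 1) (fun K => ?_) (integrable_const 1) (fun K => ?_) ?_
    · exact (func_lim hr hβ (Fl_cont hr hβ K) (Fl_hom hr β K)).1.1
    · filter_upwards [gd_ae r] with ω hω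
      unfold Fl
      rw [Real.norm_of_nonneg (Real.rpow_nonneg (le_max_left _ _) _), win_pth hβ hr hω]
      show (max 0 (‖pth β ω 0‖ - K * mn (win r (pth β ω)))) ^ β ≤ 1
      have h3 : 0 ≤ mn (win r (pth β ω)) := mn_ge hr fun x => norm_nonneg _
      rw [pth_zero, norm_one]
      have h4 : 0 ≤ (K : ℝ) * mn (win r (pth β ω)) := by positivity
      exact Real.rpow_le_one (le_max_left _ _) (max_le zero_le_one (by linarith)) hβ.le
    · filter_upwards [gd_ae r] with ω hω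
      refine tendsto_const_nhds.congr' ?_
      obtain ⟨b, hb⟩ : ∃ b : ℝ, b = Real.exp (-(β * r / 4 + Vv r ω)) := ⟨_, rfl⟩
      have hb0 : 0 < b := by rw [hb]; exact Real.exp_pos _
      have hmb : b ≤ mn (win r (pth β ω)) := by
        refine mn_ge hr fun x => ?_
        rw [win_pth hβ hr hω, hb]
        unfold pth
        rw [Complex.norm_exp]
        refine Real.exp_le_exp.2 ?_
        have k1 := GG_le hβ hr hω x.2
        have k2 := (abs_le.1 (Complex.abs_re_le_norm (GG β ω x))).1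
        linarith
      obtain ⟨K0, hK0⟩ := exists_nat_gt (1 / b)
      filter_upwards [eventually_ge_atTop K0] with K hK
      unfold Fl
      rw [win_pth hβ hr hω]
      show (0:ℝ) = (max 0 (‖pth β ω 0‖ - K * mn (win r (pth β ω)))) ^ β
      have hKK : (K0 : ℝ) ≤ K := by exact_mod_cast hK
      rw [div_lt_iff₀ hb0] at hK0
      have hKn : (0:ℝ) ≤ K := Nat.cast_nonneg K
      rw [pth_zero, norm_one, max_eq_left (by nlinarith), Real.zero_rpow hβ.ne']
  rw [integral_zero] at h1 h2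
  simpa using h1.add (h2.const_mul (2 ^ β))

/-- the size -/
noncomputable def zs (δ t : ℝ) : ℝ := ‖riemannZeta (pt δ t)‖

lemma zs_shift (δ t x : ℝ) : zs δ (t + x * δ) = ‖zc δ x t‖ := rfl

/-- the unstable points -/
def Bad (δ r M : ℝ) : Set ℝ := {t | ¬ ∀ x ∈ Set.Icc (-r) r, Real.exp (-M) * zs δ t ≤ zs δ (t + x * δ) ∧
  zs δ (t + x * δ) ≤ Real.exp M * zs δ t}

lemma zs_cont {δ : ℝ} (h : δ < 1 / 4) : Continuous (zs δ) := (zeta_line_cont h).norm

lemma Bad_meas {δ : ℝ} (h : δ < 1 / 4) (r M : ℝ) : MeasurableSet (Bad δ r M) := by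
  have hcl : IsClosed {t : ℝ | ∀ x ∈ Set.Icc (-r) r, Real.exp (-M) * zs δ t ≤ zs δ (t + x * δ) ∧
      zs δ (t + x * δ) ≤ Real.exp M * zs δ t} := by
    have e : {t : ℝ | ∀ x ∈ Set.Icc (-r) r, Real.exp (-M) * zs δ t ≤ zs δ (t + x * δ) ∧
      zs δ (t + x * δ) ≤ Real.exp M * zs δ t} = ⋂ x ∈ Set.Icc (-r) r,
        ({t | Real.exp (-M) * zs δ t ≤ zs δ (t + x * δ)} ∩ {t | zs δ (t + x * δ) ≤ Real.exp M * zs δ t}) := by
      ext t
      simp
    rw [e]
    refine isClosed_biInter fun x _ => IsClosed.inter ?_ ?_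
    · exact isClosed_le (continuous_const.mul (zs_cont h)) ((zs_cont h).comp (by fun_prop))
    · exact isClosed_le ((zs_cont h).comp (by fun_prop)) (continuous_const.mul (zs_cont h))
  exact hcl.measurableSet.compl

/-- the unstable points carry a small part of the moments -/
theorem bad_small {δ : ℝ → ℝ} (hδ : Tendsto δ atTop (𝓝 0))
    (hδL : Tendsto (fun T : ℝ => δ T * Real.log T) atTop atTop) {β : ℝ} (hβ : 0 < β) (hβ4 : β ≤ 4) (hr : 0 < r)
    {η : ℝ} (hη : 0 < η) :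
    ∃ M0 : ℝ, 0 < M0 ∧ ∀ M : ℝ, M0 ≤ M → ∀ᶠ T : ℝ in atTop, (2 * δ T) ^ ((β / 2) ^ 2) / T *
      ∫ t in Set.Icc 0 T ∩ Bad (δ T) r M, zs (δ T) t ^ β ≤ η := by
  have haF : 0 < aF (β / 2) := aF_pos (by positivity)
  have h1 := (F_lim hβ hr).const_mul (aF (β / 2))
  rw [mul_zero] at h1
  obtain ⟨K, hK1, hK⟩ := ((eventually_ge_atTop 1).and (h1.eventually (gt_mem_nhds hη))).exists
  have hKr : (1 : ℝ) ≤ K := by exact_mod_cast hK1
  have hup := (func_moment hδ hδL hβ hβ4 hr (Fu_cont hr hβ K) (Fu_hom hr β K)).2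
  have hlo := (func_moment hδ hδL hβ hβ4 hr (Fl_cont hr hβ K) (Fl_hom hr β K)).2
  have hsum := hup.add (hlo.const_mul (2 ^ β))
  have e : aF (β / 2) * ∫ ω, Fu hr β K (win r (pth β ω)) ∂PP + 2 ^ β * (aF (β / 2) * ∫ ω, Fl hr β K (win r (pth β ω)) ∂PP) =
      aF (β / 2) * ((∫ ω, Fu hr β K (win r (pth β ω)) ∂PP) + 2 ^ β * ∫ ω, Fl hr β K (win r (pth β ω)) ∂PP) := by ring
  rw [e] at hsum
  refine ⟨Real.log (2 * K), Real.log_pos (by linarith), fun M hM => ?_⟩
  have hexp : 2 * (K : ℝ) ≤ Real.exp M := by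
    have := Real.exp_le_exp.2 hM
    rwa [Real.exp_log (by positivity)] at this
  have hexp' : 2 * (K : ℝ) * Real.exp (-M) ≤ 1 := by
    rw [Real.exp_neg, ← div_eq_mul_inv, div_le_one (Real.exp_pos _)]
    exact hexp
  filter_upwards [hsum.eventually (gt_mem_nhds hK), pos_path hδL,
    hδ.eventually (gt_mem_nhds (show (0:ℝ) < 1 / 4 by norm_num)), eventually_gt_atTop 0] with T k1 k2 k3 k4
  obtain ⟨W, hW⟩ : ∃ W : ℝ, W = (2 * δ T) ^ ((β / 2) ^ 2) / T := ⟨_, rfl⟩
  have hW0 : 0 < W := by rw [hW]; positivity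
  rw [← hW] at k1 ⊢
  obtain ⟨f, hf⟩ : ∃ f : ℝ → Wn r, f = fun t => win r (fun x => zc (δ T) x t) := ⟨_, rfl⟩
  have hfx : ∀ t x, f t x = zc (δ T) x t := by
    intro t x
    have hcont : Continuous (fun x : Set.Icc (-r) r => zc (δ T) x t) :=
      (zc_cont2 k3).comp (continuous_const.prodMk continuous_subtype_val)
    rw [hf]
    exact win_apply hcont x
  have hf0 : ∀ t, ‖f t (z0 hr)‖ = zs (δ T) t := by
    intro t
    rw [hfx]
    show ‖zc (δ T) 0 t‖ = _
    rw [← zs_shift, zero_mul, add_zero]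
  have hcf : Continuous f := by rw [hf]; exact win_cont k3
  have hFu : Continuous fun t => Fu hr β K (f t) := (Fu_cont hr hβ K).comp hcf
  have hFl : Continuous fun t => Fl hr β K (f t) := (Fl_cont hr hβ K).comp hcf
  have hnn : ∀ t, 0 ≤ Fu hr β K (f t) + 2 ^ β * Fl hr β K (f t) := by
    intro t
    have m1 : 0 ≤ Fu hr β K (f t) := Real.rpow_nonneg (le_max_left _ _) _
    have m2 : 0 ≤ Fl hr β K (f t) := Real.rpow_nonneg (le_max_left _ _) _
    positivity
  have hpt : ∀ t ∈ Set.Icc 0 T ∩ Bad (δ T) r M, zs (δ T) t ^ β ≤ Fu hr β K (f t) + 2 ^ β * Fl hr β K (f t) := by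
    rintro t ⟨-, ht⟩
    have hz0 : 0 ≤ zs (δ T) t := norm_nonneg _
    have m1 : 0 ≤ Fu hr β K (f t) := Real.rpow_nonneg (le_max_left _ _) _
    have m2 : 0 ≤ Fl hr β K (f t) := Real.rpow_nonneg (le_max_left _ _) _
    unfold Bad at ht
    rw [Set.mem_ofPred_eq] at ht
    push Not at ht
    obtain ⟨x, hx, hx2⟩ := ht
    rcases le_or_gt (Real.exp (-M) * zs (δ T) t) (zs (δ T) (t + x * δ T)) with h | h
    · have h3 := hx2 h
      have h4 : Real.exp M * zs (δ T) t ≤ ‖f t‖ := by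
        refine h3.le.trans ?_
        rw [zs_shift, ← hfx t ⟨x, hx⟩]
        exact (f t).norm_coe_le_norm _
      have h5 : zs (δ T) t ≤ ‖f t‖ - K * ‖f t (z0 hr)‖ := by
        rw [hf0]
        nlinarith
      have h6 : zs (δ T) t ^ β ≤ Fu hr β K (f t) := by
        unfold Fu
        exact Real.rpow_le_rpow hz0 (h5.trans (le_max_right _ _)) hβ.le
      have : 0 ≤ (2:ℝ) ^ β * Fl hr β K (f t) := by positivity
      linarith
    · have h4 : mn (f t) ≤ Real.exp (-M) * zs (δ T) t := by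
        refine le_trans ?_ h.le
        rw [zs_shift, ← hfx t ⟨x, hx⟩]
        exact mn_le _ _
      have h5 : zs (δ T) t ≤ 2 * (‖f t (z0 hr)‖ - K * mn (f t)) := by
        rw [hf0]
        have h7 : 2 * (K : ℝ) * mn (f t) ≤ 2 * K * (Real.exp (-M) * zs (δ T) t) :=
          mul_le_mul_of_nonneg_left h4 (by positivity)
        have h8 : 2 * (K : ℝ) * (Real.exp (-M) * zs (δ T) t) ≤ 1 * zs (δ T) t := by
          rw [← mul_assoc]
          exact mul_le_mul_of_nonneg_right hexp' hz0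
        linarith
      have h6 : zs (δ T) t ^ β ≤ 2 ^ β * Fl hr β K (f t) := by
        unfold Fl
        rw [← Real.mul_rpow (by norm_num) (le_max_left _ _)]
        refine Real.rpow_le_rpow hz0 (h5.trans ?_) hβ.le
        exact mul_le_mul_of_nonneg_left (le_max_right _ _) (by norm_num)
      linarith
  have hI1 : IntegrableOn (fun t => Fu hr β K (f t) + 2 ^ β * Fl hr β K (f t)) (Set.Icc 0 T) :=
    (hFu.add (continuous_const.mul hFl)).continuousOn.integrableOn_compact isCompact_Icc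
  have hI2 : IntegrableOn (fun t => zs (δ T) t ^ β) (Set.Icc 0 T) :=
    ((zs_cont k3).rpow_const fun _ => Or.inr hβ.le).continuousOn.integrableOn_compact isCompact_Icc
  have h8 : ∫ t in Set.Icc 0 T ∩ Bad (δ T) r M, zs (δ T) t ^ β ≤ ∫ t in Set.Icc 0 T, (Fu hr β K (f t) + 2 ^ β * Fl hr β K (f t)) := by
    calc ∫ t in Set.Icc 0 T ∩ Bad (δ T) r M, zs (δ T) t ^ β ≤
        ∫ t in Set.Icc 0 T ∩ Bad (δ T) r M, (Fu hr β K (f t) + 2 ^ β * Fl hr β K (f t)) :=
          setIntegral_mono_on (hI2.mono_set Set.inter_subset_left) (hI1.mono_set Set.inter_subset_left)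
            (measurableSet_Icc.inter (Bad_meas k3 r M)) hpt
      _ ≤ _ := setIntegral_mono_set hI1 (Eventually.of_forall fun t => hnn t) (Eventually.of_forall fun t ht => ht.1)
  have h9 : ∫ t in Set.Icc 0 T, (Fu hr β K (f t) + 2 ^ β * Fl hr β K (f t)) =
      (∫ t in Set.Icc 0 T, Fu hr β K (f t)) + 2 ^ β * ∫ t in Set.Icc 0 T, Fl hr β K (f t) := by
    have hFl' : Continuous fun t => (2 : ℝ) ^ β * Fl hr β K (f t) := continuous_const.mul hFl
    rw [integral_add (hFu.continuousOn.integrableOn_compact isCompact_Icc)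
      (hFl'.continuousOn.integrableOn_compact isCompact_Icc), integral_const_mul]
  rw [h9] at h8
  have h10 := mul_le_mul_of_nonneg_left h8 hW0.le
  rw [hf] at h10
  linarith

/-- the mass -/
theorem mass_zs {δ : ℝ → ℝ} (hδ : Tendsto δ atTop (𝓝 0))
    (hδL : Tendsto (fun T : ℝ => δ T * Real.log T) atTop atTop) {β : ℝ} (hβ : 0 < β) (hβ4 : β ≤ 4) :
    Tendsto (fun T : ℝ => (2 * δ T) ^ ((β / 2) ^ 2) / T * ∫ t in Set.Icc 0 T, zs (δ T) t ^ β) atTop (𝓝 (aF (β / 2))) := by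
  have h1 := (deriv_moment hδ hδL hβ hβ4 (Φ := fun p => ‖p.1‖ ^ β) (continuous_fst.norm.rpow_const fun _ => Or.inr hβ.le)
    (fun l a b => by simp only; rw [norm_mul, Real.mul_rpow (norm_nonneg _) (norm_nonneg _)])).2
  simp only [norm_one, Real.one_rpow, integral_const, probReal_univ, mul_one, smul_eq_mul] at h1
  exact h1

end Pool.Agent.V11128.CXL
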